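import Pool.Agent.H16.Radial

/-!
Axially symmetric solutions of the Navier-Stokes equations with swirl: definitions.
`V = u_θ / r`, `W = u_r / r`, `Om = ω_θ / r`.
-/

set_option autoImplicit false

open Set Filter Topology MeasureTheory
open scoped ContDiff

namespace Pool.Agent.H87.NS

open Pool.Agent.H16

/-! ## Differential operators -/

/-- Partial derivative of a scalar function. -/
noncomputable def pd (i : Fin 3) (f : E3 → ℝ) (x : E3) : ℝ := fderiv ℝ f x (e i)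

/-- The Laplacian of a scalar function. -/
noncomputable def lap (f : E3 → ℝ) (x : E3) : ℝ := ∑ i, pd i (pd i f) x

/-- The square of the length of the gradient. -/
noncomputable def gsq (f : E3 → ℝ) (x : E3) : ℝ := ∑ i, pd i f x ^ 2

/-- `x₀ ∂₀ f + x₁ ∂₁ f = r ∂_r f`. -/
noncomputable def rdr (f : E3 → ℝ) (x : E3) : ℝ := x 0 * pd 0 f x + x 1 * pd 1 f x

/-- The derivative of `f` in the direction `w`. -/
noncomputable def adv (w : E3) (f : E3 → ℝ) (x : E3) : ℝ := ∑ i, w i * pd i f x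

/-- The curl of a vector field. -/
noncomputable def curl (v : E3 → E3) (x : E3) : E3 :=
  !₂[fderiv ℝ v x (e 1) 2 - fderiv ℝ v x (e 2) 1,
    fderiv ℝ v x (e 2) 0 - fderiv ℝ v x (e 0) 2,
    fderiv ℝ v x (e 0) 1 - fderiv ℝ v x (e 1) 0]

/-! ## Averages along horizontal rays -/

/-- The point `(s x₀, s x₁, x₂)`. -/
noncomputable def sq (s : ℝ) (x : E3) : E3 := !₂[s * x 0, s * x 1, x 2]

/-- Weighted average along a horizontal ray. -/
noncomputable def avk (k : ℕ) (f : E3 → ℝ) (x : E3) : ℝ := ∫ s in (0:ℝ)..1, s ^ k * f (sq s x)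

/-- `V = v_θ / r`. -/
noncomputable def sV (v : E3 → E3) (x : E3) : ℝ := avk 1 (fun y => curl v y 2) x

/-- `W = v_r / r`. -/
noncomputable def sW (v : E3 → E3) (x : E3) : ℝ := avk 1 (fun y => - fderiv ℝ v y (e 2) 2) x

/-- `Om = ω_θ / r`, `ω` the curl of `v`. -/
noncomputable def sO (v : E3 → E3) (x : E3) : ℝ := avk 1 (fun y => curl (curl v) y 2) x

/-! ## Regularity classes -/

/-- `f` is bounded by `K`, and its square is integrable with integral at most `K`. -/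
def BL (K : ℝ) (f : E3 → ℝ) : Prop :=
  (∀ x, |f x| ≤ K) ∧ Integrable (fun x => f x ^ 2) ∧ ∫ x, f x ^ 2 ≤ K

/-- The same for the partial derivatives of order at most `n`. -/
def DB : ℕ → ℝ → (E3 → ℝ) → Prop
  | 0, K, f => BL K f
  | n + 1, K, f => BL K f ∧ ∀ i, DB n K (pd i f)

/-- Smooth, axially symmetric, divergence free. -/
structure AxF (v : E3 → E3) : Prop where
  smooth : ContDiff ℝ ∞ v
  ax : ∀ θ x, v (rot θ x) = rot θ (v x)
  div : ∀ x, ∑ i : Fin 3, fderiv ℝ v x (e i) i = 0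

/-- `(u, p)` is a smooth axially symmetric solution of the three-dimensional incompressible
Navier-Stokes equations with unit viscosity on `[0, T) × ℝ³`; all spatial derivatives of `u` are bounded and
square integrable, uniformly on `[0, T']` for every `T' < T`, and `u` satisfies the energy inequality. -/
structure IsHInfAxisymNS (T : ℝ) (u : ℝ → E3 → E3) (p : ℝ → E3 → ℝ) : Prop where
  ns : IsAxisymNS T u p
  reg : ∀ T' < T, ∀ n : ℕ, ∃ K : ℝ, ∀ t ∈ Icc 0 T', (∀ x, ‖iteratedFDeriv ℝ n (u t) x‖ ≤ K) ∧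
    Integrable (fun x => ‖iteratedFDeriv ℝ n (u t) x‖ ^ 2) ∧ ∫ x, ‖iteratedFDeriv ℝ n (u t) x‖ ^ 2 ≤ K
  energy : ∀ t ∈ Ico 0 T,
    (∫ x, ‖u t x‖ ^ 2) + 2 * ∫ s in (0:ℝ)..t, ∫ x, ∑ i, ‖fderiv ℝ (u s) x (e i)‖ ^ 2 ≤ ∫ x, ‖u 0 x‖ ^ 2

/-- Joint smoothness on `[0, T) × ℝ³`. -/
def JS (T : ℝ) (f : ℝ → E3 → ℝ) : Prop :=
  ContDiffOn ℝ ∞ (fun q : ℝ × E3 => f q.1 q.2) (Ico 0 T ×ˢ univ)

/-- Joint continuity on `[0, T) × ℝ³`. -/
def JC (T : ℝ) (f : ℝ → E3 → ℝ) : Prop :=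
  ContinuousOn (fun q : ℝ × E3 => f q.1 q.2) (Ico 0 T ×ˢ univ)

/-- `∫ 3 (1 + |s|²) ^ (-5/2) ds` (it is `4 π`). -/
noncomputable def c0 : ℝ := ∫ s : E3, 3 * (1 + ‖s‖ ^ 2) ^ (-(5/2) : ℝ)

/-! ## Evolution equations -/

/-- A divergence free drift. -/
structure Drift (T : ℝ) (u : ℝ → E3 → E3) : Prop where
  smooth : ∀ t ∈ Ico 0 T, ContDiff ℝ ∞ (u t)
  cont : ContinuousOn (fun q : ℝ × E3 => u q.1 q.2) (Ico 0 T ×ˢ univ)
  bd : ∀ T' < T, ∃ K : ℝ, ∀ t ∈ Icc 0 T', ∀ x, ‖u t x‖ ≤ K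
  div : ∀ t ∈ Ico 0 T, ∀ x, ∑ i : Fin 3, fderiv ℝ (u t) x (e i) i = 0

/-- `f` satisfies `∂_t f + u · ∇ f = Δ f + (2 / r) ∂_r f + G` away from the axis. -/
structure Evo (T : ℝ) (u : ℝ → E3 → E3) (f G : ℝ → E3 → ℝ) : Prop where
  smooth : ∀ t ∈ Ico 0 T, ContDiff ℝ ∞ (f t)
  joint : ContDiffOn ℝ ∞ (fun q : ℝ × E3 => f q.1 q.2) (Ioo 0 T ×ˢ {x | 0 < rsq x})
  cont : JC T f
  contd : ∀ i, JC T (fun t => pd i (f t))
  contG : JC T G
  bd : ∀ T' < T, ∃ K : ℝ, ∀ t ∈ Icc 0 T', DB 1 K (f t) ∧ BL K (G t)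
  eq : ∀ t ∈ Ioo 0 T, ∀ x, 0 < rsq x →
    deriv (fun s => f s x) t + adv (u t x) (f t) x = lap (f t) x + 2 / rsq x * rdr (f t) x + G t x

/-- The system satisfied by `V = u_θ / r`, `W = u_r / r`, `Om = ω_θ / r`. -/
structure Flow (T : ℝ) (u : ℝ → E3 → E3) (V W Om : ℝ → E3 → ℝ) : Prop where
  drift : Drift T u
  evV : Evo T u V (fun t x => -2 * W t x * V t x)
  evO : Evo T u Om (fun t x => 2 * V t x * pd 2 (V t) x)
  wcont : JC T W
  wbd : ∀ T' < T, ∃ K : ℝ, ∀ t ∈ Icc 0 T', BL K (W t)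
  ker : ∀ t ∈ Ico 0 T, ∀ x, 0 < rad x → |W t x| ≤ 12 / c0 * ∫ y, |Om t y| / ‖x - y‖ ^ 2

/-- Smooth convex functions vanishing to second order at `0`. -/
structure JFun (j : ℝ → ℝ) : Prop where
  smooth : ContDiff ℝ ∞ j
  zero : j 0 = 0
  dzero : deriv j 0 = 0
  convex : ∀ s, 0 ≤ deriv (deriv j) s

/-- The integrand of the energy identity with test function `ψ`. -/
noncomputable def evI (j : ℝ → ℝ) (v : E3 → E3) (f G ψ : E3 → ℝ) (x : E3) : ℝ :=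
  - deriv (deriv j) (f x) * gsq f x * ψ x + deriv j (f x) * G x * ψ x
    - deriv j (f x) * (∑ i, pd i f x * pd i ψ x) + j (f x) * (adv (v x) ψ x - 2 / rsq x * rdr ψ x)

/-- The integrand of the energy inequality with weight `χ`. -/
noncomputable def evJ (j : ℝ → ℝ) (v : E3 → E3) (f G χ : E3 → ℝ) (x : E3) : ℝ :=
  - deriv (deriv j) (f x) * gsq f x * χ x + deriv j (f x) * G x * χ x
    + j (f x) * (adv (v x) χ x + lap χ x - 2 / rsq x * rdr χ x)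

/-- Weights: locally constant near the axis and near infinity. -/
structure Wt (χ : E3 → ℝ) : Prop where
  smooth : ContDiff ℝ ∞ χ
  nonneg : ∀ x, 0 ≤ χ x
  le_one : ∀ x, χ x ≤ 1
  near : ∃ ε > 0, ∀ x, rsq x < ε → fderiv ℝ χ x = 0
  far : ∃ L : ℝ, ∀ x, L < ‖x‖ → fderiv ℝ χ x = 0

/-! ## Constants -/

/-- The smallness constant. -/
noncomputable def c1 : ℝ := c0 / 216

/-- `z_i (|z|² + ε²) ^ (-3/2)`, minus a partial derivative of `(|z|² + ε²) ^ (-1/2)`. -/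
noncomputable def MK (ε : ℝ) (i : Fin 3) (z : E3) : ℝ := z i * (‖z‖ ^ 2 + ε ^ 2) ^ (-(3/2) : ℝ)

/-! ## Auxiliary functions of one variable -/

/-- Regularisation of `|s| ^ (3/2)`. -/
noncomputable def jq (ε s : ℝ) : ℝ := (s ^ 2 + ε ^ 2) ^ (3/4 : ℝ) - ε ^ (3/2 : ℝ)

/-- Regularisation of `|s| ^ (3/4)` (odd). -/
noncomputable def hq (ε s : ℝ) : ℝ := s * (s ^ 2 + ε ^ 2) ^ (-(1/8) : ℝ)

/-- Regularisation of `|s|`. -/
noncomputable def ja (κ s : ℝ) : ℝ := √(s ^ 2 + κ ^ 2) - κ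

end Pool.Agent.H87.NS
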