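/-
ROW IBP. Elementary facts about the classes BL, DB (used everywhere).
PROOF. DB_BL, DB_mono, DB_pd: by the definition (case distinction / induction on `n`; for DB_mono: `n` decreases and `K` increases).
BL_mul: `|f g| ≤ (f² + g²) / 2` and continuity give integrability. cs: Cauchy-Schwarz, e.g.
`2 |∫ f g| ≤ λ ∫ f² + λ⁻¹ ∫ g²` for every `λ > 0`, or `integral_mul_le_Lp_mul_Lq_of_nonneg`; the statement is
`∫ |f g| ≤ √(∫ f²) √(∫ g²)`. ibp: `integral_mul_fderiv_eq_neg_fderiv_mul_of_integrable` with BL_mul.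
gsq_int: `gsq f` is the sum of three squares, each integrable with integral `≤ K`. pd_le_gsq: a term of the sum.
comp_pd: chain rule. comp_DB: if `H` is smooth, `H 0 = 0`: `H` is Lipschitz with a constant `C` on `[-K, K]` (`H'` is continuous), so
`|H(f)| ≤ C |f|`, `|pd i (H ∘ f)| = |H'(f)| |pd i f| ≤ C |pd i f|`; take `K' = C K + C² K`.
comp_gsq: from comp_pd. mul_DB: `|f g| ≤ K₁ |g|`, `|pd i (f g)| ≤ K₁ |pd i g| + K₂ |pd i f|`.
-/
import Pool.Agent.H87.NS.Defs

set_option autoImplicit false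

open Set Filter Topology MeasureTheory
open scoped ContDiff

namespace Pool.Agent.H87.NS

open Pool.Agent.H16

theorem DB_BL {n : ℕ} {K : ℝ} {f : E3 → ℝ} (h : DB n K f) : BL K f := by
  cases n with
  | zero => exact h
  | succ n => exact h.1

theorem BL_mono {K K' : ℝ} {f : E3 → ℝ} (h : BL K f) (hK : K ≤ K') : BL K' f :=
  ⟨fun x => (h.1 x).trans hK, h.2.1, h.2.2.trans hK⟩

theorem DB_mono {n m : ℕ} {K K' : ℝ} {f : E3 → ℝ} (h : DB n K f) (hm : m ≤ n) (hK : K ≤ K') : DB m K' f := by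
  induction n generalizing m f with
  | zero =>
    have h0 : m = 0 := Nat.le_zero.1 hm
    subst h0
    exact BL_mono (DB_BL h) hK
  | succ n ih =>
    cases m with
    | zero => exact BL_mono (DB_BL h) hK
    | succ m => exact ⟨BL_mono h.1 hK, fun i => ih (h.2 i) (Nat.le_of_succ_le_succ hm)⟩

theorem DB_pd {n : ℕ} {K : ℝ} {f : E3 → ℝ} (h : DB (n + 1) K f) (i : Fin 3) : DB n K (pd i f) :=
  h.2 i

theorem BL_nonneg {K : ℝ} {f : E3 → ℝ} (h : BL K f) : 0 ≤ K :=
  (abs_nonneg _).trans (h.1 0)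

theorem pd_cont {f : E3 → ℝ} (hf : ContDiff ℝ 1 f) (i : Fin 3) : Continuous (pd i f) := by
  unfold pd
  exact (hf.continuous_fderiv one_ne_zero).clm_apply continuous_const

theorem pd_smooth {f : E3 → ℝ} (hf : ContDiff ℝ ∞ f) (i : Fin 3) : ContDiff ℝ ∞ (pd i f) := by
  unfold pd
  exact (hf.fderiv_right (m := ∞) (by simp)).clm_apply contDiff_const

/-- domination -/
private theorem IBP_dom {K C : ℝ} {f g : E3 → ℝ} (hC : 0 ≤ C) (hg : Continuous g) (hf : BL K f)
    (h : ∀ x, |g x| ≤ C * |f x|) : BL (C * K + C ^ 2 * K) g := by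
  have hK := BL_nonneg hf
  have hsq : ∀ x, g x ^ 2 ≤ C ^ 2 * f x ^ 2 := by
    intro x
    have h1 := pow_le_pow_left₀ (abs_nonneg _) (h x) 2
    rw [mul_pow, sq_abs, sq_abs] at h1
    exact h1
  have hint : Integrable (fun x => g x ^ 2) := by
    refine Integrable.mono' (hf.2.1.const_mul (C ^ 2)) (hg.pow 2).aestronglyMeasurable ?_
    refine Filter.Eventually.of_forall fun x => ?_
    rw [Real.norm_eq_abs, abs_of_nonneg (sq_nonneg _)]
    exact hsq x
  refine ⟨fun x => ?_, hint, ?_⟩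
  · have h1 := h x
    have h2 := mul_le_mul_of_nonneg_left (hf.1 x) hC
    have h3 : 0 ≤ C ^ 2 * K := by positivity
    linarith
  · have h1 : ∫ x, g x ^ 2 ≤ ∫ x, C ^ 2 * f x ^ 2 :=
      integral_mono hint (hf.2.1.const_mul (C ^ 2)) hsq
    rw [integral_const_mul] at h1
    have h2 := mul_le_mul_of_nonneg_left hf.2.2 (sq_nonneg C)
    have h3 : 0 ≤ C * K := by positivity
    linarith

theorem BL_mul {K K' : ℝ} {f g : E3 → ℝ} (hf : Continuous f) (hg : Continuous g) (h : BL K f) (h' : BL K' g) :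
    Integrable (fun x => f x * g x) := by
  refine Integrable.mono' (h.2.1.add h'.2.1) (hf.mul hg).aestronglyMeasurable ?_
  refine Filter.Eventually.of_forall fun x => ?_
  rw [Real.norm_eq_abs, abs_mul]
  have h1 := sq_nonneg (|f x| - |g x|)
  have h2 : 0 ≤ |f x| * |g x| := by positivity
  have h3 := sq_abs (f x)
  have h4 := sq_abs (g x)
  simp only [Pi.add_apply]
  nlinarith

theorem cs {K K' : ℝ} {f g : E3 → ℝ} (hf : Continuous f) (hg : Continuous g) (h : BL K f) (h' : BL K' g) :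
    ∫ x, |f x| * |g x| ≤ √(∫ x, f x ^ 2) * √(∫ x, g x ^ 2) := by
  have hm : ∀ (F : E3 → ℝ), Continuous F → Integrable (fun x => F x ^ 2) →
      MemLp (fun x => |F x|) (ENNReal.ofReal 2) := by
    intro F hF hi
    rw [ENNReal.ofReal_ofNat]
    refine (memLp_two_iff_integrable_sq hF.abs.aestronglyMeasurable).2 ?_
    refine hi.congr (Filter.Eventually.of_forall fun x => ?_)
    exact (sq_abs (F x)).symm
  have h1 := MeasureTheory.integral_mul_le_Lp_mul_Lq_of_nonneg (μ := (volume : Measure E3))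
    Real.HolderConjugate.two_two
    (f := fun x => |f x|) (g := fun x => |g x|)
    (Filter.Eventually.of_forall fun x => abs_nonneg _)
    (Filter.Eventually.of_forall fun x => abs_nonneg _) (hm f hf h.2.1) (hm g hg h'.2.1)
  have h2 : ∀ y : ℝ, |y| ^ (2 : ℝ) = y ^ 2 := by
    intro y
    rw [Real.rpow_two, sq_abs]
  simp only [h2] at h1
  rw [Real.sqrt_eq_rpow, Real.sqrt_eq_rpow]
  exact h1

theorem ibp {K K' : ℝ} {f g : E3 → ℝ} (hf : ContDiff ℝ 1 f) (hg : ContDiff ℝ 1 g) (h : DB 1 K f) (h' : DB 1 K' g)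
    (i : Fin 3) : ∫ x, f x * pd i g x = - ∫ x, pd i f x * g x := by
  have h1 : Integrable (fun x => pd i f x * g x) :=
    BL_mul (pd_cont hf i) hg.continuous (h.2 i) (DB_BL h')
  have h2 : Integrable (fun x => f x * pd i g x) :=
    BL_mul hf.continuous (pd_cont hg i) (DB_BL h) (h'.2 i)
  have h3 : Integrable (fun x => f x * g x) :=
    BL_mul hf.continuous hg.continuous (DB_BL h) (DB_BL h')
  exact integral_mul_fderiv_eq_neg_fderiv_mul_of_integrable (v := e i) h1 h2 h3
    (fun x _ => hf.differentiable one_ne_zero x) (fun x _ => hg.differentiable one_ne_zero x)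

theorem gsq_nonneg (f : E3 → ℝ) (x : E3) : 0 ≤ gsq f x :=
  Finset.sum_nonneg fun _ _ => sq_nonneg _

theorem pd_le_gsq (f : E3 → ℝ) (i : Fin 3) (x : E3) : |pd i f x| ≤ √(gsq f x) := by
  refine Real.abs_le_sqrt ?_
  unfold gsq
  exact Finset.single_le_sum (f := fun i => pd i f x ^ 2) (fun _ _ => sq_nonneg _)
    (Finset.mem_univ i)

theorem gsq_int {K : ℝ} {f : E3 → ℝ} (h : DB 1 K f) :
    Integrable (gsq f) ∧ ∫ x, gsq f x ≤ 3 * K := by
  have hi : ∀ i ∈ (Finset.univ : Finset (Fin 3)), Integrable (fun x => pd i f x ^ 2) :=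
    fun i _ => (h.2 i).2.1
  constructor
  · unfold gsq
    exact integrable_finsetSum _ hi
  · unfold gsq
    rw [integral_finsetSum _ hi]
    have h1 : ∀ i ∈ (Finset.univ : Finset (Fin 3)), ∫ x, pd i f x ^ 2 ≤ K :=
      fun i _ => (h.2 i).2.2
    have h2 := Finset.sum_le_card_nsmul _ _ _ h1
    simpa using h2

theorem comp_pd {f : E3 → ℝ} {H : ℝ → ℝ} (hf : ContDiff ℝ 1 f) (hH : ContDiff ℝ 1 H) (i : Fin 3) (x : E3) :
    pd i (fun y => H (f y)) x = deriv H (f x) * pd i f x := by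
  have h1 : HasFDerivAt (H ∘ f) (deriv H (f x) • fderiv ℝ f x) x :=
    HasDerivAt.comp_hasFDerivAt x (hH.differentiable one_ne_zero (f x)).hasDerivAt
      (hf.differentiable one_ne_zero x).hasFDerivAt
  unfold pd
  have h2 : fderiv ℝ (fun y => H (f y)) x = deriv H (f x) • fderiv ℝ f x := h1.fderiv
  rw [h2]
  rfl

theorem comp_gsq {f : E3 → ℝ} {H : ℝ → ℝ} (hf : ContDiff ℝ 1 f) (hH : ContDiff ℝ 1 H) (x : E3) :
    gsq (fun y => H (f y)) x = deriv H (f x) ^ 2 * gsq f x := by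
  unfold gsq
  rw [Finset.mul_sum]
  refine Finset.sum_congr rfl fun i _ => ?_
  rw [comp_pd hf hH, mul_pow]

/-- The constant depends only on `H` and `K`. -/
theorem comp_DB {H : ℝ → ℝ} (hH : ContDiff ℝ 1 H) (hH0 : H 0 = 0) (K : ℝ) :
    ∃ K' : ℝ, ∀ f : E3 → ℝ, ContDiff ℝ 1 f → DB 1 K f → DB 1 K' (fun y => H (f y)) := by
  obtain ⟨C, hC⟩ := isCompact_Icc.exists_bound_of_continuousOn (s := Icc (-K) K)
    (hH.continuous_deriv le_rfl).continuousOn
  refine ⟨C * K + C ^ 2 * K, fun f hf h => ?_⟩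
  have hK := BL_nonneg (DB_BL h)
  have h0 : (0 : ℝ) ∈ Icc (-K) K := ⟨by linarith, hK⟩
  have hC0 : 0 ≤ C := (norm_nonneg _).trans (hC 0 h0)
  have hmem : ∀ x, f x ∈ Icc (-K) K := fun x => abs_le.1 ((DB_BL h).1 x)
  have hHf : ∀ x, |H (f x)| ≤ C * |f x| := by
    intro x
    have h1 := Convex.norm_image_sub_le_of_norm_deriv_le
      (fun y _ => hH.differentiable one_ne_zero y) hC (convex_Icc (-K) K) h0 (hmem x)
    rw [hH0, sub_zero, sub_zero] at h1
    exact h1
  refine ⟨IBP_dom hC0 (hH.continuous.comp hf.continuous) (DB_BL h) hHf, fun i => ?_⟩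
  have hpd : pd i (fun y => H (f y)) = fun x => deriv H (f x) * pd i f x :=
    funext fun x => comp_pd hf hH i x
  change BL _ (pd i (fun y => H (f y)))
  rw [hpd]
  refine IBP_dom hC0 (((hH.continuous_deriv le_rfl).comp hf.continuous).mul (pd_cont hf i))
    (h.2 i) fun x => ?_
  rw [abs_mul]
  exact mul_le_mul_of_nonneg_right (hC _ (hmem x)) (abs_nonneg _)

theorem add_BL {K K' : ℝ} {f g : E3 → ℝ} (hf : Continuous f) (hg : Continuous g) (h : BL K f) (h' : BL K' g) :
    BL (2 * (K + K')) (fun x => f x + g x) := by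
  have hK := BL_nonneg h
  have hK' := BL_nonneg h'
  have hsq : ∀ x, (f x + g x) ^ 2 ≤ 2 * f x ^ 2 + 2 * g x ^ 2 := by
    intro x
    nlinarith [sq_nonneg (f x - g x)]
  have hsum : Integrable (fun x => 2 * f x ^ 2 + 2 * g x ^ 2) :=
    (h.2.1.const_mul 2).add (h'.2.1.const_mul 2)
  have hint : Integrable (fun x => (f x + g x) ^ 2) := by
    refine Integrable.mono' hsum ((hf.add hg).pow 2).aestronglyMeasurable ?_
    refine Filter.Eventually.of_forall fun x => ?_
    rw [Real.norm_eq_abs, abs_of_nonneg (sq_nonneg _)]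
    exact hsq x
  refine ⟨fun x => ?_, hint, ?_⟩
  · have h1 := abs_add_le (f x) (g x)
    have h2 := h.1 x
    have h3 := h'.1 x
    linarith
  · have h1 : ∫ x, (f x + g x) ^ 2 ≤ ∫ x, (2 * f x ^ 2 + 2 * g x ^ 2) :=
      integral_mono hint hsum hsq
    rw [integral_add (h.2.1.const_mul 2) (h'.2.1.const_mul 2), integral_const_mul,
      integral_const_mul] at h1
    have h2 := h.2.2
    have h3 := h'.2.2
    linarith

theorem smul_BL {K : ℝ} {f : E3 → ℝ} (h : BL K f) (c : ℝ) : BL ((|c| + c ^ 2) * K) (fun x => c * f x) := by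
  have hK := BL_nonneg h
  refine ⟨fun x => ?_, ?_, ?_⟩
  · rw [abs_mul]
    have h1 := mul_le_mul_of_nonneg_left (h.1 x) (abs_nonneg c)
    have h2 : 0 ≤ c ^ 2 * K := by positivity
    linarith
  · simp only [mul_pow]
    exact h.2.1.const_mul (c ^ 2)
  · simp only [mul_pow]
    rw [integral_const_mul]
    have h1 := mul_le_mul_of_nonneg_left h.2.2 (sq_nonneg c)
    have h2 : 0 ≤ |c| * K := by positivity
    linarith

theorem mul_BL {K K' : ℝ} {f g : E3 → ℝ} (hf : Continuous f) (hg : Continuous g) (h : BL K f) (h' : ∀ x, |g x| ≤ K') :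
    BL (K' * K + K' ^ 2 * K) (fun x => g x * f x) := by
  have hK' : 0 ≤ K' := (abs_nonneg _).trans (h' 0)
  refine IBP_dom hK' (hg.mul hf) h fun x => ?_
  rw [abs_mul]
  exact mul_le_mul_of_nonneg_right (h' x) (abs_nonneg _)

theorem mul_DB (K K' : ℝ) : ∃ K'' : ℝ, ∀ f g : E3 → ℝ, ContDiff ℝ 1 f → ContDiff ℝ 1 g → DB 1 K f → DB 1 K' g →
    DB 1 K'' (fun y => f y * g y) := by
  refine ⟨2 * ((K * K' + K ^ 2 * K') + (K' * K + K' ^ 2 * K)), fun f g hf hg h h' => ?_⟩
  have hK := BL_nonneg (DB_BL h)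
  have hK' := BL_nonneg (DB_BL h')
  have h1 : 0 ≤ K' * K + K' ^ 2 * K := by positivity
  have h2 : 0 ≤ K * K' + K ^ 2 * K' := by positivity
  refine ⟨BL_mono (mul_BL hg.continuous hf.continuous (DB_BL h') (DB_BL h).1) (by linarith),
    fun i => ?_⟩
  have hpd : pd i (fun y => f y * g y) = fun x => f x * pd i g x + g x * pd i f x := by
    funext x
    unfold pd
    rw [fderiv_fun_mul (hf.differentiable one_ne_zero x) (hg.differentiable one_ne_zero x)]
    rfl
  change BL _ (pd i (fun y => f y * g y))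
  rw [hpd]
  exact add_BL (hf.continuous.mul (pd_cont hg i)) (hg.continuous.mul (pd_cont hf i))
    (mul_BL (pd_cont hg i) hf.continuous (h'.2 i) (DB_BL h).1)
    (mul_BL (pd_cont hf i) hg.continuous (h.2 i) (DB_BL h').1)

end Pool.Agent.H87.NS
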