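/-
ROW JF. Functions of class JFun. PROOF. `j'' ≥ 0`, so `j'` is nondecreasing, `j'(0) = 0`, so `j' ≤ 0` on `(-∞, 0]`, `j' ≥ 0` on `[0, ∞)`, so
`j ≥ j(0) = 0` (`monotone_of_deriv_nonneg`, `antitoneOn_of_deriv_nonpos`, or mean value). On the compact interval `[-M, M]` the continuous
function `j''` is bounded by a `C ≥ 0`; mean value: `|j'(s)| = |j'(s) - j'(0)| ≤ C |s|`, `|j(s)| = |j(s) - j(0)| ≤ C |s| |s|`.
vol_axis: the set is contained in the box `|x 0| ≤ √δ, |x 1| ≤ √δ, |x 2| ≤ L`, of volume `(2 √δ)² 2 L = 8 δ L`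
(`EuclideanSpace.volume_preserving_ofLp` or `measurableEquiv`, `Real.volume_Icc_pi`).
-/
import Pool.Agent.H87.NS.IBP

set_option autoImplicit false

open Set Filter Topology MeasureTheory
open scoped ContDiff

namespace Pool.Agent.H87.NS

open Pool.Agent.H16

theorem JF_diff0 {j : ℝ → ℝ} (hj : JFun j) : Differentiable ℝ j :=
  hj.smooth.differentiable (by simp)

theorem JF_smooth1 {j : ℝ → ℝ} (hj : JFun j) : ContDiff ℝ ∞ (deriv j) :=
  (contDiff_infty_iff_deriv.mp hj.smooth).2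

theorem JF_diff1 {j : ℝ → ℝ} (hj : JFun j) : Differentiable ℝ (deriv j) :=
  (JF_smooth1 hj).differentiable (by simp)

theorem JF_cont2 {j : ℝ → ℝ} (hj : JFun j) : Continuous (deriv (deriv j)) :=
  (contDiff_infty_iff_deriv.mp (JF_smooth1 hj)).2.continuous

theorem JF_mono {j : ℝ → ℝ} (hj : JFun j) : Monotone (deriv j) :=
  monotone_of_deriv_nonneg (JF_diff1 hj) hj.convex

theorem jfun_nonneg {j : ℝ → ℝ} (hj : JFun j) (s : ℝ) : 0 ≤ j s := by
  rcases le_total 0 s with h | h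
  · have hm : MonotoneOn j (Ici 0) := by
      refine monotoneOn_of_deriv_nonneg (convex_Ici 0) hj.smooth.continuous.continuousOn
        (JF_diff0 hj).differentiableOn ?_
      intro x hx
      rw [interior_Ici] at hx
      have := JF_mono hj (le_of_lt hx)
      rw [hj.dzero] at this
      exact this
    have := hm (mem_Ici.2 le_rfl) (mem_Ici.2 h) h
    rw [hj.zero] at this
    exact this
  · have hm : AntitoneOn j (Iic 0) := by
      refine antitoneOn_of_deriv_nonpos (convex_Iic 0) hj.smooth.continuous.continuousOn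
        (JF_diff0 hj).differentiableOn ?_
      intro x hx
      rw [interior_Iic] at hx
      have := JF_mono hj (le_of_lt hx)
      rw [hj.dzero] at this
      exact this
    have := hm (mem_Iic.2 h) (mem_Iic.2 le_rfl) h
    rw [hj.zero] at this
    exact this

theorem jfun_bd {j : ℝ → ℝ} (hj : JFun j) (M : ℝ) : ∃ C : ℝ, 0 ≤ C ∧ ∀ s, |s| ≤ M →
    j s ≤ C * s ^ 2 ∧ |deriv j s| ≤ C * |s| ∧ deriv (deriv j) s ≤ C := by
  obtain ⟨C0, hC0⟩ := (isCompact_Icc (a := -M) (b := M)).bddAbove_image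
    (JF_cont2 hj).continuousOn
  have hbd : ∀ s, |s| ≤ M → deriv (deriv j) s ≤ max C0 0 := by
    intro s hs
    exact (hC0 ⟨s, abs_le.1 hs, rfl⟩).trans (le_max_left _ _)
  have h1 : ∀ s, |s| ≤ M → |deriv j s| ≤ max C0 0 * |s| := by
    intro s hs
    have hseg : ∀ x ∈ uIcc (0:ℝ) s, ‖deriv (deriv j) x‖ ≤ max C0 0 := by
      intro x hx
      have hx' : |x| ≤ |s| := by
        have := abs_sub_left_of_mem_uIcc hx
        simpa using this
      rw [Real.norm_eq_abs, abs_of_nonneg (hj.convex x)]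
      exact hbd x (hx'.trans hs)
    have := (convex_uIcc (0:ℝ) s).norm_image_sub_le_of_norm_deriv_le
      (fun x _ => (JF_diff1 hj) x) hseg left_mem_uIcc right_mem_uIcc
    rw [hj.dzero, sub_zero, sub_zero] at this
    exact this
  refine ⟨max C0 0, le_max_right _ _, fun s hs => ⟨?_, h1 s hs, hbd s hs⟩⟩
  have hseg : ∀ x ∈ uIcc (0:ℝ) s, ‖deriv j x‖ ≤ max C0 0 * |s| := by
    intro x hx
    have hx' : |x| ≤ |s| := by
      have := abs_sub_left_of_mem_uIcc hx
      simpa using this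
    rw [Real.norm_eq_abs]
    exact (h1 x (hx'.trans hs)).trans (mul_le_mul_of_nonneg_left hx' (le_max_right _ _))
  have := (convex_uIcc (0:ℝ) s).norm_image_sub_le_of_norm_deriv_le
    (fun x _ => (JF_diff0 hj) x) hseg left_mem_uIcc right_mem_uIcc
  rw [hj.zero, sub_zero, sub_zero, Real.norm_eq_abs, Real.norm_eq_abs, mul_assoc,
    abs_mul_abs_self, ← pow_two] at this
  exact (le_abs_self _).trans this

theorem vol_axis {δ L : ℝ} (hδ : 0 ≤ δ) (hL : 0 ≤ L) :
    volume {x : E3 | rsq x ≤ δ ∧ ‖x‖ ≤ L} ≤ ENNReal.ofReal (8 * δ * L) := by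
  let a : Fin 3 → ℝ := ![-√δ, -√δ, -L]
  let b : Fin 3 → ℝ := ![√δ, √δ, L]
  have hsub : {x : E3 | rsq x ≤ δ ∧ ‖x‖ ≤ L} ⊆
      (@WithLp.ofLp 2 (Fin 3 → ℝ)) ⁻¹' (Icc a b) := by
    rintro x ⟨h1, h2⟩
    have hr : x 0 ^ 2 + x 1 ^ 2 ≤ δ := h1
    have h0 : |x 0| ≤ √δ := Real.abs_le_sqrt (by nlinarith [sq_nonneg (x 1)])
    have h1' : |x 1| ≤ √δ := Real.abs_le_sqrt (by nlinarith [sq_nonneg (x 0)])
    have h2' : |x 2| ≤ L := by
      have := PiLp.norm_apply_le x 2
      rw [Real.norm_eq_abs] at this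
      exact this.trans h2
    rw [mem_preimage, mem_Icc, Pi.le_def, Pi.le_def]
    constructor
    · intro i
      fin_cases i
      · exact (abs_le.1 h0).1
      · exact (abs_le.1 h1').1
      · exact (abs_le.1 h2').1
    · intro i
      fin_cases i
      · exact (abs_le.1 h0).2
      · exact (abs_le.1 h1').2
      · exact (abs_le.1 h2').2
  refine (measure_mono hsub).trans ?_
  rw [(PiLp.volume_preserving_ofLp (Fin 3)).measure_preimage
    measurableSet_Icc.nullMeasurableSet, Real.volume_Icc_pi]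
  rw [Fin.prod_univ_three]
  have e0 : b 0 - a 0 = 2 * √δ := by simp only [a, b, Matrix.cons_val_zero]; ring
  have e1 : b 1 - a 1 = 2 * √δ := by simp only [a, b, Matrix.cons_val_one]; simp; ring
  have e2 : b 2 - a 2 = 2 * L := by simp [a, b]; ring
  rw [e0, e1, e2, ← ENNReal.ofReal_mul (by positivity), ← ENNReal.ofReal_mul (by positivity)]
  refine ENNReal.ofReal_le_ofReal (le_of_eq ?_)
  have := Real.mul_self_sqrt hδ
  calc 2 * √δ * (2 * √δ) * (2 * L) = 8 * (√δ * √δ) * L := by ring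
    _ = 8 * δ * L := by rw [this]

end Pool.Agent.H87.NS
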