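/-
ROW LevX. The spatial integration by parts at a fixed time. `ψ` is smooth with compact support and vanishes near the axis
(`rsq x < ε`). PROOF. `d = lap f + (2/rsq) rdr f + G - adv v f` where `0 < rsq x`, and the integrand vanishes elsewhere. All functions below
are continuous with compact support (contained in `tsupport ψ`), so the integrations by parts are
`integral_mul_fderiv_eq_neg_fderiv_mul_of_integrable` with `Continuous.integrable_of_hasCompactSupport`. Note
`pd i (j ∘ f) = (j' ∘ f) pd i f`, `pd i (j' ∘ f) = (j'' ∘ f) pd i f` (comp_pd).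
A: `- ∫ j'(f) adv v f ψ = - ∑ ∫ pd i (j∘f) v_i ψ = ∑ ∫ (j∘f) pd i (v_i ψ) = ∫ (j∘f) ((div v) ψ + adv v ψ)`, `div v = 0`.
B: `∫ j'(f) lap f ψ = ∑ ∫ (j'∘f) ψ pd i (pd i f) = - ∑ ∫ pd i ((j'∘f) ψ) pd i f = - ∫ j''(f) gsq f ψ - ∫ j'(f) ∑ pd i f pd i ψ`.
C: with `g_i = (2 x_i / rsq) ψ` for `i = 0, 1` (smooth: `ψ` vanishes near the axis; at points with `rsq x < ε` it is `0` in a neighbourhood),
`∫ (2/rsq) j'(f) rdr f ψ = ∑_{i<2} ∫ pd i (j∘f) g_i = - ∫ (j∘f) (pd 0 g_0 + pd 1 g_1)`, and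
`pd 0 g_0 + pd 1 g_1 = (2/rsq) rdr ψ` because `∂_0 (x_0/rsq) + ∂_1 (x_1/rsq) = 0` off the axis.
-/
import Pool.Agent.H87.NS.JF

set_option autoImplicit false

open Set Filter Topology MeasureTheory
open scoped ContDiff

namespace Pool.Agent.H87.NS

open Pool.Agent.H16

theorem LevX_pd_mul {f g : E3 → ℝ} {x : E3} (hf : DifferentiableAt ℝ f x) (hg : DifferentiableAt ℝ g x) (i : Fin 3) :
    pd i (fun y => f y * g y) x = pd i f x * g x + f x * pd i g x := by
  unfold pd
  rw [fderiv_fun_mul hf hg]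
  simp only [_root_.add_apply, _root_.smul_apply, smul_eq_mul]
  ring

theorem LevX_pd_add {f g : E3 → ℝ} {x : E3} (hf : DifferentiableAt ℝ f x) (hg : DifferentiableAt ℝ g x) (i : Fin 3) :
    pd i (fun y => f y + g y) x = pd i f x + pd i g x := by
  unfold pd
  rw [fderiv_fun_add hf hg]
  simp

theorem LevX_pd_sub {f g : E3 → ℝ} {x : E3} (hf : DifferentiableAt ℝ f x) (hg : DifferentiableAt ℝ g x) (i : Fin 3) :
    pd i (fun y => f y - g y) x = pd i f x - pd i g x := by
  unfold pd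
  rw [fderiv_fun_sub hf hg]
  simp

theorem LevX_int {Φ : E3 → ℝ} (h : ContDiff ℝ 1 Φ) (hc : HasCompactSupport Φ) (i : Fin 3) :
    Integrable (pd i Φ) ∧ ∫ x, pd i Φ x = 0 := by
  have h1 : Continuous (pd i Φ) := (h.continuous_fderiv one_ne_zero).clm_apply continuous_const
  have h2 : HasCompactSupport (pd i Φ) := hc.fderiv_apply ℝ (e i)
  have h3 : Integrable (pd i Φ) := h1.integrable_of_hasCompactSupport h2
  refine ⟨h3, ?_⟩
  have h5 : Integrable (fun x => fderiv ℝ Φ x (e i)) := h3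
  have h4 := integral_mul_fderiv_eq_neg_fderiv_mul_of_integrable (μ := (volume : Measure E3)) (f := fun _ : E3 => (1 : ℝ))
    (g := Φ) (v := e i) (by simp) (by simpa using h5)
    (by simpa using h.continuous.integrable_of_hasCompactSupport hc) (by intro x _; fun_prop)
    (fun x _ => (h.differentiable (by simp)) x)
  simpa [pd] using h4

theorem LevX_coord_cd (k : Fin 3) : ContDiff ℝ ∞ (fun y : E3 => y k) :=
  (EuclideanSpace.proj (𝕜 := ℝ) k : E3 →L[ℝ] ℝ).contDiff

theorem LevX_pd_coord (k i : Fin 3) (x : E3) : pd i (fun y : E3 => y k) x = if k = i then 1 else 0 := by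
  unfold pd
  have h : HasFDerivAt (fun y : E3 => y k) (EuclideanSpace.proj (𝕜 := ℝ) k : E3 →L[ℝ] ℝ) x :=
    (EuclideanSpace.proj (𝕜 := ℝ) k : E3 →L[ℝ] ℝ).hasFDerivAt
  rw [h.fderiv]
  simp [e]

theorem LevX_rsq_cd : ContDiff ℝ ∞ rsq := by
  unfold rsq
  exact ((LevX_coord_cd 0).pow 2).add ((LevX_coord_cd 1).pow 2)

theorem LevX_pd_rsq (i : Fin 3) (x : E3) :
    pd i rsq x = 2 * x 0 * (if (0 : Fin 3) = i then 1 else 0) + 2 * x 1 * (if (1 : Fin 3) = i then 1 else 0) := by
  have hd : ∀ k : Fin 3, DifferentiableAt ℝ (fun y : E3 => y k) x := fun k =>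
    ((LevX_coord_cd k).differentiable (by simp)) x
  have h : rsq = fun y : E3 => y 0 * y 0 + y 1 * y 1 := by
    funext y; unfold rsq; ring
  have hdd : ∀ k : Fin 3, DifferentiableAt ℝ (fun y : E3 => y k * y k) x := fun k => (hd k).mul (hd k)
  rw [h, LevX_pd_add (hdd 0) (hdd 1), LevX_pd_mul (hd 0) (hd 0), LevX_pd_mul (hd 1) (hd 1),
    LevX_pd_coord, LevX_pd_coord]
  ring

/-- the coefficient `2 x_i / rsq x` for `i = 0, 1`, and `0` for `i = 2` -/
noncomputable def LevX_rho (i : Fin 3) (x : E3) : ℝ := if i = 2 then 0 else 2 * x i / rsq x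

theorem LevX_rho_cd {i : Fin 3} {x : E3} (hx : 0 < rsq x) : ContDiffAt ℝ ∞ (LevX_rho i) x := by
  unfold LevX_rho
  split_ifs
  · exact contDiffAt_const
  · exact (contDiffAt_const.mul (LevX_coord_cd i).contDiffAt).div LevX_rsq_cd.contDiffAt hx.ne'

theorem LevX_pd_div {f g : E3 → ℝ} {x : E3} (hf : DifferentiableAt ℝ f x) (hg : DifferentiableAt ℝ g x) (hx : g x ≠ 0)
    (i : Fin 3) : pd i (fun y => f y / g y) x = (pd i f x * g x - f x * pd i g x) / g x ^ 2 := by
  unfold pd
  have h1 : HasFDerivAt (fun y => (g y)⁻¹) ((-(g x ^ 2)⁻¹) • fderiv ℝ g x) x :=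
    (hasDerivAt_inv hx).comp_hasFDerivAt x hg.hasFDerivAt
  have h := (hf.hasFDerivAt.mul h1).fderiv
  rw [show (fun y => f y / g y) = f * (fun y => (g y)⁻¹) from by funext y; simp [div_eq_mul_inv], h]
  simp only [_root_.smul_apply, _root_.add_apply, smul_eq_mul]
  field_simp
  ring

theorem LevX_rho_sum {x : E3} (hx : 0 < rsq x) :
    pd 0 (LevX_rho 0) x + pd 1 (LevX_rho 1) x + pd 2 (LevX_rho 2) x = 0 := by
  have hd : ∀ k : Fin 3, DifferentiableAt ℝ (fun y : E3 => 2 * y k) x := fun k =>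
    (((LevX_coord_cd k).differentiable (by simp)) x).const_mul 2
  have hd' : ∀ k : Fin 3, DifferentiableAt ℝ (fun y : E3 => y k) x := fun k =>
    (((LevX_coord_cd k).differentiable (by simp)) x)
  have hr : DifferentiableAt ℝ rsq x := (LevX_rsq_cd.differentiable (by simp)) x
  have h0 : LevX_rho 0 = fun y => 2 * y 0 / rsq y := by
    funext y; simp [LevX_rho]
  have h1 : LevX_rho 1 = fun y => 2 * y 1 / rsq y := by
    funext y; simp [LevX_rho]
  have h2 : LevX_rho 2 = fun _ => 0 := by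
    funext y; simp [LevX_rho]
  have hc : ∀ k i : Fin 3, pd i (fun y : E3 => 2 * y k) x = 2 * (if k = i then 1 else 0) := by
    intro k i
    rw [LevX_pd_mul (differentiableAt_const _) (hd' k), LevX_pd_coord]
    simp [pd]
  rw [h0, h1, h2, LevX_pd_div (hd 0) hr hx.ne', LevX_pd_div (hd 1) hr hx.ne', hc, hc, LevX_pd_rsq, LevX_pd_rsq]
  have hz : pd 2 (fun _ : E3 => (0 : ℝ)) x = 0 := by simp [pd]
  rw [hz]
  have hx' : rsq x ≠ 0 := hx.ne'
  have hrs : rsq x = x 0 ^ 2 + x 1 ^ 2 := rfl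
  simp only [if_true, Fin.isValue, one_ne_zero, zero_ne_one, if_false, mul_one, mul_zero, add_zero, zero_add]
  rw [← add_div, div_eq_zero_iff]
  left
  rw [hrs]
  ring

/-- near the axis everything vanishes -/
theorem LevX_ev {ψ : E3 → ℝ} {ε : ℝ} (hax : ∀ x, rsq x < ε → ψ x = 0) {x : E3} (hx : rsq x < ε) :
    ∀ᶠ y in 𝓝 x, ψ y = 0 := by
  have h : ∀ᶠ y in 𝓝 x, rsq y < ε := (LevX_rsq_cd.continuous.tendsto x).eventually_lt_const hx
  exact h.mono fun y hy => hax y hy

theorem LevX_pd_zero {Φ : E3 → ℝ} {x : E3} (h : ∀ᶠ y in 𝓝 x, Φ y = 0) (i : Fin 3) : pd i Φ x = 0 := by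
  unfold pd
  have h1 : Φ =ᶠ[𝓝 x] fun _ => 0 := h
  rw [h1.fderiv_eq]
  simp

theorem LevX_g_cd {ψ : E3 → ℝ} (hψ : ContDiff ℝ ∞ ψ) {ε : ℝ} (hε : 0 < ε) (hax : ∀ x, rsq x < ε → ψ x = 0) (i : Fin 3) :
    ContDiff ℝ ∞ (fun y => LevX_rho i y * ψ y) := by
  rw [contDiff_iff_contDiffAt]
  intro x
  rcases lt_or_ge (rsq x) ε with hx | hx
  · have h1 : (fun y => LevX_rho i y * ψ y) =ᶠ[𝓝 x] fun _ => 0 :=
      (LevX_ev hax hx).mono fun y hy => by simp [hy]
    exact contDiffAt_const.congr_of_eventuallyEq h1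
  · exact (LevX_rho_cd (lt_of_lt_of_le hε hx)).mul hψ.contDiffAt

theorem LevX_rho_rdr (g : E3 → ℝ) (x : E3) : 2 / rsq x * rdr g x = LevX_rho 0 x * pd 0 g x + LevX_rho 1 x * pd 1 g x := by
  simp only [rdr, LevX_rho, Fin.isValue, show (0 : Fin 3) ≠ 2 by decide, show (1 : Fin 3) ≠ 2 by decide, if_false]
  ring

theorem lev_space {v : E3 → E3} (hv : ContDiff ℝ ∞ v) (hdiv : ∀ x, ∑ i : Fin 3, fderiv ℝ v x (e i) i = 0)
    {f G d : E3 → ℝ} (hf : ContDiff ℝ ∞ f) (hG : Continuous G)
    (heq : ∀ x, 0 < rsq x → d x + adv (v x) f x = lap f x + 2 / rsq x * rdr f x + G x)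
    {j : ℝ → ℝ} (hj : ContDiff ℝ ∞ j) {ψ : E3 → ℝ} (hψ : ContDiff ℝ ∞ ψ) (hc : HasCompactSupport ψ)
    {ε : ℝ} (hε : 0 < ε) (hax : ∀ x, rsq x < ε → ψ x = 0) :
    ∫ x, deriv j (f x) * d x * ψ x = ∫ x, evI j v f G ψ x := by
  have hj1 : ContDiff ℝ ∞ (deriv j) := ((contDiff_infty_iff_deriv).1 hj).2
  have hpf : ∀ i, ContDiff ℝ ∞ (pd i f) := fun i => pd_smooth hf i
  have hppf : ∀ i, ContDiff ℝ ∞ (pd i (pd i f)) := fun i => pd_smooth (hpf i) i
  have hvi : ∀ i : Fin 3, ContDiff ℝ ∞ (fun y => v y i) := fun i =>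
    (EuclideanSpace.proj (𝕜 := ℝ) i : E3 →L[ℝ] ℝ).contDiff.comp hv
  have hg := fun i => LevX_g_cd hψ hε hax i
  set Φ : Fin 3 → E3 → ℝ := fun i y => (j (f y) * v y i - deriv j (f y) * pd i f y) * ψ y -
    j (f y) * (LevX_rho i y * ψ y) with hΦ
  have hjf : ContDiff ℝ ∞ (fun y => j (f y)) := hj.comp hf
  have hj1f : ContDiff ℝ ∞ (fun y => deriv j (f y)) := hj1.comp hf
  have hΦs : ∀ i, ContDiff ℝ ∞ (Φ i) := fun i =>
    (((hjf.mul (hvi i)).sub (hj1f.mul (hpf i))).mul hψ).sub (hjf.mul (hg i))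
  have hΦc : ∀ i, HasCompactSupport (Φ i) := by
    intro i
    refine hc.mono' ?_
    refine subset_trans ?_ (subset_tsupport ψ)
    intro y hy
    rw [Function.mem_support] at hy ⊢
    intro h0
    apply hy
    simp [hΦ, h0]
  -- the explicit form of the left side
  set F : E3 → ℝ := fun x => deriv j (f x) * (lap f x + G x - adv (v x) f x) * ψ x +
    deriv j (f x) * (pd 0 f x * (LevX_rho 0 x * ψ x) + pd 1 f x * (LevX_rho 1 x * ψ x)) with hF
  have hF1 : ∀ x, deriv j (f x) * d x * ψ x = F x := by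
    intro x
    rcases lt_or_ge (rsq x) ε with hx | hx
    · simp [hF, hax x hx]
    · have h1 := heq x (lt_of_lt_of_le hε hx)
      have h2 : d x = lap f x + 2 / rsq x * rdr f x + G x - adv (v x) f x := by linarith
      rw [h2, LevX_rho_rdr]
      simp only [hF]
      ring
  have hFc : Continuous F := by
    have hl : Continuous (lap f) := by
      unfold lap
      exact continuous_finsetSum _ fun i _ => (hppf i).continuous
    have ha : Continuous (fun x => adv (v x) f x) := by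
      unfold adv
      exact continuous_finsetSum _ fun i _ => (hvi i).continuous.mul (hpf i).continuous
    exact ((hj1f.continuous.mul ((hl.add hG).sub ha)).mul hψ.continuous).add
      (hj1f.continuous.mul (((hpf 0).continuous.mul (hg 0).continuous).add ((hpf 1).continuous.mul (hg 1).continuous)))
  have hFs : HasCompactSupport F := by
    refine hc.mono' ?_
    refine subset_trans ?_ (subset_tsupport ψ)
    intro y hy
    rw [Function.mem_support] at hy ⊢
    intro h0
    apply hy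
    simp [hF, h0]
  have hFi : Integrable F := hFc.integrable_of_hasCompactSupport hFs
  have key : ∀ x, evI j v f G ψ x = F x + ∑ i : Fin 3, pd i (Φ i) x := by
    intro x
    rcases lt_or_ge (rsq x) ε with hx | hx
    · have h0 := hax x hx
      have h1 : ∀ i, pd i ψ x = 0 := fun i => LevX_pd_zero (LevX_ev hax hx) i
      have h2 : ∀ i, pd i (Φ i) x = 0 := fun i => LevX_pd_zero ((LevX_ev hax hx).mono fun y hy => by simp [hΦ, hy]) i
      simp only [h2, hF, h0, evI, h1, adv, rdr]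
      simp
    · have hr : 0 < rsq x := lt_of_lt_of_le hε hx
      have dψ : DifferentiableAt ℝ ψ x := (hψ.differentiable (by simp)) x
      have djf : DifferentiableAt ℝ (fun y => j (f y)) x := (hjf.differentiable (by simp)) x
      have dj1f : DifferentiableAt ℝ (fun y => deriv j (f y)) x := (hj1f.differentiable (by simp)) x
      have dpf : ∀ i, DifferentiableAt ℝ (pd i f) x := fun i => ((hpf i).differentiable (by simp)) x
      have dvi : ∀ i : Fin 3, DifferentiableAt ℝ (fun y => v y i) x := fun i => ((hvi i).differentiable (by simp)) x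
      have dρ : ∀ i : Fin 3, DifferentiableAt ℝ (LevX_rho i) x := fun i => (LevX_rho_cd hr).differentiableAt (by simp)
      have pv : ∀ i : Fin 3, pd i (fun y => v y i) x = fderiv ℝ v x (e i) i := by
        intro i
        unfold pd
        have h : HasFDerivAt (fun y => v y i) ((EuclideanSpace.proj (𝕜 := ℝ) i : E3 →L[ℝ] ℝ).comp (fderiv ℝ v x)) x :=
          (EuclideanSpace.proj (𝕜 := ℝ) i : E3 →L[ℝ] ℝ).hasFDerivAt.comp x
            ((hv.differentiable (by simp)) x).hasFDerivAt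
        rw [h.fderiv]
        rfl
      have pΦ : ∀ i : Fin 3, pd i (Φ i) x =
          (deriv j (f x) * pd i f x * v x i + j (f x) * fderiv ℝ v x (e i) i -
            (deriv (deriv j) (f x) * pd i f x * pd i f x + deriv j (f x) * pd i (pd i f) x)) * ψ x +
          (j (f x) * v x i - deriv j (f x) * pd i f x) * pd i ψ x -
          (deriv j (f x) * pd i f x * (LevX_rho i x * ψ x) +
            j (f x) * (pd i (LevX_rho i) x * ψ x + LevX_rho i x * pd i ψ x)) := by
        intro i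
        simp only [hΦ]
        have d1 : DifferentiableAt ℝ (fun y => j (f y) * v y i) x := djf.mul (dvi i)
        have d2 : DifferentiableAt ℝ (fun y => deriv j (f y) * pd i f y) x := dj1f.mul (dpf i)
        have d3 : DifferentiableAt ℝ (fun y => j (f y) * v y i - deriv j (f y) * pd i f y) x := d1.sub d2
        have d4 : DifferentiableAt ℝ (fun y => (j (f y) * v y i - deriv j (f y) * pd i f y) * ψ y) x := d3.mul dψ
        have d5 : DifferentiableAt ℝ (fun y => LevX_rho i y * ψ y) x := (dρ i).mul dψ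
        have d6 : DifferentiableAt ℝ (fun y => j (f y) * (LevX_rho i y * ψ y)) x := djf.mul d5
        rw [LevX_pd_sub d4 d6, LevX_pd_mul d3 dψ, LevX_pd_sub d1 d2, LevX_pd_mul djf (dvi i), LevX_pd_mul dj1f (dpf i),
          LevX_pd_mul djf d5, LevX_pd_mul (dρ i) dψ, pv,
          comp_pd (hf.of_le (by exact_mod_cast le_top)) (hj.of_le (by exact_mod_cast le_top)),
          comp_pd (hf.of_le (by exact_mod_cast le_top)) (hj1.of_le (by exact_mod_cast le_top))]
      have hρ := LevX_rho_sum hr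
      have hρ2 : LevX_rho 2 x = 0 := by simp [LevX_rho]
      have hd := hdiv x
      rw [Fin.sum_univ_three] at hd ⊢
      rw [pΦ 0, pΦ 1, pΦ 2, hρ2]
      simp only [evI, hF]
      have hr1 : 2 / rsq x * rdr ψ x = LevX_rho 0 x * pd 0 ψ x + LevX_rho 1 x * pd 1 ψ x := LevX_rho_rdr ψ x
      rw [hr1]
      simp only [gsq, adv, lap, Fin.sum_univ_three]
      linear_combination (-(j (f x) * ψ x)) * hd + (j (f x) * ψ x) * hρ
  have hI : ∀ i : Fin 3, Integrable (pd i (Φ i)) ∧ ∫ x, pd i (Φ i) x = 0 := fun i =>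
    LevX_int ((hΦs i).of_le (by exact_mod_cast le_top)) (hΦc i) i
  rw [integral_congr_ae (Filter.Eventually.of_forall hF1), integral_congr_ae (Filter.Eventually.of_forall key),
    integral_add hFi (integrable_finsetSum _ fun i _ => (hI i).1), integral_finsetSum _ fun i _ => (hI i).1]
  simp [(hI _).2]

end Pool.Agent.H87.NS
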