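/-
ROW AvkC. Joint continuity and joint smoothness. PROOF.
avk_JC: on the subspace `X = Ico 0 T × E3` the function `(q, s) ↦ s^k g(q.1, sq s q.2)` is continuous on `X × ℝ`
(`(t, x, s) ↦ (t, sq s x)` is continuous and maps into `Ico 0 T ×ˢ univ`), so the integral over `s ∈ [0,1]` is continuous on `X`
(`intervalIntegral.continuous_parametric_intervalIntegral_of_continuous'` or similar); go back with `continuousOn_iff_continuous_restrict`.
JS_JC: `ContDiffOn.continuousOn`. JS_pd: `S = Ico 0 T ×ˢ univ` has unique differentials (`uniqueDiffOn_Ico`, `UniqueDiffOn.prod`);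
for `(t, x) ∈ S`, `fderiv ℝ (f t) x w = fderivWithin ℝ F S (t, x) (0, w)`, `F q = f q.1 q.2` (chain rule with `y ↦ (t, y)`, which maps
`univ` into `S`: `HasFDerivWithinAt.comp`), and `ContDiffOn.fderivWithin` gives the smoothness. If `T ≤ 0`, `S` is empty.
JS_slice: composition with `y ↦ (t, y)`. JS_add, JS_mul, JS_neg: obvious. JC_mul: obvious. JC_comp: `ContinuousOn` composed with a
continuous function.
-/
import Pool.Agent.H87.NS.IBP

set_option autoImplicit false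

open Set Filter Topology MeasureTheory
open scoped ContDiff

namespace Pool.Agent.H87.NS

open Pool.Agent.H16

private theorem AvkC_sq : Continuous fun z : ℝ × E3 => sq z.1 z.2 := by
  unfold sq
  refine (PiLp.continuous_toLp 2 _).comp (continuous_pi fun i => ?_)
  have h : ∀ j : Fin 3, Continuous fun z : ℝ × E3 => z.2 j := fun j =>
    (EuclideanSpace.proj (𝕜 := ℝ) j).continuous.comp continuous_snd
  fin_cases i
  · exact continuous_fst.mul (h 0)
  · exact continuous_fst.mul (h 1)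
  · exact h 2

theorem avk_JC {T : ℝ} {g : ℝ → E3 → ℝ} (hg : JC T g) (k : ℕ) : JC T (fun t => avk k (g t)) := by
  unfold JC
  rw [continuousOn_iff_continuous_domRestrict]
  have h1 : Continuous (Function.uncurry fun (q : (Ico 0 T ×ˢ univ : Set (ℝ × E3))) (s : ℝ) =>
      s ^ k * g q.1.1 (sq s q.1.2)) := by
    refine (continuous_snd.pow k).mul ?_
    have h2 : Continuous fun z : (Ico 0 T ×ˢ univ : Set (ℝ × E3)) × ℝ => (z.1.1.1, sq z.2 z.1.1.2) :=
      (continuous_fst.comp (continuous_subtype_val.comp continuous_fst)).prodMk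
        (AvkC_sq.comp (continuous_snd.prodMk
          (continuous_snd.comp (continuous_subtype_val.comp continuous_fst))))
    exact ContinuousOn.comp_continuous hg h2 fun z => ⟨z.1.2.1, mem_univ _⟩
  exact intervalIntegral.continuous_parametric_intervalIntegral_of_continuous' h1 0 1

theorem JS_JC {T : ℝ} {f : ℝ → E3 → ℝ} (hf : JS T f) : JC T f :=
  ContDiffOn.continuousOn hf

theorem JS_pd {T : ℝ} {f : ℝ → E3 → ℝ} (hf : JS T f) (i : Fin 3) : JS T (fun t => pd i (f t)) := by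
  have hS : UniqueDiffOn ℝ (Ico (0 : ℝ) T ×ˢ (univ : Set E3)) :=
    (uniqueDiffOn_Ico 0 T).prod uniqueDiffOn_univ
  have hf' : ContDiffOn ℝ ∞ (fun q : ℝ × E3 => f q.1 q.2) (Ico 0 T ×ˢ univ) := hf
  have h1 : ContDiffOn ℝ ∞ (fun q => fderivWithin ℝ (fun q : ℝ × E3 => f q.1 q.2)
      (Ico 0 T ×ˢ univ) q ((0 : ℝ), (e i : E3))) (Ico 0 T ×ˢ univ) :=
    (hf'.fderivWithin hS (m := ∞) (by simp)).clm_apply contDiffOn_const
  unfold JS
  refine h1.congr fun q hq => ?_
  obtain ⟨t, x⟩ := q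
  have h2 : DifferentiableWithinAt ℝ (fun q : ℝ × E3 => f q.1 q.2) (Ico 0 T ×ˢ univ) (t, x) :=
    (hf'.differentiableOn (by simp)) _ hq
  have h3 : HasFDerivWithinAt (fun y : E3 => (t, y)) (ContinuousLinearMap.inr ℝ ℝ E3) univ x :=
    (hasFDerivAt_prodMk_right t x).hasFDerivWithinAt
  have h4 : HasFDerivWithinAt ((fun q : ℝ × E3 => f q.1 q.2) ∘ fun y : E3 => (t, y))
      ((fderivWithin ℝ (fun q : ℝ × E3 => f q.1 q.2) (Ico 0 T ×ˢ univ) (t, x)).comp
        (ContinuousLinearMap.inr ℝ ℝ E3)) univ x :=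
    HasFDerivWithinAt.comp x h2.hasFDerivWithinAt h3 fun y _ => ⟨hq.1, mem_univ _⟩
  rw [hasFDerivWithinAt_univ] at h4
  have h5 : fderiv ℝ (f t) x = (fderivWithin ℝ (fun q : ℝ × E3 => f q.1 q.2)
      (Ico 0 T ×ˢ univ) (t, x)).comp (ContinuousLinearMap.inr ℝ ℝ E3) := h4.fderiv
  change fderiv ℝ (f t) x (e i) = _
  rw [h5]
  rfl

theorem JS_slice {T : ℝ} {f : ℝ → E3 → ℝ} (hf : JS T f) {t : ℝ} (ht : t ∈ Ico 0 T) : ContDiff ℝ ∞ (f t) := by
  have hf' : ContDiffOn ℝ ∞ (fun q : ℝ × E3 => f q.1 q.2) (Ico 0 T ×ˢ univ) := hf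
  have h1 : ContDiffOn ℝ ∞ ((fun q : ℝ × E3 => f q.1 q.2) ∘ fun y : E3 => (t, y)) univ :=
    hf'.comp (contDiff_prodMk_right t).contDiffOn fun y _ => ⟨ht, mem_univ _⟩
  exact contDiffOn_univ.mp h1

theorem JS_add {T : ℝ} {f g : ℝ → E3 → ℝ} (hf : JS T f) (hg : JS T g) : JS T (fun t x => f t x + g t x) :=
  ContDiffOn.add hf hg

theorem JS_sub {T : ℝ} {f g : ℝ → E3 → ℝ} (hf : JS T f) (hg : JS T g) : JS T (fun t x => f t x - g t x) :=
  ContDiffOn.sub hf hg

theorem JS_mul {T : ℝ} {f g : ℝ → E3 → ℝ} (hf : JS T f) (hg : JS T g) : JS T (fun t x => f t x * g t x) :=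
  ContDiffOn.mul hf hg

theorem JC_add {T : ℝ} {f g : ℝ → E3 → ℝ} (hf : JC T f) (hg : JC T g) : JC T (fun t x => f t x + g t x) :=
  ContinuousOn.add hf hg

theorem JC_mul {T : ℝ} {f g : ℝ → E3 → ℝ} (hf : JC T f) (hg : JC T g) : JC T (fun t x => f t x * g t x) :=
  ContinuousOn.mul hf hg

theorem JC_comp {T : ℝ} {f : ℝ → E3 → ℝ} (hf : JC T f) {H : ℝ → ℝ} (hH : Continuous H) :
    JC T (fun t x => H (f t x)) :=
  hH.comp_continuousOn hf

theorem JC_const {T : ℝ} {g : E3 → ℝ} (hg : Continuous g) : JC T (fun _ x => g x) :=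
  (hg.comp continuous_snd).continuousOn

end Pool.Agent.H87.NS
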