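/-
ROW TI. Integrals depending on time. PROOF. `Φ` is continuous on `Ico 0 T ×ˢ univ`, hence (`ContinuousOn.aestronglyMeasurable`) strongly
measurable with respect to `(volume.restrict (Icc a b)).prod volume = volume.restrict (Icc a b ×ˢ univ)`, and
`t ↦ ∫ x, Φ t x` is a.e. strongly measurable on `Icc a b` (`AEStronglyMeasurable.integral_prod_right'`); it is bounded by `K`.
ti_tail: for each `t ∈ [a, b]`, `∫ Φ t φ_n → ∫ Φ t` by dominated convergence (bound `|Φ t|`), and these integrals are bounded by `K`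
uniformly in `t ∈ [a,b]`; dominated convergence again (`intervalIntegral.tendsto_integral_filter_of_dominated_convergence`; the
measurability of `t ↦ ∫ Φ t φ_n` is ti_int for `Φ φ_n`).
ti_compact: for `t` in a compact subinterval `[0, b]`, `Φ` is bounded on the compact `[0,b] × S` and vanishes outside `S`
(`continuousOn_integral_of_compact_support` or `continuousOn_of_dominated`).
-/
import Pool.Agent.H87.NS.AvkC

set_option autoImplicit false

open Set Filter Topology MeasureTheory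
open scoped ContDiff

namespace Pool.Agent.H87.NS

open Pool.Agent.H16

theorem TI_bound {Φ : E3 → ℝ} {K : ℝ} (h2 : ∫ x, |Φ x| ≤ K) : ‖∫ x, Φ x‖ ≤ K := by
  refine (norm_integral_le_integral_norm _).trans ?_
  simp only [Real.norm_eq_abs]
  exact h2

theorem TI_meas {T : ℝ} {Φ : ℝ → E3 → ℝ} (hΦ : JC T Φ) {b : ℝ} (hb : b < T) {a : ℝ} (ha : 0 ≤ a) :
    AEStronglyMeasurable (fun t => ∫ x, Φ t x) (volume.restrict (Icc a b)) := by
  have hsub : Icc a b ×ˢ (univ : Set E3) ⊆ Ico 0 T ×ˢ univ :=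
    Set.prod_mono (fun t ht => ⟨ha.trans ht.1, ht.2.trans_lt hb⟩) (le_refl _)
  have h1 : AEStronglyMeasurable (fun q : ℝ × E3 => Φ q.1 q.2)
      ((volume : Measure (ℝ × E3)).restrict (Icc a b ×ˢ univ)) :=
    (ContinuousOn.mono hΦ hsub).aestronglyMeasurable (measurableSet_Icc.prod MeasurableSet.univ)
  rw [Measure.volume_eq_prod, ← Measure.prod_restrict, Measure.restrict_univ] at h1
  exact h1.integral_prod_right'

theorem ti_int {T : ℝ} {Φ : ℝ → E3 → ℝ} (hΦ : JC T Φ) {b K : ℝ} (hb : b < T)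
    (h : ∀ t ∈ Icc 0 b, Integrable (Φ t) ∧ ∫ x, |Φ t x| ≤ K) {a : ℝ} (ha : 0 ≤ a) (hab : a ≤ b) :
    IntervalIntegrable (fun t => ∫ x, Φ t x) volume a b := by
  rw [intervalIntegrable_iff_integrableOn_Icc_of_le hab]
  refine Integrable.of_bound (TI_meas hΦ hb ha) K ?_
  refine ae_restrict_of_forall_mem measurableSet_Icc fun t ht => ?_
  exact TI_bound (h t ⟨ha.trans ht.1, ht.2⟩).2

theorem ti_tail {T : ℝ} {Φ : ℝ → E3 → ℝ} (hΦ : JC T Φ) {b K : ℝ} (hb : b < T)
    (h : ∀ t ∈ Icc 0 b, Integrable (Φ t) ∧ ∫ x, |Φ t x| ≤ K) {a : ℝ} (ha : 0 ≤ a) (hab : a ≤ b)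
    {φ : ℕ → E3 → ℝ} (hφ : ∀ n, Continuous (φ n)) (hφ1 : ∀ n x, |φ n x| ≤ 1)
    (hφl : ∀ x, Tendsto (fun n => φ n x) atTop (𝓝 1)) :
    Tendsto (fun n => ∫ t in a..b, ∫ x, Φ t x * φ n x) atTop (𝓝 (∫ t in a..b, ∫ x, Φ t x)) := by
  have hJ : ∀ n, JC T (fun t x => Φ t x * φ n x) := fun n =>
    ContinuousOn.mul hΦ ((hφ n).comp continuous_snd).continuousOn
  have hle : ∀ n t x, |Φ t x * φ n x| ≤ |Φ t x| := by
    intro n t x
    rw [abs_mul]
    exact mul_le_of_le_one_right (abs_nonneg _) (hφ1 n x)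
  refine intervalIntegral.tendsto_integral_filter_of_dominated_convergence (fun _ => K) ?_ ?_ ?_ ?_
  · refine Eventually.of_forall fun n => ?_
    rw [uIoc_of_le hab]
    exact (TI_meas (hJ n) hb ha).mono_measure (Measure.restrict_mono Ioc_subset_Icc_self le_rfl)
  · refine Eventually.of_forall fun n => ae_of_all _ fun t ht => ?_
    rw [uIoc_of_le hab] at ht
    have ht' : t ∈ Icc 0 b := ⟨ha.trans ht.1.le, ht.2⟩
    refine TI_bound (le_trans ?_ (h t ht').2)
    refine integral_mono_of_nonneg (ae_of_all _ fun x => abs_nonneg _) (h t ht').1.abs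
      (ae_of_all _ fun x => hle n t x)
  · exact intervalIntegrable_const
  · refine ae_of_all _ fun t ht => ?_
    rw [uIoc_of_le hab] at ht
    have ht' : t ∈ Icc 0 b := ⟨ha.trans ht.1.le, ht.2⟩
    refine tendsto_integral_of_dominated_convergence (fun x => |Φ t x|) ?_ (h t ht').1.abs ?_ ?_
    · intro n
      exact (h t ht').1.aestronglyMeasurable.mul (hφ n).aestronglyMeasurable
    · intro n
      exact ae_of_all _ fun x => hle n t x
    · refine ae_of_all _ fun x => ?_
      have := (hφl x).const_mul (Φ t x)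
      rw [mul_one] at this
      exact this

theorem ti_compact {T : ℝ} {Φ : ℝ → E3 → ℝ} (hΦ : JC T Φ) {S : Set E3} (hS : IsCompact S)
    (hz : ∀ t ∈ Ico 0 T, ∀ x, x ∉ S → Φ t x = 0) : ContinuousOn (fun t => ∫ x, Φ t x) (Ico 0 T) :=
  continuousOn_integral_of_compact_support hS hΦ (fun t x ht hx => hz t ht x hx)

end Pool.Agent.H87.NS
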