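/-
ROW LevT. The energy identity with a test function vanishing near the axis. PROOF. Let `F(s, x) = j (f s x) ψ x`.
lev_time: for `t ∈ (0, T)`: differentiation under the integral sign (`hasDerivAt_integral_of_dominated_loc_of_deriv_le`): for `s` in a compact
neighbourhood `I ⊆ (0, T)` of `t` and `x` in the compact set `S = tsupport ψ ∩ {ε ≤ rsq x}` (outside it `F = 0`), `F` is smooth in `s` with
derivative `j'(f s x) (∂_s f s x) ψ x`, where `(s, x) ↦ ∂_s f s x` is continuous on `Ioo 0 T ×ˢ {0 < rsq x}` (Evo.joint: it is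
`fderiv` of the jointly smooth function in the direction `(1, 0)`), hence bounded on `I × S`.
lev: the function `s ↦ ∫ F(s, ·)` is continuous on `[0, T)` (ti_compact with Evo.cont), its derivative on `(0,T)` is
`∫ evI j (u t) (f t) (G t) ψ` (lev_space with Evo.eq, Drift.div), which is continuous on `[0, T)` (ti_compact: `evI` is built from the jointly
continuous functions `f`, `pd i f`, `G`, `u` and from `ψ`, `pd i ψ`, `(2 / rsq) rdr ψ`, continuous with compact support since `ψ` vanishes near the axis;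
JC_add, JC_mul, JC_comp, JC_const). Fundamental theorem of calculus: `intervalIntegral.integral_eq_sub_of_hasDerivAt_of_le`.
-/
import Pool.Agent.H87.NS.LevX
import Pool.Agent.H87.NS.TI

set_option autoImplicit false

open Set Filter Topology MeasureTheory
open scoped ContDiff

namespace Pool.Agent.H87.NS

open Pool.Agent.H16

theorem LevT_rsq : Continuous rsq := by
  unfold rsq
  exact ((continuous_coord 0).pow 2).add ((continuous_coord 1).pow 2)

theorem LevT_open (T : ℝ) : IsOpen (Ioo 0 T ×ˢ {x : E3 | 0 < rsq x}) :=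
  isOpen_Ioo.prod (isOpen_lt continuous_const LevT_rsq)

theorem LevT_deriv {T : ℝ} {u : ℝ → E3 → E3} {f G : ℝ → E3 → ℝ} (hf : Evo T u f G) {s : ℝ}
    (hs : s ∈ Ioo 0 T) {x : E3} (hx : 0 < rsq x) :
    HasDerivAt (fun s => f s x) (fderiv ℝ (fun q : ℝ × E3 => f q.1 q.2) (s, x) (1, 0)) s := by
  have h1 : DifferentiableAt ℝ (fun q : ℝ × E3 => f q.1 q.2) (s, x) :=
    ((hf.joint.differentiableOn (by simp)) (s, x) ⟨hs, hx⟩).differentiableAt
      ((LevT_open T).mem_nhds ⟨hs, hx⟩)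
  have h2 : HasDerivAt (fun r : ℝ => (r, x)) ((1 : ℝ), (0 : E3)) s :=
    (hasDerivAt_id s).prodMk (hasDerivAt_const s x)
  exact h1.hasFDerivAt.comp_hasDerivAt s h2

theorem LevT_dcont {T : ℝ} {u : ℝ → E3 → E3} {f G : ℝ → E3 → ℝ} (hf : Evo T u f G) :
    ContinuousOn (fun q : ℝ × E3 => deriv (fun s => f s q.2) q.1) (Ioo 0 T ×ˢ {x : E3 | 0 < rsq x}) := by
  have h1 := hf.joint.continuousOn_fderiv_of_isOpen (LevT_open T) (by simp)
  have h2 : ContinuousOn (fun q : ℝ × E3 => fderiv ℝ (fun q : ℝ × E3 => f q.1 q.2) q (1, 0))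
      (Ioo 0 T ×ˢ {x : E3 | 0 < rsq x}) := h1.clm_apply continuousOn_const
  refine h2.congr fun q hq => ?_
  exact (LevT_deriv hf hq.1 hq.2).deriv

theorem LevT_slice {T : ℝ} {Φ : ℝ → E3 → ℝ} (h : JC T Φ) {t : ℝ} (ht : t ∈ Ico 0 T) :
    Continuous (Φ t) := by
  have h1 : ContinuousOn (fun x : E3 => (t, x)) univ := (by fun_prop : Continuous _).continuousOn
  have h2 := ContinuousOn.comp h h1 (fun x _ => ⟨ht, mem_univ _⟩)
  exact continuousOn_univ.1 h2

theorem lev_time {T : ℝ} {u : ℝ → E3 → E3} {f G : ℝ → E3 → ℝ} (hf : Evo T u f G) {j : ℝ → ℝ}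
    (hj : ContDiff ℝ ∞ j) {ψ : E3 → ℝ} (hψ : ContDiff ℝ ∞ ψ) (hc : HasCompactSupport ψ)
    {ε : ℝ} (hε : 0 < ε) (hax : ∀ x, rsq x < ε → ψ x = 0) {t : ℝ} (ht : t ∈ Ioo 0 T) :
    HasDerivAt (fun s => ∫ x, j (f s x) * ψ x) (∫ x, deriv j (f t x) * deriv (fun s => f s x) t * ψ x) t := by
  have hjd : Differentiable ℝ j := hj.differentiable (by simp)
  have hj1 : Continuous (deriv j) := hj.continuous_deriv (by simp)
  set S : Set E3 := tsupport ψ ∩ {x | ε ≤ rsq x} with hS
  have hSc : IsCompact S := IsCompact.inter_right hc (isClosed_le continuous_const LevT_rsq)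
  have hS0 : ∀ x, x ∉ S → ψ x = 0 := by
    intro x hx
    by_contra h
    apply hx
    refine ⟨subset_tsupport ψ h, ?_⟩
    by_contra h2
    exact h (hax x (not_le.1 h2))
  obtain ⟨a, ha0, hat⟩ : ∃ a, 0 < a ∧ a < t := ⟨t / 2, by linarith [ht.1], by linarith [ht.1]⟩
  obtain ⟨b, hbt, hbT⟩ : ∃ b, t < b ∧ b < T := ⟨(t + T) / 2, by linarith [ht.2], by linarith [ht.2]⟩
  have hsub : Icc a b ×ˢ S ⊆ Ioo 0 T ×ˢ {x : E3 | 0 < rsq x} := by
    rintro ⟨s, x⟩ ⟨hs, hx⟩
    exact ⟨⟨lt_of_lt_of_le ha0 hs.1, lt_of_le_of_lt hs.2 hbT⟩, lt_of_lt_of_le hε hx.2⟩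
  have hfc : ContinuousOn (fun q : ℝ × E3 => f q.1 q.2) (Icc a b ×ˢ S) := by
    refine ContinuousOn.mono hf.cont ?_
    rintro ⟨s, x⟩ ⟨hs, hx⟩
    exact ⟨⟨le_trans ha0.le hs.1, lt_of_le_of_lt hs.2 hbT⟩, mem_univ _⟩
  have hFc : ContinuousOn (fun q : ℝ × E3 => deriv j (f q.1 q.2) * deriv (fun s => f s q.2) q.1)
      (Icc a b ×ˢ S) :=
    (hj1.comp_continuousOn hfc).mul ((LevT_dcont hf).mono hsub)
  obtain ⟨C, hC⟩ := (isCompact_Icc.prod hSc).exists_bound_of_continuousOn hFc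
  have hψc := hψ.continuous
  have hcont : ∀ s ∈ Ioo 0 T, Continuous fun x => j (f s x) * ψ x := fun s hs =>
    (hj.continuous.comp (hf.smooth s ⟨hs.1.le, hs.2⟩).continuous).mul hψc
  have h0 := hasDerivAt_integral_of_dominated_loc_of_deriv_le (μ := (volume : Measure E3)) (x₀ := t)
    (s := Ioo a b) (F := fun s x => j (f s x) * ψ x)
    (F' := fun s x => deriv j (f s x) * deriv (fun s => f s x) s * ψ x)
    (bound := fun x => |C| * |ψ x|) (Ioo_mem_nhds hat hbt) ?_ ?_ ?_ ?_ ?_ ?_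
  · exact h0.2
  · filter_upwards [Ioo_mem_nhds ht.1 ht.2] with s hs
    exact (hcont s hs).aestronglyMeasurable
  · exact (hcont t ht).integrable_of_hasCompactSupport hc.mul_left
  · refine Continuous.aestronglyMeasurable ?_
    rw [continuous_iff_continuousAt]
    intro x
    by_cases hx : rsq x < ε
    · have h1 : ∀ᶠ y in 𝓝 x, rsq y < ε := LevT_rsq.continuousAt.eventually (gt_mem_nhds hx)
      refine (continuousAt_const (y := (0 : ℝ))).congr ?_
      filter_upwards [h1] with y hy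
      rw [hax y hy, mul_zero]
    · have hx' : 0 < rsq x := lt_of_lt_of_le hε (not_lt.1 hx)
      have h1 : ContinuousAt (fun q : ℝ × E3 => deriv (fun s => f s q.2) q.1) (t, x) :=
        (LevT_dcont hf).continuousAt ((LevT_open T).mem_nhds ⟨ht, hx'⟩)
      have h2 : ContinuousAt (fun y : E3 => (t, y)) x := by fun_prop
      have h3 : ContinuousAt (fun y : E3 => deriv (fun s => f s y) t) x :=
        ContinuousAt.comp (f := fun y : E3 => (t, y)) h1 h2
      have h4 : Continuous fun y => deriv j (f t y) :=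
        hj1.comp (hf.smooth t ⟨ht.1.le, ht.2⟩).continuous
      exact (h4.continuousAt.mul h3).mul hψc.continuousAt
  · refine Eventually.of_forall fun x s hs => ?_
    rw [norm_mul, Real.norm_eq_abs (ψ x)]
    by_cases hx : x ∈ S
    · have h1 := hC (s, x) ⟨⟨hs.1.le, hs.2.le⟩, hx⟩
      exact mul_le_mul_of_nonneg_right (h1.trans (le_abs_self C)) (abs_nonneg _)
    · rw [hS0 x hx]; simp
  · have h1 : HasCompactSupport fun x => |C| * |ψ x| := by
      have h2 : HasCompactSupport fun x => |ψ x| := hc.comp_left (g := fun y : ℝ => |y|) abs_zero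
      exact h2.mul_left
    exact (continuous_const.mul hψc.abs).integrable_of_hasCompactSupport h1
  · refine Eventually.of_forall fun x s hs => ?_
    by_cases hx : x ∈ S
    · have h1 := LevT_deriv hf (s := s) ⟨ha0.trans hs.1, hs.2.trans hbT⟩
        (lt_of_lt_of_le hε hx.2)
      have h2 : HasDerivAt (fun s => j (f s x)) (deriv j (f s x) *
          fderiv ℝ (fun q : ℝ × E3 => f q.1 q.2) (s, x) (1, 0)) s :=
        (hjd (f s x)).hasDerivAt.comp s h1
      rw [← h1.deriv] at h2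
      exact h2.mul_const (ψ x)
    · simp only [hS0 x hx, mul_zero]
      exact hasDerivAt_const s 0

theorem LevT_pd {ψ : E3 → ℝ} {x : E3} (hx : x ∉ tsupport ψ) (i : Fin 3) : pd i ψ x = 0 := by
  unfold pd
  rw [fderiv_of_notMem_tsupport ℝ hx]
  rfl

theorem LevT_q {ψ : E3 → ℝ} (hψ : ContDiff ℝ ∞ ψ) {ε : ℝ} (hε : 0 < ε)
    (hax : ∀ x, rsq x < ε → ψ x = 0) : Continuous fun x => 2 / rsq x * rdr ψ x := by
  have hp : ∀ i, Continuous (pd i ψ) := fun i => pd_cont (hψ.of_le (by simp)) i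
  have hr : Continuous (rdr ψ) := by
    unfold rdr
    exact ((continuous_coord 0).mul (hp 0)).add ((continuous_coord 1).mul (hp 1))
  rw [continuous_iff_continuousAt]
  intro x
  by_cases hx : rsq x < ε
  · have h1 : ∀ᶠ y in 𝓝 x, rsq y < ε := LevT_rsq.continuousAt.eventually (gt_mem_nhds hx)
    refine (continuousAt_const (y := (0 : ℝ))).congr ?_
    filter_upwards [h1] with y hy
    have h2 : ψ =ᶠ[𝓝 y] fun _ => 0 := by
      have h3 : ∀ᶠ z in 𝓝 y, rsq z < ε := LevT_rsq.continuousAt.eventually (gt_mem_nhds hy)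
      filter_upwards [h3] with z hz using hax z hz
    have h3 : fderiv ℝ ψ y = 0 := by
      rw [h2.fderiv_eq]; simp
    simp [rdr, pd, h3]
  · have hx' : 0 < rsq x := lt_of_lt_of_le hε (not_lt.1 hx)
    exact (continuousAt_const.div LevT_rsq.continuousAt hx'.ne').mul hr.continuousAt

theorem LevT_evI {T : ℝ} {u : ℝ → E3 → E3} {f G : ℝ → E3 → ℝ} (hu : Drift T u) (hf : Evo T u f G)
    {j : ℝ → ℝ} (hj : ContDiff ℝ ∞ j) {ψ : E3 → ℝ} (hψ : ContDiff ℝ ∞ ψ)
    {ε : ℝ} (hε : 0 < ε) (hax : ∀ x, rsq x < ε → ψ x = 0) :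
    JC T (fun t x => evI j (u t) (f t) (G t) ψ x) := by
  have hj1 : Continuous (deriv j) := hj.continuous_deriv (by simp)
  have hj2 : Continuous (deriv (deriv j)) := by
    have h1 : ContDiff ℝ ∞ (deriv j) := (contDiff_infty_iff_deriv.1 hj).2
    exact h1.continuous_deriv (by simp)
  have hp : ∀ i, JC T (fun _ x => pd i ψ x) := fun i => JC_const (pd_cont (hψ.of_le (by simp)) i)
  have hψ0 : JC T (fun _ x => ψ x) := JC_const hψ.continuous
  have hu0 : ∀ i : Fin 3, JC T (fun t x => u t x i) := fun i =>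
    (continuous_coord i).comp_continuousOn hu.cont
  have hg : JC T (fun t x => gsq (f t) x) := by
    have h1 : ∀ i : Fin 3, JC T (fun t x => pd i (f t) x ^ 2) := fun i =>
      JC_comp (hf.contd i) (H := fun y => y ^ 2) (by fun_prop)
    have h2 := JC_add (JC_add (h1 0) (h1 1)) (h1 2)
    unfold gsq
    simp only [Fin.sum_univ_three]
    exact h2
  have ha : JC T (fun t x => adv (u t x) ψ x) := by
    have h1 : ∀ i : Fin 3, JC T (fun t x => u t x i * pd i ψ x) := fun i => JC_mul (hu0 i) (hp i)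
    have h2 := JC_add (JC_add (h1 0) (h1 1)) (h1 2)
    unfold adv
    simp only [Fin.sum_univ_three]
    exact h2
  have hd : JC T (fun t x => ∑ i, pd i (f t) x * pd i ψ x) := by
    have h1 : ∀ i : Fin 3, JC T (fun t x => pd i (f t) x * pd i ψ x) := fun i =>
      JC_mul (hf.contd i) (hp i)
    have h2 := JC_add (JC_add (h1 0) (h1 1)) (h1 2)
    simp only [Fin.sum_univ_three]
    exact h2
  have hq : JC T (fun _ x => 2 / rsq x * rdr ψ x) := JC_const (LevT_q hψ hε hax)
  have t1 : JC T (fun t x => - deriv (deriv j) (f t x) * gsq (f t) x * ψ x) :=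
    JC_mul (JC_mul (JC_comp hf.cont (H := fun y => - deriv (deriv j) y) hj2.neg) hg) hψ0
  have t2 : JC T (fun t x => deriv j (f t x) * G t x * ψ x) :=
    JC_mul (JC_mul (JC_comp hf.cont hj1) hf.contG) hψ0
  have t3 : JC T (fun t x => deriv j (f t x) * (∑ i, pd i (f t) x * pd i ψ x)) :=
    JC_mul (JC_comp hf.cont hj1) hd
  have t4 : JC T (fun t x => j (f t x) * (adv (u t x) ψ x - 2 / rsq x * rdr ψ x)) :=
    JC_mul (JC_comp hf.cont hj.continuous) (ContinuousOn.sub ha hq)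
  exact ((ContinuousOn.add t1 t2).sub t3).add t4

theorem lev {T : ℝ} {u : ℝ → E3 → E3} {f G : ℝ → E3 → ℝ} (hu : Drift T u) (hf : Evo T u f G) {j : ℝ → ℝ}
    (hj : ContDiff ℝ ∞ j) {ψ : E3 → ℝ} (hψ : ContDiff ℝ ∞ ψ) (hc : HasCompactSupport ψ)
    {ε : ℝ} (hε : 0 < ε) (hax : ∀ x, rsq x < ε → ψ x = 0) {a b : ℝ} (ha : 0 ≤ a) (hab : a ≤ b) (hb : b < T) :
    ∫ x, j (f b x) * ψ x = (∫ x, j (f a x) * ψ x) + ∫ t in a..b, ∫ x, evI j (u t) (f t) (G t) ψ x := by
  have hsub : Icc a b ⊆ Ico 0 T := fun s hs => ⟨ha.trans hs.1, lt_of_le_of_lt hs.2 hb⟩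
  have h1 : JC T (fun t x => j (f t x) * ψ x) :=
    JC_mul (JC_comp hf.cont hj.continuous) (JC_const hψ.continuous)
  have h2 : ContinuousOn (fun t => ∫ x, j (f t x) * ψ x) (Ico 0 T) :=
    ti_compact h1 hc fun t _ x hx => by rw [image_eq_zero_of_notMem_tsupport hx, mul_zero]
  have h3 : ContinuousOn (fun t => ∫ x, evI j (u t) (f t) (G t) ψ x) (Ico 0 T) := by
    refine ti_compact (LevT_evI hu hf hj hψ hε hax) hc fun t _ x hx => ?_
    have h0 := image_eq_zero_of_notMem_tsupport hx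
    simp [evI, adv, rdr, h0, LevT_pd hx]
  have h4 := intervalIntegral.integral_eq_sub_of_hasDerivAt_of_le hab (h2.mono hsub)
    (f' := fun t => ∫ x, evI j (u t) (f t) (G t) ψ x) (fun t ht => by
      have ht' : t ∈ Ioo 0 T := ⟨lt_of_le_of_lt ha ht.1, ht.2.trans hb⟩
      have ht'' : t ∈ Ico 0 T := ⟨ht'.1.le, ht'.2⟩
      have h5 := lev_time hf hj hψ hc hε hax ht'
      rw [lev_space (hu.smooth t ht'') (hu.div t ht'') (hf.smooth t ht'')
        (LevT_slice hf.contG ht'') (hf.eq t ht') hj hψ hc hε hax] at h5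
      exact h5) ((h3.mono hsub).intervalIntegrable_of_Icc hab)
  rw [h4]
  ring

end Pool.Agent.H87.NS
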