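/-
ROW EVe. Removal of the condition at the axis. Now `ψ ≥ 0` is smooth with compact support and `|rdr ψ x| ≤ C rsq x`.
PROOF. Let `θ : ℝ → ℝ` be smooth, nondecreasing, `θ = 0` on `(-∞, 1]`, `θ = 1` on `[2, ∞)` (`Real.smoothTransition (s - 1)`), `0 ≤ θ ≤ 1`,
`0 ≤ θ' ≤ C₁`. For `δ > 0`, `η(x) = θ(rsq x / δ)`: `pd i η = θ'(rsq/δ) 2 x_i / δ` for `i = 0, 1`, `pd 2 η = 0`, `rdr η = θ'(rsq/δ) 2 rsq / δ ≥ 0`,
`|pd i η| ≤ C₁ 2 √(2δ) / δ`, and `pd i η ≠ 0` only if `δ ≤ rsq x ≤ 2 δ`. Apply lev with `ψ η` (vanishes for `rsq x < δ`):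
`∫ j(f b) ψ η = ∫ j(f a) ψ η + ∫_a^b ∫ evI ... (ψ η)` and, pointwise, with `j ≥ 0`, `ψ ≥ 0`, `rdr η ≥ 0`:
`evI ... (ψ η) = η evI ... ψ + ψ [ - j'(f) ∑ pd i f pd i η + j(f) adv u η ] - j(f) ψ (2/rsq) rdr η ≤ η evI ... ψ + ψ [ ... ]`.
Let `L` be such that `tsupport ψ ⊆ closedBall 0 L`, and `B` a bound on `[a,b] × tsupport ψ` of `|evI ... ψ|` (this function is bounded there:
`f, pd i f, G, u` are bounded for `t ∈ [0,b]` (Evo.bd, Drift.bd), `j, j', j''` are bounded on bounded sets, `|(2/rsq) rdr ψ| ≤ 2 C`), of `j(f) ψ` and of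
`|ψ| (|j'(f)| ∑ |pd i f| + j(f) ∑ |u_i|)`. Then `|evI ψ - η evI ψ| ≤ B` only on `A = {rsq x ≤ 2 δ, ‖x‖ ≤ L}`, `|ψ [...]| ≤ B C₁ 2 √(2δ) / δ` only on `A`, and
`vol A ≤ 16 δ L` (vol_axis). So
`∫ j(f b) ψ ≤ ∫ j(f a) ψ + ∫_a^b ∫ evI ψ + B 16 δ L + (b - a) (B 16 δ L + B C₁ 2 √(2δ) δ⁻¹ 16 δ L)`,
(`j(f b) ψ (1 - η) ≤ B` on `A`) and the error tends to `0` as `δ → 0`.
(evI ψ is integrable in `x` for each `t` and its integral is interval integrable in `t`: bounded measurable with compact support; its only non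
continuous factor is `(2/rsq) rdr ψ`, measurable and bounded. One can use ti_int-like arguments for the continuous part, and for the product
`j(f) (2/rsq) rdr ψ` dominated convergence in `t` with the fixed integrable function `|(2/rsq) rdr ψ|`.)
-/
import Pool.Agent.H87.NS.LevT

set_option autoImplicit false

open Set Filter Topology MeasureTheory
open scoped ContDiff

namespace Pool.Agent.H87.NS

open Pool.Agent.H16

/-! ### the cutoff of one variable -/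

/-- the cutoff of one variable -/
noncomputable def EVe_th (y : ℝ) : ℝ := Real.smoothTransition (y - 1)

theorem EVe_th_smooth : ContDiff ℝ ∞ EVe_th :=
  Real.smoothTransition.contDiff.comp (contDiff_id.sub contDiff_const)

theorem EVe_th0 {y : ℝ} (h : y ≤ 1) : EVe_th y = 0 :=
  Real.smoothTransition.zero_of_nonpos (by linarith)

theorem EVe_th1 {y : ℝ} (h : 2 ≤ y) : EVe_th y = 1 :=
  Real.smoothTransition.one_of_one_le (by linarith)

theorem EVe_thn (y : ℝ) : 0 ≤ EVe_th y := Real.smoothTransition.nonneg _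

theorem EVe_thl (y : ℝ) : EVe_th y ≤ 1 := Real.smoothTransition.le_one _

theorem EVe_th_mono : Monotone EVe_th := fun a b h => Real.smoothTransition.monotone (by linarith)

theorem EVe_dthn (y : ℝ) : 0 ≤ deriv EVe_th y := EVe_th_mono.deriv_nonneg

theorem EVe_dth1 {y : ℝ} (h : 2 < y) : deriv EVe_th y = 0 := by
  have h1 : EVe_th =ᶠ[𝓝 y] fun _ => (1 : ℝ) := by
    filter_upwards [lt_mem_nhds h] with z hz
    exact EVe_th1 hz.le
  rw [h1.deriv_eq, deriv_const]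

theorem EVe_dth0 {y : ℝ} (h : y < 1) : deriv EVe_th y = 0 := by
  have h1 : EVe_th =ᶠ[𝓝 y] fun _ => (0 : ℝ) := by
    filter_upwards [gt_mem_nhds h] with z hz
    exact EVe_th0 hz.le
  rw [h1.deriv_eq, deriv_const]

theorem EVe_dthb : ∃ C : ℝ, 0 ≤ C ∧ ∀ y, |deriv EVe_th y| ≤ C := by
  have hc : Continuous (deriv EVe_th) := EVe_th_smooth.continuous_deriv (by simp)
  obtain ⟨C, hC⟩ := isCompact_Icc.exists_bound_of_continuousOn (hc.continuousOn (s := Icc 1 2))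
  refine ⟨|C|, abs_nonneg _, fun y => ?_⟩
  rcases lt_or_ge y 1 with h | h
  · rw [EVe_dth0 h, abs_zero]
    exact abs_nonneg _
  · rcases lt_or_ge 2 y with h' | h'
    · rw [EVe_dth1 h', abs_zero]
      exact abs_nonneg _
    · exact (hC y ⟨h, h'⟩).trans (le_abs_self C)

/-! ### the cutoff near the axis -/

theorem EVe_rsq_smooth : ContDiff ℝ ∞ (rsq : E3 → ℝ) := by
  unfold rsq
  fun_prop

theorem EVe_rsq_nonneg (x : E3) : 0 ≤ rsq x := by
  unfold rsq
  positivity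

theorem EVe_pd_rsq (i : Fin 3) (x : E3) : pd i rsq x = 2 * x 0 * e i 0 + 2 * x 1 * e i 1 := by
  have h0 : ∀ k : Fin 3, HasFDerivAt (fun y : E3 => y k) (EuclideanSpace.proj k : E3 →L[ℝ] ℝ) x :=
    fun k => (EuclideanSpace.proj k : E3 →L[ℝ] ℝ).hasFDerivAt
  have h := ((h0 0).pow 2).add ((h0 1).pow 2)
  have h1 : pd i rsq x = _ := congrArg (fun A : E3 →L[ℝ] ℝ => A (e i)) h.fderiv
  rw [h1]
  simp

/-- the cutoff near the axis -/
noncomputable def EVe_et (s : ℝ) (x : E3) : ℝ := EVe_th (rsq x / s ^ 2)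

theorem EVe_et_smooth (s : ℝ) : ContDiff ℝ ∞ (EVe_et s) :=
  EVe_th_smooth.comp (EVe_rsq_smooth.div_const _)

theorem EVe_pd_et (s : ℝ) (i : Fin 3) (x : E3) :
    pd i (EVe_et s) x = deriv EVe_th (rsq x / s ^ 2) / s ^ 2 * (2 * x 0 * e i 0 + 2 * x 1 * e i 1) := by
  have hH : ContDiff ℝ 1 (fun y : ℝ => EVe_th (y / s ^ 2)) :=
    (EVe_th_smooth.comp (contDiff_id.div_const _)).of_le (by simp)
  have h := comp_pd (f := rsq) (H := fun y : ℝ => EVe_th (y / s ^ 2))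
    (EVe_rsq_smooth.of_le (by simp)) hH i x
  have h1 : deriv (fun y : ℝ => EVe_th (y / s ^ 2)) (rsq x) = deriv EVe_th (rsq x / s ^ 2) / s ^ 2 := by
    have h2 : HasDerivAt EVe_th (deriv EVe_th (rsq x / s ^ 2)) (rsq x / s ^ 2) :=
      (EVe_th_smooth.differentiable (by simp)).differentiableAt.hasDerivAt
    have h3 := h2.comp (rsq x) ((hasDerivAt_id (rsq x)).div_const (s ^ 2))
    have h4 := h3.deriv
    rw [mul_one_div] at h4
    exact h4
  rw [h1, EVe_pd_rsq] at h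
  exact h

theorem EVe_rdr_et (s : ℝ) (x : E3) :
    rdr (EVe_et s) x = deriv EVe_th (rsq x / s ^ 2) / s ^ 2 * (2 * rsq x) := by
  unfold rdr
  rw [EVe_pd_et, EVe_pd_et]
  simp only [e_apply]
  unfold rsq
  simp
  ring

theorem EVe_x0 (x : E3) : |x 0| ≤ √(rsq x) := by
  apply Real.abs_le_sqrt
  unfold rsq
  nlinarith [sq_nonneg (x 1)]

theorem EVe_x1 (x : E3) : |x 1| ≤ √(rsq x) := by
  apply Real.abs_le_sqrt
  unfold rsq
  nlinarith [sq_nonneg (x 0)]

theorem EVe_pd_et_bd {C : ℝ} (hC : ∀ y, |deriv EVe_th y| ≤ C) {s : ℝ} (hs : 0 < s) (i : Fin 3)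
    (x : E3) : |pd i (EVe_et s) x| ≤ 4 * C / s := by
  have hC0 : 0 ≤ C := (abs_nonneg _).trans (hC 0)
  rcases lt_or_ge (2 * s ^ 2) (rsq x) with h | h
  · have h1 : 2 < rsq x / s ^ 2 := by rw [lt_div_iff₀ (by positivity)]; exact h
    rw [EVe_pd_et, EVe_dth1 h1, zero_div, zero_mul, abs_zero]
    positivity
  · have h2 : √(rsq x) ≤ 2 * s := by
      rw [Real.sqrt_le_left (by positivity)]
      nlinarith [sq_nonneg s]
    have h3 : |2 * x 0 * e i 0 + 2 * x 1 * e i 1| ≤ 4 * s := by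
      have h4 := (EVe_x0 x).trans h2
      have h5 := (EVe_x1 x).trans h2
      rw [abs_le] at h4 h5 ⊢
      simp only [e_apply]
      fin_cases i <;> simp <;> first | exact hs.le | (constructor <;> linarith [h4.1, h4.2, h5.1, h5.2])
    rw [EVe_pd_et, abs_mul, abs_div, abs_of_pos (by positivity : 0 < s ^ 2)]
    calc |deriv EVe_th (rsq x / s ^ 2)| / s ^ 2 * |2 * x 0 * e i 0 + 2 * x 1 * e i 1|
        ≤ C / s ^ 2 * (4 * s) := by
          gcongr
          exact hC _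
      _ = 4 * C / s := by
          field_simp

/-! ### bounds -/

theorem EVe_K {T : ℝ} {u : ℝ → E3 → E3} {f G : ℝ → E3 → ℝ} (hu : Drift T u) (hf : Evo T u f G)
    {j : ℝ → ℝ} (hj : JFun j) {b : ℝ} (hb : b < T) :
    ∃ K : ℝ, 0 ≤ K ∧ ∀ t ∈ Icc 0 b, ∀ x, |f t x| ≤ K ∧ (∀ i, |pd i (f t) x| ≤ K) ∧ |G t x| ≤ K ∧
      (∀ i, |u t x i| ≤ K) ∧ |j (f t x)| ≤ K ∧ |deriv j (f t x)| ≤ K ∧
      |deriv (deriv j) (f t x)| ≤ K := by
  obtain ⟨K1, h1⟩ := hf.bd b hb
  obtain ⟨K2, h2⟩ := hu.bd b hb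
  obtain ⟨C, hC0, hC⟩ := jfun_bd hj |K1|
  refine ⟨|K1| + |K2| + C * |K1| ^ 2 + C * |K1| + C, by positivity, fun t ht x => ?_⟩
  obtain ⟨⟨g1, g2⟩, g3⟩ := h1 t ht
  have f1 : |f t x| ≤ |K1| := (g1.1 x).trans (le_abs_self _)
  have f2 : ∀ i, |pd i (f t) x| ≤ |K1| := fun i => ((g2 i).1 x).trans (le_abs_self _)
  have f3 : |G t x| ≤ |K1| := (g3.1 x).trans (le_abs_self _)
  have f4 : ∀ i, |u t x i| ≤ |K2| := fun i => by
    have h5 := PiLp.norm_apply_le (u t x) i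
    rw [Real.norm_eq_abs] at h5
    exact h5.trans ((h2 t ht x).trans (le_abs_self _))
  obtain ⟨c1, c2, c3⟩ := hC (f t x) f1
  have f5 : |j (f t x)| ≤ C * |K1| ^ 2 := by
    rw [abs_of_nonneg (jfun_nonneg hj _)]
    refine c1.trans (mul_le_mul_of_nonneg_left ?_ hC0)
    rw [← sq_abs]
    exact pow_le_pow_left₀ (abs_nonneg _) f1 2
  have f6 : |deriv j (f t x)| ≤ C * |K1| := c2.trans (mul_le_mul_of_nonneg_left f1 hC0)
  have f7 : |deriv (deriv j) (f t x)| ≤ C := by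
    rw [abs_of_nonneg (hj.convex _)]
    exact c3
  have p1 : 0 ≤ |K1| := abs_nonneg _
  have p2 : 0 ≤ |K2| := abs_nonneg _
  have p3 : 0 ≤ C * |K1| ^ 2 := by positivity
  have p4 : 0 ≤ C * |K1| := by positivity
  refine ⟨by linarith, fun i => ?_, by linarith, fun i => ?_, by linarith, by linarith, by linarith⟩
  · linarith [f2 i]
  · linarith [f4 i]

theorem EVe_phi {φ : E3 → ℝ} (hφ : ContDiff ℝ ∞ φ) (hc : HasCompactSupport φ) :
    ∃ P L : ℝ, 0 ≤ P ∧ 0 ≤ L ∧ (∀ x, |φ x| ≤ P ∧ ∀ i, |pd i φ x| ≤ P) ∧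
      ∀ x, L < ‖x‖ → φ x = 0 ∧ ∀ i, pd i φ x = 0 := by
  obtain ⟨L, hL⟩ := hc.isCompact.isBounded.subset_closedBall (0 : E3)
  have hz : ∀ x, |L| < ‖x‖ → φ x = 0 ∧ ∀ i, pd i φ x = 0 := by
    intro x hx
    have h1 : x ∉ tsupport φ := by
      intro h2
      have h3 := hL h2
      rw [mem_closedBall_zero_iff] at h3
      exact absurd (h3.trans (le_abs_self L)) (not_le.2 hx)
    refine ⟨image_eq_zero_of_notMem_tsupport h1, fun i => ?_⟩
    unfold pd
    rw [fderiv_of_notMem_tsupport ℝ h1]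
    rfl
  have hb : ∀ g : E3 → ℝ, Continuous g → (∀ x, |L| < ‖x‖ → g x = 0) → ∃ P : ℝ, 0 ≤ P ∧ ∀ x, |g x| ≤ P := by
    intro g hg hg0
    obtain ⟨P, hP⟩ := (isCompact_closedBall (0 : E3) |L|).exists_bound_of_continuousOn hg.continuousOn
    refine ⟨|P|, abs_nonneg _, fun x => ?_⟩
    rcases lt_or_ge |L| ‖x‖ with h | h
    · rw [hg0 x h, abs_zero]
      exact abs_nonneg _
    · exact (hP x (mem_closedBall_zero_iff.2 h)).trans (le_abs_self P)
  obtain ⟨P0, hP0, h0⟩ := hb φ hφ.continuous fun x hx => (hz x hx).1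
  have h1 : ∀ i : Fin 3, ∃ P : ℝ, 0 ≤ P ∧ ∀ x, |pd i φ x| ≤ P := fun i =>
    hb (pd i φ) (pd_smooth hφ i).continuous fun x hx => (hz x hx).2 i
  choose P1 hP1 h1 using h1
  refine ⟨P0 + ∑ i, P1 i, |L|, ?_, abs_nonneg _, fun x => ⟨?_, fun i => ?_⟩, hz⟩
  · have := Finset.sum_nonneg fun i (_ : i ∈ Finset.univ) => hP1 i
    linarith
  · have := Finset.sum_nonneg fun i (_ : i ∈ Finset.univ) => hP1 i
    linarith [h0 x]
  · have := Finset.single_le_sum (f := P1) (fun k _ => hP1 k) (Finset.mem_univ i)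
    linarith [h1 i x]

theorem EVe_abs (a g p d G S c A Q : ℝ) :
    |-a * g * p + d * G * p - d * S + c * (A - Q)| ≤
      |a| * |g| * |p| + |d| * |G| * |p| + |d| * |S| + |c| * (|A| + |Q|) := by
  have h1 : |-a * g * p + d * G * p - d * S + c * (A - Q)| ≤
      |-a * g * p + d * G * p - d * S| + |c * (A - Q)| := abs_add_le _ _
  have h2 : |-a * g * p + d * G * p - d * S| ≤ |-a * g * p + d * G * p| + |d * S| := abs_sub _ _
  have h3 : |-a * g * p + d * G * p| ≤ |-a * g * p| + |d * G * p| := abs_add_le _ _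
  have h4 : |c * (A - Q)| ≤ |c| * (|A| + |Q|) := by
    rw [abs_mul]
    exact mul_le_mul_of_nonneg_left (abs_sub _ _) (abs_nonneg _)
  rw [abs_mul, abs_mul, abs_neg] at h3
  rw [abs_mul, abs_mul] at h3
  rw [abs_mul] at h2
  linarith

theorem EVe_sum3 (a c : Fin 3 → ℝ) {K P : ℝ} (hK : 0 ≤ K) (ha : ∀ i, |a i| ≤ K) (hc : ∀ i, |c i| ≤ P) :
    |∑ i, a i * c i| ≤ 3 * (K * P) := by
  calc |∑ i, a i * c i| ≤ ∑ i : Fin 3, |a i * c i| := Finset.abs_sum_le_sum_abs _ _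
    _ ≤ ∑ _i : Fin 3, K * P := Finset.sum_le_sum fun i _ => by
        rw [abs_mul]
        exact mul_le_mul (ha i) (hc i) (abs_nonneg _) hK
    _ = 3 * (K * P) := by simp

theorem EVe_evb {K P C : ℝ} (hK : 0 ≤ K) (hP : 0 ≤ P) {j : ℝ → ℝ} {v : E3 → E3} {f G φ : E3 → ℝ} {x : E3}
    (h1 : ∀ i, |pd i f x| ≤ K) (h2 : |G x| ≤ K) (h3 : ∀ i, |v x i| ≤ K) (h4 : |j (f x)| ≤ K)
    (h5 : |deriv j (f x)| ≤ K) (h6 : |deriv (deriv j) (f x)| ≤ K) (h7 : |φ x| ≤ P)
    (h8 : ∀ i, |pd i φ x| ≤ P) (h9 : |rdr φ x| ≤ C * rsq x) :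
    |evI j v f G φ x| ≤ K * (3 * (K * K)) * P + K * K * P + K * (3 * (K * P)) +
      K * (3 * (K * P) + 2 * |C|) := by
  unfold evI
  refine (EVe_abs _ _ _ _ _ _ _ _ _).trans ?_
  have g1 : |gsq f x| ≤ 3 * (K * K) := by
    have h := EVe_sum3 (fun i => pd i f x) (fun i => pd i f x) hK h1 h1
    have h' : gsq f x = ∑ i, pd i f x * pd i f x := by
      unfold gsq
      exact Finset.sum_congr rfl fun i _ => pow_two _
    rw [h']
    exact h
  have g2 : |∑ i, pd i f x * pd i φ x| ≤ 3 * (K * P) :=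
    EVe_sum3 (fun i => pd i f x) (fun i => pd i φ x) hK h1 h8
  have g3 : |adv (v x) φ x| ≤ 3 * (K * P) :=
    EVe_sum3 (fun i => v x i) (fun i => pd i φ x) hK h3 h8
  have g4 : |2 / rsq x * rdr φ x| ≤ 2 * |C| := by
    rcases (EVe_rsq_nonneg x).eq_or_lt with h | h
    · rw [← h, div_zero, zero_mul, abs_zero]
      positivity
    · rw [abs_mul, abs_of_pos (div_pos two_pos h)]
      calc 2 / rsq x * |rdr φ x| ≤ 2 / rsq x * (|C| * rsq x) := by
            gcongr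
            exact h9.trans (mul_le_mul_of_nonneg_right (le_abs_self C) h.le)
        _ = 2 * |C| := by field_simp
  gcongr

/-! ### continuity -/

theorem EVe_ct {T : ℝ} {g : ℝ → E3 → ℝ} (hg : JC T g) {b : ℝ} (hb : b < T) (x : E3) :
    ContinuousOn (fun t => g t x) (Icc 0 b) := by
  have h : ContinuousOn (fun t : ℝ => ((t, x) : ℝ × E3)) (Icc 0 b) := by fun_prop
  exact ContinuousOn.comp (g := fun q : ℝ × E3 => g q.1 q.2) (f := fun t : ℝ => (t, x)) hg h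
    fun t ht => ⟨⟨ht.1, ht.2.trans_lt hb⟩, mem_univ _⟩

theorem EVe_cx {T : ℝ} {g : ℝ → E3 → ℝ} (hg : JC T g) {t : ℝ} (ht : t ∈ Ico 0 T) :
    Continuous (g t) := by
  have h : Continuous (fun x : E3 => ((t, x) : ℝ × E3)) := by fun_prop
  have h1 : ContinuousOn (fun x : E3 => g t x) univ :=
    ContinuousOn.comp (g := fun q : ℝ × E3 => g q.1 q.2) (f := fun x : E3 => (t, x)) hg h.continuousOn
      fun x _ => ⟨ht, mem_univ _⟩
  exact continuousOn_univ.1 h1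

theorem EVe_dj {j : ℝ → ℝ} (hj : JFun j) : Continuous (deriv j) ∧ Continuous (deriv (deriv j)) := by
  have h1 : ContDiff ℝ ∞ (deriv j) := by
    have := hj.smooth
    exact ((contDiff_infty_iff_deriv).1 this).2
  exact ⟨h1.continuous, ((contDiff_infty_iff_deriv).1 h1).2.continuous⟩

theorem EVe_adv_cont {v : E3 → E3} {φ : E3 → ℝ} (hv : Continuous v) (hφ : ContDiff ℝ ∞ φ) :
    Continuous fun x => adv (v x) φ x := by
  unfold adv
  refine continuous_finset_sum _ fun i _ => ?_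
  have h1 : Continuous fun x => v x i := (EuclideanSpace.proj i : E3 →L[ℝ] ℝ).continuous.comp hv
  exact h1.mul (pd_smooth hφ i).continuous

theorem EVe_rdr_cont {φ : E3 → ℝ} (hφ : ContDiff ℝ ∞ φ) : Continuous (rdr φ) := by
  unfold rdr
  have h0 : ∀ i : Fin 3, Continuous fun x : E3 => x i :=
    fun i => (EuclideanSpace.proj i : E3 →L[ℝ] ℝ).continuous
  exact ((h0 0).mul (pd_smooth hφ 0).continuous).add ((h0 1).mul (pd_smooth hφ 1).continuous)

theorem EVe_meas {T : ℝ} {u : ℝ → E3 → E3} {f G : ℝ → E3 → ℝ} (hu : Drift T u) (hf : Evo T u f G)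
    {j : ℝ → ℝ} (hj : JFun j) {φ : E3 → ℝ} (hφ : ContDiff ℝ ∞ φ) {t : ℝ} (ht : t ∈ Ico 0 T) :
    Measurable fun x => evI j (u t) (f t) (G t) φ x := by
  obtain ⟨d1, d2⟩ := EVe_dj hj
  have cf : Continuous (f t) := (hf.smooth t ht).continuous
  have cg : ∀ i, Continuous (pd i (f t)) := fun i => (pd_smooth (hf.smooth t ht) i).continuous
  have cG : Continuous (G t) := EVe_cx hf.contG ht
  have cu : Continuous (u t) := (hu.smooth t ht).continuous
  have c1 : Continuous fun x => gsq (f t) x := by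
    unfold gsq
    exact continuous_finset_sum _ fun i _ => (cg i).pow 2
  have c2 : Continuous fun x => ∑ i, pd i (f t) x * pd i φ x :=
    continuous_finset_sum _ fun i _ => (cg i).mul (pd_smooth hφ i).continuous
  have c3 : Continuous fun x => -deriv (deriv j) (f t x) * gsq (f t) x * φ x +
      deriv j (f t x) * G t x * φ x - deriv j (f t x) * (∑ i, pd i (f t) x * pd i φ x) :=
    (((((d2.comp cf).neg).mul c1).mul hφ.continuous).add
      (((d1.comp cf).mul cG).mul hφ.continuous)).sub ((d1.comp cf).mul c2)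
  unfold evI
  refine c3.measurable.add ((hj.smooth.continuous.comp cf).measurable.mul
    ((EVe_adv_cont cu hφ).measurable.sub ?_))
  exact (measurable_const.div EVe_rsq_smooth.continuous.measurable).mul (EVe_rdr_cont hφ).measurable

theorem EVe_tcont {T : ℝ} {u : ℝ → E3 → E3} {f G : ℝ → E3 → ℝ} (hu : Drift T u) (hf : Evo T u f G)
    {j : ℝ → ℝ} (hj : JFun j) {φ : E3 → ℝ} {b : ℝ} (hb : b < T) (x : E3) :
    ContinuousOn (fun t => evI j (u t) (f t) (G t) φ x) (Icc 0 b) := by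
  obtain ⟨d1, d2⟩ := EVe_dj hj
  have cf : ContinuousOn (fun t => f t x) (Icc 0 b) := EVe_ct hf.cont hb x
  have cg : ∀ i, ContinuousOn (fun t => pd i (f t) x) (Icc 0 b) := fun i => EVe_ct (hf.contd i) hb x
  have cG : ContinuousOn (fun t => G t x) (Icc 0 b) := EVe_ct hf.contG hb x
  have cu : ∀ i, ContinuousOn (fun t => u t x i) (Icc 0 b) := fun i => by
    have h : JC T (fun t y => u t y i) :=
      (EuclideanSpace.proj i : E3 →L[ℝ] ℝ).continuous.comp_continuousOn hu.cont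
    exact EVe_ct h hb x
  have c1 : ContinuousOn (fun t => gsq (f t) x) (Icc 0 b) := by
    unfold gsq
    exact continuousOn_finset_sum _ fun i _ => (cg i).pow 2
  have c2 : ContinuousOn (fun t => ∑ i, pd i (f t) x * pd i φ x) (Icc 0 b) :=
    continuousOn_finset_sum _ fun i _ => (cg i).mul continuousOn_const
  have c3 : ContinuousOn (fun t => adv (u t x) φ x) (Icc 0 b) := by
    unfold adv
    exact continuousOn_finset_sum _ fun i _ => (cu i).mul continuousOn_const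
  unfold evI
  exact ((((((d2.comp_continuousOn cf).neg).mul c1).mul continuousOn_const).add
      (((d1.comp_continuousOn cf).mul cG).mul continuousOn_const)).sub
      ((d1.comp_continuousOn cf).mul c2)).add
    ((hj.smooth.continuous.comp_continuousOn cf).mul (c3.sub continuousOn_const))

theorem EVe_dom {B L : ℝ} : Integrable ((Metric.closedBall (0 : E3) L).indicator fun _ => B) := by
  rw [integrable_indicator_iff Metric.isClosed_closedBall.measurableSet]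
  exact integrableOn_const (isCompact_closedBall (0 : E3) L).measure_lt_top.ne

theorem EVe_le {g : E3 → ℝ} {B L : ℝ} (hB : ∀ x, |g x| ≤ B) (hz : ∀ x, L < ‖x‖ → g x = 0) (x : E3) :
    ‖g x‖ ≤ (Metric.closedBall (0 : E3) L).indicator (fun _ => B) x := by
  rcases lt_or_ge L ‖x‖ with h | h
  · rw [hz x h, indicator_of_notMem (fun h' => absurd (mem_closedBall_zero_iff.1 h') (not_le.2 h)),
      norm_zero]
  · rw [indicator_of_mem (mem_closedBall_zero_iff.2 h), Real.norm_eq_abs]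
    exact hB x

theorem EVe_int {g : E3 → ℝ} {B L : ℝ} (hm : Measurable g) (hB : ∀ x, |g x| ≤ B)
    (hz : ∀ x, L < ‖x‖ → g x = 0) : Integrable g :=
  Integrable.mono' EVe_dom hm.aestronglyMeasurable (Eventually.of_forall (EVe_le hB hz))

theorem EVe_cont {Φ : ℝ → E3 → ℝ} {B L b : ℝ} (hm : ∀ t ∈ Icc 0 b, Measurable (Φ t))
    (hB : ∀ t ∈ Icc 0 b, ∀ x, |Φ t x| ≤ B) (hz : ∀ t ∈ Icc 0 b, ∀ x, L < ‖x‖ → Φ t x = 0)
    (hc : ∀ x, ContinuousOn (fun t => Φ t x) (Icc 0 b)) :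
    ContinuousOn (fun t => ∫ x, Φ t x) (Icc 0 b) :=
  continuousOn_of_dominated (fun t ht => (hm t ht).aestronglyMeasurable)
    (fun t ht => Eventually.of_forall (EVe_le (hB t ht) (hz t ht))) EVe_dom
    (Eventually.of_forall hc)

theorem EVe_area {g : E3 → ℝ} {c δ L : ℝ} (hg : Integrable g) (hc : 0 ≤ c) (hδ : 0 ≤ δ) (hL : 0 ≤ L)
    (h1 : ∀ x, rsq x ≤ δ → ‖x‖ ≤ L → g x ≤ c) (h2 : ∀ x, ¬ (rsq x ≤ δ ∧ ‖x‖ ≤ L) → g x ≤ 0) :
    ∫ x, g x ≤ c * (8 * δ * L) := by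
  have hm : MeasurableSet {x : E3 | rsq x ≤ δ ∧ ‖x‖ ≤ L} := by
    apply IsClosed.measurableSet
    exact (isClosed_le EVe_rsq_smooth.continuous continuous_const).inter
      (isClosed_le continuous_norm continuous_const)
  have hv := vol_axis hδ hL
  have hfin : volume {x : E3 | rsq x ≤ δ ∧ ‖x‖ ≤ L} ≠ ⊤ := (hv.trans_lt ENNReal.ofReal_lt_top).ne
  have hi : Integrable ({x : E3 | rsq x ≤ δ ∧ ‖x‖ ≤ L}.indicator fun _ => c) := by
    rw [integrable_indicator_iff hm]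
    exact integrableOn_const hfin
  have h3 : ∫ x, g x ≤ ∫ x, {x : E3 | rsq x ≤ δ ∧ ‖x‖ ≤ L}.indicator (fun _ => c) x := by
    refine integral_mono hg hi fun x => ?_
    by_cases hx : rsq x ≤ δ ∧ ‖x‖ ≤ L
    · rw [indicator_of_mem (show x ∈ {x : E3 | rsq x ≤ δ ∧ ‖x‖ ≤ L} from hx)]
      exact h1 x hx.1 hx.2
    · rw [indicator_of_notMem (show x ∉ {x : E3 | rsq x ≤ δ ∧ ‖x‖ ≤ L} from hx)]
      exact h2 x hx
  rw [integral_indicator_const _ hm, smul_eq_mul] at h3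
  have h4 : volume.real {x : E3 | rsq x ≤ δ ∧ ‖x‖ ≤ L} ≤ 8 * δ * L := by
    refine ENNReal.toReal_le_of_le_ofReal (by positivity) hv
  calc ∫ x, g x ≤ volume.real {x : E3 | rsq x ≤ δ ∧ ‖x‖ ≤ L} * c := h3
    _ ≤ 8 * δ * L * c := mul_le_mul_of_nonneg_right h4 hc
    _ = c * (8 * δ * L) := mul_comm _ _

/-! ### the product with the cutoff -/

theorem EVe_pd_mul {p q : E3 → ℝ} (hp : ContDiff ℝ ∞ p) (hq : ContDiff ℝ ∞ q) (i : Fin 3) (x : E3) :
    pd i (fun y => p y * q y) x = pd i p x * q x + p x * pd i q x := by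
  unfold pd
  rw [fderiv_fun_mul (hp.differentiable (by simp)).differentiableAt
    (hq.differentiable (by simp)).differentiableAt]
  simp
  ring

theorem EVe_rdr_mul {p q : E3 → ℝ} (hp : ContDiff ℝ ∞ p) (hq : ContDiff ℝ ∞ q) (x : E3) :
    rdr (fun y => p y * q y) x = rdr p x * q x + p x * rdr q x := by
  unfold rdr
  rw [EVe_pd_mul hp hq, EVe_pd_mul hp hq]
  ring

theorem EVe_alg {j : ℝ → ℝ} {v : E3 → E3} {f G p q : E3 → ℝ} (hp : ContDiff ℝ ∞ p)
    (hq : ContDiff ℝ ∞ q) (x : E3) :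
    evI j v f G (fun y => p y * q y) x = q x * evI j v f G p x +
      p x * (-(deriv j (f x) * ∑ i, pd i f x * pd i q x) + j (f x) * adv (v x) q x) -
      j (f x) * p x * (2 / rsq x * rdr q x) := by
  unfold evI adv rdr
  simp only [Fin.sum_univ_three, EVe_pd_mul hp hq]
  ring

theorem EVe_evz {j : ℝ → ℝ} {v : E3 → E3} {f G p : E3 → ℝ} {x : E3} (h1 : p x = 0)
    (h2 : ∀ i, pd i p x = 0) : evI j v f G p x = 0 := by
  unfold evI adv rdr
  simp [h1, h2]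

theorem EVe_far {s : ℝ} (hs : 0 < s) {x : E3} (h : 2 * s ^ 2 < rsq x) :
    EVe_et s x = 1 ∧ ∀ i, pd i (EVe_et s) x = 0 := by
  have h1 : 2 < rsq x / s ^ 2 := by rw [lt_div_iff₀ (by positivity)]; exact h
  refine ⟨EVe_th1 h1.le, fun i => ?_⟩
  rw [EVe_pd_et, EVe_dth1 h1, zero_div, zero_mul]

theorem EVe_rdrb {ψ : E3 → ℝ} (hψ : ContDiff ℝ ∞ ψ) {C P C1 s : ℝ} (hC : ∀ x, |rdr ψ x| ≤ C * rsq x)
    (hP : ∀ x, |ψ x| ≤ P) (hC1 : ∀ y, |deriv EVe_th y| ≤ C1) (x : E3) :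
    |rdr (fun y => ψ y * EVe_et s y) x| ≤ (C + P * (C1 / s ^ 2 * 2)) * rsq x := by
  rw [EVe_rdr_mul hψ (EVe_et_smooth s), EVe_rdr_et]
  have hP0 : 0 ≤ P := (abs_nonneg _).trans (hP x)
  have h1 : |rdr ψ x * EVe_et s x| ≤ C * rsq x := by
    have hn : 0 ≤ EVe_et s x := EVe_thn _
    rw [abs_mul, abs_of_nonneg hn]
    calc |rdr ψ x| * EVe_et s x ≤ |rdr ψ x| * 1 :=
          mul_le_mul_of_nonneg_left (EVe_thl _) (abs_nonneg _)
      _ ≤ C * rsq x := by rw [mul_one]; exact hC x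
  have h2 : |ψ x * (deriv EVe_th (rsq x / s ^ 2) / s ^ 2 * (2 * rsq x))| ≤
      P * (C1 / s ^ 2 * 2) * rsq x := by
    rw [abs_mul, abs_mul, abs_div, abs_of_nonneg (by positivity : 0 ≤ s ^ 2),
      abs_of_nonneg (mul_nonneg two_pos.le (EVe_rsq_nonneg x) : 0 ≤ 2 * rsq x)]
    have h3 := EVe_rsq_nonneg x
    calc |ψ x| * (|deriv EVe_th (rsq x / s ^ 2)| / s ^ 2 * (2 * rsq x))
        ≤ P * (C1 / s ^ 2 * (2 * rsq x)) := by
          gcongr
          · exact hP x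
          · exact hC1 _
      _ = P * (C1 / s ^ 2 * 2) * rsq x := by ring
  refine (abs_add_le _ _).trans ?_
  rw [add_mul]
  exact add_le_add h1 h2

theorem EVe_pt {K P C1 B s : ℝ} (hK : 0 ≤ K) (hP : 0 ≤ P) (hC1 : ∀ y, |deriv EVe_th y| ≤ C1)
    (hs : 0 < s) {j : ℝ → ℝ} {v : E3 → E3} {f G ψ : E3 → ℝ} (hψ : ContDiff ℝ ∞ ψ) {x : E3}
    (h1 : ∀ i, |pd i f x| ≤ K) (h3 : ∀ i, |v x i| ≤ K) (h4 : |j (f x)| ≤ K)
    (h5 : |deriv j (f x)| ≤ K) (h7 : |ψ x| ≤ P) (h8 : 0 ≤ ψ x) (h9 : 0 ≤ j (f x))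
    (hB : |evI j v f G ψ x| ≤ B) :
    evI j v f G (fun y => ψ y * EVe_et s y) x - evI j v f G ψ x ≤ B + 24 * P * K * K * C1 / s := by
  rw [EVe_alg hψ (EVe_et_smooth s)]
  have hC0 : 0 ≤ C1 := (abs_nonneg _).trans (hC1 0)
  have hn : 0 ≤ EVe_et s x := EVe_thn _
  have hl : EVe_et s x ≤ 1 := EVe_thl _
  have a1 : EVe_et s x * evI j v f G ψ x - evI j v f G ψ x ≤ B := by
    have e1 : EVe_et s x * evI j v f G ψ x - evI j v f G ψ x =
        (1 - EVe_et s x) * (-evI j v f G ψ x) := by ring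
    rw [e1]
    calc (1 - EVe_et s x) * (-evI j v f G ψ x) ≤ (1 - EVe_et s x) * |evI j v f G ψ x| :=
          mul_le_mul_of_nonneg_left (neg_le_abs _) (by linarith)
      _ ≤ 1 * |evI j v f G ψ x| := mul_le_mul_of_nonneg_right (by linarith) (abs_nonneg _)
      _ ≤ B := by rw [one_mul]; exact hB
  have hpd := fun i => EVe_pd_et_bd hC1 hs i x
  have a2 : |∑ i, pd i f x * pd i (EVe_et s) x| ≤ 3 * (K * (4 * C1 / s)) :=
    EVe_sum3 (fun i => pd i f x) (fun i => pd i (EVe_et s) x) hK h1 hpd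
  have a3 : |adv (v x) (EVe_et s) x| ≤ 3 * (K * (4 * C1 / s)) :=
    EVe_sum3 (fun i => v x i) (fun i => pd i (EVe_et s) x) hK h3 hpd
  have a4 : ψ x * (-(deriv j (f x) * ∑ i, pd i f x * pd i (EVe_et s) x) +
      j (f x) * adv (v x) (EVe_et s) x) ≤ 24 * P * K * K * C1 / s := by
    have b1 : |-(deriv j (f x) * ∑ i, pd i f x * pd i (EVe_et s) x) +
        j (f x) * adv (v x) (EVe_et s) x| ≤ K * (3 * (K * (4 * C1 / s))) + K * (3 * (K * (4 * C1 / s))) := by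
      refine (abs_add_le _ _).trans ?_
      rw [abs_neg, abs_mul, abs_mul]
      exact add_le_add (mul_le_mul h5 a2 (abs_nonneg _) hK) (mul_le_mul h4 a3 (abs_nonneg _) hK)
    calc ψ x * (-(deriv j (f x) * ∑ i, pd i f x * pd i (EVe_et s) x) +
          j (f x) * adv (v x) (EVe_et s) x)
        ≤ |ψ x| * |-(deriv j (f x) * ∑ i, pd i f x * pd i (EVe_et s) x) +
          j (f x) * adv (v x) (EVe_et s) x| := by
          rw [← abs_mul]
          exact le_abs_self _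
      _ ≤ P * (K * (3 * (K * (4 * C1 / s))) + K * (3 * (K * (4 * C1 / s)))) :=
          mul_le_mul h7 b1 (abs_nonneg _) hP
      _ = 24 * P * K * K * C1 / s := by ring
  have a5 : 0 ≤ j (f x) * ψ x * (2 / rsq x * rdr (EVe_et s) x) := by
    rw [EVe_rdr_et]
    have r1 := EVe_rsq_nonneg x
    have r2 := EVe_dthn (rsq x / s ^ 2)
    positivity
  linarith

/-- the estimate with the cutoff -/
theorem EVe_est {T : ℝ} {u : ℝ → E3 → E3} {f G : ℝ → E3 → ℝ} (hu : Drift T u) (hf : Evo T u f G)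
    {j : ℝ → ℝ} (hj : JFun j) {ψ : E3 → ℝ} (hψ : ContDiff ℝ ∞ ψ) (hc : HasCompactSupport ψ)
    (hψ0 : ∀ x, 0 ≤ ψ x) {C : ℝ} (hC : ∀ x, |rdr ψ x| ≤ C * rsq x) {a b : ℝ} (ha : 0 ≤ a)
    (hab : a ≤ b) (hb : b < T) :
    ∃ M : ℝ, 0 ≤ M ∧ ∀ s, 0 < s → s ≤ 1 →
      ∫ x, j (f b x) * ψ x ≤ ((∫ x, j (f a x) * ψ x) + ∫ t in a..b, ∫ x, evI j (u t) (f t) (G t) ψ x) +
        M * s := by
  obtain ⟨K, hK0, hK⟩ := EVe_K hu hf hj hb
  obtain ⟨P, L, hP0, hL0, hP, hPz⟩ := EVe_phi hψ hc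
  obtain ⟨C1, hC10, hC1⟩ := EVe_dthb
  obtain ⟨B, hBdef⟩ : ∃ B : ℝ, B = K * (3 * (K * K)) * P + K * K * P + K * (3 * (K * P)) +
      K * (3 * (K * P) + 2 * |C|) := ⟨_, rfl⟩
  have hB0 : 0 ≤ B := by rw [hBdef]; positivity
  have hIcc : ∀ t ∈ Icc a b, t ∈ Icc 0 b := fun t ht => ⟨ha.trans ht.1, ht.2⟩
  have hIco : ∀ t ∈ Icc 0 b, t ∈ Ico 0 T := fun t ht => ⟨ht.1, ht.2.trans_lt hb⟩
  have hEb : ∀ t ∈ Icc 0 b, ∀ x, |evI j (u t) (f t) (G t) ψ x| ≤ B := by
    intro t ht x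
    obtain ⟨k1, k2, k3, k4, k5, k6, k7⟩ := hK t ht x
    rw [hBdef]
    exact EVe_evb hK0 hP0 k2 k3 k4 k5 k6 k7 (hP x).1 (hP x).2 (hC x)
  have hEz : ∀ t ∈ Icc 0 b, ∀ x, L < ‖x‖ → evI j (u t) (f t) (G t) ψ x = 0 :=
    fun t _ x hx => EVe_evz (hPz x hx).1 (hPz x hx).2
  have hEm : ∀ t ∈ Icc 0 b, Measurable fun x => evI j (u t) (f t) (G t) ψ x :=
    fun t ht => EVe_meas hu hf hj hψ (hIco t ht)
  have hE1 : ContinuousOn (fun t => ∫ x, evI j (u t) (f t) (G t) ψ x) (Icc 0 b) :=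
    EVe_cont hEm hEb hEz (fun x => EVe_tcont hu hf hj hb x)
  have hM0 : 0 ≤ 24 * P * K * K * C1 := by positivity
  refine ⟨K * P * (16 * L) + (b - a) * ((B + 24 * P * K * K * C1) * (16 * L)), ?_, ?_⟩
  · have := sub_nonneg.2 hab
    positivity
  intro s hs hs1
  have hφ : ContDiff ℝ ∞ (fun y => ψ y * EVe_et s y) := hψ.mul (EVe_et_smooth s)
  have hφc : HasCompactSupport (fun y => ψ y * EVe_et s y) := hc.mul_right
  have hax : ∀ x, rsq x < s ^ 2 → ψ x * EVe_et s x = 0 := by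
    intro x hx
    have h1 : rsq x / s ^ 2 ≤ 1 := by rw [div_le_one (by positivity)]; exact hx.le
    have h2 : EVe_et s x = 0 := EVe_th0 h1
    rw [h2, mul_zero]
  have hlev := lev hu hf hj.smooth hφ hφc (pow_pos hs 2) hax ha hab hb
  have hz2 : ∀ x, L < ‖x‖ → ψ x * EVe_et s x = 0 ∧ ∀ i, pd i (fun y => ψ y * EVe_et s y) x = 0 := by
    intro x hx
    refine ⟨by rw [(hPz x hx).1, zero_mul], fun i => ?_⟩
    rw [EVe_pd_mul hψ (EVe_et_smooth s), (hPz x hx).1, (hPz x hx).2 i, zero_mul, zero_mul, add_zero]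
  have hC2 := EVe_rdrb (s := s) hψ hC (fun x => (hP x).1) hC1
  obtain ⟨P', L', hP0', hL0', hP', hPz'⟩ := EVe_phi hφ hφc
  have hFb : ∀ t ∈ Icc 0 b, ∀ x, |evI j (u t) (f t) (G t) (fun y => ψ y * EVe_et s y) x| ≤
      K * (3 * (K * K)) * P' + K * K * P' + K * (3 * (K * P')) +
      K * (3 * (K * P') + 2 * |C + P * (C1 / s ^ 2 * 2)|) := by
    intro t ht x
    obtain ⟨k1, k2, k3, k4, k5, k6, k7⟩ := hK t ht x
    exact EVe_evb hK0 hP0' k2 k3 k4 k5 k6 k7 (hP' x).1 (hP' x).2 (hC2 x)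
  have hFz : ∀ t ∈ Icc 0 b, ∀ x, L < ‖x‖ →
      evI j (u t) (f t) (G t) (fun y => ψ y * EVe_et s y) x = 0 :=
    fun t _ x hx => EVe_evz (hz2 x hx).1 (hz2 x hx).2
  have hFm : ∀ t ∈ Icc 0 b, Measurable fun x => evI j (u t) (f t) (G t) (fun y => ψ y * EVe_et s y) x :=
    fun t ht => EVe_meas hu hf hj hφ (hIco t ht)
  have hF1 : ContinuousOn (fun t => ∫ x, evI j (u t) (f t) (G t) (fun y => ψ y * EVe_et s y) x)
      (Icc 0 b) := EVe_cont hFm hFb hFz (fun x => EVe_tcont hu hf hj hb x)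
  have hs2 : 0 ≤ 2 * s ^ 2 := by positivity
  -- the space integrals
  have hsp : ∀ t ∈ Icc 0 b, ∫ x, evI j (u t) (f t) (G t) (fun y => ψ y * EVe_et s y) x ≤
      (∫ x, evI j (u t) (f t) (G t) ψ x) + (B + 24 * P * K * K * C1 / s) * (8 * (2 * s ^ 2) * L) := by
    intro t ht
    have i1 := EVe_int (hEm t ht) (hEb t ht) (hEz t ht)
    have i2 := EVe_int (hFm t ht) (hFb t ht) (hFz t ht)
    have h1 := EVe_area (i2.sub i1) (c := B + 24 * P * K * K * C1 / s) (by positivity) hs2 hL0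
      (fun x _ _ => by
        obtain ⟨k1, k2, k3, k4, k5, k6, k7⟩ := hK t ht x
        exact EVe_pt hK0 hP0 hC1 hs hψ k2 k4 k5 k6 (hP x).1 (hψ0 x) (jfun_nonneg hj _) (hEb t ht x))
      (fun x hx => by
        simp only [Pi.sub_apply]
        rcases lt_or_ge L ‖x‖ with h | h
        · rw [hEz t ht x h, hFz t ht x h, sub_zero]
        · have h2 : 2 * s ^ 2 < rsq x := not_le.1 fun h3 => hx ⟨h3, h⟩
          obtain ⟨g1, g2⟩ := EVe_far hs h2
          rw [EVe_alg hψ (EVe_et_smooth s)]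
          unfold adv rdr
          simp [g1, g2])
    have h2 : ∫ x, ((fun x => evI j (u t) (f t) (G t) (fun y => ψ y * EVe_et s y) x) -
        (fun x => evI j (u t) (f t) (G t) ψ x)) x =
        (∫ x, evI j (u t) (f t) (G t) (fun y => ψ y * EVe_et s y) x) -
        ∫ x, evI j (u t) (f t) (G t) ψ x := integral_sub i2 i1
    rw [h2] at h1
    linarith
  -- the time integral
  have hti : ∫ t in a..b, ∫ x, evI j (u t) (f t) (G t) (fun y => ψ y * EVe_et s y) x ≤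
      (∫ t in a..b, ∫ x, evI j (u t) (f t) (G t) ψ x) +
      (b - a) * ((B + 24 * P * K * K * C1 / s) * (8 * (2 * s ^ 2) * L)) := by
    have ii1 : IntervalIntegrable (fun t => ∫ x, evI j (u t) (f t) (G t) ψ x) volume a b := by
      apply ContinuousOn.intervalIntegrable
      rw [uIcc_of_le hab]
      exact hE1.mono fun t ht => hIcc t ht
    have ii2 : IntervalIntegrable
        (fun t => ∫ x, evI j (u t) (f t) (G t) (fun y => ψ y * EVe_et s y) x) volume a b := by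
      apply ContinuousOn.intervalIntegrable
      rw [uIcc_of_le hab]
      exact hF1.mono fun t ht => hIcc t ht
    have h1 := intervalIntegral.integral_mono_on hab ii2
      (ii1.add (intervalIntegrable_const (c := (B + 24 * P * K * K * C1 / s) * (8 * (2 * s ^ 2) * L))))
      (fun t ht => hsp t (hIcc t ht))
    rw [intervalIntegral.integral_add ii1 intervalIntegrable_const, intervalIntegral.integral_const,
      smul_eq_mul] at h1
    exact h1
  -- the end points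
  have hjb : ∀ t ∈ Icc 0 b, Integrable (fun x => j (f t x) * ψ x) ∧
      Integrable (fun x => j (f t x) * (ψ x * EVe_et s x)) := by
    intro t ht
    have c1 : Continuous fun x => j (f t x) := hj.smooth.continuous.comp (hf.smooth t (hIco t ht)).continuous
    exact ⟨(c1.mul hψ.continuous).integrable_of_hasCompactSupport hc.mul_left,
      (c1.mul hφ.continuous).integrable_of_hasCompactSupport hφc.mul_left⟩
  have hbm : b ∈ Icc 0 b := ⟨ha.trans hab, le_rfl⟩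
  have ham : a ∈ Icc 0 b := ⟨ha, hab⟩
  have hend1 : ∫ x, j (f b x) * ψ x ≤ (∫ x, j (f b x) * (ψ x * EVe_et s x)) +
      K * P * (8 * (2 * s ^ 2) * L) := by
    have h1 := EVe_area ((hjb b hbm).1.sub (hjb b hbm).2) (c := K * P) (by positivity) hs2 hL0
      (fun x _ _ => by
        simp only [Pi.sub_apply]
        obtain ⟨k1, k2, k3, k4, k5, k6, k7⟩ := hK b hbm x
        have p1 : 0 ≤ j (f b x) := jfun_nonneg hj _
        have p2 : j (f b x) ≤ K := (le_abs_self _).trans k5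
        have p3 : ψ x ≤ P := (le_abs_self _).trans (hP x).1
        have p4 : 0 ≤ EVe_et s x := EVe_thn _
        have p5 : 0 ≤ j (f b x) * (ψ x * EVe_et s x) := mul_nonneg p1 (mul_nonneg (hψ0 x) p4)
        have p6 : j (f b x) * ψ x ≤ K * P := mul_le_mul p2 p3 (hψ0 x) hK0
        linarith)
      (fun x hx => by
        simp only [Pi.sub_apply]
        rcases lt_or_ge L ‖x‖ with h | h
        · rw [(hPz x h).1]
          simp
        · have h2 : 2 * s ^ 2 < rsq x := not_le.1 fun h3 => hx ⟨h3, h⟩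
          rw [(EVe_far hs h2).1]
          simp)
    have h2 : ∫ x, ((fun x => j (f b x) * ψ x) - (fun x => j (f b x) * (ψ x * EVe_et s x))) x =
        (∫ x, j (f b x) * ψ x) - ∫ x, j (f b x) * (ψ x * EVe_et s x) :=
      integral_sub (hjb b hbm).1 (hjb b hbm).2
    rw [h2] at h1
    linarith
  have hend2 : ∫ x, j (f a x) * (ψ x * EVe_et s x) ≤ ∫ x, j (f a x) * ψ x := by
    refine integral_mono (hjb a ham).2 (hjb a ham).1 fun x => ?_
    have p1 : 0 ≤ j (f a x) := jfun_nonneg hj _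
    have p4 : EVe_et s x ≤ 1 := EVe_thl _
    exact mul_le_mul_of_nonneg_left (mul_le_of_le_one_right (hψ0 x) p4) p1
  have hlev' : ∫ x, j (f b x) * (ψ x * EVe_et s x) = (∫ x, j (f a x) * (ψ x * EVe_et s x)) +
      ∫ t in a..b, ∫ x, evI j (u t) (f t) (G t) (fun y => ψ y * EVe_et s y) x := hlev
  have q1 : K * P * (8 * (2 * s ^ 2) * L) ≤ K * P * (16 * L) * s := by
    have r1 : s ^ 2 ≤ s := by nlinarith only [hs, hs1]
    have r2 : 0 ≤ K * P * (16 * L) := by positivity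
    have r3 := mul_le_mul_of_nonneg_left r1 r2
    linarith
  have q2 : (B + 24 * P * K * K * C1 / s) * (8 * (2 * s ^ 2) * L) ≤
      (B + 24 * P * K * K * C1) * (16 * L) * s := by
    have r1 : s ^ 2 ≤ s := by nlinarith only [hs, hs1]
    have r2 : (B + 24 * P * K * K * C1 / s) * (8 * (2 * s ^ 2) * L) =
        B * (16 * L) * s ^ 2 + 24 * P * K * K * C1 * (16 * L) * s := by
      field_simp
      ring
    have r3 := mul_le_mul_of_nonneg_left r1 (by positivity : 0 ≤ B * (16 * L))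
    rw [r2]
    linarith
  have q3 := mul_le_mul_of_nonneg_left q2 (sub_nonneg.2 hab)
  have q4 : (K * P * (16 * L) + (b - a) * ((B + 24 * P * K * K * C1) * (16 * L))) * s =
      K * P * (16 * L) * s + (b - a) * ((B + 24 * P * K * K * C1) * (16 * L) * s) := by ring
  rw [q4]
  linarith

theorem ev_axis {T : ℝ} {u : ℝ → E3 → E3} {f G : ℝ → E3 → ℝ} (hu : Drift T u) (hf : Evo T u f G) {j : ℝ → ℝ}
    (hj : JFun j) {ψ : E3 → ℝ} (hψ : ContDiff ℝ ∞ ψ) (hc : HasCompactSupport ψ) (hψ0 : ∀ x, 0 ≤ ψ x)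
    {C : ℝ} (hC : ∀ x, |rdr ψ x| ≤ C * rsq x) {a b : ℝ} (ha : 0 ≤ a) (hab : a ≤ b) (hb : b < T) :
    ∫ x, j (f b x) * ψ x ≤ (∫ x, j (f a x) * ψ x) + ∫ t in a..b, ∫ x, evI j (u t) (f t) (G t) ψ x := by
  obtain ⟨M, hM, h⟩ := EVe_est hu hf hj hψ hc hψ0 hC ha hab hb
  refine le_of_forall_pos_le_add fun ε hε => ?_
  have h1 : 0 < min 1 (ε / (M + 1)) := lt_min one_pos (by positivity)
  refine (h _ h1 (min_le_left _ _)).trans ?_
  have h2 : M * min 1 (ε / (M + 1)) ≤ ε := by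
    calc M * min 1 (ε / (M + 1)) ≤ M * (ε / (M + 1)) :=
          mul_le_mul_of_nonneg_left (min_le_right _ _) hM
      _ ≤ (M + 1) * (ε / (M + 1)) := mul_le_mul_of_nonneg_right (by linarith) (by positivity)
      _ = ε := by field_simp
  linarith

end Pool.Agent.H87.NS
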