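/-
ROW EvInt. Integrability of the terms of the energy inequality. PROOF. Let `K` be the constant of Evo.bd at `T' = b`, `M = K`; jfun_bd gives
`C`. For `t ∈ [0, b]` (`|f t x| ≤ K`): `0 ≤ j(f) ≤ C f²` (jfun_nonneg), `0 ≤ j''(f) gsq f ≤ C gsq f` (gsq_int), `|j'(f) G| ≤ C |f| |G| ≤ C (f² + G²)`;
all continuous in `x`. The bound is `C K`, `3 C K`, `2 C K`. Interval integrability in `t`: ti_int (JC_comp, JC_mul, JC_add with Evo.cont, contd, contG;
`j, j', j''` are continuous).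
-/
import Pool.Agent.H87.NS.JF
import Pool.Agent.H87.NS.TI

set_option autoImplicit false

open Set Filter Topology MeasureTheory
open scoped ContDiff

namespace Pool.Agent.H87.NS

open Pool.Agent.H16

variable {T : ℝ} {u : ℝ → E3 → E3} {f G : ℝ → E3 → ℝ}

/-- A dominated continuous function is integrable, with the bound for its integral. -/
private theorem EvInt_dom {Φ g : E3 → ℝ} {c K' : ℝ} (hΦ : Continuous Φ) (hg : Integrable g)
    (hle : ∀ x, |Φ x| ≤ g x) (hI : ∫ x, g x ≤ c) (hc : c ≤ K') :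
    Integrable Φ ∧ ∫ x, |Φ x| ≤ K' := by
  have h1 : Integrable Φ :=
    hg.mono' hΦ.aestronglyMeasurable (Filter.Eventually.of_forall fun x => by
      rw [Real.norm_eq_abs]; exact hle x)
  exact ⟨h1, ((integral_mono h1.abs hg hle).trans hI).trans hc⟩

private theorem EvInt_slice {Φ : ℝ → E3 → ℝ} (h : JC T Φ) {t : ℝ} (ht : t ∈ Ico 0 T) :
    Continuous (Φ t) := by
  have h1 : Continuous (fun x : E3 => ((t, x) : ℝ × E3)) := by fun_prop
  have h2 := h.comp_continuous h1 (fun x => ⟨ht, mem_univ x⟩)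
  exact h2

private theorem EvInt_cd {j : ℝ → ℝ} (hj : JFun j) : Continuous (deriv j) :=
  hj.smooth.continuous_deriv (by simp)

private theorem EvInt_cdd {j : ℝ → ℝ} (hj : JFun j) : Continuous (deriv (deriv j)) := by
  have h1 : ContDiff ℝ ∞ (deriv j) := (contDiff_infty_iff_deriv.1 hj.smooth).2
  exact h1.continuous_deriv (by simp)

private theorem EvInt_gsqJC (hf : Evo T u f G) : JC T (fun t => gsq (f t)) := by
  have h0 : ∀ i : Fin 3, JC T (fun t x => pd i (f t) x * pd i (f t) x) :=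
    fun i => JC_mul (hf.contd i) (hf.contd i)
  have h1 := JC_add (JC_add (h0 0) (h0 1)) (h0 2)
  have h2 : (fun t => gsq (f t)) = fun t x => pd 0 (f t) x * pd 0 (f t) x +
      pd 1 (f t) x * pd 1 (f t) x + pd 2 (f t) x * pd 2 (f t) x := by
    funext t x
    simp only [gsq, Fin.sum_univ_three, pow_two]
  rw [h2]
  exact h1

theorem evo_jc (hf : Evo T u f G) {j : ℝ → ℝ} (hj : JFun j) :
    JC T (fun t x => j (f t x)) ∧ JC T (fun t x => deriv (deriv j) (f t x) * gsq (f t) x) ∧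
    JC T (fun t x => deriv j (f t x) * G t x) ∧ JC T (fun t => gsq (f t)) := by
  refine ⟨JC_comp hf.cont hj.smooth.continuous, ?_, ?_, EvInt_gsqJC hf⟩
  · exact JC_mul (JC_comp hf.cont (EvInt_cdd hj)) (EvInt_gsqJC hf)
  · exact JC_mul (JC_comp hf.cont (EvInt_cd hj)) hf.contG

theorem evo_bd (hf : Evo T u f G) {j : ℝ → ℝ} (hj : JFun j) {b : ℝ} (hb : b < T) :
    ∃ K' : ℝ, ∀ t ∈ Icc 0 b,
      (Integrable (fun x => j (f t x)) ∧ ∫ x, |j (f t x)| ≤ K') ∧
      (Integrable (fun x => deriv (deriv j) (f t x) * gsq (f t) x) ∧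
        ∫ x, |deriv (deriv j) (f t x) * gsq (f t) x| ≤ K') ∧
      (Integrable (fun x => deriv j (f t x) * G t x) ∧ ∫ x, |deriv j (f t x) * G t x| ≤ K') := by
  obtain ⟨K, hK⟩ := hf.bd b hb
  obtain ⟨C, hC0, hC⟩ := jfun_bd hj K
  obtain ⟨hJ1, hJ2, hJ3, -⟩ := evo_jc hf hj
  refine ⟨3 * C * K, fun t ht => ?_⟩
  have htT : t ∈ Ico 0 T := ⟨ht.1, ht.2.trans_lt hb⟩
  obtain ⟨hD, hG⟩ := hK t ht
  have hB : BL K (f t) := DB_BL hD
  have hK0 : 0 ≤ K := BL_nonneg hB
  have hCK : 0 ≤ C * K := mul_nonneg hC0 hK0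
  have hcx : ∀ x, j (f t x) ≤ C * f t x ^ 2 ∧ |deriv j (f t x)| ≤ C * |f t x| ∧
      deriv (deriv j) (f t x) ≤ C := fun x => hC _ (hB.1 x)
  refine ⟨?_, ?_, ?_⟩
  · refine EvInt_dom (c := C * K) (EvInt_slice hJ1 htT) (hB.2.1.const_mul C) ?_ ?_ (by nlinarith)
    · intro x
      rw [abs_of_nonneg (jfun_nonneg hj _)]
      exact (hcx x).1
    · rw [integral_const_mul]
      exact mul_le_mul_of_nonneg_left hB.2.2 hC0
  · have hg := gsq_int hD
    refine EvInt_dom (c := C * (3 * K)) (EvInt_slice hJ2 htT) (hg.1.const_mul C) ?_ ?_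
      (by nlinarith)
    · intro x
      rw [abs_mul, abs_of_nonneg (hj.convex _), abs_of_nonneg (gsq_nonneg _ _)]
      exact mul_le_mul_of_nonneg_right (hcx x).2.2 (gsq_nonneg _ _)
    · rw [integral_const_mul]
      exact mul_le_mul_of_nonneg_left hg.2 hC0
  · have hs : Integrable (fun x => f t x ^ 2 + G t x ^ 2) := hB.2.1.add hG.2.1
    refine EvInt_dom (c := C * (K + K)) (EvInt_slice hJ3 htT) (hs.const_mul C) ?_ ?_
      (by nlinarith)
    · intro x
      rw [abs_mul]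
      have h1 : |deriv j (f t x)| * |G t x| ≤ C * |f t x| * |G t x| :=
        mul_le_mul_of_nonneg_right (hcx x).2.1 (abs_nonneg _)
      have h2 : |f t x| * |G t x| ≤ f t x ^ 2 + G t x ^ 2 := by
        rw [← sq_abs (f t x), ← sq_abs (G t x)]
        nlinarith [sq_nonneg (|f t x| - |G t x|), sq_nonneg (|f t x|), sq_nonneg (|G t x|),
          abs_nonneg (f t x), abs_nonneg (G t x)]
      calc |deriv j (f t x)| * |G t x| ≤ C * |f t x| * |G t x| := h1
        _ = C * (|f t x| * |G t x|) := by ring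
        _ ≤ C * (f t x ^ 2 + G t x ^ 2) := mul_le_mul_of_nonneg_left h2 hC0
    · rw [integral_const_mul, integral_add hB.2.1 hG.2.1]
      exact mul_le_mul_of_nonneg_left (add_le_add hB.2.2 hG.2.2) hC0

theorem evo_int (hf : Evo T u f G) {j : ℝ → ℝ} (hj : JFun j) {t : ℝ} (ht : t ∈ Ico 0 T) :
    Integrable (fun x => j (f t x)) ∧
    Integrable (fun x => deriv (deriv j) (f t x) * gsq (f t) x) ∧
    Integrable (fun x => deriv j (f t x) * G t x) := by
  obtain ⟨K', h⟩ := evo_bd hf hj ht.2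
  obtain ⟨h1, h2, h3⟩ := h t ⟨ht.1, le_rfl⟩
  exact ⟨h1.1, h2.1, h3.1⟩

theorem evo_ii (hf : Evo T u f G) {j : ℝ → ℝ} (hj : JFun j) {a b : ℝ} (ha : 0 ≤ a) (hab : a ≤ b) (hb : b < T) :
    IntervalIntegrable (fun t => ∫ x, j (f t x)) volume a b ∧
    IntervalIntegrable (fun t => ∫ x, deriv (deriv j) (f t x) * gsq (f t) x) volume a b ∧
    IntervalIntegrable (fun t => ∫ x, deriv j (f t x) * G t x) volume a b := by
  obtain ⟨K', h⟩ := evo_bd hf hj hb
  obtain ⟨hJ1, hJ2, hJ3, -⟩ := evo_jc hf hj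
  exact ⟨ti_int hJ1 hb (fun t ht => (h t ht).1) ha hab,
    ti_int hJ2 hb (fun t ht => (h t ht).2.1) ha hab,
    ti_int hJ3 hb (fun t ht => (h t ht).2.2) ha hab⟩

end Pool.Agent.H87.NS
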