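/-
ROW KInt. The regularised kernels. Write `P = ‖z‖² + ε²` (`ε > 0`), a smooth positive function, `∂_k P = 2 z_k`.
PROOF. MK_smooth: `z ↦ ‖z‖²` is smooth (`contDiff_norm_sq ℝ`), `P > 0`, `Real.rpow` is smooth on `(0, ∞)`
(`ContDiff.rpow_const_of_ne`). MK_pd: product and chain rule, `∂_k (z_i) = δ_ik`,
`∂_k P ^ (-3/2) = -(3/2) P ^ (-5/2) 2 z_k` (`HasFDerivAt.rpow_const`, `hasStrictFDerivAt_norm_sq`; or use one-dimensional
derivatives along the line `s ↦ z + s • e k`, see Pool.Agent.H16.hasDerivAt_line, and `‖z‖² = z₀² + z₁² + z₂²`,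
Pool.Agent.H16.norm_sq_eq). MK_sym and MK_div follow: `∑ ∂_i MK_i = 3 P ^ (-3/2) - 3 ‖z‖² P ^ (-5/2) = 3 ε² P ^ (-5/2)`.
MK_DB: `|z_i| ≤ P ^ (1/2)`, so `|MK| ≤ P ^ (-1) ≤ ε ^ (-2)`, `MK² ≤ P ^ (-2)` is integrable
(`integrable_rpow_neg_one_add_norm_sq` after rescaling: `P ≥ c (1 + ‖z‖²)`, `c = min 1 ε²`), and
`|∂_k MK_i| ≤ P ^ (-3/2) + 3 P P ^ (-5/2) = 4 P ^ (-3/2)`, bounded, with square `≤ 16 P ^ (-3)` integrable.
P52_int: `P ^ (-5/2) ≤ c ^ (-5/2) (1 + ‖z‖²) ^ (-5/2)` is integrable (`5 > 3`). c0_int: the case `ε = 1`. c0_pos: the integral of a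
continuous positive integrable function.
-/
import Pool.Agent.H87.NS.Defs

set_option autoImplicit false

open Set Filter Topology MeasureTheory
open scoped ContDiff

namespace Pool.Agent.H87.NS

open Pool.Agent.H16

lemma KInt_P_pos {ε : ℝ} (hε : 0 < ε) (z : E3) : 0 < ‖z‖ ^ 2 + ε ^ 2 := by positivity

lemma KInt_rpow_smooth {ε : ℝ} (hε : 0 < ε) (p : ℝ) :
    ContDiff ℝ ∞ (fun z : E3 => (‖z‖ ^ 2 + ε ^ 2) ^ p) := by
  have h : ContDiff ℝ ∞ (fun z : E3 => ‖z‖ ^ 2 + ε ^ 2) :=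
    (contDiff_norm_sq ℝ).add contDiff_const
  exact h.rpow_const_of_ne (fun z => (KInt_P_pos hε z).ne')

theorem MK_smooth {ε : ℝ} (hε : 0 < ε) (i : Fin 3) : ContDiff ℝ ∞ (MK ε i) := by
  have h1 : ContDiff ℝ ∞ (fun z : E3 => z i) := by fun_prop
  exact h1.mul (KInt_rpow_smooth hε _)

theorem MK_pd {ε : ℝ} (hε : 0 < ε) (i k : Fin 3) (z : E3) :
    pd k (MK ε i) z = (if i = k then (‖z‖ ^ 2 + ε ^ 2) ^ (-(3/2) : ℝ) else 0)
      - 3 * z i * z k * (‖z‖ ^ 2 + ε ^ 2) ^ (-(5/2) : ℝ) := by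
  have hP := KInt_P_pos hε z
  have h1 : HasFDerivAt (fun z : E3 => z i) (EuclideanSpace.proj i : E3 →L[ℝ] ℝ) z :=
    (EuclideanSpace.proj i : E3 →L[ℝ] ℝ).hasFDerivAt
  have h2 : HasFDerivAt (fun z : E3 => ‖z‖ ^ 2) (2 • (innerSL ℝ z : E3 →L[ℝ] ℝ)) z :=
    (hasStrictFDerivAt_norm_sq z).hasFDerivAt
  have h3 : HasFDerivAt (fun z : E3 => ‖z‖ ^ 2 + ε ^ 2) (2 • (innerSL ℝ z : E3 →L[ℝ] ℝ)) z :=
    h2.add_const _
  have h4 := h3.rpow_const (p := -(3/2 : ℝ)) (Or.inl hP.ne')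
  have h5 := h1.mul h4
  have h6 : fderiv ℝ (MK ε i) z = _ := h5.fderiv
  have hpow : (-(3/2 : ℝ)) - 1 = -(5/2 : ℝ) := by norm_num
  unfold pd
  rw [h6]
  simp only [hpow]
  have h7 : inner ℝ z (e k) = z k := by
    simp [e, EuclideanSpace.inner_single_right]
  have h8 : (EuclideanSpace.proj i : E3 →L[ℝ] ℝ) (e k) = if i = k then 1 else 0 := e_apply k i
  simp only [add_apply, smul_apply, smul_eq_mul,
    innerSL_apply_apply, nsmul_eq_mul, h7, h8]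
  by_cases hik : i = k
  · simp only [hik, if_true]
    push_cast
    ring
  · simp only [hik, if_false]
    push_cast
    ring

theorem MK_sym {ε : ℝ} (hε : 0 < ε) (i k : Fin 3) (z : E3) : pd k (MK ε i) z = pd i (MK ε k) z := by
  rw [MK_pd hε, MK_pd hε]
  by_cases hik : i = k
  · subst hik; rfl
  · have hki : ¬ k = i := fun h => hik h.symm
    simp only [hik, hki, if_false]
    ring

lemma KInt_rpow_step {P : ℝ} (hP : 0 < P) : P ^ (-(3/2) : ℝ) = P * P ^ (-(5/2) : ℝ) := by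
  have h : P * P ^ (-(5/2) : ℝ) = P ^ (1 : ℝ) * P ^ (-(5/2) : ℝ) := by rw [Real.rpow_one]
  rw [h, ← Real.rpow_add hP]
  norm_num

theorem MK_div {ε : ℝ} (hε : 0 < ε) (z : E3) :
    ∑ i, pd i (MK ε i) z = 3 * ε ^ 2 * (‖z‖ ^ 2 + ε ^ 2) ^ (-(5/2) : ℝ) := by
  have hP := KInt_P_pos hε z
  have hn : ‖z‖ ^ 2 = z 0 ^ 2 + z 1 ^ 2 + z 2 ^ 2 := norm_sq_eq z
  have hs := KInt_rpow_step hP
  simp only [Fin.sum_univ_three, MK_pd hε, if_true]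
  rw [hs]
  generalize (‖z‖ ^ 2 + ε ^ 2) ^ (-(5/2) : ℝ) = Q
  rw [hn]
  ring

lemma KInt_P_lower {ε : ℝ} (z : E3) :
    min 1 (ε ^ 2) * (1 + ‖z‖ ^ 2) ≤ ‖z‖ ^ 2 + ε ^ 2 := by
  have h1 : min 1 (ε ^ 2) ≤ 1 := min_le_left _ _
  have h2 : min 1 (ε ^ 2) ≤ ε ^ 2 := min_le_right _ _
  have h3 : (0:ℝ) ≤ ‖z‖ ^ 2 := by positivity
  nlinarith [mul_le_mul_of_nonneg_right h1 h3]

lemma KInt_rpow_int {ε : ℝ} (hε : 0 < ε) {r : ℝ} (hr : 3 < r) :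
    Integrable (fun z : E3 => (‖z‖ ^ 2 + ε ^ 2) ^ (-r / 2)) := by
  have hc : 0 < min 1 (ε ^ 2) := lt_min one_pos (by positivity)
  have hfin : ((Module.finrank ℝ E3 : ℕ) : ℝ) < r := by
    have : Module.finrank ℝ E3 = 3 := by simp [E3]
    rw [this]; exact_mod_cast hr
  have hI := (integrable_rpow_neg_one_add_norm_sq (E := E3) (μ := volume) hfin).const_mul
    ((min 1 (ε ^ 2)) ^ (-r / 2))
  refine hI.mono' (KInt_rpow_smooth hε _).continuous.aestronglyMeasurable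
    (Eventually.of_forall fun z => ?_)
  have hP := KInt_P_pos hε z
  rw [Real.norm_of_nonneg (Real.rpow_nonneg hP.le _), ← Real.mul_rpow hc.le (by positivity)]
  exact Real.rpow_le_rpow_of_nonpos (by positivity) (KInt_P_lower z) (by linarith)

theorem P52_int {ε : ℝ} (hε : 0 < ε) :
    Integrable (fun z : E3 => (‖z‖ ^ 2 + ε ^ 2) ^ (-(5/2) : ℝ)) := by
  have h := KInt_rpow_int hε (r := 5) (by norm_num)
  have h5 : (-5 / 2 : ℝ) = -(5/2) := by norm_num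
  rwa [h5] at h

lemma KInt_coord_le {ε : ℝ} (z : E3) (i : Fin 3) : z i ^ 2 ≤ ‖z‖ ^ 2 + ε ^ 2 := by
  have hn : ‖z‖ ^ 2 = z 0 ^ 2 + z 1 ^ 2 + z 2 ^ 2 := norm_sq_eq z
  have he : 0 ≤ ε ^ 2 := sq_nonneg ε
  fin_cases i <;> simp only [Fin.zero_eta, Fin.mk_one, Fin.reduceFinMk, Fin.isValue] <;>
    nlinarith [sq_nonneg (z 0), sq_nonneg (z 1), sq_nonneg (z 2)]

lemma KInt_rpow_sq {P : ℝ} (hP : 0 < P) (p : ℝ) : (P ^ p) ^ 2 = P ^ (2 * p) := by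
  rw [← Real.rpow_natCast (P ^ p) 2, ← Real.rpow_mul hP.le]
  congr 1
  push_cast
  ring

lemma KInt_MK_sq {ε : ℝ} (hε : 0 < ε) (i : Fin 3) (z : E3) :
    MK ε i z ^ 2 ≤ (‖z‖ ^ 2 + ε ^ 2) ^ (-4 / 2 : ℝ) := by
  have hP := KInt_P_pos hε z
  have hz := KInt_coord_le (ε := ε) z i
  have h1 : MK ε i z ^ 2 = z i ^ 2 * (‖z‖ ^ 2 + ε ^ 2) ^ (2 * (-(3/2)) : ℝ) := by
    unfold MK
    rw [mul_pow, KInt_rpow_sq hP]
  have h2 : (‖z‖ ^ 2 + ε ^ 2) ^ (-4 / 2 : ℝ)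
      = (‖z‖ ^ 2 + ε ^ 2) * (‖z‖ ^ 2 + ε ^ 2) ^ (2 * (-(3/2)) : ℝ) := by
    have h3 : (‖z‖ ^ 2 + ε ^ 2) * (‖z‖ ^ 2 + ε ^ 2) ^ (2 * (-(3/2)) : ℝ)
      = (‖z‖ ^ 2 + ε ^ 2) ^ (1:ℝ) * (‖z‖ ^ 2 + ε ^ 2) ^ (2 * (-(3/2)) : ℝ) := by
      rw [Real.rpow_one]
    rw [h3, ← Real.rpow_add hP]
    norm_num
  rw [h1, h2]
  exact mul_le_mul_of_nonneg_right hz (Real.rpow_nonneg hP.le _)

lemma KInt_pd_abs {ε : ℝ} (hε : 0 < ε) (i k : Fin 3) (z : E3) :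
    |pd k (MK ε i) z| ≤ 4 * (‖z‖ ^ 2 + ε ^ 2) ^ (-(3/2) : ℝ) := by
  have hP := KInt_P_pos hε z
  have hzi := KInt_coord_le (ε := ε) z i
  have hzk := KInt_coord_le (ε := ε) z k
  have hs := KInt_rpow_step hP
  have hQ : 0 < (‖z‖ ^ 2 + ε ^ 2) ^ (-(5/2) : ℝ) := Real.rpow_pos_of_pos hP _
  rw [MK_pd hε, hs]
  generalize (‖z‖ ^ 2 + ε ^ 2) ^ (-(5/2) : ℝ) = Q at hQ
  generalize ‖z‖ ^ 2 + ε ^ 2 = P at hP hzi hzk
  have h1 : |z i * z k| ≤ P := by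
    rw [abs_le]
    constructor <;> nlinarith [sq_nonneg (z i + z k), sq_nonneg (z i - z k)]
  have h2 : |3 * z i * z k * Q| ≤ 3 * (P * Q) := by
    have : 3 * z i * z k * Q = 3 * Q * (z i * z k) := by ring
    rw [this, abs_mul, abs_of_pos (by positivity : (0:ℝ) < 3 * Q)]
    nlinarith [mul_le_mul_of_nonneg_left h1 hQ.le]
  have h3 : |(if i = k then P * Q else 0)| ≤ P * Q := by
    split_ifs
    · rw [abs_of_pos (by positivity)]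
    · rw [abs_zero]; positivity
  calc |(if i = k then P * Q else 0) - 3 * z i * z k * Q|
      ≤ |(if i = k then P * Q else 0)| + |3 * z i * z k * Q| := abs_sub _ _
    _ ≤ 4 * (P * Q) := by linarith

lemma KInt_pow_bd {ε : ℝ} (hε : 0 < ε) (z : E3) {p : ℝ} (hp : p ≤ 0) :
    (‖z‖ ^ 2 + ε ^ 2) ^ p ≤ (ε ^ 2) ^ p :=
  Real.rpow_le_rpow_of_nonpos (by positivity) (by nlinarith [sq_nonneg ‖z‖]) hp

lemma KInt_BL_of {f g : E3 → ℝ} {K : ℝ} (hf : Continuous f) (hb : ∀ x, |f x| ≤ K)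
    (hg : Integrable g) (hfg : ∀ x, f x ^ 2 ≤ g x) : BL (max K (∫ x, g x)) f := by
  have hI : Integrable (fun x => f x ^ 2) := by
    refine hg.mono' (hf.pow 2).aestronglyMeasurable (Eventually.of_forall fun x => ?_)
    rw [Real.norm_of_nonneg (sq_nonneg _)]
    exact hfg x
  refine ⟨fun x => (hb x).trans (le_max_left _ _), hI, le_trans ?_ (le_max_right _ _)⟩
  exact integral_mono hI hg hfg

lemma KInt_BL_mono {f : E3 → ℝ} {K L : ℝ} (h : BL K f) (hKL : K ≤ L) : BL L f :=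
  ⟨fun x => (h.1 x).trans hKL, h.2.1, h.2.2.trans hKL⟩

theorem MK_DB {ε : ℝ} (hε : 0 < ε) (i : Fin 3) : ∃ K, DB 1 K (MK ε i) := by
  have h4 := KInt_rpow_int hε (r := 4) (by norm_num)
  have h6 := (KInt_rpow_int hε (r := 6) (by norm_num)).const_mul 16
  -- the function itself
  have hA : BL (max (((ε ^ 2) ^ (-4 / 2 : ℝ)) + 1) (∫ z : E3, (‖z‖ ^ 2 + ε ^ 2) ^ (-4 / 2 : ℝ)))
      (MK ε i) := by
    refine KInt_BL_of (MK_smooth hε i).continuous (fun z => ?_) h4 (KInt_MK_sq hε i)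
    have h1 := KInt_MK_sq hε i z
    have h2 := KInt_pow_bd hε z (p := -4 / 2) (by norm_num)
    have h3 : |MK ε i z| ^ 2 = MK ε i z ^ 2 := sq_abs _
    nlinarith [sq_nonneg (|MK ε i z| - 1), abs_nonneg (MK ε i z)]
  have hB : ∀ k, BL (max (4 * (ε ^ 2) ^ (-(3/2) : ℝ))
      (∫ z : E3, 16 * (‖z‖ ^ 2 + ε ^ 2) ^ (-6 / 2 : ℝ))) (pd k (MK ε i)) := by
    intro k
    have hc : Continuous (pd k (MK ε i)) := by
      have := ((MK_smooth hε i).continuous_fderiv (by simp)).clm_apply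
        (continuous_const (y := e k))
      exact this
    refine KInt_BL_of hc (fun z => ?_) h6 (fun z => ?_)
    · have h1 := KInt_pd_abs hε i k z
      have h2 := KInt_pow_bd hε z (p := -(3/2)) (by norm_num)
      linarith
    · have h1 := KInt_pd_abs hε i k z
      have hP := KInt_P_pos hε z
      have h2 : (‖z‖ ^ 2 + ε ^ 2) ^ (-6 / 2 : ℝ) = ((‖z‖ ^ 2 + ε ^ 2) ^ (-(3/2) : ℝ)) ^ 2 := by
        rw [KInt_rpow_sq hP]
        norm_num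
      rw [h2, ← sq_abs (pd k (MK ε i) z)]
      have h3 : 0 < (‖z‖ ^ 2 + ε ^ 2) ^ (-(3/2) : ℝ) := Real.rpow_pos_of_pos hP _
      nlinarith [abs_nonneg (pd k (MK ε i) z)]
  refine ⟨max (max (((ε ^ 2) ^ (-4 / 2 : ℝ)) + 1) (∫ z : E3, (‖z‖ ^ 2 + ε ^ 2) ^ (-4 / 2 : ℝ)))
    (max (4 * (ε ^ 2) ^ (-(3/2) : ℝ)) (∫ z : E3, 16 * (‖z‖ ^ 2 + ε ^ 2) ^ (-6 / 2 : ℝ))),
    KInt_BL_mono hA (le_max_left _ _), fun k => KInt_BL_mono (hB k) (le_max_right _ _)⟩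

theorem c0_int : Integrable (fun s : E3 => 3 * (1 + ‖s‖ ^ 2) ^ (-(5/2) : ℝ)) := by
  have h := (P52_int (ε := 1) one_pos).const_mul 3
  refine h.congr (Eventually.of_forall fun s => ?_)
  simp only [one_pow]
  rw [add_comm]

theorem c0_pos : 0 < c0 := by
  unfold c0
  have hpos : ∀ s : E3, 0 < 3 * (1 + ‖s‖ ^ 2) ^ (-(5/2) : ℝ) := fun s => by positivity
  rw [integral_pos_iff_support_of_nonneg (fun s => (hpos s).le) c0_int]
  have hsupp : Function.support (fun s : E3 => 3 * (1 + ‖s‖ ^ 2) ^ (-(5/2) : ℝ)) = univ := by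
    ext s
    simp only [Function.mem_support, mem_univ, iff_true]
    exact (hpos s).ne'
  rw [hsupp]
  exact isOpen_univ.measure_pos volume univ_nonempty

end Pool.Agent.H87.NS
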