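/-
ROW KId. Integration by parts against the kernels. Put `M_i(y) = MK ε i (x - y)`; it is smooth,
`∂_{y_k} M_i(y) = - (pd k (MK ε i)) (x - y)`, and `M_i`, `∂_k M_i` are bounded and square integrable (MK_DB; the map `y ↦ x - y`
preserves the measure: `Integrable.comp_sub_left`, `integral_sub_left_eq_self`). All the products below are products of two square
integrable functions, hence integrable (`|a b| ≤ a² + b²`, measurability by continuity), so that
`∫ f ∂_k g = - ∫ (∂_k f) g` (`integral_mul_fderiv_eq_neg_fderiv_mul_of_integrable`) applies.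
PROOF. By MK_div, `∫ v₀ 3 ε² P(x - y) ^ (-5/2) dy = ∫ v₀ ∑_i (pd i (MK ε i)) (x - y) dy = - ∑_i ∫ v₀ ∂_i M_i = ∑_i ∫ (∂_i v₀) M_i`.
`∂₁ v₀ = ∂₀ v₁ - curl₂`, `∂₂ v₀ = ∂₀ v₂ + curl₁`, so the sum is
`∫ (curl₁ M₂ - curl₂ M₁) + ∑_i ∫ (∂₀ v_i) M_i`. The last sum is zero: `∫ (∂₀ v_i) M_i = - ∫ v_i ∂₀ M_i
= ∫ v_i (pd 0 (MK ε i)) (x - y) = ∫ v_i (pd i (MK ε 0)) (x - y)` (MK_sym) `= - ∫ v_i ∂_i M₀ = ∫ (∂_i v_i) M₀`, and `∑_i ∂_i v_i = 0`.
Here `∂_i v_j (y) = fderiv ℝ v y (e i) j = pd i (fun y => v y j) y`.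
-/
import Pool.Agent.H87.NS.KInt
import Pool.Agent.H87.NS.IBP

set_option autoImplicit false

open Set Filter Topology MeasureTheory
open scoped ContDiff

namespace Pool.Agent.H87.NS

open Pool.Agent.H16

lemma KId_fderiv {v : E3 → E3} (hv : ContDiff ℝ ∞ v) (y w : E3) (j : Fin 3) :
    fderiv ℝ v y w j = fderiv ℝ (fun z => v z j) y w := by
  have h1 : HasFDerivAt v (fderiv ℝ v y) y :=
    (hv.differentiable (by simp)).differentiableAt.hasFDerivAt
  have h2 : HasFDerivAt (fun z => v z j)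
      ((EuclideanSpace.proj j : E3 →L[ℝ] ℝ).comp (fderiv ℝ v y)) y :=
    (EuclideanSpace.proj j : E3 →L[ℝ] ℝ).hasFDerivAt.comp y h1
  rw [h2.fderiv]
  rfl

lemma KId_pd {f : E3 → ℝ} (hf : ContDiff ℝ ∞ f) (x : E3) (k : Fin 3) (y : E3) :
    pd k (fun z => f (x - z)) y = - pd k f (x - y) := by
  have h1 : HasFDerivAt f (fderiv ℝ f (x - y)) (x - y) :=
    (hf.differentiable (by simp)).differentiableAt.hasFDerivAt
  have h2 : HasFDerivAt (fun z : E3 => x - z) (-(ContinuousLinearMap.id ℝ E3)) y := by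
    simpa using (hasFDerivAt_id (𝕜 := ℝ) y).const_sub x
  have h3 : HasFDerivAt (fun z => f (x - z))
      ((fderiv ℝ f (x - y)).comp (-(ContinuousLinearMap.id ℝ E3))) y := h1.comp y h2
  unfold pd
  rw [h3.fderiv]
  simp

lemma KId_BL {f : E3 → ℝ} {K : ℝ} (h : BL K f) (x : E3) : BL K (fun z => f (x - z)) := by
  refine ⟨fun z => h.1 _, ?_, ?_⟩
  · exact h.2.1.comp_sub_left x
  · have h1 : ∫ z, f (x - z) ^ 2 = ∫ z, f z ^ 2 :=
      integral_sub_left_eq_self (fun z => f z ^ 2) volume x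
    rw [h1]
    exact h.2.2

lemma KId_neg {f : E3 → ℝ} {K : ℝ} (h : BL K f) : BL K (fun z => - f z) := by
  refine ⟨fun z => ?_, ?_, ?_⟩
  · rw [abs_neg]; exact h.1 z
  · simpa using h.2.1
  · simpa using h.2.2

lemma KId_DB {f : E3 → ℝ} (hf : ContDiff ℝ ∞ f) {K : ℝ} (h : DB 1 K f) (x : E3) :
    DB 1 K (fun z => f (x - z)) := by
  refine ⟨KId_BL h.1 x, fun i => ?_⟩
  have h1 : pd i (fun z => f (x - z)) = fun y => - pd i f (x - y) :=
    funext fun y => KId_pd hf x i y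
  change BL K (pd i (fun z => f (x - z)))
  rw [h1]
  exact KId_neg (KId_BL (h.2 i) x)

lemma KId_add3 {f g h : E3 → ℝ} (hf : Integrable f) (hg : Integrable g) (hh : Integrable h) :
    ∫ y, (f y + g y + h y) = (∫ y, f y) + (∫ y, g y) + ∫ y, h y := by
  have h1 : Integrable (fun y => f y + g y) := hf.add hg
  rw [integral_add h1 hh, integral_add hf hg]

lemma KId_add4 {f g h k : E3 → ℝ} (hf : Integrable f) (hg : Integrable g) (hh : Integrable h)
    (hk : Integrable k) :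
    ∫ y, (f y - g y - h y + k y) = (∫ y, f y) - (∫ y, g y) - (∫ y, h y) + ∫ y, k y := by
  have h1 : Integrable (fun y => f y - g y) := hf.sub hg
  have h2 : Integrable (fun y => f y - g y - h y) := h1.sub hh
  rw [integral_add h2 hk, integral_sub h1 hh, integral_sub hf hg]

theorem kernel_identity {v : E3 → E3} (hv : ContDiff ℝ ∞ v)
    (hdiv : ∀ x, ∑ i : Fin 3, fderiv ℝ v x (e i) i = 0) {K : ℝ}
    (hK : ∀ j : Fin 3, DB 1 K (fun x => v x j)) {ε : ℝ} (hε : 0 < ε) (x : E3) :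
    ∫ y, v y 0 * (3 * ε ^ 2 * (‖x - y‖ ^ 2 + ε ^ 2) ^ (-(5/2) : ℝ))
      = ∫ y, (curl v y 1 * MK ε 2 (x - y) - curl v y 2 * MK ε 1 (x - y)) := by
  have hpd : ∀ (i j : Fin 3) (y : E3), fderiv ℝ v y (e i) j = pd i (fun z => v z j) y :=
    fun i j y => KId_fderiv hv y (e i) j
  have hvj : ∀ j : Fin 3, ContDiff ℝ ∞ (fun z => v z j) := fun j =>
    (EuclideanSpace.proj j : E3 →L[ℝ] ℝ).contDiff.comp hv
  have hvj1 : ∀ j : Fin 3, ContDiff ℝ 1 (fun z => v z j) := fun j => (hvj j).of_le (by simp)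
  have hM : ∀ i : Fin 3, ContDiff ℝ ∞ (fun z => MK ε i (x - z)) := fun i =>
    (MK_smooth hε i).comp (contDiff_const.sub contDiff_id)
  have hM1 : ∀ i : Fin 3, ContDiff ℝ 1 (fun z => MK ε i (x - z)) := fun i =>
    (hM i).of_le (by simp)
  have hMD : ∀ i : Fin 3, ∃ K, DB 1 K (fun z => MK ε i (x - z)) := by
    intro i
    obtain ⟨K', hK'⟩ := MK_DB hε i
    exact ⟨K', KId_DB (MK_smooth hε i) hK' x⟩
  choose KM hKM using hMD
  have hMp : ∀ (i k : Fin 3) (y : E3),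
      pd k (fun z => MK ε i (x - z)) y = - pd k (MK ε i) (x - y) :=
    fun i k y => KId_pd (MK_smooth hε i) x k y
  -- integrability
  have int1 : ∀ (j i k : Fin 3), Integrable (fun y => v y j * pd k (fun z => MK ε i (x - z)) y) :=
    fun j i k => BL_mul (hvj j).continuous (pd_cont (hM1 i) k) (hK j).1 ((hKM i).2 k)
  have int2 : ∀ (j i k : Fin 3), Integrable (fun y => pd k (fun z => v z j) y * MK ε i (x - y)) :=
    fun j i k => BL_mul (pd_cont (hvj1 j) k) (hM i).continuous ((hK j).2 k) (hKM i).1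
  -- integration by parts
  have hib : ∀ (j i k : Fin 3), ∫ y, v y j * pd k (fun z => MK ε i (x - z)) y =
      - ∫ y, pd k (fun z => v z j) y * MK ε i (x - y) :=
    fun j i k => ibp (hvj1 j) (hM1 i) (hK j) (hKM i) k
  -- the left side
  have hL : ∫ y, v y 0 * (3 * ε ^ 2 * (‖x - y‖ ^ 2 + ε ^ 2) ^ (-(5/2) : ℝ)) =
      (∫ y, pd 0 (fun z => v z 0) y * MK ε 0 (x - y)) +
      (∫ y, pd 1 (fun z => v z 0) y * MK ε 1 (x - y)) +
      (∫ y, pd 2 (fun z => v z 0) y * MK ε 2 (x - y)) := by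
    have h1 : ∀ y, v y 0 * (3 * ε ^ 2 * (‖x - y‖ ^ 2 + ε ^ 2) ^ (-(5/2) : ℝ)) =
        -(v y 0 * pd 0 (fun z => MK ε 0 (x - z)) y) +
        -(v y 0 * pd 1 (fun z => MK ε 1 (x - z)) y) +
        -(v y 0 * pd 2 (fun z => MK ε 2 (x - z)) y) := by
      intro y
      rw [← MK_div hε (x - y), Fin.sum_univ_three, hMp, hMp, hMp]
      ring
    simp_rw [h1]
    have n : ∀ j i k : Fin 3,
        Integrable (fun y => -(v y j * pd k (fun z => MK ε i (x - z)) y)) :=
      fun j i k => (int1 j i k).neg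
    rw [KId_add3 (n 0 0 0) (n 0 1 1) (n 0 2 2), integral_neg, integral_neg, integral_neg,
      hib, hib, hib, neg_neg, neg_neg, neg_neg]
  -- the right side
  have hR : ∫ y, (curl v y 1 * MK ε 2 (x - y) - curl v y 2 * MK ε 1 (x - y)) =
      (∫ y, pd 2 (fun z => v z 0) y * MK ε 2 (x - y)) -
      (∫ y, pd 0 (fun z => v z 2) y * MK ε 2 (x - y)) -
      (∫ y, pd 0 (fun z => v z 1) y * MK ε 1 (x - y)) +
      (∫ y, pd 1 (fun z => v z 0) y * MK ε 1 (x - y)) := by
    have h1 : ∀ y, curl v y 1 * MK ε 2 (x - y) - curl v y 2 * MK ε 1 (x - y) =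
        pd 2 (fun z => v z 0) y * MK ε 2 (x - y) - pd 0 (fun z => v z 2) y * MK ε 2 (x - y) -
        pd 0 (fun z => v z 1) y * MK ε 1 (x - y) + pd 1 (fun z => v z 0) y * MK ε 1 (x - y) := by
      intro y
      have e1 : curl v y 1 = pd 2 (fun z => v z 0) y - pd 0 (fun z => v z 2) y := by
        rw [← hpd, ← hpd]; rfl
      have e2 : curl v y 2 = pd 0 (fun z => v z 1) y - pd 1 (fun z => v z 0) y := by
        rw [← hpd, ← hpd]; rfl
      rw [e1, e2]
      ring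
    simp_rw [h1]
    exact KId_add4 (int2 0 2 2) (int2 2 2 0) (int2 1 1 0) (int2 0 1 1)
  -- the remaining sum vanishes
  have hs : ∀ i : Fin 3, ∫ y, pd 0 (fun z => v z i) y * MK ε i (x - y) =
      ∫ y, pd i (fun z => v z i) y * MK ε 0 (x - y) := by
    intro i
    have h1 := hib i i 0
    have h2 := hib i 0 i
    have h3 : ∫ y, v y i * pd 0 (fun z => MK ε i (x - z)) y =
        ∫ y, v y i * pd i (fun z => MK ε 0 (x - z)) y := by
      refine integral_congr_ae (Filter.Eventually.of_forall fun y => ?_)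
      change v y i * pd 0 (fun z => MK ε i (x - z)) y = v y i * pd i (fun z => MK ε 0 (x - z)) y
      rw [hMp, hMp, MK_sym hε i 0]
    linarith
  have hz : (∫ y, pd 0 (fun z => v z 0) y * MK ε 0 (x - y)) +
      (∫ y, pd 1 (fun z => v z 1) y * MK ε 0 (x - y)) +
      (∫ y, pd 2 (fun z => v z 2) y * MK ε 0 (x - y)) = 0 := by
    rw [← KId_add3 (int2 0 0 0) (int2 1 0 1) (int2 2 0 2)]
    have h1 : ∀ y, pd 0 (fun z => v z 0) y * MK ε 0 (x - y) +
        pd 1 (fun z => v z 1) y * MK ε 0 (x - y) + pd 2 (fun z => v z 2) y * MK ε 0 (x - y)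
        = 0 := by
      intro y
      have h2 := hdiv y
      rw [Fin.sum_univ_three, hpd, hpd, hpd] at h2
      rw [← add_mul, ← add_mul, h2, zero_mul]
    simp_rw [h1]
    exact integral_zero _ _
  have s1 := hs 1
  have s2 := hs 2
  rw [hL, hR]
  linarith

end Pool.Agent.H87.NS
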