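/-
ROW KLim. PROOF. Substitute `y = x - ε s` (`integral_sub_left_eq_self`, `Measure.integral_comp_smul`, dimension 3):
`∫ g(y) 3 ε² (‖x-y‖² + ε²) ^ (-5/2) dy = ∫ g(x - ε s) 3 (1 + ‖s‖²) ^ (-5/2) ds`, since
`3 ε² (ε² ‖s‖² + ε²) ^ (-5/2) ε³ = 3 (1 + ‖s‖²) ^ (-5/2)`. As `ε → 0+` this tends to `g(x) c0` by dominated convergence (bound
`K 3 (1 + ‖s‖²) ^ (-5/2)`, c0_int; `g` is continuous). The absolute values are `≤ B` for every `ε > 0`; `|g(x) c0| = c0 |g(x)|`.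
-/
import Pool.Agent.H87.NS.KInt

set_option autoImplicit false

open Set Filter Topology MeasureTheory
open scoped ContDiff

namespace Pool.Agent.H87.NS

open Pool.Agent.H16

theorem KLim_scale {g : E3 → ℝ} (x : E3) {ε : ℝ} (hε : 0 < ε) :
    ∫ y, g y * (3 * ε ^ 2 * (‖x - y‖ ^ 2 + ε ^ 2) ^ (-(5/2) : ℝ)) =
      ∫ s : E3, g (x - ε • s) * (3 * (1 + ‖s‖ ^ 2) ^ (-(5/2) : ℝ)) := by
  set F : E3 → ℝ := fun z => g (x - z) * (3 * ε ^ 2 * (‖z‖ ^ 2 + ε ^ 2) ^ (-(5/2) : ℝ)) with hF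
  have h1 : ∫ y, g y * (3 * ε ^ 2 * (‖x - y‖ ^ 2 + ε ^ 2) ^ (-(5/2) : ℝ)) = ∫ y, F (x - y) := by
    refine integral_congr_ae (Eventually.of_forall fun y => ?_)
    simp only [hF, sub_sub_cancel]
  rw [h1, integral_sub_left_eq_self F volume x]
  have h2 := Measure.integral_comp_smul (volume : Measure E3) F ε
  rw [finrank_euclideanSpace_fin] at h2
  have h3 : |(ε ^ 3)⁻¹| = (ε ^ 3)⁻¹ := abs_of_pos (by positivity)
  rw [h3, smul_eq_mul] at h2
  have h4 : ∫ z, F z = ε ^ 3 * ∫ s, F (ε • s) := by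
    rw [h2, ← mul_assoc, mul_inv_cancel₀ (by positivity), one_mul]
  rw [h4, ← integral_const_mul]
  refine integral_congr_ae (Eventually.of_forall fun s => ?_)
  simp only [hF]
  have h5 : ‖ε • s‖ ^ 2 + ε ^ 2 = ε ^ 2 * (1 + ‖s‖ ^ 2) := by
    rw [norm_smul, mul_pow, Real.norm_of_nonneg hε.le]
    ring
  have h6 : (ε ^ 2 : ℝ) ^ (-(5/2) : ℝ) = (ε ^ 5)⁻¹ := by
    rw [← Real.rpow_natCast, ← Real.rpow_mul hε.le]
    have : ((2 : ℕ) : ℝ) * -(5/2) = -((5 : ℕ) : ℝ) := by norm_num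
    rw [this, Real.rpow_neg hε.le, Real.rpow_natCast]
  rw [h5, Real.mul_rpow (by positivity) (by positivity), h6]
  field_simp

theorem kernel_limit {g : E3 → ℝ} (hg : Continuous g) {K : ℝ} (hK : ∀ x, |g x| ≤ K) {B : ℝ} (x : E3)
    (h : ∀ ε > 0, |∫ y, g y * (3 * ε ^ 2 * (‖x - y‖ ^ 2 + ε ^ 2) ^ (-(5/2) : ℝ))| ≤ B) :
    c0 * |g x| ≤ B := by
  set k : E3 → ℝ := fun s => 3 * (1 + ‖s‖ ^ 2) ^ (-(5/2) : ℝ) with hk
  have hkc : Continuous k := by
    refine continuous_const.mul (Continuous.rpow_const (by fun_prop) fun s => Or.inl ?_)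
    positivity
  have hk0 : ∀ s, 0 ≤ k s := fun s => by simp only [hk]; positivity
  have h1 : Tendsto (fun n : ℕ => ∫ s, g (x - ((n : ℝ) + 1)⁻¹ • s) * k s) atTop
      (𝓝 (∫ s, g x * k s)) := by
    refine tendsto_integral_of_dominated_convergence (fun s => K * k s) ?_ ?_ ?_ ?_
    · intro n
      exact ((hg.comp (by fun_prop)).mul hkc).aestronglyMeasurable
    · exact c0_int.const_mul K
    · intro n
      refine Eventually.of_forall fun s => ?_
      rw [norm_mul, Real.norm_eq_abs, Real.norm_of_nonneg (hk0 s)]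
      exact mul_le_mul_of_nonneg_right (hK _) (hk0 s)
    · refine Eventually.of_forall fun s => ?_
      refine Tendsto.mul_const _ ?_
      have h3 : Tendsto (fun n : ℕ => ((n : ℝ) + 1)⁻¹) atTop (𝓝 0) :=
        tendsto_inv_atTop_zero.comp (tendsto_atTop_add_const_right _ _ tendsto_natCast_atTop_atTop)
      have h4 : Tendsto (fun n : ℕ => x - ((n : ℝ) + 1)⁻¹ • s) atTop (𝓝 (x - (0 : ℝ) • s)) :=
        (h3.smul_const s).const_sub x
      rw [zero_smul, sub_zero] at h4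
      exact (hg.tendsto x).comp h4
  have h2 : ∀ n : ℕ, |∫ s, g (x - ((n : ℝ) + 1)⁻¹ • s) * k s| ≤ B := by
    intro n
    have h3 := h (((n : ℝ) + 1)⁻¹) (by positivity)
    rwa [KLim_scale x (by positivity)] at h3
  have h5 : |∫ s, g x * k s| ≤ B := le_of_tendsto h1.abs (Eventually.of_forall h2)
  rw [integral_const_mul, abs_mul] at h5
  have h6 : |∫ s, k s| = c0 := by
    have : c0 = ∫ s, k s := rfl
    rw [this, abs_of_nonneg (integral_nonneg hk0)]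
  rw [h6, mul_comm] at h5
  exact h5

end Pool.Agent.H87.NS
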