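/-
ROW HInt. PROOF. rad_int: `∫_{‖z‖ < 1} ‖z‖⁻² dz < ∞` and `∫_{‖z‖ ≥ 1} ‖z‖⁻⁴ dz < ∞` in dimension 3: in polar coordinates
(`MeasureTheory.Measure.integrable_fun_norm_addHaar` or `integrableOn_fun_norm_addHaar`, `finrank = 3`): the functions
`y² y⁻² 1_{y < 1}` and `y² y⁻⁴ 1_{y ≥ 1} = y⁻² 1_{y ≥ 1}` are integrable on `(0, ∞)` (`integrableOn_Ioi_rpow_of_lt`).
int_div: `|f(y)| / ‖x-y‖²` is, for `‖x - y‖ < 1`, at most `K ‖x-y‖⁻²`, and for `‖x-y‖ ≥ 1` at most `f(y)² + ‖x-y‖⁻⁴` (`a b ≤ a² + b²`); so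
it is at most the sum of integrable functions (translate rad_int by `Integrable.comp_sub_left`), and it is measurable.
near_far: on `‖x-y‖ < 1`, `|f| / ‖x-y‖² = (|f| / ‖x-y‖) (1 / ‖x-y‖)`, and on `‖x-y‖ ≥ 1` it is `|f| (1 / ‖x-y‖²)`; Cauchy-Schwarz
(`integral_mul_le_Lp_mul_Lq_of_nonneg` with `p = q = 2`, or: for every `λ > 0`, `a b ≤ (λ a² + b² / λ) / 2`, integrate, and optimise).
The constant is `C = √(∫_{‖z‖ < 1} ‖z‖⁻²) + √(∫_{‖z‖ ≥ 1} ‖z‖⁻⁴) + 1`.
-/
import Pool.Agent.H87.NS.Defs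

set_option autoImplicit false

open Set Filter Topology MeasureTheory
open scoped ContDiff

namespace Pool.Agent.H87.NS

open Pool.Agent.H16

theorem hint_finrank : Module.finrank ℝ E3 = 3 := by
  simp [E3]

theorem hint_cs {α : Type*} [MeasurableSpace α] {μ : Measure α} {g h : α → ℝ} (hg0 : ∀ a, 0 ≤ g a) (hh0 : ∀ a, 0 ≤ h a)
    (hgm : AEStronglyMeasurable g μ) (hhm : AEStronglyMeasurable h μ)
    (hg : Integrable (fun a => g a ^ 2) μ) (hh : Integrable (fun a => h a ^ 2) μ) :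
    ∫ a, g a * h a ∂μ ≤ √(∫ a, g a ^ 2 ∂μ) * √(∫ a, h a ^ 2 ∂μ) := by
  have hp : (2:ℝ).HolderConjugate 2 := by
    rw [Real.holderConjugate_iff]
    norm_num
  have h2 : ENNReal.ofReal 2 = 2 := by norm_num
  have h1 := integral_mul_le_Lp_mul_Lq_of_nonneg (μ := μ) hp (Filter.Eventually.of_forall hg0) (Filter.Eventually.of_forall hh0)
    (by rw [h2]; exact (memLp_two_iff_integrable_sq hgm).2 hg) (by rw [h2]; exact (memLp_two_iff_integrable_sq hhm).2 hh)
  simpa [Real.sqrt_eq_rpow] using h1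

theorem rad_int :
    Integrable (fun z : E3 => if ‖z‖ < 1 then 1 / ‖z‖ ^ 2 else 0) ∧
    Integrable (fun z : E3 => if ‖z‖ < 1 then 0 else 1 / ‖z‖ ^ 4) := by
  have hnt : Nontrivial E3 := Module.nontrivial_of_finrank_pos (R := ℝ) (by rw [hint_finrank]; norm_num)
  constructor
  · have h := (integrable_fun_norm_addHaar (E := E3) (F := ℝ) (volume : Measure E3)
      (f := fun y : ℝ => if y < 1 then 1 / y ^ 2 else 0)).2 ?_
    · exact h
    · rw [hint_finrank]
      have h1 : IntegrableOn (fun _ : ℝ => (1:ℝ)) (Ioo 0 1) := integrableOn_const (by simp)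
      have h2 : Integrable ((Ioo (0:ℝ) 1).indicator (fun _ : ℝ => (1:ℝ))) :=
        (integrable_indicator_iff measurableSet_Ioo).2 h1
      refine IntegrableOn.congr_fun (h2.integrableOn (s := Ioi 0)) ?_ measurableSet_Ioi
      intro y hy
      have hy' : (0:ℝ) < y := hy
      by_cases h1y : y < 1
      · have : y ∈ Ioo (0:ℝ) 1 := ⟨hy', h1y⟩
        simp only [Set.indicator_of_mem this, if_pos h1y, smul_eq_mul]
        field_simp
      · have : y ∉ Ioo (0:ℝ) 1 := fun h => h1y h.2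
        simp only [Set.indicator_of_notMem this, if_neg h1y, smul_eq_mul, mul_zero]
  · have h := (integrable_fun_norm_addHaar (E := E3) (F := ℝ) (volume : Measure E3)
      (f := fun y : ℝ => if y < 1 then 0 else 1 / y ^ 4)).2 ?_
    · exact h
    · rw [hint_finrank]
      have h1 : IntegrableOn (fun y : ℝ => y ^ (-2 : ℝ)) (Ici 1) := by
        have := integrableOn_Ioi_rpow_of_lt (a := (-2:ℝ)) (by norm_num) (c := 1) one_pos
        exact (integrableOn_Ici_iff_integrableOn_Ioi).2 this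
      have h2 : Integrable ((Ici (1:ℝ)).indicator (fun y : ℝ => y ^ (-2 : ℝ))) :=
        (integrable_indicator_iff measurableSet_Ici).2 h1
      refine IntegrableOn.congr_fun (h2.integrableOn (s := Ioi 0)) ?_ measurableSet_Ioi
      intro y hy
      have hy' : (0:ℝ) < y := hy
      by_cases h1y : y < 1
      · have : y ∉ Ici (1:ℝ) := fun h => absurd h1y (not_lt.2 h)
        simp only [Set.indicator_of_notMem this, if_pos h1y, smul_eq_mul, mul_zero]
      · have : y ∈ Ici (1:ℝ) := not_lt.1 h1y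
        simp only [Set.indicator_of_mem this, if_neg h1y, smul_eq_mul]
        rw [Real.rpow_neg hy'.le]
        norm_cast
        field_simp

theorem hint_meas (g : ℝ → ℝ) (hg : Measurable g) (x : E3) : Measurable (fun y : E3 => g ‖x - y‖) :=
  hg.comp (continuous_const.sub continuous_id).norm.measurable

theorem hint_meas_near : Measurable (fun y : ℝ => if y < 1 then 1 / y ^ 2 else 0) :=
  Measurable.ite measurableSet_Iio (by fun_prop) measurable_const

theorem hint_meas_far : Measurable (fun y : ℝ => if y < 1 then 0 else 1 / y ^ 4) :=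
  Measurable.ite measurableSet_Iio measurable_const (by fun_prop)

theorem hint_near_int (x : E3) : Integrable (fun y : E3 => if ‖x - y‖ < 1 then 1 / ‖x - y‖ ^ 2 else 0) :=
  rad_int.1.comp_sub_left x

theorem hint_far_int (x : E3) : Integrable (fun y : E3 => if ‖x - y‖ < 1 then 0 else 1 / ‖x - y‖ ^ 4) :=
  rad_int.2.comp_sub_left x

theorem int_div {f : E3 → ℝ} (hf : Continuous f) {K : ℝ} (hK : BL K f) (x : E3) :
    Integrable (fun y => |f y| / ‖x - y‖ ^ 2) := by
  have hK0 : 0 ≤ K := (abs_nonneg _).trans (hK.1 0)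
  have hb := (((hint_near_int x).const_mul K).add hK.2.1).add (hint_far_int x)
  refine hb.mono' ?_ ?_
  · exact (hf.abs.measurable.div ((continuous_const.sub continuous_id).norm.measurable.pow_const 2)).aestronglyMeasurable
  · refine Filter.Eventually.of_forall (fun y => ?_)
    simp only [Pi.add_apply]
    rw [Real.norm_of_nonneg (by positivity)]
    by_cases h : ‖x - y‖ < 1
    · rw [if_pos h, if_pos h]
      have h1 : |f y| / ‖x - y‖ ^ 2 ≤ K / ‖x - y‖ ^ 2 := div_le_div_of_nonneg_right (hK.1 y) (by positivity)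
      have h2 : K * (1 / ‖x - y‖ ^ 2) = K / ‖x - y‖ ^ 2 := by ring
      have h3 : 0 ≤ f y ^ 2 := sq_nonneg _
      linarith
    · rw [if_neg h, if_neg h]
      have h1 : |f y| / ‖x - y‖ ^ 2 = |f y| * (1 / ‖x - y‖ ^ 2) := by ring
      have h2 : 1 / ‖x - y‖ ^ 4 = (1 / ‖x - y‖ ^ 2) ^ 2 := by ring
      have h3 : f y ^ 2 = |f y| ^ 2 := (sq_abs _).symm
      rw [h1, h2, h3]
      nlinarith [sq_nonneg (|f y| - 1 / ‖x - y‖ ^ 2), sq_nonneg (|f y|), sq_nonneg (1 / ‖x - y‖ ^ 2)]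

theorem near_far : ∃ C : ℝ, 0 < C ∧ ∀ (f : E3 → ℝ) (K : ℝ), Continuous f → BL K f → ∀ x : E3,
    Integrable (fun y => f y ^ 2 / ‖x - y‖ ^ 2) →
    ∫ y, |f y| / ‖x - y‖ ^ 2 ≤ C * (√(∫ y, f y ^ 2 / ‖x - y‖ ^ 2) + √(∫ y, f y ^ 2)) := by
  set A : ℝ := ∫ z : E3, (if ‖z‖ < 1 then 1 / ‖z‖ ^ 2 else 0) with hA
  set B : ℝ := ∫ z : E3, (if ‖z‖ < 1 then 0 else 1 / ‖z‖ ^ 4) with hB
  refine ⟨√A + √B + 1, by positivity, ?_⟩
  intro f K hf hK x hfx
  have hm : Measurable (fun y : E3 => ‖x - y‖) := (continuous_const.sub continuous_id).norm.measurable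
  have hset : MeasurableSet {y : E3 | ‖x - y‖ < 1} := measurableSet_lt hm measurable_const
  -- the near part
  have e1 : ∀ y : E3, (if ‖x - y‖ < 1 then 1 / ‖x - y‖ else 0) ^ 2 = if ‖x - y‖ < 1 then 1 / ‖x - y‖ ^ 2 else 0 := by
    intro y
    split_ifs <;> ring
  have e2 : ∀ y : E3, (if ‖x - y‖ < 1 then 0 else 1 / ‖x - y‖ ^ 2) ^ 2 = if ‖x - y‖ < 1 then 0 else 1 / ‖x - y‖ ^ 4 := by
    intro y
    split_ifs <;> ring
  have e3 : ∀ y : E3, (|f y| / ‖x - y‖) ^ 2 = f y ^ 2 / ‖x - y‖ ^ 2 := by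
    intro y
    rw [div_pow, sq_abs]
  have m1 : Measurable (fun y : E3 => |f y| / ‖x - y‖) := hf.abs.measurable.div hm
  have m2 : Measurable (fun y : E3 => if ‖x - y‖ < 1 then 1 / ‖x - y‖ else 0) :=
    Measurable.ite hset (measurable_const.div hm) measurable_const
  have m3 : Measurable (fun y : E3 => if ‖x - y‖ < 1 then 0 else 1 / ‖x - y‖ ^ 2) :=
    Measurable.ite hset measurable_const (measurable_const.div (hm.pow_const 2))
  have n1 := hint_cs (μ := (volume : Measure E3)) (g := fun y => |f y| / ‖x - y‖)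
    (h := fun y => if ‖x - y‖ < 1 then 1 / ‖x - y‖ else 0) (fun y => by positivity)
    (fun y => by split_ifs <;> positivity) m1.aestronglyMeasurable m2.aestronglyMeasurable
    (by simp_rw [e3]; exact hfx) (by simp_rw [e1]; exact hint_near_int x)
  have n2 := hint_cs (μ := (volume : Measure E3)) (g := fun y => |f y|)
    (h := fun y => if ‖x - y‖ < 1 then 0 else 1 / ‖x - y‖ ^ 2) (fun y => abs_nonneg _)
    (fun y => by split_ifs <;> positivity) hf.abs.measurable.aestronglyMeasurable m3.aestronglyMeasurable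
    (by simp_rw [sq_abs]; exact hK.2.1) (by simp_rw [e2]; exact hint_far_int x)
  simp_rw [e3, e1] at n1
  simp_rw [e2, sq_abs] at n2
  have hA' : ∫ y : E3, (if ‖x - y‖ < 1 then 1 / ‖x - y‖ ^ 2 else 0) = A :=
    integral_sub_left_eq_self (fun z : E3 => if ‖z‖ < 1 then 1 / ‖z‖ ^ 2 else 0) volume x
  have hB' : ∫ y : E3, (if ‖x - y‖ < 1 then 0 else 1 / ‖x - y‖ ^ 4) = B :=
    integral_sub_left_eq_self (fun z : E3 => if ‖z‖ < 1 then 0 else 1 / ‖z‖ ^ 4) volume x
  rw [hA'] at n1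
  rw [hB'] at n2
  have hint := int_div hf hK x
  have s1 : ∀ y : E3, |f y| / ‖x - y‖ * (if ‖x - y‖ < 1 then 1 / ‖x - y‖ else 0) =
      if ‖x - y‖ < 1 then |f y| / ‖x - y‖ ^ 2 else 0 := by
    intro y
    split_ifs
    · rw [pow_two, div_mul_div_comm, mul_one]
    · ring
  have s2 : ∀ y : E3, |f y| * (if ‖x - y‖ < 1 then 0 else 1 / ‖x - y‖ ^ 2) =
      if ‖x - y‖ < 1 then 0 else |f y| / ‖x - y‖ ^ 2 := by
    intro y
    split_ifs <;> ring
  simp_rw [s1] at n1
  simp_rw [s2] at n2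
  have i1 : Integrable (fun y : E3 => if ‖x - y‖ < 1 then |f y| / ‖x - y‖ ^ 2 else 0) := by
    have := hint.indicator hset
    refine this.congr (Filter.Eventually.of_forall (fun y => ?_))
    simp [Set.indicator]
  have i2 : Integrable (fun y : E3 => if ‖x - y‖ < 1 then 0 else |f y| / ‖x - y‖ ^ 2) := by
    have := hint.indicator hset.compl
    refine this.congr (Filter.Eventually.of_forall (fun y => ?_))
    by_cases h : ‖x - y‖ < 1
    · simp [Set.indicator, h]
    · simp [Set.indicator, h]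
  have hsplit : ∫ y : E3, |f y| / ‖x - y‖ ^ 2 =
      (∫ y : E3, (if ‖x - y‖ < 1 then |f y| / ‖x - y‖ ^ 2 else 0)) +
        ∫ y : E3, (if ‖x - y‖ < 1 then 0 else |f y| / ‖x - y‖ ^ 2) := by
    rw [← integral_add i1 i2]
    refine integral_congr_ae (Filter.Eventually.of_forall (fun y => ?_))
    dsimp only
    split_ifs <;> ring
  rw [hsplit]
  set P := √(∫ y, f y ^ 2 / ‖x - y‖ ^ 2) with hP
  set R := √(∫ y, f y ^ 2) with hR
  have hP0 : 0 ≤ P := Real.sqrt_nonneg _
  have hR0 : 0 ≤ R := Real.sqrt_nonneg _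
  have hA0 : 0 ≤ √A := Real.sqrt_nonneg _
  have hB0 : 0 ≤ √B := Real.sqrt_nonneg _
  nlinarith [mul_nonneg hP0 hB0, mul_nonneg hR0 hA0]

end Pool.Agent.H87.NS
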