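/-
ROW KIneq. PROOF. Let `P = (r - y)² + q`, `P' = (r + y)² + q`, where `q ≥ d²`, `P, P' > 0`. By symmetry (`y → -y` exchanges `P` and
`P'`) assume `y ≥ 0`; then `P ≤ P'`. Let `a = √P ≤ b = √P'`, so `P ^ (-3/2) = 1 / a³`, `P' ^ (-3/2) = 1 / b³`, `P⁻¹ = 1 / a²`.
`b² - a² = 4 r y`, `b³ - a³ = (b - a) (b² + a b + a²) ≤ 3 b² (b - a)` and `b - a = 4 r y / (a + b) ≤ 4 r y / b`; so
`1 / a³ - 1 / b³ = (b³ - a³) / (a³ b³) ≤ 12 r y / (a³ b²)`. Also `|d| ≤ a`, `y ≤ r + y ≤ b`. Hence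
`y |d| (1 / a³ - 1 / b³) ≤ y a 12 r y / (a³ b²) = 12 r y² / (a² b²) ≤ 12 r / a²`.
-/
import Pool.Agent.H87.NS.Defs

set_option autoImplicit false

open Set Filter Topology MeasureTheory
open scoped ContDiff

namespace Pool.Agent.H87.NS

private lemma kin_rpow {P a : ℝ} (ha : 0 < a) (hP : a ^ 2 = P) : P ^ (-(3/2) : ℝ) = (a ^ 3)⁻¹ := by
  rw [← hP, ← Real.rpow_natCast a 2, ← Real.rpow_mul ha.le]
  norm_num

private lemma kin_aux {r y d q : ℝ} (hr : 0 < r) (hy : 0 ≤ y) (hq : d ^ 2 ≤ q) (hq0 : 0 < q) :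
    y * |d| * |((r - y) ^ 2 + q) ^ (-(3/2) : ℝ) - ((r + y) ^ 2 + q) ^ (-(3/2) : ℝ)|
      ≤ 12 * r * ((r - y) ^ 2 + q)⁻¹ := by
  have hP : 0 < (r - y) ^ 2 + q := by positivity
  have hP' : 0 < (r + y) ^ 2 + q := by positivity
  obtain ⟨a, ha, haP⟩ : ∃ a : ℝ, 0 < a ∧ a ^ 2 = (r - y) ^ 2 + q :=
    ⟨Real.sqrt ((r - y) ^ 2 + q), Real.sqrt_pos.mpr hP, Real.sq_sqrt hP.le⟩
  obtain ⟨b, hb, hbP⟩ : ∃ b : ℝ, 0 < b ∧ b ^ 2 = (r + y) ^ 2 + q :=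
    ⟨Real.sqrt ((r + y) ^ 2 + q), Real.sqrt_pos.mpr hP', Real.sq_sqrt hP'.le⟩
  rw [kin_rpow ha haP, kin_rpow hb hbP, ← haP]
  have hab : a ≤ b := by
    apply le_of_sq_le_sq _ hb.le
    rw [haP, hbP]
    nlinarith
  have hda : |d| ≤ a := by
    apply abs_le_of_sq_le_sq _ ha.le
    rw [haP]
    nlinarith [sq_nonneg (r - y)]
  have hyb : y ≤ b := by
    apply le_of_sq_le_sq _ hb.le
    rw [hbP]
    nlinarith
  have hdiff : b ^ 2 - a ^ 2 = 4 * r * y := by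
    rw [haP, hbP]; ring
  have hbma : (b - a) * b ≤ 4 * r * y := by nlinarith
  have hnn : 0 ≤ (a ^ 3)⁻¹ - (b ^ 3)⁻¹ := by
    have : (b ^ 3)⁻¹ ≤ (a ^ 3)⁻¹ := by
      apply inv_anti₀ (by positivity)
      gcongr
    linarith
  rw [abs_of_nonneg hnn]
  have key : y * |d| * ((b - a) * (b ^ 2 + a * b + a ^ 2)) ≤ 12 * r * (a * b ^ 3) := by
    have h1 : (b - a) * (b ^ 2 + a * b + a ^ 2) ≤ 3 * (4 * r * y) * b := by
      have h2 : b ^ 2 + a * b + a ^ 2 ≤ 3 * b ^ 2 := by nlinarith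
      have h3 : 0 ≤ b - a := by linarith
      calc (b - a) * (b ^ 2 + a * b + a ^ 2) ≤ (b - a) * (3 * b ^ 2) := by gcongr
        _ = 3 * ((b - a) * b) * b := by ring
        _ ≤ 3 * (4 * r * y) * b := by gcongr
    have hd0 : 0 ≤ |d| := abs_nonneg d
    calc y * |d| * ((b - a) * (b ^ 2 + a * b + a ^ 2)) ≤ y * |d| * (3 * (4 * r * y) * b) := by gcongr
      _ = 12 * r * (|d| * (y * y) * b) := by ring
      _ ≤ 12 * r * (a * (b * b) * b) := by gcongr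
      _ = 12 * r * (a * b ^ 3) := by ring
  have e : (a ^ 3)⁻¹ - (b ^ 3)⁻¹ = ((b - a) * (b ^ 2 + a * b + a ^ 2)) / (a ^ 3 * b ^ 3) := by
    field_simp
    ring
  rw [e, ← mul_div_assoc, div_le_iff₀ (by positivity)]
  refine key.trans (le_of_eq ?_)
  field_simp

theorem kernel_ineq {r y d q : ℝ} (hr : 0 < r) (hq : d ^ 2 ≤ q) (hq0 : 0 < q) :
    |y| * |d| * |((r - y) ^ 2 + q) ^ (-(3/2) : ℝ) - ((r + y) ^ 2 + q) ^ (-(3/2) : ℝ)|
      ≤ 12 * r * (((r - y) ^ 2 + q)⁻¹ + ((r + y) ^ 2 + q)⁻¹) := by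
  have hP : 0 < (r - y) ^ 2 + q := by positivity
  have hP' : 0 < (r + y) ^ 2 + q := by positivity
  rcases le_total 0 y with hy | hy
  · rw [abs_of_nonneg hy]
    refine (kin_aux hr hy hq hq0).trans ?_
    have : 0 ≤ ((r + y) ^ 2 + q)⁻¹ := by positivity
    nlinarith
  · have h := kin_aux hr (neg_nonneg.mpr hy) hq hq0
    rw [abs_of_nonpos hy]
    have e1 : r - -y = r + y := by ring
    have e2 : r + -y = r - y := by ring
    rw [e1, e2, abs_sub_comm] at h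
    refine h.trans ?_
    have : 0 ≤ ((r - y) ^ 2 + q)⁻¹ := by positivity
    nlinarith

end Pool.Agent.H87.NS
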