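/-
ROW AxId. Consequences of axial symmetry. PROOF.
ax_id: the components of Pool.Agent.H16.fderiv_rotGen (`fderiv ℝ v x (rotGen x) = rotGen (v x)`), with
`rotGen x = - x 1 • e 0 + x 0 • e 1` and linearity (see the proof of Pool.Agent.H16.IsAxisymNS.axis_identities).
curl_smooth: each component of `curl v` is a difference of components of `fderiv ℝ v x (e i)`, smooth in `x`.
curl_div: symmetry of the second derivatives (`ContDiffAt.isSymmSndFDerivAt`). curl_ax: Pool.Agent.H16.fderiv_rot gives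
`fderiv ℝ v (rot θ x) (rot θ w) = rot θ (fderiv ℝ v x w)`, and `e 0 = cos θ • rot θ (e 0) - sin θ • rot θ (e 1)`,
`e 1 = sin θ • rot θ (e 0) + cos θ • rot θ (e 1)`, `e 2 = rot θ (e 2)`; expand, use `sin² + cos² = 1`.
circ_rot, radFlux_rot, rsq_rot: direct computations. circ_vort: an algebraic identity. Let `D_ij = fderiv ℝ v x (e i) j`,
`R0 : x0 D10 - x1 D00 + v1 = 0`, `R1 : x0 D11 - x1 D01 - v0 = 0`, `R2 : x0 D12 - x1 D02 = 0` (ax_id). With
`w0 = D12 - D21`, `w1 = D20 - D02`, `w2 = D01 - D10`, `a = x0 w1 - x1 w0`, `q = x0 D21 - x1 D20`, `xv = x0 v1 - x1 v0`,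
`c = x0 (x0 D01 + x1 D11) - x1 (x0 D00 + x1 D10)`: the identity is
`linear_combination (c - xv) * R2 + (- x1 * a - x0 * q) * R0 + (x0 * a - x1 * q) * R1` (all `R` as equations `... = 0`).
rdr_circ: `rdr (circ v) x = c + xv` and `rsq x * w2 - (c + xv) = - x0 R0 - x1 R1`. rdr_radFlux:
`rdr (radFlux v) x = x0 (x0 D00 + x1 D10) + x1 (x0 D01 + x1 D11) + (x0 v0 + x1 v1)` equals `rsq x (D00 + D11)` modulo `R0, R1`, and
`D00 + D11 = - D22`.
-/
import Pool.Agent.H87.NS.Defs

set_option autoImplicit false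

open Set Filter Topology MeasureTheory
open scoped ContDiff

namespace Pool.Agent.H87.NS

open Pool.Agent.H16

private theorem AxId_diff {v : E3 → E3} (hv : ContDiff ℝ ∞ v) : Differentiable ℝ v :=
  hv.differentiable (by simp)

private theorem AxId_comp {v : E3 → E3} (hv : ContDiff ℝ ∞ v) (j : Fin 3) (x : E3) :
    HasFDerivAt (fun y => v y j) ((EuclideanSpace.proj j : E3 →L[ℝ] ℝ).comp (fderiv ℝ v x)) x :=
  (EuclideanSpace.proj j : E3 →L[ℝ] ℝ).hasFDerivAt.comp x (AxId_diff hv x).hasFDerivAt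

private theorem AxId_coord (j : Fin 3) (x : E3) :
    HasFDerivAt (fun y : E3 => y j) (EuclideanSpace.proj j : E3 →L[ℝ] ℝ) x :=
  (EuclideanSpace.proj j : E3 →L[ℝ] ℝ).hasFDerivAt

theorem ax_id {v : E3 → E3} (hv : AxF v) (x : E3) :
    x 0 * fderiv ℝ v x (e 1) 0 - x 1 * fderiv ℝ v x (e 0) 0 = - v x 1 ∧
    x 0 * fderiv ℝ v x (e 1) 1 - x 1 * fderiv ℝ v x (e 0) 1 = v x 0 ∧
    x 0 * fderiv ℝ v x (e 1) 2 - x 1 * fderiv ℝ v x (e 0) 2 = 0 := by
  have h1 := fderiv_rotGen (AxId_diff hv.smooth) hv.ax x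
  rw [fderiv_expand] at h1
  simp only [Fin.sum_univ_three, rotGen_zero', rotGen_one', rotGen_two', zero_smul, add_zero] at h1
  refine ⟨?_, ?_, ?_⟩
  · have := congrArg (fun w : E3 => w 0) h1
    simp only [PiLp.add_apply, PiLp.smul_apply, smul_eq_mul, rotGen_zero'] at this
    linarith
  · have := congrArg (fun w : E3 => w 1) h1
    simp only [PiLp.add_apply, PiLp.smul_apply, smul_eq_mul, rotGen_one'] at this
    linarith
  · have := congrArg (fun w : E3 => w 2) h1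
    simp only [PiLp.add_apply, PiLp.smul_apply, smul_eq_mul, rotGen_two'] at this
    linarith

theorem pd_comp {v : E3 → E3} (hv : ContDiff ℝ ∞ v) (i j : Fin 3) (x : E3) :
    pd i (fun y => v y j) x = fderiv ℝ v x (e i) j := by
  unfold pd
  rw [(AxId_comp hv j x).fderiv]
  rfl

theorem curl_smooth {v : E3 → E3} (hv : ContDiff ℝ ∞ v) : ContDiff ℝ ∞ (curl v) := by
  have h : ∀ i j : Fin 3, ContDiff ℝ ∞ (fun x => fderiv ℝ v x (e i) j) := by
    intro i j
    have h1 : ContDiff ℝ ∞ (fderiv ℝ v) := hv.fderiv_right (m := ∞) (by norm_cast)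
    have h2 : ContDiff ℝ ∞ (fun x => fderiv ℝ v x (e i)) := h1.clm_apply contDiff_const
    exact (EuclideanSpace.proj j : E3 →L[ℝ] ℝ).contDiff.comp h2
  rw [contDiff_euclidean]
  intro i
  fin_cases i
  · exact (h 1 2).sub (h 2 1)
  · exact (h 2 0).sub (h 0 2)
  · exact (h 0 1).sub (h 1 0)

private theorem AxId_snd {v : E3 → E3} (hv : ContDiff ℝ ∞ v) (i j k : Fin 3) (x : E3) :
    HasFDerivAt (fun y => fderiv ℝ v y (e j) k)
      ((EuclideanSpace.proj k : E3 →L[ℝ] ℝ).comp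
        ((ContinuousLinearMap.apply ℝ E3 (e j)).comp (fderiv ℝ (fderiv ℝ v) x))) x := by
  have hd : Differentiable ℝ (fderiv ℝ v) :=
    (hv.fderiv_right (m := ∞) (by norm_cast)).differentiable (by simp)
  exact (EuclideanSpace.proj k : E3 →L[ℝ] ℝ).hasFDerivAt.comp x
    ((ContinuousLinearMap.apply ℝ E3 (e j)).hasFDerivAt.comp x (hd x).hasFDerivAt)

private theorem AxId_sym {v : E3 → E3} (hv : ContDiff ℝ ∞ v) (i j k : Fin 3) (x : E3) :
    fderiv ℝ (fderiv ℝ v) x (e i) (e j) k = fderiv ℝ (fderiv ℝ v) x (e j) (e i) k := by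
  have hc : ContDiffAt ℝ 2 v x := (hv.of_le (by norm_cast)).contDiffAt
  have hs : IsSymmSndFDerivAt ℝ v x := hc.isSymmSndFDerivAt (by simp)
  rw [hs (e i) (e j)]

theorem curl_div {v : E3 → E3} (hv : ContDiff ℝ ∞ v) (x : E3) :
    ∑ i : Fin 3, fderiv ℝ (curl v) x (e i) i = 0 := by
  have h0 : fderiv ℝ (curl v) x (e 0) 0 =
      fderiv ℝ (fderiv ℝ v) x (e 0) (e 1) 2 - fderiv ℝ (fderiv ℝ v) x (e 0) (e 2) 1 := by
    rw [← pd_comp (curl_smooth hv) 0 0 x]
    unfold pd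
    have h1 := (AxId_snd hv 0 1 2 x).sub (AxId_snd hv 0 2 1 x)
    have h2 : HasFDerivAt (fun y => curl v y 0) _ x := h1
    rw [h2.fderiv]
    rfl
  have h1 : fderiv ℝ (curl v) x (e 1) 1 =
      fderiv ℝ (fderiv ℝ v) x (e 1) (e 2) 0 - fderiv ℝ (fderiv ℝ v) x (e 1) (e 0) 2 := by
    rw [← pd_comp (curl_smooth hv) 1 1 x]
    unfold pd
    have h1 := (AxId_snd hv 1 2 0 x).sub (AxId_snd hv 1 0 2 x)
    have h2 : HasFDerivAt (fun y => curl v y 1) _ x := h1
    rw [h2.fderiv]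
    rfl
  have h2 : fderiv ℝ (curl v) x (e 2) 2 =
      fderiv ℝ (fderiv ℝ v) x (e 2) (e 0) 1 - fderiv ℝ (fderiv ℝ v) x (e 2) (e 1) 0 := by
    rw [← pd_comp (curl_smooth hv) 2 2 x]
    unfold pd
    have h1 := (AxId_snd hv 2 0 1 x).sub (AxId_snd hv 2 1 0 x)
    have h2 : HasFDerivAt (fun y => curl v y 2) _ x := h1
    rw [h2.fderiv]
    rfl
  rw [Fin.sum_univ_three, h0, h1, h2, AxId_sym hv 0 1 2, AxId_sym hv 0 2 1, AxId_sym hv 1 2 0]
  ring

theorem curl_axF {v : E3 → E3} (hv : AxF v) : AxF (curl v) := by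
  refine ⟨curl_smooth hv.smooth, fun θ x => ?_, curl_div hv.smooth⟩
  have hd := AxId_diff hv.smooth
  have hsc := Real.sin_sq_add_cos_sq θ
  have hr := fun w => fderiv_rot hd hv.ax θ x w
  have e0 : e 0 = Real.cos θ • rot θ (e 0) - Real.sin θ • rot θ (e 1) := by
    apply ext3
    · simp only [PiLp.sub_apply, PiLp.smul_apply, smul_eq_mul, rot_zero', e_apply]
      simp only [Fin.isValue, if_true, Fin.reduceEq, if_false]
      linear_combination -hsc
    · simp only [PiLp.sub_apply, PiLp.smul_apply, smul_eq_mul, rot_one', e_apply]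
      simp only [Fin.isValue, if_true, Fin.reduceEq, if_false]
      ring
    · simp only [PiLp.sub_apply, PiLp.smul_apply, smul_eq_mul, rot_two', e_apply]
      simp only [Fin.isValue, Fin.reduceEq, if_false]
      ring
  have e1 : e 1 = Real.sin θ • rot θ (e 0) + Real.cos θ • rot θ (e 1) := by
    apply ext3
    · simp only [PiLp.add_apply, PiLp.smul_apply, smul_eq_mul, rot_zero', e_apply]
      simp only [Fin.isValue, if_true, Fin.reduceEq, if_false]
      ring
    · simp only [PiLp.add_apply, PiLp.smul_apply, smul_eq_mul, rot_one', e_apply]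
      simp only [Fin.isValue, if_true, Fin.reduceEq, if_false]
      linear_combination -hsc
    · simp only [PiLp.add_apply, PiLp.smul_apply, smul_eq_mul, rot_two', e_apply]
      simp only [Fin.isValue, Fin.reduceEq, if_false]
      ring
  have e2 : e 2 = rot θ (e 2) := by
    apply ext3
    · simp only [rot_zero', e_apply]
      simp only [Fin.isValue, Fin.reduceEq, if_false]
      ring
    · simp only [rot_one', e_apply]
      simp only [Fin.isValue, Fin.reduceEq, if_false]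
      ring
    · simp only [rot_two', e_apply]
  have k0 : fderiv ℝ v (rot θ x) (e 0) = Real.cos θ • rot θ (fderiv ℝ v x (e 0)) -
      Real.sin θ • rot θ (fderiv ℝ v x (e 1)) := by
    conv_lhs => rw [e0]
    rw [map_sub, map_smul, map_smul, hr, hr]
  have k1 : fderiv ℝ v (rot θ x) (e 1) = Real.sin θ • rot θ (fderiv ℝ v x (e 0)) +
      Real.cos θ • rot θ (fderiv ℝ v x (e 1)) := by
    conv_lhs => rw [e1]
    rw [map_add, map_smul, map_smul, hr, hr]
  have k2 : fderiv ℝ v (rot θ x) (e 2) = rot θ (fderiv ℝ v x (e 2)) := by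
    conv_lhs => rw [e2]
    rw [hr]
  have c0 : ∀ y, curl v y 0 = fderiv ℝ v y (e 1) 2 - fderiv ℝ v y (e 2) 1 := fun _ => rfl
  have c1 : ∀ y, curl v y 1 = fderiv ℝ v y (e 2) 0 - fderiv ℝ v y (e 0) 2 := fun _ => rfl
  have c2 : ∀ y, curl v y 2 = fderiv ℝ v y (e 0) 1 - fderiv ℝ v y (e 1) 0 := fun _ => rfl
  apply ext3
  · rw [rot_zero', c0, c0, c1, k1, k2]
    simp only [PiLp.add_apply, PiLp.smul_apply, smul_eq_mul, rot_zero', rot_one', rot_two']
    ring
  · rw [rot_one', c1, c0, c1, k0, k2]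
    simp only [PiLp.sub_apply, PiLp.smul_apply, smul_eq_mul, rot_zero', rot_one', rot_two']
    ring
  · rw [rot_two', c2, c2, k0, k1]
    simp only [PiLp.add_apply, PiLp.sub_apply, PiLp.smul_apply, smul_eq_mul, rot_zero', rot_one']
    linear_combination (fderiv ℝ v x (e 0) 1 - fderiv ℝ v x (e 1) 0) * hsc

theorem circ_rot {v : E3 → E3} (hv : AxF v) (θ : ℝ) (x : E3) : circ v (rot θ x) = circ v x := by
  have hsc := Real.sin_sq_add_cos_sq θ
  unfold circ
  rw [hv.ax]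
  simp only [rot_zero', rot_one']
  linear_combination (x 0 * v x 1 - x 1 * v x 0) * hsc

theorem radFlux_rot {v : E3 → E3} (hv : AxF v) (θ : ℝ) (x : E3) : radFlux v (rot θ x) = radFlux v x := by
  have hsc := Real.sin_sq_add_cos_sq θ
  unfold radFlux
  rw [hv.ax]
  simp only [rot_zero', rot_one']
  linear_combination (x 0 * v x 0 + x 1 * v x 1) * hsc

theorem rsq_rot (θ : ℝ) (x : E3) : rsq (rot θ x) = rsq x := by
  have hsc := Real.sin_sq_add_cos_sq θ
  unfold rsq
  simp only [rot_zero', rot_one']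
  linear_combination (x 0 ^ 2 + x 1 ^ 2) * hsc

private theorem AxId_pd_circ {v : E3 → E3} (hv : ContDiff ℝ ∞ v) (i : Fin 3) (x : E3) :
    pd i (circ v) x = e i 0 * v x 1 + x 0 * fderiv ℝ v x (e i) 1 - e i 1 * v x 0 -
      x 1 * fderiv ℝ v x (e i) 0 := by
  have h : HasFDerivAt (circ v) _ x :=
    ((AxId_coord 0 x).mul (AxId_comp hv 1 x)).sub ((AxId_coord 1 x).mul (AxId_comp hv 0 x))
  unfold pd
  rw [h.fderiv]
  change (x 0 * fderiv ℝ v x (e i) 1 + v x 1 * e i 0) - (x 1 * fderiv ℝ v x (e i) 0 + v x 0 * e i 1) = _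
  ring

private theorem AxId_pd_flux {v : E3 → E3} (hv : ContDiff ℝ ∞ v) (i : Fin 3) (x : E3) :
    pd i (radFlux v) x = e i 0 * v x 0 + x 0 * fderiv ℝ v x (e i) 0 + e i 1 * v x 1 +
      x 1 * fderiv ℝ v x (e i) 1 := by
  have h : HasFDerivAt (radFlux v) _ x :=
    ((AxId_coord 0 x).mul (AxId_comp hv 0 x)).add ((AxId_coord 1 x).mul (AxId_comp hv 1 x))
  unfold pd
  rw [h.fderiv]
  change (x 0 * fderiv ℝ v x (e i) 0 + v x 0 * e i 0) + (x 1 * fderiv ℝ v x (e i) 1 + v x 1 * e i 1) = _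
  ring

theorem rdr_circ {v : E3 → E3} (hv : AxF v) (x : E3) : rdr (circ v) x = rsq x * curl v x 2 := by
  obtain ⟨R0, R1, R2⟩ := ax_id hv x
  have c2 : curl v x 2 = fderiv ℝ v x (e 0) 1 - fderiv ℝ v x (e 1) 0 := rfl
  unfold rdr rsq
  rw [AxId_pd_circ hv.smooth, AxId_pd_circ hv.smooth, c2]
  simp only [e_apply]
  simp only [Fin.isValue, if_true, Fin.reduceEq, if_false]
  linear_combination x 0 * R0 + x 1 * R1

theorem rdr_radFlux {v : E3 → E3} (hv : AxF v) (x : E3) :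
    rdr (radFlux v) x = rsq x * (- fderiv ℝ v x (e 2) 2) := by
  obtain ⟨R0, R1, R2⟩ := ax_id hv x
  have hdiv := hv.div x
  rw [Fin.sum_univ_three] at hdiv
  unfold rdr rsq
  rw [AxId_pd_flux hv.smooth, AxId_pd_flux hv.smooth]
  simp only [e_apply]
  simp only [Fin.isValue, if_true, Fin.reduceEq, if_false]
  linear_combination (x 0 ^ 2 + x 1 ^ 2) * hdiv + x 1 * R0 - x 0 * R1

theorem circ_vort {v : E3 → E3} (hv : AxF v) (x : E3) :
    rsq x * ((v x 0 * curl v x 1 - v x 1 * curl v x 0)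
      + (x 0 * fderiv ℝ v x (curl v x) 1 - x 1 * fderiv ℝ v x (curl v x) 0))
    = 2 * radFlux v x * circ (curl v) x + 2 * circ v x * pd 2 (circ v) x := by
  obtain ⟨R0, R1, R2⟩ := ax_id hv x
  have c0 : curl v x 0 = fderiv ℝ v x (e 1) 2 - fderiv ℝ v x (e 2) 1 := rfl
  have c1 : curl v x 1 = fderiv ℝ v x (e 2) 0 - fderiv ℝ v x (e 0) 2 := rfl
  have c2 : curl v x 2 = fderiv ℝ v x (e 0) 1 - fderiv ℝ v x (e 1) 0 := rfl
  have k0 : fderiv ℝ v x (curl v x) 0 = curl v x 0 * fderiv ℝ v x (e 0) 0 +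
      curl v x 1 * fderiv ℝ v x (e 1) 0 + curl v x 2 * fderiv ℝ v x (e 2) 0 := by
    have := congrArg (fun w : E3 => w 0) (fderiv_expand v x (curl v x))
    simpa only [Fin.sum_univ_three, PiLp.add_apply, PiLp.smul_apply, smul_eq_mul] using this
  have k1 : fderiv ℝ v x (curl v x) 1 = curl v x 0 * fderiv ℝ v x (e 0) 1 +
      curl v x 1 * fderiv ℝ v x (e 1) 1 + curl v x 2 * fderiv ℝ v x (e 2) 1 := by
    have := congrArg (fun w : E3 => w 1) (fderiv_expand v x (curl v x))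
    simpa only [Fin.sum_univ_three, PiLp.add_apply, PiLp.smul_apply, smul_eq_mul] using this
  have hcc : circ (curl v) x = x 0 * curl v x 1 - x 1 * curl v x 0 := rfl
  rw [k0, k1, AxId_pd_circ hv.smooth, hcc, c0, c1, c2]
  unfold rsq radFlux circ
  simp only [e_apply]
  simp only [Fin.isValue, Fin.reduceEq, if_false]
  generalize fderiv ℝ v x (e 0) 0 = D00 at *
  generalize fderiv ℝ v x (e 0) 1 = D01 at *
  generalize fderiv ℝ v x (e 0) 2 = D02 at *
  generalize fderiv ℝ v x (e 1) 0 = D10 at *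
  generalize fderiv ℝ v x (e 1) 1 = D11 at *
  generalize fderiv ℝ v x (e 1) 2 = D12 at *
  generalize fderiv ℝ v x (e 2) 0 = D20 at *
  generalize fderiv ℝ v x (e 2) 1 = D21 at *
  generalize x 0 = x0 at *
  generalize x 1 = x1 at *
  generalize v x 0 = v0 at *
  generalize v x 1 = v1 at *
  linear_combination ((x0 * (x0 * D01 + x1 * D11) - x1 * (x0 * D00 + x1 * D10)) - (x0 * v1 - x1 * v0)) * R2 +
    (-x1 * (x0 * (D20 - D02) - x1 * (D12 - D21)) - x0 * (x0 * D21 - x1 * D20)) * R0 +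
    (x0 * (x0 * (D20 - D02) - x1 * (D12 - D21)) - x1 * (x0 * D21 - x1 * D20)) * R1

end Pool.Agent.H87.NS
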