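/-
ROW VRep. `V`, `W`, `Om` as averages. PROOF. circ_eq: for fixed `x` let `φ(s) = circ v (sq s x)`, `φ(0) = 0` (`sq 0 x` is on the
axis), `φ'(s) = ∑_{i<2} x_i (pd i (circ v))(sq s x)`; for `s ≠ 0` this is `s⁻¹ (rdr (circ v)) (sq s x) = s⁻¹ rsq (sq s x) curl v (sq s x) 2
= s rsq x (curl v (sq s x) 2)` (rdr_circ), and for `s = 0` both sides are continuous in `s` (or: both sides at `s = 0` are limits).
The fundamental theorem of calculus on `[0, 1]` (`intervalIntegral.integral_eq_sub_of_hasDerivAt_of_le`, which needs the derivative only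
inside the interval) gives `circ v x = ∫₀¹ s rsq x (curl v (sq s x) 2) ds = rsq x * sV v x`. flux_eq: the same with rdr_radFlux.
om_eq: circ_eq for `curl v` (curl_axF). Rotations: `sq s (rot θ x) = rot θ (sq s x)`, and the third component of an axially symmetric field
(`curl v`, `curl (curl v)`) is invariant; `fderiv ℝ v (rot θ y) (e 2) 2 = fderiv ℝ v y (e 2) 2` by Pool.Agent.H16.fderiv_rot.
-/
import Pool.Agent.H87.NS.AxId

set_option autoImplicit false

open Set Filter Topology MeasureTheory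
open scoped ContDiff

namespace Pool.Agent.H87.NS

open Pool.Agent.H16

/-! ### auxiliary lemmas -/

lemma VRep_coord {v : E3 → E3} (hv : ContDiff ℝ ∞ v) (j : Fin 3) :
    ContDiff ℝ ∞ (fun y => v y j) := by
  exact (EuclideanSpace.proj j : E3 →L[ℝ] ℝ).contDiff.comp hv

lemma VRep_x (j : Fin 3) : ContDiff ℝ ∞ (fun y : E3 => y j) := by
  exact (EuclideanSpace.proj j : E3 →L[ℝ] ℝ).contDiff

lemma VRep_sq_deriv (x : E3) (s : ℝ) : HasDerivAt (fun s => sq s x) (hor x) s := by
  apply hasDerivAt_e3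
  intro i
  fin_cases i
  · show HasDerivAt (fun t : ℝ => t * x 0) (x 0) s
    simpa using (hasDerivAt_id s).mul_const (x 0)
  · show HasDerivAt (fun t : ℝ => t * x 1) (x 1) s
    simpa using (hasDerivAt_id s).mul_const (x 1)
  · show HasDerivAt (fun _ : ℝ => x 2) 0 s
    exact hasDerivAt_const s (x 2)

lemma VRep_sq_cont (x : E3) : Continuous (fun s => sq s x) :=
  continuous_iff_continuousAt.2 fun s => (VRep_sq_deriv x s).continuousAt

lemma VRep_hor (f : E3 → ℝ) (x w : E3) :
    fderiv ℝ f x (hor w) = w 0 * pd 0 f x + w 1 * pd 1 f x := by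
  have h : hor w = w 0 • e 0 + w 1 • e 1 := by
    apply ext3 <;> simp [e_apply]
  rw [h, map_add, map_smul, map_smul]
  rfl

lemma VRep_main {f g : E3 → ℝ} (hf : ContDiff ℝ ∞ f) (hg : Continuous g) (h0 : ∀ x, f (sq 0 x) = 0)
    (h : ∀ x, rdr f x = rsq x * g x) (x : E3) : f x = rsq x * avk 1 g x := by
  have h1 : sq 1 x = x := by
    apply ext3
    · show 1 * x 0 = x 0
      ring
    · show 1 * x 1 = x 1
      ring
    · rfl
  have hd : ∀ s ∈ Ioo (0 : ℝ) 1, HasDerivAt (fun s => f (sq s x)) (rsq x * (s ^ 1 * g (sq s x))) s := by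
    intro s hs
    have hs0 : s ≠ 0 := hs.1.ne'
    have h2 := ((hf.differentiable (by simp)) (sq s x)).hasFDerivAt.comp_hasDerivAt s (VRep_sq_deriv x s)
    refine h2.congr_deriv ?_
    rw [VRep_hor]
    have h3 := h (sq s x)
    rw [rdr] at h3
    have e0 : sq s x 0 = s * x 0 := rfl
    have e1 : sq s x 1 = s * x 1 := rfl
    have e2 : rsq (sq s x) = s ^ 2 * rsq x := by
      unfold rsq
      rw [e0, e1]
      ring
    rw [e2, e0, e1] at h3
    have h4 : s * (x 0 * pd 0 f (sq s x) + x 1 * pd 1 f (sq s x)) = s * (rsq x * (s ^ 1 * g (sq s x))) := by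
      linear_combination h3
    exact mul_left_cancel₀ hs0 h4
  have hc : Continuous (fun s : ℝ => rsq x * (s ^ 1 * g (sq s x))) :=
    continuous_const.mul ((continuous_id.pow 1).mul (hg.comp (VRep_sq_cont x)))
  have h5 := intervalIntegral.integral_eq_sub_of_hasDerivAt_of_le zero_le_one
    ((hf.continuous.comp (VRep_sq_cont x)).continuousOn) hd (hc.intervalIntegrable 0 1)
  have h6 : f (sq 1 x) - f (sq 0 x) = f x := by
    rw [h1, h0 x, sub_zero]
  rw [← h6, avk, ← intervalIntegral.integral_const_mul]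
  exact h5.symm

lemma VRep_circ_smooth {v : E3 → E3} (hv : ContDiff ℝ ∞ v) : ContDiff ℝ ∞ (circ v) :=
  ((VRep_x 0).mul (VRep_coord hv 1)).sub ((VRep_x 1).mul (VRep_coord hv 0))

lemma VRep_flux_smooth {v : E3 → E3} (hv : ContDiff ℝ ∞ v) : ContDiff ℝ ∞ (radFlux v) :=
  ((VRep_x 0).mul (VRep_coord hv 0)).add ((VRep_x 1).mul (VRep_coord hv 1))

lemma VRep_sq_rot (θ s : ℝ) (x : E3) : sq s (rot θ x) = rot θ (sq s x) := by
  apply ext3
  · show s * (Real.cos θ * x 0 - Real.sin θ * x 1) = Real.cos θ * (s * x 0) - Real.sin θ * (s * x 1)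
    ring
  · show s * (Real.sin θ * x 0 + Real.cos θ * x 1) = Real.sin θ * (s * x 0) + Real.cos θ * (s * x 1)
    ring
  · rfl

theorem circ_eq {v : E3 → E3} (hv : AxF v) (x : E3) : circ v x = rsq x * sV v x := by
  refine VRep_main (VRep_circ_smooth hv.smooth) (VRep_coord (curl_smooth hv.smooth) 2).continuous ?_
    (rdr_circ hv) x
  intro y
  show (0 * y 0) * v (sq 0 y) 1 - (0 * y 1) * v (sq 0 y) 0 = 0
  ring

theorem flux_eq {v : E3 → E3} (hv : AxF v) (x : E3) : radFlux v x = rsq x * sW v x := by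
  have hg : Continuous (fun y => - fderiv ℝ v y (e 2) 2) := by
    have h1 : Continuous (fun y => fderiv ℝ v y (e 2)) :=
      (hv.smooth.continuous_fderiv (by simp)).clm_apply continuous_const
    exact ((continuous_coord 2).comp h1).neg
  refine VRep_main (VRep_flux_smooth hv.smooth) hg ?_ (rdr_radFlux hv) x
  intro y
  show (0 * y 0) * v (sq 0 y) 0 + (0 * y 1) * v (sq 0 y) 1 = 0
  ring

theorem om_eq {v : E3 → E3} (hv : AxF v) (x : E3) : circ (curl v) x = rsq x * sO v x := by
  exact circ_eq (curl_axF hv) x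

theorem sV_rot {v : E3 → E3} (hv : AxF v) (θ : ℝ) (x : E3) : sV v (rot θ x) = sV v x := by
  unfold sV avk
  simp only [VRep_sq_rot, (curl_axF hv).ax, rot_two']

theorem sW_rot {v : E3 → E3} (hv : AxF v) (θ : ℝ) (x : E3) : sW v (rot θ x) = sW v x := by
  have h2 : rot θ (e 2) = e 2 := by
    apply ext3 <;> simp [e_apply]
  have h1 : ∀ y, fderiv ℝ v (rot θ y) (e 2) 2 = fderiv ℝ v y (e 2) 2 := by
    intro y
    have h3 := fderiv_rot (hv.smooth.differentiable (by simp)) hv.ax θ y (e 2)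
    rw [h2] at h3
    rw [h3]
    rfl
  unfold sW avk
  simp only [VRep_sq_rot, h1]

theorem sO_rot {v : E3 → E3} (hv : AxF v) (θ : ℝ) (x : E3) : sO v (rot θ x) = sO v x := by
  exact sV_rot (curl_axF hv) θ x

end Pool.Agent.H87.NS
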