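/-
ROW KSym. The kernel estimate at a point `x = (r, 0, x₂)`, `r > 0`, for fixed `ε > 0`. Let `w = curl v` (axially symmetric), `Om = sO v`,
`circ w = rsq * Om` (om_eq), `Om` invariant under rotations (sO_rot), continuous. Let `σ₁(y) = (y₀, -y₁, y₂)`, `σ₀(y) = (-y₀, y₁, y₂)`: linear
isometries, measure preserving.
(a) `w₂(σ₁ y) = w₂(y)`, `w₁(y) + w₁(σ₁ y) = 2 y₀ Om(y)`, `Om(σ₀ y) = Om(y)`. Proof: if `rsq y > 0`, `σ₁ y = rot θ y` with
`cos θ = (y₀² - y₁²) / rsq y`, `sin θ = - 2 y₀ y₁ / rsq y` (a point of the unit circle; take `θ` by `Complex.arg` or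
`Real.exists_...`: for `c² + s² = 1` there is `θ` with `cos θ = c`, `sin θ = s`), so `w(σ₁ y) = rot θ (w y)` and
`w₁(σ₁ y) = sin θ w₀ + cos θ w₁`; then `w₁(y) + w₁(σ₁ y) = (2 y₀² w₁ - 2 y₀ y₁ w₀) / rsq y = 2 y₀ circ w y / rsq y = 2 y₀ Om(y)`. If `rsq y = 0`,
`σ₁ y = y`, `y₀ = 0`, and `w₁(y) = 0` (rotation by `π` fixes `y`). Similarly `σ₀ y = rot θ' y`.
(b) `∫ w₂(y) MK ε 1 (x - y) dy = 0`: `MK ε 1 (x - σ₁ y) = - MK ε 1 (x - y)` as `x₁ = 0` (change of variables `σ₁`).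
(c) `∫ w₁(y) MK ε 2 (x - y) dy = ∫ y₀ Om(y) MK ε 2 (x - y) dy` (average with the change of variables `σ₁`; `MK ε 2 (x - σ₁ y) = MK ε 2 (x-y)`)
`= (1/2) ∫ y₀ Om(y) (MK ε 2 (x - y) - MK ε 2 (x - σ₀ y)) dy` (change of variables `σ₀`).
(d) With `d = x₂ - y₂`, `q = y₁² + d² + ε²`: `MK ε 2 (x - y) = d ((r - y₀)² + q) ^ (-3/2)`, `MK ε 2 (x - σ₀ y) = d ((r + y₀)² + q) ^ (-3/2)`,
and kernel_ineq bounds `|y₀| |MK ε 2 (x-y) - MK ε 2 (x - σ₀ y)|` by `12 r (‖x-y‖⁻² + ‖x - σ₀ y‖⁻²)` (for `y ≠ x, σ₀ x`: a null set). So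
`|(c)| ≤ (1/2) 12 r (∫ |Om(y)| ‖x-y‖⁻² + ∫ |Om(y)| ‖x-σ₀ y‖⁻²) = 12 r ∫ |Om(y)| / ‖x-y‖²` (change of variables `σ₀`).
Integrability: `w_i`, `MK` are square integrable (BL_mul); `y₀ Om(y)` has the same `L²` bound as `w` (`y₀ Om(y) = (w₁(y) + w₁(σ₁ y))/2`);
the right hand side by int_div.
-/
import Pool.Agent.H87.NS.VRep
import Pool.Agent.H87.NS.KInt
import Pool.Agent.H87.NS.KIneq
import Pool.Agent.H87.NS.HInt
import Pool.Agent.H87.NS.IBP

set_option autoImplicit false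

open Set Filter Topology MeasureTheory
open scoped ContDiff

namespace Pool.Agent.H87.NS

open Pool.Agent.H16

theorem KSym_trig {c s : ℝ} (h : c ^ 2 + s ^ 2 = 1) : ∃ θ : ℝ, Real.cos θ = c ∧ Real.sin θ = s := by
  have hn : ‖(⟨c, s⟩ : ℂ)‖ = 1 := by
    rw [Complex.norm_def, Complex.normSq_mk, ← pow_two, ← pow_two, h, Real.sqrt_one]
  have h0 : (⟨c, s⟩ : ℂ) ≠ 0 := by
    intro h0
    rw [h0, norm_zero] at hn
    exact zero_ne_one hn
  refine ⟨Complex.arg ⟨c, s⟩, ?_, ?_⟩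
  · rw [Complex.cos_arg h0, hn, div_one]
  · rw [Complex.sin_arg, hn, div_one]

/-- Two points off the axis with equal distance to the axis and equal height differ by a rotation. -/
theorem KSym_rot {y z : E3} (hy : 0 < rsq y) (h : rsq z = rsq y) (h2 : z 2 = y 2) :
    ∃ θ : ℝ, rot θ y = z ∧ Real.cos θ * rsq y = y 0 * z 0 + y 1 * z 1 ∧
      Real.sin θ * rsq y = y 0 * z 1 - y 1 * z 0 := by
  have hne := hy.ne'
  have hsq : ((y 0 * z 0 + y 1 * z 1) / rsq y) ^ 2 + ((y 0 * z 1 - y 1 * z 0) / rsq y) ^ 2 = 1 := by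
    have h3 : (y 0 * z 0 + y 1 * z 1) ^ 2 + (y 0 * z 1 - y 1 * z 0) ^ 2 = rsq y * rsq z := by
      unfold rsq
      ring
    rw [div_pow, div_pow, ← add_div, h3, h]
    field_simp
  obtain ⟨θ, hc, hs⟩ := KSym_trig hsq
  have hc' : Real.cos θ * rsq y = y 0 * z 0 + y 1 * z 1 := by
    rw [hc]
    field_simp
  have hs' : Real.sin θ * rsq y = y 0 * z 1 - y 1 * z 0 := by
    rw [hs]
    field_simp
  refine ⟨θ, ?_, hc', hs'⟩
  apply ext3
  · rw [rot_zero']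
    have h4 : (Real.cos θ * y 0 - Real.sin θ * y 1) * rsq y = z 0 * rsq y := by
      have h5 : (Real.cos θ * y 0 - Real.sin θ * y 1) * rsq y =
          y 0 * (Real.cos θ * rsq y) - y 1 * (Real.sin θ * rsq y) := by ring
      rw [h5, hc', hs']
      unfold rsq
      ring
    exact mul_right_cancel₀ hne h4
  · rw [rot_one']
    have h4 : (Real.sin θ * y 0 + Real.cos θ * y 1) * rsq y = z 1 * rsq y := by
      have h5 : (Real.sin θ * y 0 + Real.cos θ * y 1) * rsq y =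
          y 0 * (Real.sin θ * rsq y) + y 1 * (Real.cos θ * rsq y) := by ring
      rw [h5, hc', hs']
      unfold rsq
      ring
    exact mul_right_cancel₀ hne h4
  · rw [rot_two', h2]

/-- Changes of sign of the first two coordinates. -/
noncomputable def KSym_sg (a b : ℝ) (ha : a ^ 2 = 1) (hb : b ^ 2 = 1) : E3 ≃ₗᵢ[ℝ] E3 where
  toFun y := !₂[a * y 0, b * y 1, y 2]
  invFun y := !₂[a * y 0, b * y 1, y 2]
  map_add' y z := by
    apply ext3
    · change a * (y 0 + z 0) = a * y 0 + a * z 0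
      ring
    · change b * (y 1 + z 1) = b * y 1 + b * z 1
      ring
    · rfl
  map_smul' c y := by
    apply ext3
    · change a * (c * y 0) = c * (a * y 0)
      ring
    · change b * (c * y 1) = c * (b * y 1)
      ring
    · rfl
  left_inv y := by
    apply ext3
    · change a * (a * y 0) = y 0
      linear_combination y 0 * ha
    · change b * (b * y 1) = y 1
      linear_combination y 1 * hb
    · rfl
  right_inv y := by
    apply ext3
    · change a * (a * y 0) = y 0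
      linear_combination y 0 * ha
    · change b * (b * y 1) = y 1
      linear_combination y 1 * hb
    · rfl
  norm_map' y := by
    have h : ‖(!₂[a * y 0, b * y 1, y 2] : E3)‖ ^ 2 = ‖y‖ ^ 2 := by
      rw [norm_sq_eq, norm_sq_eq]
      change (a * y 0) ^ 2 + (b * y 1) ^ 2 + y 2 ^ 2 = _
      linear_combination y 0 ^ 2 * ha + y 1 ^ 2 * hb
    exact (sq_eq_sq₀ (norm_nonneg _) (norm_nonneg _)).1 h

theorem KSym_sg_zero (a b : ℝ) (ha : a ^ 2 = 1) (hb : b ^ 2 = 1) (y : E3) :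
    KSym_sg a b ha hb y 0 = a * y 0 := rfl

theorem KSym_sg_one (a b : ℝ) (ha : a ^ 2 = 1) (hb : b ^ 2 = 1) (y : E3) :
    KSym_sg a b ha hb y 1 = b * y 1 := rfl

theorem KSym_sg_two (a b : ℝ) (ha : a ^ 2 = 1) (hb : b ^ 2 = 1) (y : E3) :
    KSym_sg a b ha hb y 2 = y 2 := rfl

theorem KSym_cov (s : E3 ≃ₗᵢ[ℝ] E3) (f : E3 → ℝ) : ∫ y, f (s y) = ∫ y, f y :=
  s.measurePreserving.integral_comp s.toHomeomorph.measurableEmbedding f

theorem KSym_covI (s : E3 ≃ₗᵢ[ℝ] E3) {f : E3 → ℝ} (hf : Integrable f) : Integrable (fun y => f (s y)) :=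
  (s.measurePreserving.integrable_comp_emb s.toHomeomorph.measurableEmbedding).2 hf

theorem KSym_trBL {K : ℝ} {f : E3 → ℝ} (h : BL K f) (x : E3) : BL K (fun y => f (x - y)) := by
  refine ⟨fun y => h.1 _, h.2.1.comp_sub_left x, ?_⟩
  rw [integral_sub_left_eq_self (fun z => f z ^ 2) volume x]
  exact h.2.2

/-- The symmetrised field. -/
theorem KSym_w {v : E3 → E3} (hv : AxF v) (y : E3) :
    curl v (KSym_sg 1 (-1) (by norm_num) (by norm_num) y) 2 = curl v y 2 ∧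
    curl v y 1 + curl v (KSym_sg 1 (-1) (by norm_num) (by norm_num) y) 1 = 2 * y 0 * sO v y := by
  have hw := curl_axF hv
  set z := KSym_sg 1 (-1) (by norm_num) (by norm_num) y with hz
  have hz0 : z 0 = y 0 := by rw [hz, KSym_sg_zero, one_mul]
  have hz1 : z 1 = - y 1 := by rw [hz, KSym_sg_one]; ring
  have hz2 : z 2 = y 2 := rfl
  rcases eq_or_lt_of_le (show 0 ≤ rsq y by unfold rsq; positivity) with h | h
  · have hy0 : y 0 = 0 := by
      unfold rsq at h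
      nlinarith only [sq_nonneg (y 0), sq_nonneg (y 1), h]
    have hy1 : y 1 = 0 := by
      unfold rsq at h
      nlinarith only [sq_nonneg (y 0), sq_nonneg (y 1), h]
    have hzy : z = y := by
      apply ext3
      · rw [hz0]
      · rw [hz1, hy1, neg_zero]
      · rw [hz2]
    rw [hzy]
    refine ⟨rfl, ?_⟩
    have h1 : rot Real.pi y = y := by
      apply ext3
      · rw [rot_zero', hy0, hy1]; ring
      · rw [rot_one', hy0, hy1]; ring
      · rw [rot_two']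
    have h2 := congrArg (fun w : E3 => w 1) (hw.ax Real.pi y)
    simp only [h1, rot_one', Real.sin_pi, Real.cos_pi] at h2
    rw [hy0]
    linarith
  · obtain ⟨θ, h1, h2, h3⟩ := KSym_rot h (show rsq z = rsq y by unfold rsq; rw [hz0, hz1]; ring) hz2
    have h4 := hw.ax θ y
    rw [h1] at h4
    refine ⟨by rw [h4, rot_two'], ?_⟩
    rw [h4, rot_one']
    have h5 := om_eq hv y
    rw [hz0, hz1] at h2 h3
    refine mul_right_cancel₀ h.ne' ?_
    have h6 : (curl v y 1 + (Real.sin θ * curl v y 0 + Real.cos θ * curl v y 1)) * rsq y =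
        curl v y 1 * rsq y + (Real.sin θ * rsq y) * curl v y 0 + (Real.cos θ * rsq y) * curl v y 1 := by
      ring
    have h7 : 2 * y 0 * sO v y * rsq y = 2 * y 0 * (rsq y * sO v y) := by ring
    rw [h6, h7, ← h5, h2, h3]
    unfold circ rsq
    ring

theorem KSym_O {v : E3 → E3} (hv : AxF v) (y : E3) :
    sO v (KSym_sg (-1) 1 (by norm_num) (by norm_num) y) = sO v y := by
  set z := KSym_sg (-1) 1 (by norm_num) (by norm_num) y with hz
  have hz0 : z 0 = - y 0 := by rw [hz, KSym_sg_zero]; ring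
  have hz1 : z 1 = y 1 := by rw [hz, KSym_sg_one]; ring
  have hz2 : z 2 = y 2 := rfl
  rcases eq_or_lt_of_le (show 0 ≤ rsq y by unfold rsq; positivity) with h | h
  · have hy0 : y 0 = 0 := by
      unfold rsq at h
      nlinarith only [sq_nonneg (y 0), sq_nonneg (y 1), h]
    have hzy : z = y := by
      apply ext3
      · rw [hz0, hy0, neg_zero]
      · rw [hz1]
      · rw [hz2]
    rw [hzy]
  · obtain ⟨θ, h1, _, _⟩ := KSym_rot h (show rsq z = rsq y by unfold rsq; rw [hz0, hz1]; ring) hz2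
    rw [← h1, sO_rot hv]

/-- Symmetrisation. -/
theorem KSym_avg {F G H : E3 → ℝ} (s t : E3 ≃ₗᵢ[ℝ] E3) (hF : Integrable F) (hG : ∀ y, F y + F (s y) = G y)
    (hH : ∀ y, G y + G (t y) = H y) : 4 * ∫ y, F y = ∫ y, H y := by
  have h1 : 2 * ∫ y, F y = ∫ y, G y := by
    have h2 := integral_add hF (KSym_covI s hF)
    rw [KSym_cov s F] at h2
    rw [two_mul, ← h2]
    exact integral_congr_ae (Eventually.of_forall hG)
  have hGi : Integrable G := by
    have h2 := hF.add (KSym_covI s hF)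
    exact h2.congr (Eventually.of_forall hG)
  have h3 : 2 * ∫ y, G y = ∫ y, H y := by
    have h2 := integral_add hGi (KSym_covI t hGi)
    rw [KSym_cov t G] at h2
    rw [two_mul, ← h2]
    exact integral_congr_ae (Eventually.of_forall hH)
  linarith

theorem kernel_sym {v : E3 → E3} (hv : AxF v) {K : ℝ} (hK : ∀ j : Fin 3, DB 1 K (fun x => curl v x j))
    (hO : ContDiff ℝ ∞ (sO v)) (hOK : BL K (sO v)) {ε : ℝ} (hε : 0 < ε) {x : E3} (hx0 : 0 < x 0) (hx1 : x 1 = 0) :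
    |∫ y, (curl v y 1 * MK ε 2 (x - y) - curl v y 2 * MK ε 1 (x - y))|
      ≤ 12 * x 0 * ∫ y, |sO v y| / ‖x - y‖ ^ 2 := by
  have hw := curl_axF hv
  have hwc : ∀ j : Fin 3, Continuous (fun y => curl v y j) := fun j =>
    (continuous_coord j).comp hw.smooth.continuous
  have hMc : ∀ j : Fin 3, Continuous (fun y => MK ε j (x - y)) := fun j =>
    (MK_smooth hε j).continuous.comp (continuous_const.sub continuous_id)
  have hI : ∀ i j : Fin 3, Integrable (fun y => curl v y i * MK ε j (x - y)) := by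
    intro i j
    obtain ⟨K', hK'⟩ := MK_DB hε j
    exact BL_mul (hwc i) (hMc j) (DB_BL (hK i)) (KSym_trBL (DB_BL hK') x)
  set s := KSym_sg 1 (-1) (by norm_num) (by norm_num) with hs
  set t := KSym_sg (-1) 1 (by norm_num) (by norm_num) with ht
  have hn : ∀ y : E3, ‖x - s y‖ ^ 2 = ‖x - y‖ ^ 2 := by
    intro y
    rw [norm_sq_eq, norm_sq_eq]
    change (x 0 - 1 * y 0) ^ 2 + (x 1 - (-1) * y 1) ^ 2 + (x 2 - y 2) ^ 2 =
      (x 0 - y 0) ^ 2 + (x 1 - y 1) ^ 2 + (x 2 - y 2) ^ 2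
    rw [hx1]
    ring
  have hM1 : ∀ y : E3, MK ε 1 (x - s y) = - MK ε 1 (x - y) := by
    intro y
    unfold MK
    rw [hn]
    change (x 1 - (-1) * y 1) * _ = - ((x 1 - y 1) * _)
    rw [hx1]
    ring
  have hM2 : ∀ y : E3, MK ε 2 (x - s y) = MK ε 2 (x - y) := by
    intro y
    unfold MK
    rw [hn]
    rfl
  have key := KSym_avg (F := fun y => curl v y 1 * MK ε 2 (x - y) - curl v y 2 * MK ε 1 (x - y))
    (G := fun y => 2 * y 0 * sO v y * MK ε 2 (x - y))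
    (H := fun y => 2 * y 0 * sO v y * (MK ε 2 (x - y) - MK ε 2 (x - t y))) s t ((hI 1 2).sub (hI 2 1))
    (by
      intro y
      obtain ⟨h1, h2⟩ := KSym_w hv y
      change curl v y 1 * MK ε 2 (x - y) - curl v y 2 * MK ε 1 (x - y) +
        (curl v (s y) 1 * MK ε 2 (x - s y) - curl v (s y) 2 * MK ε 1 (x - s y)) =
        2 * y 0 * sO v y * MK ε 2 (x - y)
      rw [hM1, hM2, ← h2, h1]
      ring)
    (by
      intro y
      change 2 * y 0 * sO v y * MK ε 2 (x - y) + 2 * (t y) 0 * sO v (t y) * MK ε 2 (x - t y) =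
        2 * y 0 * sO v y * (MK ε 2 (x - y) - MK ε 2 (x - t y))
      rw [ht, KSym_sg_zero, KSym_O hv]
      ring)
  have hid := int_div hO.continuous hOK x
  have hid2 : Integrable (fun y => |sO v y| / ‖x - t y‖ ^ 2) := by
    have h1 := KSym_covI t hid
    refine h1.congr (Eventually.of_forall fun y => ?_)
    change |sO v (t y)| / ‖x - t y‖ ^ 2 = _
    rw [ht, KSym_O hv]
  have hie : ∫ y, |sO v y| / ‖x - t y‖ ^ 2 = ∫ y, |sO v y| / ‖x - y‖ ^ 2 := by
    rw [← KSym_cov t (fun y => |sO v y| / ‖x - y‖ ^ 2)]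
    refine integral_congr_ae (Eventually.of_forall fun y => ?_)
    change |sO v y| / ‖x - t y‖ ^ 2 = |sO v (t y)| / ‖x - t y‖ ^ 2
    rw [ht, KSym_O hv]
  have hbi : Integrable (fun y => 24 * x 0 * (|sO v y| / ‖x - y‖ ^ 2 + |sO v y| / ‖x - t y‖ ^ 2)) :=
    (hid.add hid2).const_mul _
  have hb : ∀ᵐ y : E3, ‖2 * y 0 * sO v y * (MK ε 2 (x - y) - MK ε 2 (x - t y))‖ ≤
      24 * x 0 * (|sO v y| / ‖x - y‖ ^ 2 + |sO v y| / ‖x - t y‖ ^ 2) := by
    have hn1 : ∀ᵐ y : E3, y ≠ x := Measure.ae_ne volume x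
    have hn2 : ∀ᵐ y : E3, y ≠ t x := Measure.ae_ne volume (t x)
    filter_upwards [hn1, hn2] with y hy1 hy2
    have hp1 : 0 < ‖x - y‖ ^ 2 := by
      have := norm_pos_iff.2 (sub_ne_zero.2 hy1.symm)
      positivity
    have hty : x - t y ≠ 0 := by
      intro h
      apply hy2
      have h5 : t y = x := (sub_eq_zero.1 h).symm
      rw [← h5]
      apply ext3
      · change y 0 = -1 * (-1 * y 0)
        ring
      · change y 1 = 1 * (1 * y 1)
        ring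
      · rfl
    have hp2 : 0 < ‖x - t y‖ ^ 2 := by
      have := norm_pos_iff.2 hty
      positivity
    have hq : (x 2 - y 2) ^ 2 ≤ y 1 ^ 2 + (x 2 - y 2) ^ 2 + ε ^ 2 := by linarith only [sq_nonneg (y 1), sq_nonneg ε]
    have hq0 : 0 < y 1 ^ 2 + (x 2 - y 2) ^ 2 + ε ^ 2 := by positivity
    have hk := kernel_ineq (y := y 0) hx0 hq hq0
    have hP1 : (x 0 - y 0) ^ 2 + (y 1 ^ 2 + (x 2 - y 2) ^ 2 + ε ^ 2) = ‖x - y‖ ^ 2 + ε ^ 2 := by
      rw [norm_sq_eq]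
      change _ = (x 0 - y 0) ^ 2 + (x 1 - y 1) ^ 2 + (x 2 - y 2) ^ 2 + ε ^ 2
      rw [hx1]
      ring
    have hP2 : (x 0 + y 0) ^ 2 + (y 1 ^ 2 + (x 2 - y 2) ^ 2 + ε ^ 2) = ‖x - t y‖ ^ 2 + ε ^ 2 := by
      rw [norm_sq_eq]
      change _ = (x 0 - (-1) * y 0) ^ 2 + (x 1 - 1 * y 1) ^ 2 + (x 2 - y 2) ^ 2 + ε ^ 2
      rw [hx1]
      ring
    rw [hP1, hP2] at hk
    have hA : MK ε 2 (x - y) - MK ε 2 (x - t y) =
        (x 2 - y 2) * ((‖x - y‖ ^ 2 + ε ^ 2) ^ (-(3/2) : ℝ) - (‖x - t y‖ ^ 2 + ε ^ 2) ^ (-(3/2) : ℝ)) := by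
      unfold MK
      change (x 2 - y 2) * _ - (x 2 - y 2) * _ = _
      ring
    have hi1 : (‖x - y‖ ^ 2 + ε ^ 2)⁻¹ ≤ (‖x - y‖ ^ 2)⁻¹ :=
      inv_anti₀ hp1 (by linarith only [sq_nonneg ε])
    have hi2 : (‖x - t y‖ ^ 2 + ε ^ 2)⁻¹ ≤ (‖x - t y‖ ^ 2)⁻¹ :=
      inv_anti₀ hp2 (by linarith only [sq_nonneg ε])
    rw [hA, Real.norm_eq_abs, abs_mul, abs_mul, abs_mul, abs_mul, abs_two]
    calc 2 * |y 0| * |sO v y| * (|x 2 - y 2| *
          |(‖x - y‖ ^ 2 + ε ^ 2) ^ (-(3/2) : ℝ) - (‖x - t y‖ ^ 2 + ε ^ 2) ^ (-(3/2) : ℝ)|)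
        = 2 * |sO v y| * (|y 0| * |x 2 - y 2| *
          |(‖x - y‖ ^ 2 + ε ^ 2) ^ (-(3/2) : ℝ) - (‖x - t y‖ ^ 2 + ε ^ 2) ^ (-(3/2) : ℝ)|) := by ring
      _ ≤ 2 * |sO v y| * (12 * x 0 * ((‖x - y‖ ^ 2 + ε ^ 2)⁻¹ + (‖x - t y‖ ^ 2 + ε ^ 2)⁻¹)) :=
          mul_le_mul_of_nonneg_left hk (by positivity)
      _ ≤ 2 * |sO v y| * (12 * x 0 * ((‖x - y‖ ^ 2)⁻¹ + (‖x - t y‖ ^ 2)⁻¹)) :=
          mul_le_mul_of_nonneg_left (mul_le_mul_of_nonneg_left (add_le_add hi1 hi2) (by positivity))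
            (by positivity)
      _ = 24 * x 0 * (|sO v y| / ‖x - y‖ ^ 2 + |sO v y| / ‖x - t y‖ ^ 2) := by
          rw [div_eq_mul_inv, div_eq_mul_inv]
          ring
  have hfin := norm_integral_le_of_norm_le hbi hb
  rw [← key, integral_const_mul, integral_add hid hid2, hie, Real.norm_eq_abs, abs_mul,
    abs_of_pos (show (0 : ℝ) < 4 by norm_num)] at hfin
  linarith

end Pool.Agent.H87.NS
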