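/-
ROW RegDB. PROOF. First for scalar functions: if `f : E3 → ℝ` is smooth and for all `n ≤ N` the function `‖iteratedFDeriv ℝ n f x‖` is
bounded by `K` with square integrable with integral `≤ K`, then `DB N K f`; induction on `N` (generalising `f`):
`|f x| = ‖iteratedFDeriv ℝ 0 f x‖` (`norm_iteratedFDeriv_zero`), and `pd i f = (fun L => L (e i)) ∘ fderiv ℝ f`, so
`‖iteratedFDeriv ℝ n (pd i f) x‖ ≤ ‖iteratedFDeriv ℝ n (fderiv ℝ f) x‖ = ‖iteratedFDeriv ℝ (n+1) f x‖`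
(`ContinuousLinearMap.norm_iteratedFDeriv_comp_left`-type bound or `ContinuousLinearMap.iteratedFDeriv_comp_left` and
`ContinuousLinearMap.norm_compContinuousMultilinearMap_le`, `norm_iteratedFDeriv_fderiv`; the norm of the evaluation at `e i` is `≤ 1`);
integrability by domination (`Integrable.mono'`, the left side is continuous). Then for `v`: `(fun x => v x j) = proj j ∘ v`,
`‖iteratedFDeriv ℝ n (fun x => v x j) x‖ ≤ ‖iteratedFDeriv ℝ n v x‖` in the same way.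
-/
import Pool.Agent.H87.NS.IBP

set_option autoImplicit false

open Set Filter Topology MeasureTheory
open scoped ContDiff

namespace Pool.Agent.H87.NS

open Pool.Agent.H16

/-- the hypothesis of `reg_DB`, for maps into any normed space -/
def RegDB_hyp {F : Type*} [NormedAddCommGroup F] [NormedSpace ℝ F] (N : ℕ) (K : ℝ) (f : E3 → F) : Prop :=
  ∀ n ≤ N, (∀ x, ‖iteratedFDeriv ℝ n f x‖ ≤ K) ∧
    Integrable (fun x => ‖iteratedFDeriv ℝ n f x‖ ^ 2) ∧ ∫ x, ‖iteratedFDeriv ℝ n f x‖ ^ 2 ≤ K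

lemma RegDB_cont {F : Type*} [NormedAddCommGroup F] [NormedSpace ℝ F] {f : E3 → F}
    (hf : ContDiff ℝ ∞ f) (n : ℕ) : Continuous (fun x => ‖iteratedFDeriv ℝ n f x‖ ^ 2) :=
  ((hf.continuous_iteratedFDeriv (m := n) (by exact_mod_cast le_top)).norm).pow 2

/-- pointwise domination of the two integral conditions -/
lemma RegDB_dom {F G : Type*} [NormedAddCommGroup F] [NormedSpace ℝ F]
    [NormedAddCommGroup G] [NormedSpace ℝ G] {f : E3 → F} {g : E3 → G} {K : ℝ} {n m : ℕ}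
    (hg : ContDiff ℝ ∞ g)
    (hle : ∀ x, ‖iteratedFDeriv ℝ n g x‖ ≤ ‖iteratedFDeriv ℝ m f x‖)
    (h : (∀ x, ‖iteratedFDeriv ℝ m f x‖ ≤ K) ∧
      Integrable (fun x => ‖iteratedFDeriv ℝ m f x‖ ^ 2) ∧ ∫ x, ‖iteratedFDeriv ℝ m f x‖ ^ 2 ≤ K) :
    (∀ x, ‖iteratedFDeriv ℝ n g x‖ ≤ K) ∧
      Integrable (fun x => ‖iteratedFDeriv ℝ n g x‖ ^ 2) ∧ ∫ x, ‖iteratedFDeriv ℝ n g x‖ ^ 2 ≤ K := by
  obtain ⟨h1, h2, h3⟩ := h
  have hsq : ∀ x, ‖iteratedFDeriv ℝ n g x‖ ^ 2 ≤ ‖iteratedFDeriv ℝ m f x‖ ^ 2 := fun x =>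
    pow_le_pow_left₀ (norm_nonneg _) (hle x) 2
  have hI : Integrable (fun x => ‖iteratedFDeriv ℝ n g x‖ ^ 2) := by
    refine h2.mono' (RegDB_cont hg n).aestronglyMeasurable (Eventually.of_forall fun x => ?_)
    rw [Real.norm_of_nonneg (by positivity)]
    exact hsq x
  exact ⟨fun x => (hle x).trans (h1 x), hI, (integral_mono hI h2 hsq).trans h3⟩

lemma RegDB_comp_le {F G : Type*} [NormedAddCommGroup F] [NormedSpace ℝ F]
    [NormedAddCommGroup G] [NormedSpace ℝ G] {f : E3 → F} (hf : ContDiff ℝ ∞ f) (L : F →L[ℝ] G)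
    (hL : ‖L‖ ≤ 1) (n : ℕ) (x : E3) :
    ‖iteratedFDeriv ℝ n (fun y => L (f y)) x‖ ≤ ‖iteratedFDeriv ℝ n f x‖ := by
  have h := L.norm_iteratedFDeriv_comp_left (n := n) (x := x) hf.contDiffAt
    (by exact_mod_cast le_top)
  refine h.trans ?_
  nlinarith [norm_nonneg (iteratedFDeriv ℝ n f x)]

lemma RegDB_e_norm (i : Fin 3) : ‖e i‖ = 1 := by
  simp [e]

lemma RegDB_pd {f : E3 → ℝ} (hf : ContDiff ℝ ∞ f) (i : Fin 3) (n : ℕ) (x : E3) :
    ‖iteratedFDeriv ℝ n (pd i f) x‖ ≤ ‖iteratedFDeriv ℝ (n + 1) f x‖ := by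
  have h1 : ContDiff ℝ ∞ (fderiv ℝ f) := hf.fderiv_right (m := ∞) (by simp)
  have hL : ‖ContinuousLinearMap.apply ℝ ℝ (e i)‖ ≤ 1 := by
    refine ContinuousLinearMap.opNorm_le_bound _ zero_le_one fun L => ?_
    rw [ContinuousLinearMap.apply_apply, one_mul]
    have := L.le_opNorm (e i)
    rwa [RegDB_e_norm, mul_one] at this
  have h2 := RegDB_comp_le h1 (ContinuousLinearMap.apply ℝ ℝ (e i)) hL n x
  rw [norm_iteratedFDeriv_fderiv] at h2
  exact h2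

lemma RegDB_scal (N : ℕ) : ∀ {f : E3 → ℝ} {K : ℝ}, ContDiff ℝ ∞ f → RegDB_hyp N K f → DB N K f := by
  have h0 : ∀ {N : ℕ} {f : E3 → ℝ} {K : ℝ}, RegDB_hyp N K f → BL K f := by
    intro N f K h
    obtain ⟨h1, h2, h3⟩ := h 0 (Nat.zero_le _)
    have he : (fun x => ‖iteratedFDeriv ℝ 0 f x‖ ^ 2) = fun x => f x ^ 2 := by
      funext x
      rw [norm_iteratedFDeriv_zero, Real.norm_eq_abs, sq_abs]
    refine ⟨fun x => ?_, ?_, ?_⟩
    · have := h1 x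
      rwa [norm_iteratedFDeriv_zero, Real.norm_eq_abs] at this
    · rw [← he]; exact h2
    · rw [← he]; exact h3
  induction N with
  | zero => intro f K _ h; exact h0 h
  | succ N ih =>
    intro f K hf h
    refine ⟨h0 h, fun i => ih (pd_smooth hf i) fun n hn => ?_⟩
    exact RegDB_dom (pd_smooth hf i) (RegDB_pd hf i n) (h (n + 1) (by omega))

theorem reg_DB {v : E3 → E3} (hv : ContDiff ℝ ∞ v) {K : ℝ} {N : ℕ}
    (h : ∀ n ≤ N, (∀ x, ‖iteratedFDeriv ℝ n v x‖ ≤ K) ∧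
      Integrable (fun x => ‖iteratedFDeriv ℝ n v x‖ ^ 2) ∧ ∫ x, ‖iteratedFDeriv ℝ n v x‖ ^ 2 ≤ K) (j : Fin 3) :
    DB N K (fun x => v x j) := by
  have hL : ‖(EuclideanSpace.proj j : E3 →L[ℝ] ℝ)‖ ≤ 1 := by
    refine ContinuousLinearMap.opNorm_le_bound _ zero_le_one fun w => ?_
    rw [one_mul]
    exact PiLp.norm_apply_le w j
  have hs : ContDiff ℝ ∞ (fun x => v x j) :=
    (EuclideanSpace.proj j : E3 →L[ℝ] ℝ).contDiff.comp hv
  refine RegDB_scal N hs fun n hn => ?_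
  exact RegDB_dom hs (fun x => RegDB_comp_le hv (EuclideanSpace.proj j : E3 →L[ℝ] ℝ) hL n x) (h n hn)

end Pool.Agent.H87.NS
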