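/-
ROW Bds1. PROOF. axF_of: `h.ns.slice`, `h.ns.axisymmetric`, `h.ns.divergence_free`. js_u: `h.smooth_u` composed with the projection.
uDB: `h.reg T' hT' n` for `n ≤ 4`, take the maximum of the five constants (or the sum of their absolute values), reg_DB.
js_curl: `curl (u t) x j` is a difference of two functions `pd i (fun y => u t y k) x` (pd_comp), use JS_pd, JS_sub; for
`curl (curl (u t))` the same with `js_curl` (at each `t ∈ [0, T)`, `curl (u t)` is smooth, pd_comp for it); functions which agree for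
`t ∈ [0, T)` have the same `JS` (`ContDiffOn.congr`).
curlDB, curl2DB, divDB: `curl (u t) · j = pd i f - pd i' f'` with `DB 4` components, so `DB 3` with a larger constant (add_BL, smul_BL and
induction; or directly: a lemma `DB n K f → DB n K g → DB n (4 K) (fun x => f x - g x)` for smooth `f, g`).
svw: `sV (u t) = avk 1 (fun y => curl (u t) y 2)`, etc.: avk_smooth, avk_DB (`DB 3` for `V` and `W`, `DB 2` for `Om`), DB_mono.
-/
import Pool.Agent.H87.NS.AxId
import Pool.Agent.H87.NS.Avk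
import Pool.Agent.H87.NS.AvkC
import Pool.Agent.H87.NS.RegDB

set_option autoImplicit false

open Set Filter Topology MeasureTheory
open scoped ContDiff

namespace Pool.Agent.H87.NS

open Pool.Agent.H16

variable {T : ℝ} {u : ℝ → E3 → E3} {p : ℝ → E3 → ℝ}

theorem Bds1_proj_smooth {v : E3 → E3} (hv : ContDiff ℝ ∞ v) (k : Fin 3) :
    ContDiff ℝ ∞ (fun y => v y k) :=
  (EuclideanSpace.proj k : E3 →L[ℝ] ℝ).contDiff.comp hv

theorem Bds1_curl {v : E3 → E3} (hv : ContDiff ℝ ∞ v) (j : Fin 3) (x : E3) :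
    curl v x j = pd (j + 1) (fun y => v y (j + 2)) x - pd (j + 2) (fun y => v y (j + 1)) x := by
  rw [pd_comp hv, pd_comp hv]
  fin_cases j <;> rfl

theorem Bds1_JS_congr {f g : ℝ → E3 → ℝ} (hfg : ∀ t ∈ Ico 0 T, ∀ x, f t x = g t x)
    (hg : JS T g) : JS T f := by
  refine ContDiffOn.congr hg ?_
  rintro ⟨t, x⟩ ⟨ht, -⟩
  exact hfg t ht x

theorem Bds1_neg_BL {K : ℝ} {f : E3 → ℝ} (h : BL K f) : BL K (fun x => - f x) := by
  refine ⟨fun x => ?_, ?_, ?_⟩
  · rw [abs_neg]; exact h.1 x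
  · simp only [neg_sq]; exact h.2.1
  · simp only [neg_sq]; exact h.2.2

theorem Bds1_pd_neg (f : E3 → ℝ) (i : Fin 3) : pd i (fun x => - f x) = fun x => - pd i f x := by
  funext x
  simp only [pd]
  rw [fderiv_fun_neg]
  rfl

theorem Bds1_neg_DB {n : ℕ} {K : ℝ} : ∀ {f : E3 → ℝ}, DB n K f → DB n K (fun x => - f x) := by
  induction n with
  | zero => intro f h; exact Bds1_neg_BL h
  | succ n ih =>
    intro f h
    refine ⟨Bds1_neg_BL h.1, fun i => ?_⟩
    rw [Bds1_pd_neg]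
    exact ih (h.2 i)

theorem Bds1_sub_BL {K : ℝ} {f g : E3 → ℝ} (hf : Continuous f) (hg : Continuous g) (h : BL K f)
    (h' : BL K g) : BL (6 * K) (fun x => f x - g x) := by
  have h0 := BL_nonneg h
  have h1 := add_BL hf hg.neg h (Bds1_neg_BL h')
  have h2 : (fun x => f x - g x) = fun x => f x + - g x := by
    funext x; ring
  rw [h2]
  exact BL_mono h1 (by linarith)

theorem Bds1_pd_sub {f g : E3 → ℝ} (hf : ContDiff ℝ ∞ f) (hg : ContDiff ℝ ∞ g) (i : Fin 3) :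
    pd i (fun x => f x - g x) = fun x => pd i f x - pd i g x := by
  funext x
  simp only [pd]
  rw [fderiv_fun_sub (hf.differentiable (by simp) x) (hg.differentiable (by simp) x)]
  rfl

theorem Bds1_sub_DB {n : ℕ} {K : ℝ} : ∀ {f g : E3 → ℝ}, ContDiff ℝ ∞ f → ContDiff ℝ ∞ g →
    DB n K f → DB n K g → DB n (6 * K) (fun x => f x - g x) := by
  induction n with
  | zero =>
    intro f g hf hg h h'
    exact Bds1_sub_BL hf.continuous hg.continuous h h'
  | succ n ih =>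
    intro f g hf hg h h'
    refine ⟨Bds1_sub_BL hf.continuous hg.continuous h.1 h'.1, fun i => ?_⟩
    rw [Bds1_pd_sub hf hg]
    exact ih (pd_smooth hf i) (pd_smooth hg i) (h.2 i) (h'.2 i)

theorem Bds1_curl_DB {v : E3 → E3} (hv : ContDiff ℝ ∞ v) {n : ℕ} {K : ℝ}
    (h : ∀ j : Fin 3, DB (n + 1) K (fun x => v x j)) (j : Fin 3) :
    DB n (6 * K) (fun x => curl v x j) := by
  have h1 : (fun x => curl v x j) =
      fun x => pd (j + 1) (fun y => v y (j + 2)) x - pd (j + 2) (fun y => v y (j + 1)) x := by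
    funext x
    exact Bds1_curl hv j x
  rw [h1]
  exact Bds1_sub_DB (pd_smooth (Bds1_proj_smooth hv _) _) (pd_smooth (Bds1_proj_smooth hv _) _)
    (DB_pd (h _) _) (DB_pd (h _) _)

theorem axF_of (h : IsAxisymNS T u p) {t : ℝ} (ht : t ∈ Ico 0 T) : AxF (u t) := by
  exact ⟨h.slice ht, h.axisymmetric t ht, h.divergence_free t ht⟩

theorem js_u (h : IsAxisymNS T u p) (j : Fin 3) : JS T (fun t x => u t x j) := by
  exact (EuclideanSpace.proj j : E3 →L[ℝ] ℝ).contDiff.comp_contDiffOn h.smooth_u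

theorem js_curl (h : IsAxisymNS T u p) (j : Fin 3) : JS T (fun t x => curl (u t) x j) := by
  refine Bds1_JS_congr (g := fun t x => pd (j + 1) (fun y => u t y (j + 2)) x -
    pd (j + 2) (fun y => u t y (j + 1)) x) (fun t ht x => Bds1_curl (h.slice ht) j x) ?_
  exact JS_sub (JS_pd (js_u h (j + 2)) (j + 1)) (JS_pd (js_u h (j + 1)) (j + 2))

theorem js_curl2 (h : IsAxisymNS T u p) (j : Fin 3) : JS T (fun t x => curl (curl (u t)) x j) := by
  refine Bds1_JS_congr (g := fun t x => pd (j + 1) (fun y => curl (u t) y (j + 2)) x -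
    pd (j + 2) (fun y => curl (u t) y (j + 1)) x)
    (fun t ht x => Bds1_curl (curl_smooth (h.slice ht)) j x) ?_
  exact JS_sub (JS_pd (js_curl h (j + 2)) (j + 1)) (JS_pd (js_curl h (j + 1)) (j + 2))

theorem uDB (h : IsHInfAxisymNS T u p) {T' : ℝ} (hT' : T' < T) :
    ∃ K : ℝ, ∀ t ∈ Icc 0 T', ∀ j : Fin 3, DB 4 K (fun x => u t x j) := by
  choose K hK using h.reg T' hT'
  refine ⟨∑ n ∈ Finset.range 5, |K n|, fun t ht j => ?_⟩
  have ht' : t ∈ Ico 0 T := ⟨ht.1, lt_of_le_of_lt ht.2 hT'⟩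
  refine reg_DB (h.ns.slice ht') (N := 4) (fun n hn => ?_) j
  have h1 : K n ≤ ∑ n ∈ Finset.range 5, |K n| :=
    (le_abs_self _).trans (Finset.single_le_sum (f := fun n => |K n|)
      (fun i _ => abs_nonneg _) (Finset.mem_range.2 (by omega)))
  obtain ⟨h2, h3, h4⟩ := hK n t ht
  exact ⟨fun x => (h2 x).trans h1, h3, h4.trans h1⟩

theorem curlDB (h : IsHInfAxisymNS T u p) {T' : ℝ} (hT' : T' < T) :
    ∃ K : ℝ, ∀ t ∈ Icc 0 T', ∀ j : Fin 3, DB 3 K (fun x => curl (u t) x j) ∧ DB 2 K (fun x => curl (curl (u t)) x j) := by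
  obtain ⟨K, hK⟩ := uDB h hT'
  refine ⟨max (6 * K) (6 * (6 * K)), fun t ht j => ?_⟩
  have ht' : t ∈ Ico 0 T := ⟨ht.1, lt_of_le_of_lt ht.2 hT'⟩
  have hs := h.ns.slice ht'
  have h1 : ∀ j : Fin 3, DB 3 (6 * K) (fun x => curl (u t) x j) :=
    fun j => Bds1_curl_DB hs (hK t ht) j
  exact ⟨DB_mono (h1 j) le_rfl (le_max_left _ _),
    DB_mono (Bds1_curl_DB (curl_smooth hs) h1 j) le_rfl (le_max_right _ _)⟩

theorem Bds1_div {v : E3 → E3} (hv : ContDiff ℝ ∞ v) :
    (fun y => - fderiv ℝ v y (e 2) 2) = fun y => - pd 2 (fun z => v z 2) y := by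
  funext y
  rw [pd_comp hv]

theorem svw_smooth (h : IsAxisymNS T u p) {t : ℝ} (ht : t ∈ Ico 0 T) :
    ContDiff ℝ ∞ (sV (u t)) ∧ ContDiff ℝ ∞ (sW (u t)) ∧ ContDiff ℝ ∞ (sO (u t)) := by
  have hs := h.slice ht
  refine ⟨?_, ?_, ?_⟩
  · exact avk_smooth (f := fun y => curl (u t) y 2) (Bds1_proj_smooth (curl_smooth hs) 2) 1
  · have h1 : sW (u t) = avk 1 (fun y => - pd 2 (fun z => u t z 2) y) := by
      rw [← Bds1_div hs]
      rfl
    rw [h1]
    exact avk_smooth (pd_smooth (Bds1_proj_smooth hs 2) 2).neg 1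
  · exact avk_smooth (f := fun y => curl (curl (u t)) y 2)
      (Bds1_proj_smooth (curl_smooth (curl_smooth hs)) 2) 1

theorem svwDB (h : IsHInfAxisymNS T u p) {T' : ℝ} (hT' : T' < T) :
    ∃ K : ℝ, ∀ t ∈ Icc 0 T', DB 2 K (sV (u t)) ∧ DB 2 K (sW (u t)) ∧ DB 2 K (sO (u t)) := by
  obtain ⟨K, hK⟩ := uDB h hT'
  obtain ⟨K', hK'⟩ := curlDB h hT'
  refine ⟨max (2 * K) (2 * K'), fun t ht => ?_⟩
  have ht' : t ∈ Ico 0 T := ⟨ht.1, lt_of_le_of_lt ht.2 hT'⟩
  have hs := h.ns.slice ht'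
  refine ⟨?_, ?_, ?_⟩
  · exact DB_mono (avk_DB (f := fun y => curl (u t) y 2) (Bds1_proj_smooth (curl_smooth hs) 2)
      (k := 1) le_rfl (hK' t ht 2).1) (by norm_num) (le_max_right _ _)
  · have h1 : sW (u t) = avk 1 (fun y => - pd 2 (fun z => u t z 2) y) := by
      rw [← Bds1_div hs]
      rfl
    rw [h1]
    exact DB_mono (avk_DB (pd_smooth (Bds1_proj_smooth hs 2) 2).neg
      (k := 1) le_rfl (Bds1_neg_DB (DB_pd (hK t ht 2) 2))) (by norm_num) (le_max_left _ _)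
  · exact DB_mono (avk_DB (f := fun y => curl (curl (u t)) y 2)
      (Bds1_proj_smooth (curl_smooth (curl_smooth hs)) 2)
      (k := 1) le_rfl (hK' t ht 2).2) le_rfl (le_max_right _ _)

end Pool.Agent.H87.NS
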