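/-
ROW Bds2. PROOF. drift_of: `h.ns.slice`, `h.ns.smooth_u.continuousOn`, `h.ns.bounded`, `h.ns.divergence_free`.
jcV, jcW, jcO: avk_JC with JS_JC of js_curl, js_curl2 (and of `fderiv ℝ (u t) x (e 2) 2 = pd 2 (fun y => u t y 2) x`). dV, dO: avk_pd_hor / avk_pd_two
(for `t ∈ [0,T)`), and avk_JC with JS_pd of js_curl, js_curl2; functions agreeing for `t ∈ [0,T)` have the same `JC`
(`ContinuousOn.congr`).
jointV: for `0 < rsq x`, `sV (u t) x = circ (u t) x / rsq x` (circ_eq), a quotient of jointly smooth functions on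
`Ioo 0 T ×ˢ {0 < rsq x}` (`ContDiffOn.div`, js_u restricted). jointO: `sO (u t) x = circ (curl (u t)) x / rsq x` (om_eq), js_curl.
-/
import Pool.Agent.H87.NS.Bds1
import Pool.Agent.H87.NS.VRep

set_option autoImplicit false

open Set Filter Topology MeasureTheory
open scoped ContDiff

namespace Pool.Agent.H87.NS

open Pool.Agent.H16

variable {T : ℝ} {u : ℝ → E3 → E3} {p : ℝ → E3 → ℝ}

theorem Bds2_JC_congr {f g : ℝ → E3 → ℝ} (hfg : ∀ t ∈ Ico 0 T, ∀ x, f t x = g t x)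
    (hg : JC T g) : JC T f := by
  refine ContinuousOn.congr hg ?_
  rintro ⟨t, x⟩ ⟨ht, -⟩
  exact hfg t ht x

theorem Bds2_coord (j : Fin 3) : ContDiff ℝ ∞ (fun q : ℝ × E3 => q.2 j) :=
  (EuclideanSpace.proj j : E3 →L[ℝ] ℝ).contDiff.comp contDiff_snd

theorem Bds2_rsq : ContDiff ℝ ∞ (fun q : ℝ × E3 => rsq q.2) := by
  have h : (fun q : ℝ × E3 => rsq q.2) = fun q : ℝ × E3 => q.2 0 ^ 2 + q.2 1 ^ 2 := by
    funext q
    rfl
  rw [h]
  exact ((Bds2_coord 0).pow 2).add ((Bds2_coord 1).pow 2)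

theorem Bds2_joint {v : ℝ → E3 → E3} {s : ℝ → E3 → ℝ} (h0 : JS T (fun t x => v t x 0))
    (h1 : JS T (fun t x => v t x 1)) (hs : ∀ t ∈ Ico 0 T, ∀ x, circ (v t) x = rsq x * s t x) :
    ContDiffOn ℝ ∞ (fun q : ℝ × E3 => s q.1 q.2) (Ioo 0 T ×ˢ {x | 0 < rsq x}) := by
  have hsub : (Ioo 0 T ×ˢ {x : E3 | 0 < rsq x}) ⊆ (Ico 0 T ×ˢ univ) := fun q hq =>
    ⟨⟨hq.1.1.le, hq.1.2⟩, mem_univ _⟩
  have hnum : ContDiffOn ℝ ∞ (fun q : ℝ × E3 => q.2 0 * v q.1 q.2 1 - q.2 1 * v q.1 q.2 0)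
      (Ioo 0 T ×ˢ {x : E3 | 0 < rsq x}) :=
    ((Bds2_coord 0).contDiffOn.mul (h1.mono hsub)).sub
      ((Bds2_coord 1).contDiffOn.mul (h0.mono hsub))
  refine ContDiffOn.congr (hnum.div Bds2_rsq.contDiffOn fun q hq => ne_of_gt hq.2) ?_
  rintro ⟨t, x⟩ ⟨ht, hx⟩
  have h2 := hs t ⟨ht.1.le, ht.2⟩ x
  have hx' : rsq x ≠ 0 := ne_of_gt hx
  show s t x = (x 0 * v t x 1 - x 1 * v t x 0) / rsq x
  have h3 : x 0 * v t x 1 - x 1 * v t x 0 = rsq x * s t x := h2
  rw [h3, mul_div_cancel_left₀ _ hx']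

theorem drift_of (h : IsAxisymNS T u p) : Drift T u := by
  exact ⟨fun t ht => h.slice ht, h.smooth_u.continuousOn, h.bounded,
    fun t ht x => h.divergence_free t ht x⟩

theorem jcV (h : IsAxisymNS T u p) : JC T (fun t => sV (u t)) := by
  exact avk_JC (g := fun t y => curl (u t) y 2) (JS_JC (js_curl h 2)) 1

theorem jcW (h : IsAxisymNS T u p) : JC T (fun t => sW (u t)) := by
  refine avk_JC (g := fun t y => - fderiv ℝ (u t) y (e 2) 2) ?_ 1
  refine Bds2_JC_congr (g := fun t y => - pd 2 (fun z => u t z 2) y) (fun t ht x => ?_) ?_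
  · have := congrFun (Bds1_div (h.slice ht)) x
    exact this
  · exact JC_comp (JS_JC (JS_pd (js_u h 2) 2)) (H := fun s => - s) continuous_neg

theorem jcO (h : IsAxisymNS T u p) : JC T (fun t => sO (u t)) := by
  exact avk_JC (g := fun t y => curl (curl (u t)) y 2) (JS_JC (js_curl2 h 2)) 1

theorem jcdV (h : IsAxisymNS T u p) (i : Fin 3) : JC T (fun t => pd i (sV (u t))) := by
  by_cases hi : i = 2
  · subst hi
    refine Bds2_JC_congr (g := fun t => avk 1 (pd 2 (fun y => curl (u t) y 2)))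
      (fun t ht x => ?_) (avk_JC (JS_JC (JS_pd (js_curl h 2) 2)) 1)
    exact congrFun (avk_pd_two (Bds1_proj_smooth (curl_smooth (h.slice ht)) 2) 1) x
  · refine Bds2_JC_congr (g := fun t => avk 2 (pd i (fun y => curl (u t) y 2)))
      (fun t ht x => ?_) (avk_JC (JS_JC (JS_pd (js_curl h 2) i)) 2)
    exact congrFun (avk_pd_hor (Bds1_proj_smooth (curl_smooth (h.slice ht)) 2) 1 hi) x

theorem jcdO (h : IsAxisymNS T u p) (i : Fin 3) : JC T (fun t => pd i (sO (u t))) := by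
  by_cases hi : i = 2
  · subst hi
    refine Bds2_JC_congr (g := fun t => avk 1 (pd 2 (fun y => curl (curl (u t)) y 2)))
      (fun t ht x => ?_) (avk_JC (JS_JC (JS_pd (js_curl2 h 2) 2)) 1)
    exact congrFun (avk_pd_two (Bds1_proj_smooth (curl_smooth (curl_smooth (h.slice ht))) 2) 1) x
  · refine Bds2_JC_congr (g := fun t => avk 2 (pd i (fun y => curl (curl (u t)) y 2)))
      (fun t ht x => ?_) (avk_JC (JS_JC (JS_pd (js_curl2 h 2) i)) 2)
    exact congrFun (avk_pd_hor (Bds1_proj_smooth (curl_smooth (curl_smooth (h.slice ht))) 2) 1 hi) x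

theorem jointV (h : IsAxisymNS T u p) :
    ContDiffOn ℝ ∞ (fun q : ℝ × E3 => sV (u q.1) q.2) (Ioo 0 T ×ˢ {x | 0 < rsq x}) := by
  exact Bds2_joint (v := u) (s := fun t => sV (u t)) (js_u h 0) (js_u h 1)
    fun t ht x => circ_eq (axF_of h ht) x

theorem jointO (h : IsAxisymNS T u p) :
    ContDiffOn ℝ ∞ (fun q : ℝ × E3 => sO (u q.1) q.2) (Ioo 0 T ×ˢ {x | 0 < rsq x}) := by
  exact Bds2_joint (v := fun t => curl (u t)) (s := fun t => sO (u t)) (js_curl h 0) (js_curl h 1)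
    fun t ht x => om_eq (axF_of h ht) x

end Pool.Agent.H87.NS
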