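/-
ROW Quot. Multiplication by `rsq`. PROOF. `rsq y = y₀² + y₁²`, `pd i rsq y = 2 y_i` for `i = 0, 1`, `pd 2 rsq = 0`. Product rule:
`pd i (rsq f) y = pd i rsq y * f y + rsq y * pd i f y` for every `y`, hence (differentiate again)
`pd i (pd i (rsq f)) x = 2 f + 4 x_i pd i f + rsq pd i (pd i f)` for `i = 0, 1` and `rsq pd 2 (pd 2 f)` for `i = 2`. Sum.
-/
import Pool.Agent.H87.NS.Defs

set_option autoImplicit false

open Set Filter Topology MeasureTheory
open scoped ContDiff

namespace Pool.Agent.H87.NS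

open Pool.Agent.H16

private theorem Quot_mul {a b : E3 → ℝ} {x : E3} (ha : DifferentiableAt ℝ a x)
    (hb : DifferentiableAt ℝ b x) (i : Fin 3) :
    pd i (fun y => a y * b y) x = pd i a x * b x + a x * pd i b x := by
  unfold pd
  have h := (ha.hasFDerivAt.mul hb.hasFDerivAt).fderiv
  have h' : fderiv ℝ (fun y => a y * b y) x = a x • fderiv ℝ b x + b x • fderiv ℝ a x := h
  rw [h']
  simp only [add_apply, smul_apply, smul_eq_mul]
  ring

private theorem Quot_add {a b : E3 → ℝ} {x : E3} (ha : DifferentiableAt ℝ a x)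
    (hb : DifferentiableAt ℝ b x) (i : Fin 3) :
    pd i (fun y => a y + b y) x = pd i a x + pd i b x := by
  unfold pd
  have h := (ha.hasFDerivAt.add hb.hasFDerivAt).fderiv
  have h' : fderiv ℝ (fun y => a y + b y) x = fderiv ℝ a x + fderiv ℝ b x := h
  rw [h']
  rfl

private theorem Quot_dcoord (j : Fin 3) : Differentiable ℝ (fun y : E3 => y j) :=
  (EuclideanSpace.proj j : E3 →L[ℝ] ℝ).differentiable

private theorem Quot_coord (i j : Fin 3) (x : E3) :
    pd i (fun y : E3 => y j) x = if j = i then 1 else 0 := by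
  unfold pd
  have h : HasFDerivAt (fun y : E3 => y j) (EuclideanSpace.proj j : E3 →L[ℝ] ℝ) x :=
    (EuclideanSpace.proj j : E3 →L[ℝ] ℝ).hasFDerivAt
  rw [h.fderiv]
  change (e i) j = _
  unfold e
  simp

private theorem Quot_two (i j : Fin 3) (x : E3) :
    pd i (fun y : E3 => 2 * y j) x = if j = i then 2 else 0 := by
  have h1 := Quot_mul (a := fun _ => (2 : ℝ)) (b := fun y : E3 => y j) (x := x)
    (differentiableAt_const _) (Quot_dcoord j x) i
  rw [h1, Quot_coord]
  have h2 : pd i (fun _ : E3 => (2 : ℝ)) x = 0 := by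
    unfold pd
    simp
  rw [h2]
  split_ifs <;> ring

private theorem Quot_rsq_diff : Differentiable ℝ rsq := by
  unfold rsq
  exact ((Quot_dcoord 0).pow 2).add ((Quot_dcoord 1).pow 2)

private theorem Quot_rsq (i : Fin 3) (x : E3) :
    pd i rsq x = if i = 2 then 0 else 2 * x i := by
  have h0 : rsq = fun y : E3 => y 0 * y 0 + y 1 * y 1 := by
    funext y
    unfold rsq
    ring
  have hd : ∀ k : Fin 3, DifferentiableAt ℝ (fun y : E3 => y k * y k) x :=
    fun k => (Quot_dcoord k x).mul (Quot_dcoord k x)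
  rw [h0, Quot_add (hd 0) (hd 1),
    Quot_mul (Quot_dcoord 0 x) (Quot_dcoord 0 x), Quot_mul (Quot_dcoord 1 x) (Quot_dcoord 1 x)]
  simp only [Quot_coord]
  fin_cases i
  · simp; ring
  · simp; ring
  · simp

private theorem Quot_pd {f : E3 → ℝ} (hf : ContDiff ℝ ∞ f) (i : Fin 3) (x : E3) :
    pd i (fun y => rsq y * f y) x = (if i = 2 then 0 else 2 * x i) * f x + rsq x * pd i f x := by
  rw [Quot_mul (Quot_rsq_diff x) (hf.differentiable (by simp) x), Quot_rsq]

private theorem Quot_pdd {f : E3 → ℝ} (hf : ContDiff ℝ ∞ f) (i : Fin 3) :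
    Differentiable ℝ (pd i f) := by
  have h1 : ContDiff ℝ ∞ (fderiv ℝ f) := hf.fderiv_right (m := ∞) (by norm_cast)
  have h2 : ContDiff ℝ ∞ (fun x => fderiv ℝ f x (e i)) := h1.clm_apply contDiff_const
  exact h2.differentiable (by simp)

private theorem Quot_pd2 {f : E3 → ℝ} (hf : ContDiff ℝ ∞ f) (i : Fin 3) (x : E3) :
    pd i (pd i (fun y => rsq y * f y)) x = (if i = 2 then 0 else 2 * f x + 4 * (x i * pd i f x)) +
      rsq x * pd i (pd i f) x := by
  have hfd : Differentiable ℝ f := hf.differentiable (by simp)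
  by_cases hi : i = 2
  · have h1 : pd i (fun y => rsq y * f y) = fun y => rsq y * pd i f y := by
      funext y
      rw [Quot_pd hf, if_pos hi, zero_mul, zero_add]
    rw [h1, Quot_mul (Quot_rsq_diff x) (Quot_pdd hf i x), Quot_rsq, if_pos hi, if_pos hi]
    ring
  · have h1 : pd i (fun y => rsq y * f y) = fun y => (2 * y i) * f y + rsq y * pd i f y := by
      funext y
      rw [Quot_pd hf, if_neg hi]
    have hd : DifferentiableAt ℝ (fun y : E3 => 2 * y i) x := (Quot_dcoord i x).const_mul 2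
    have hd1 : DifferentiableAt ℝ (fun y : E3 => 2 * y i * f y) x := hd.mul (hfd x)
    have hd2 : DifferentiableAt ℝ (fun y : E3 => rsq y * pd i f y) x :=
      (Quot_rsq_diff x).mul (Quot_pdd hf i x)
    rw [h1, Quot_add hd1 hd2,
      Quot_mul (Quot_rsq_diff x) (Quot_pdd hf i x), Quot_mul hd (hfd x), Quot_two, Quot_rsq,
      if_neg hi, if_neg hi, if_pos rfl]
    ring

theorem lap_rsq {f : E3 → ℝ} (hf : ContDiff ℝ ∞ f) (x : E3) :
    lap (fun y => rsq y * f y) x = rsq x * lap f x + 4 * rdr f x + 4 * f x := by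
  unfold lap rdr
  simp only [Fin.sum_univ_three, Quot_pd2 hf]
  simp only [Fin.isValue, Fin.reduceEq, if_false, if_true]
  ring

theorem adv_rsq {f : E3 → ℝ} (hf : ContDiff ℝ ∞ f) (w x : E3) :
    adv w (fun y => rsq y * f y) x = rsq x * adv w f x + 2 * (x 0 * w 0 + x 1 * w 1) * f x := by
  unfold adv
  simp only [Fin.sum_univ_three, Quot_pd hf]
  simp only [Fin.isValue, Fin.reduceEq, if_false, if_true]
  ring

theorem rdr_rsq {f : E3 → ℝ} (hf : ContDiff ℝ ∞ f) (x : E3) :
    rdr (fun y => rsq y * f y) x = rsq x * rdr f x + 2 * rsq x * f x := by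
  unfold rdr
  simp only [Quot_pd hf]
  simp only [Fin.isValue, Fin.reduceEq, if_false]
  unfold rsq
  ring

end Pool.Agent.H87.NS
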