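/-
ROW Vort. The vorticity equation. Notation: `∂_t`, `∂_i`; `F(t, x) = u t x` is smooth on the open set `(0,T) × ℝ³`.
PROOF. Let `N(t, x) = ∂_t u + (u·∇) u - Δ u` (an `E3`-valued function); by navier_stokes `N(t, ·) = - ∇ (p t)` for `t ∈ (0, T)`, so
`∂_i N_j = ∂_j N_i` (symmetry of the second derivatives of `p t`, `(∇ (p t) y) j = fderiv ℝ (p t) y (e j)`). Write this for
`(i,j) = (1,2), (2,0), (0,1)` and compute `∂_i N_j - ∂_j N_i`:
`∂_i ∂_t u_j = ∂_t ∂_i u_j` (mixed derivatives of the smooth function `F` on an open set: `∂_t` and `∂_i` are values of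
`fderiv ℝ F (t,x)` at `(1,0)` and `(0, e i)`, second derivatives are symmetric);
`∂_i (∑_k u_k ∂_k u_j) = ∑_k u_k ∂_k ∂_i u_j + ∑_k ∂_i u_k ∂_k u_j`; `∂_i Δ u_j = Δ ∂_i u_j` (third derivatives commute).
So with `w = curl u`: `∂_t w_l + ∑_k u_k ∂_k w_l - Δ w_l + Q_l = 0`, `Q_0 = ∑_k (∂_1 u_k ∂_k u_2 - ∂_2 u_k ∂_k u_1)` and cyclic. Finally
`Q_l = - ∑_k w_k ∂_k u_l + (div u) w_l` is a polynomial identity in the nine numbers `∂_i u_j`, and `div u = 0`.
It is convenient to work with the components `f_j(t, x) = u t x j` and with `pd`: AxId.pd_comp; the `j`-th component of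
navier_stokes is `deriv (fun s => u s x j) t + adv (u t x) (fun y => u t y j) x - lap (fun y => u t y j) x + pd j (p t) x = 0`
(ns_comp; Pool.Agent.H16.laplacian_eq_sum, fderiv_expand).
-/
import Pool.Agent.H87.NS.AxId
import Pool.Agent.H87.NS.AvkC

set_option autoImplicit false

open Set Filter Topology MeasureTheory
open scoped ContDiff

namespace Pool.Agent.H87.NS

open Pool.Agent.H16

/-! ### auxiliary lemmas -/

lemma Vort_two_le : minSmoothness ℝ 2 ≤ ∞ := by
  rw [minSmoothness_of_isRCLikeNormedField]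
  exact ENat.LEInfty.out

lemma Vort_cda {T : ℝ} {f : ℝ → E3 → ℝ} (hf : JS T f) {t : ℝ} (ht : t ∈ Ioo 0 T) (x : E3) :
    ContDiffAt ℝ ∞ (fun q : ℝ × E3 => f q.1 q.2) (t, x) :=
  ContDiffOn.contDiffAt hf (prod_mem_nhds (Ico_mem_nhds ht.1 ht.2) univ_mem)

lemma Vort_line (t : ℝ) (x : E3) : HasDerivAt (fun s : ℝ => (s, x)) ((1 : ℝ), (0 : E3)) t :=
  (hasDerivAt_id t).prodMk (hasDerivAt_const t x)

lemma Vort_time {T : ℝ} {f : ℝ → E3 → ℝ} (hf : JS T f) {t : ℝ} (ht : t ∈ Ioo 0 T) (x : E3) :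
    HasDerivAt (fun s => f s x) (fderiv ℝ (fun q : ℝ × E3 => f q.1 q.2) (t, x) (1, 0)) t := by
  have h1 := ((Vort_cda hf ht x).differentiableAt (by simp)).hasFDerivAt
  exact h1.comp_hasDerivAt t (Vort_line t x)

lemma Vort_space {T : ℝ} {f : ℝ → E3 → ℝ} (hf : JS T f) {t : ℝ} (ht : t ∈ Ioo 0 T) (x : E3)
    (i : Fin 3) :
    pd i (f t) x = fderiv ℝ (fun q : ℝ × E3 => f q.1 q.2) (t, x) (0, e i) := by
  have h1 := ((Vort_cda hf ht x).differentiableAt (by simp)).hasFDerivAt
  have h2 : HasFDerivAt (fun y : E3 => (t, y)) (ContinuousLinearMap.inr ℝ ℝ E3) x :=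
    hasFDerivAt_prodMk_right t x
  have h3 : HasFDerivAt (f t) ((fderiv ℝ (fun q : ℝ × E3 => f q.1 q.2) (t, x)).comp
    (ContinuousLinearMap.inr ℝ ℝ E3)) x := HasFDerivAt.comp x h1 h2
  rw [pd, h3.fderiv]
  simp

/-- the second derivative in terms of `pd` -/
lemma Vort_pd2 {f : E3 → ℝ} (hf : ContDiff ℝ ∞ f) (i j : Fin 3) (x : E3) :
    pd i (pd j f) x = fderiv ℝ (fderiv ℝ f) x (e i) (e j) := by
  have hd : Differentiable ℝ (fderiv ℝ f) :=
    (hf.fderiv_right (m := ∞) (by norm_cast)).differentiable (by simp)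
  have h3 : HasFDerivAt (pd j f) ((ContinuousLinearMap.apply ℝ ℝ (e j)).comp
      (fderiv ℝ (fderiv ℝ f) x)) x :=
    (ContinuousLinearMap.apply ℝ ℝ (e j)).hasFDerivAt.comp x (hd x).hasFDerivAt
  rw [pd, h3.fderiv]
  rfl

lemma Vort_comm {f : E3 → ℝ} (hf : ContDiff ℝ ∞ f) (i j : Fin 3) :
    pd i (pd j f) = pd j (pd i f) := by
  funext x
  rw [Vort_pd2 hf, Vort_pd2 hf]
  exact (hf.contDiffAt.isSymmSndFDerivAt Vort_two_le) _ _

lemma Vort_coord {v : E3 → E3} (hv : ContDiff ℝ ∞ v) (j : Fin 3) :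
    ContDiff ℝ ∞ (fun y => v y j) := by
  exact (EuclideanSpace.proj j : E3 →L[ℝ] ℝ).contDiff.comp hv

lemma Vort_grad {f : E3 → ℝ} (x : E3) (j : Fin 3) : (gradient f x) j = pd j f x := by
  have h2 : fderiv ℝ f x (e j) = inner ℝ (gradient f x) (e j) := by
    rw [gradient, InnerProductSpace.toDual_symm_apply]
  rw [pd, h2, inner_eq]
  fin_cases j <;> simp [e_apply]

lemma Vort_JSc {T : ℝ} {u : ℝ → E3 → E3} {p : ℝ → E3 → ℝ} (h : IsAxisymNS T u p) (j : Fin 3) :
    JS T (fun s y => u s y j) := by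
  exact (EuclideanSpace.proj j : E3 →L[ℝ] ℝ).contDiff.comp_contDiffOn h.smooth_u

theorem ns_comp {T : ℝ} {u : ℝ → E3 → E3} {p : ℝ → E3 → ℝ} (h : IsAxisymNS T u p) {t : ℝ} (ht : t ∈ Ioo 0 T)
    (x : E3) (j : Fin 3) :
    deriv (fun s => u s x j) t + adv (u t x) (fun y => u t y j) x - lap (fun y => u t y j) x + pd j (p t) x = 0 := by
  have ht' : t ∈ Ico 0 T := ⟨ht.1.le, ht.2⟩
  have hv := h.slice ht'
  have h0 := congrArg (fun w : E3 => w j) (h.navier_stokes t ht x)
  have e1 : deriv (fun s => u s x j) t = deriv (fun s => u s x) t j :=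
    (hasDerivAt_coord (h.hasDerivAt_time ht x) j).deriv
  have e2 : adv (u t x) (fun y => u t y j) x = fderiv ℝ (u t) x (u t x) j := by
    rw [fderiv_expand, adv]
    simp only [pd_comp hv, Fin.sum_univ_three, PiLp.add_apply, PiLp.smul_apply, smul_eq_mul]
  have e3 : lap (fun y => u t y j) x = (Laplacian.laplacian (u t) x) j := by
    rw [laplacian_eq_sum, lap]
    have e4 : ∀ i : Fin 3, pd i (pd i (fun y => u t y j)) x = fderiv ℝ (fderiv ℝ (u t)) x (e i) (e i) j := by
      intro i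
      have hd : Differentiable ℝ (fderiv ℝ (u t)) :=
        (hv.fderiv_right (m := ∞) (by norm_cast)).differentiable (by simp)
      have h5 : pd i (fun y => u t y j) = fun y => fderiv ℝ (u t) y (e i) j :=
        funext fun y => pd_comp hv i j y
      have h6 : HasFDerivAt (fun y => fderiv ℝ (u t) y (e i) j)
          (((EuclideanSpace.proj j : E3 →L[ℝ] ℝ).comp (ContinuousLinearMap.apply ℝ E3 (e i))).comp
            (fderiv ℝ (fderiv ℝ (u t)) x)) x :=
        ((EuclideanSpace.proj j : E3 →L[ℝ] ℝ).comp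
          (ContinuousLinearMap.apply ℝ E3 (e i))).hasFDerivAt.comp x (hd x).hasFDerivAt
      rw [h5, pd, h6.fderiv]
      rfl
    simp only [e4, Fin.sum_univ_three, PiLp.add_apply]
  rw [e1, e2, e3, ← Vort_grad]
  exact h0

/-- Time and space derivatives commute. -/
theorem pd_deriv {T : ℝ} {f : ℝ → E3 → ℝ} (hf : JS T f) {t : ℝ} (ht : t ∈ Ioo 0 T) (x : E3) (i : Fin 3) :
    ContDiff ℝ ∞ (fun y => deriv (fun s => f s y) t) ∧
    pd i (fun y => deriv (fun s => f s y) t) x = deriv (fun s => pd i (f s) x) t := by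
  set F : ℝ × E3 → ℝ := fun q => f q.1 q.2 with hF
  have hc : ∀ x, ContDiffAt ℝ ∞ (fderiv ℝ F) (t, x) := fun x =>
    (Vort_cda hf ht x).fderiv_right (m := ∞) (by norm_cast)
  have e1 : (fun y => deriv (fun s => f s y) t) = fun y => fderiv ℝ F (t, y) (1, 0) :=
    funext fun y => (Vort_time hf ht y).deriv
  constructor
  · rw [e1, contDiff_iff_contDiffAt]
    intro y
    have h1 : ContDiffAt ℝ ∞ (fun y : E3 => fderiv ℝ F (t, y)) y :=
      ContDiffAt.comp y (hc y) (by fun_prop)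
    exact h1.clm_apply contDiffAt_const
  · rw [e1]
    have hd : HasFDerivAt (fderiv ℝ F) (fderiv ℝ (fderiv ℝ F) (t, x)) (t, x) :=
      ((hc x).differentiableAt (by simp)).hasFDerivAt
    have h2 : HasFDerivAt (fun y : E3 => (t, y)) (ContinuousLinearMap.inr ℝ ℝ E3) x :=
      hasFDerivAt_prodMk_right t x
    have h3 := HasFDerivAt.comp x hd h2
    have h4 : HasFDerivAt (fun y : E3 => fderiv ℝ F (t, y) (1, 0))
        ((ContinuousLinearMap.apply ℝ ℝ ((1 : ℝ), (0 : E3))).comp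
          ((fderiv ℝ (fderiv ℝ F) (t, x)).comp (ContinuousLinearMap.inr ℝ ℝ E3))) x :=
      (ContinuousLinearMap.apply ℝ ℝ ((1 : ℝ), (0 : E3))).hasFDerivAt.comp x h3
    have e2 : pd i (fun y => fderiv ℝ F (t, y) (1, 0)) x
        = fderiv ℝ (fderiv ℝ F) (t, x) (0, e i) (1, 0) := by
      rw [pd, h4.fderiv]
      simp
    have h6 := hd.comp_hasDerivAt t (Vort_line t x)
    have h7 : HasDerivAt (fun s : ℝ => fderiv ℝ F (s, x) (0, e i))
        (fderiv ℝ (fderiv ℝ F) (t, x) (1, 0) (0, e i)) t :=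
      (ContinuousLinearMap.apply ℝ ℝ ((0 : ℝ), e i)).hasFDerivAt.comp_hasDerivAt t h6
    have h8 : (fun s => pd i (f s) x) =ᶠ[𝓝 t] fun s => fderiv ℝ F (s, x) (0, e i) := by
      filter_upwards [Ioo_mem_nhds ht.1 ht.2] with s hs using Vort_space hf hs x i
    rw [e2, (h7.congr_of_eventuallyEq h8).deriv]
    exact ((Vort_cda hf ht x).isSymmSndFDerivAt Vort_two_le) _ _

lemma Vort_pd_sub {f g : E3 → ℝ} (hf : ContDiff ℝ ∞ f) (hg : ContDiff ℝ ∞ g) (i : Fin 3) :
    pd i (fun y => f y - g y) = fun y => pd i f y - pd i g y := by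
  funext y
  have h1 := ((hf.differentiable (by simp)) y).hasFDerivAt.sub ((hg.differentiable (by simp)) y).hasFDerivAt
  have h2 : fderiv ℝ (fun y => f y - g y) y = fderiv ℝ f y - fderiv ℝ g y := h1.fderiv
  rw [pd, h2]
  rfl

/-- the derivative of the momentum equation -/
lemma Vort_key {T : ℝ} {u : ℝ → E3 → E3} {p : ℝ → E3 → ℝ} (h : IsAxisymNS T u p) {t : ℝ}
    (ht : t ∈ Ioo 0 T) (x : E3) (i k : Fin 3) :
    pd i (pd k (p t)) x = -(deriv (fun s => pd i (fun y => u s y k) x) t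
      + ∑ m, (pd i (fun y => u t y m) x * pd m (fun y => u t y k) x
        + u t x m * pd m (pd i (fun y => u t y k)) x)
      - lap (pd i (fun y => u t y k)) x) := by
  have ht' : t ∈ Ico 0 T := ⟨ht.1.le, ht.2⟩
  have hv := h.slice ht'
  have hs : ∀ m : Fin 3, ContDiff ℝ ∞ (fun y => u t y m) := fun m => Vort_coord hv m
  obtain ⟨hD, hDi⟩ := pd_deriv (Vort_JSc h k) ht x i
  have hp : pd k (p t) = fun y => -((fun y => deriv (fun s => u s y k) t) y
      + ∑ m, u t y m * pd m (fun z => u t z k) y - ∑ m, pd m (pd m (fun z => u t z k)) y) := by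
    funext y
    have h1 := ns_comp h ht y k
    rw [adv, lap] at h1
    linarith
  have d0 := ((hD.differentiable (by simp)) x).hasFDerivAt
  have d1 : ∀ m : Fin 3, HasFDerivAt (fun y => u t y m) (fderiv ℝ (fun y => u t y m) x) x :=
    fun m => (((hs m).differentiable (by simp)) x).hasFDerivAt
  have d2 : ∀ m : Fin 3, HasFDerivAt (pd m (fun z => u t z k)) (fderiv ℝ (pd m (fun z => u t z k)) x) x :=
    fun m => (((pd_smooth (hs k) m).differentiable (by simp)) x).hasFDerivAt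
  have d3 : ∀ m : Fin 3, HasFDerivAt (pd m (pd m (fun z => u t z k)))
      (fderiv ℝ (pd m (pd m (fun z => u t z k))) x) x :=
    fun m => (((pd_smooth (pd_smooth (hs k) m) m).differentiable (by simp)) x).hasFDerivAt
  have dA := HasFDerivAt.fun_sum (u := Finset.univ) (fun (m : Fin 3) _ => (d1 m).mul (d2 m))
  have dB := HasFDerivAt.fun_sum (u := Finset.univ) (fun (m : Fin 3) _ => d3 m)
  have dN := ((d0.add dA).sub dB).neg
  have dN' : fderiv ℝ (fun y => -((fun y => deriv (fun s => u s y k) t) y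
      + ∑ m, u t y m * pd m (fun z => u t z k) y - ∑ m, pd m (pd m (fun z => u t z k)) y)) x = _ :=
    dN.fderiv
  have hswap : ∀ m : Fin 3, fderiv ℝ (pd m (fun z => u t z k)) x (e i)
      = pd m (pd i (fun z => u t z k)) x := by
    intro m
    have := congrFun (Vort_comm (hs k) i m) x
    exact this
  have hswap2 : ∀ m : Fin 3, fderiv ℝ (pd m (pd m (fun z => u t z k))) x (e i)
      = pd m (pd m (pd i (fun z => u t z k))) x := by
    intro m
    have h1 := congrFun (Vort_comm (pd_smooth (hs k) m) i m) x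
    rw [Vort_comm (hs k) i m] at h1
    exact h1
  rw [hp, pd, dN', lap, ← hDi]
  simp only [ContinuousLinearMap.neg_apply, ContinuousLinearMap.sub_apply,
    ContinuousLinearMap.add_apply, ContinuousLinearMap.sum_apply, ContinuousLinearMap.smul_apply,
    smul_eq_mul, hswap, hswap2, Fin.sum_univ_three]
  simp only [pd]
  ring

lemma Vort_pair {T : ℝ} {u : ℝ → E3 → E3} {p : ℝ → E3 → ℝ} (h : IsAxisymNS T u p) {t : ℝ}
    (ht : t ∈ Ioo 0 T) (x : E3) (a b l : Fin 3)
    (hl : ∀ s ∈ Ico 0 T, ∀ y, curl (u s) y l = pd a (fun z => u s z b) y - pd b (fun z => u s z a) y) :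
    deriv (fun s => curl (u s) x l) t + adv (u t x) (fun y => curl (u t) y l) x
      - lap (fun y => curl (u t) y l) x
      = - ∑ m, (pd a (fun y => u t y m) x * pd m (fun y => u t y b) x
        - pd b (fun y => u t y m) x * pd m (fun y => u t y a) x) := by
  have ht' : t ∈ Ico 0 T := ⟨ht.1.le, ht.2⟩
  have hv := h.slice ht'
  have hs : ∀ m : Fin 3, ContDiff ℝ ∞ (fun y => u t y m) := fun m => Vort_coord hv m
  have hw : (fun y => curl (u t) y l)
      = fun y => pd a (fun z => u t z b) y - pd b (fun z => u t z a) y := funext (hl t ht')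
  have hdt : deriv (fun s => curl (u s) x l) t
      = deriv (fun s => pd a (fun z => u s z b) x) t - deriv (fun s => pd b (fun z => u s z a) x) t := by
    have h1 := Vort_time (JS_pd (Vort_JSc h b) a) ht x
    have h2 := Vort_time (JS_pd (Vort_JSc h a) b) ht x
    have h3 : (fun s => curl (u s) x l) =ᶠ[𝓝 t]
        fun s => pd a (fun z => u s z b) x - pd b (fun z => u s z a) x := by
      filter_upwards [Ico_mem_nhds ht.1 ht.2] with s hs using hl s hs x
    have h4 := ((h1.sub h2).congr_of_eventuallyEq h3).deriv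
    rw [h4, h1.deriv, h2.deriv]
  have sa := pd_smooth (hs b) a
  have sb := pd_smooth (hs a) b
  have hg : ∀ m, pd m (fun y => curl (u t) y l)
      = fun y => pd m (pd a (fun z => u t z b)) y - pd m (pd b (fun z => u t z a)) y := by
    intro m
    rw [hw]
    exact Vort_pd_sub sa sb m
  have hg2 : ∀ m, pd m (pd m (fun y => curl (u t) y l)) x
      = pd m (pd m (pd a (fun z => u t z b))) x - pd m (pd m (pd b (fun z => u t z a))) x := by
    intro m
    rw [hg m]
    exact congrFun (Vort_pd_sub (pd_smooth sa m) (pd_smooth sb m) m) x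
  have hp : ContDiff ℝ ∞ (p t) := h.slice_p ht'
  have k1 := Vort_key h ht x a b
  have k2 := Vort_key h ht x b a
  have k3 := congrFun (Vort_comm hp a b) x
  rw [k1, k2] at k3
  have hg1 : ∀ m, pd m (fun y => curl (u t) y l) x
      = pd m (pd a (fun z => u t z b)) x - pd m (pd b (fun z => u t z a)) x := fun m => by rw [hg m]
  rw [hdt, adv, lap]
  simp only [lap, Fin.sum_univ_three] at k3 ⊢
  rw [hg2 0, hg2 1, hg2 2, hg1 0, hg1 1, hg1 2]
  linarith

theorem vorticity_eq {T : ℝ} {u : ℝ → E3 → E3} {p : ℝ → E3 → ℝ} (h : IsAxisymNS T u p) {t : ℝ} (ht : t ∈ Ioo 0 T)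
    (x : E3) (j : Fin 3) :
    deriv (fun s => curl (u s) x j) t + adv (u t x) (fun y => curl (u t) y j) x
      = lap (fun y => curl (u t) y j) x + fderiv ℝ (u t) x (curl (u t) x) j := by
  have ht' : t ∈ Ico 0 T := ⟨ht.1.le, ht.2⟩
  have hv := h.slice ht'
  have hdiv : pd 0 (fun y => u t y 0) x + pd 1 (fun y => u t y 1) x + pd 2 (fun y => u t y 2) x = 0 := by
    have h1 := h.divergence_free t ht' x
    rw [Fin.sum_univ_three] at h1
    rw [pd_comp hv, pd_comp hv, pd_comp hv]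
    exact h1
  have c0 : ∀ s ∈ Ico 0 T, ∀ y, curl (u s) y 0 = pd 1 (fun z => u s z 2) y - pd 2 (fun z => u s z 1) y := by
    intro s hs y
    rw [pd_comp (h.slice hs), pd_comp (h.slice hs)]
    rfl
  have c1 : ∀ s ∈ Ico 0 T, ∀ y, curl (u s) y 1 = pd 2 (fun z => u s z 0) y - pd 0 (fun z => u s z 2) y := by
    intro s hs y
    rw [pd_comp (h.slice hs), pd_comp (h.slice hs)]
    rfl
  have c2 : ∀ s ∈ Ico 0 T, ∀ y, curl (u s) y 2 = pd 0 (fun z => u s z 1) y - pd 1 (fun z => u s z 0) y := by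
    intro s hs y
    rw [pd_comp (h.slice hs), pd_comp (h.slice hs)]
    rfl
  have hf : fderiv ℝ (u t) x (curl (u t) x) j = curl (u t) x 0 * pd 0 (fun y => u t y j) x
      + curl (u t) x 1 * pd 1 (fun y => u t y j) x + curl (u t) x 2 * pd 2 (fun y => u t y j) x := by
    rw [fderiv_expand]
    simp only [pd_comp hv, Fin.sum_univ_three, PiLp.add_apply, PiLp.smul_apply, smul_eq_mul]
  rw [hf, c0 t ht' x, c1 t ht' x, c2 t ht' x]
  fin_cases j
  · have h1 := Vort_pair h ht x 1 2 0 c0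
    simp only [Fin.sum_univ_three] at h1
    simp only [Fin.zero_eta]
    linear_combination h1 - (pd 1 (fun z => u t z 2) x - pd 2 (fun z => u t z 1) x) * hdiv
  · have h1 := Vort_pair h ht x 2 0 1 c1
    simp only [Fin.sum_univ_three] at h1
    simp only [Fin.mk_one]
    linear_combination h1 - (pd 2 (fun z => u t z 0) x - pd 0 (fun z => u t z 2) x) * hdiv
  · have h1 := Vort_pair h ht x 0 1 2 c2
    simp only [Fin.sum_univ_three] at h1
    simp only [Fin.reduceFinMk]
    linear_combination h1 - (pd 0 (fun z => u t z 1) x - pd 1 (fun z => u t z 0) x) * hdiv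

end Pool.Agent.H87.NS
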