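/-
ROW VEq. The equations of `V` and `Om`. PROOF. Let `t ∈ (0,T)`, `v = u t`, all functions smooth.
circ_ns: `circ (u t) x = x0 f₁ - x1 f₀` with `f_j(t, x) = u t x j`. From ns_comp (Vort) for `j = 1` times `x0` minus `j = 0` times `x1`;
`adv w (circ v) x = x0 adv w f₁ - x1 adv w f₀ + w0 f₁ - w1 f₀` (with `w = u t x` the last two terms cancel),
`lap (circ v) x = x0 lap f₁ - x1 lap f₀ + 2 pd 0 f₁ - 2 pd 1 f₀`, and `pd 0 f₁ - pd 1 f₀ = curl v x 2`; the pressure terms
`x0 pd 1 (p t) - x1 pd 0 (p t) = 0` vanish by Pool.Agent.H16.IsAxisymNS.pressure_rotGen (`(∇ g x) j = fderiv ℝ g x (e j)`).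
V_eq: for `s` near `t`, `circ (u s) = rsq * sV (u s)` (circ_eq), so with `f = sV (u t)`, `ρ = rsq x > 0`, `deriv (circ) = ρ deriv f`, and by Quot
`ρ f_t + ρ adv f + 2 (x·u_h) f = ρ lap f + 4 rdr f + 4 f - 2 curl₂`, where `ρ curl₂ = rdr (circ v) = ρ rdr f + 2 ρ f` (rdr_circ, rdr_rsq), i.e.
`2 curl₂ = 2 rdr f + 4 f`, and `x·u_h = radFlux v x = ρ sW v x` (flux_eq). Divide by `ρ`:
`f_t + adv f = lap f + (2/ρ) rdr f - 2 sW f`.
circ_om: the same for `g = circ (curl v)` with vorticity_eq (j = 1 times x0 minus j = 0 times x1):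
`g_t + adv g = lap g - 2 curl (curl v) x 2 + (v0 w1 - v1 w0) + (x0 fderiv v (w) 1 - x1 fderiv v (w) 0)`, `w = curl v x`.
Om_eq: with `f = sO (u t)`, `ρ (v0 w1 - v1 w0 + ...) = 2 radFlux circ(w) + 2 circ v pd 2 (circ v)` (circ_vort)
`= 2 ρ² W Om + 2 ρ² V pd 2 V` (`pd 2 (circ v) = ρ pd 2 V`), and `2 curl (curl v) x 2 = 2 rdr f + 4 f` as before (rdr_circ for `curl v`);
divide by `ρ`.
-/
import Pool.Agent.H87.NS.Bds2
import Pool.Agent.H87.NS.Quot
import Pool.Agent.H87.NS.Vort

set_option autoImplicit false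

open Set Filter Topology MeasureTheory
open scoped ContDiff

namespace Pool.Agent.H87.NS

open Pool.Agent.H16

variable {T : ℝ} {u : ℝ → E3 → E3} {p : ℝ → E3 → ℝ}

private theorem VEq_coord (k : Fin 3) (y : E3) :
    HasFDerivAt (fun y : E3 => y k) (EuclideanSpace.proj k : E3 →L[ℝ] ℝ) y :=
  (EuclideanSpace.proj k : E3 →L[ℝ] ℝ).hasFDerivAt

private theorem VEq_smooth (k : Fin 3) : ContDiff ℝ ∞ (fun y : E3 => y k) :=
  (EuclideanSpace.proj k : E3 →L[ℝ] ℝ).contDiff

private theorem VEq_pd_coord {f : E3 → ℝ} (hf : ContDiff ℝ ∞ f) (i k : Fin 3) :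
    pd i (fun y : E3 => y k * f y) = fun y => e i k * f y + y k * pd i f y := by
  funext y
  have h1 : HasFDerivAt f (fderiv ℝ f y) y := (hf.differentiable (by simp) y).hasFDerivAt
  have h2 : HasFDerivAt (fun y : E3 => y k * f y) _ y := (VEq_coord k y).mul h1
  unfold pd
  rw [h2.fderiv]
  change y k * fderiv ℝ f y (e i) + f y * e i k = _
  ring

private theorem VEq_pd_add {f g : E3 → ℝ} (hf : ContDiff ℝ ∞ f) (hg : ContDiff ℝ ∞ g) (i : Fin 3) :
    pd i (fun x => f x + g x) = fun x => pd i f x + pd i g x := by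
  funext x
  simp only [pd]
  rw [fderiv_fun_add (hf.differentiable (by simp) x) (hg.differentiable (by simp) x)]
  rfl

private theorem VEq_pd_const {f : E3 → ℝ} (hf : ContDiff ℝ ∞ f) (c : ℝ) (i : Fin 3) :
    pd i (fun x => c * f x) = fun x => c * pd i f x := by
  funext x
  simp only [pd]
  rw [fderiv_const_mul (hf.differentiable (by simp) x)]
  rfl

private theorem VEq_pd_circ {v : E3 → E3} (hv : ContDiff ℝ ∞ v) (i : Fin 3) :
    pd i (circ v) = fun y => (e i 0 * v y 1 + y 0 * pd i (fun z => v z 1) y) -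
      (e i 1 * v y 0 + y 1 * pd i (fun z => v z 0) y) := by
  have h0 := Bds1_proj_smooth hv 0
  have h1 := Bds1_proj_smooth hv 1
  have hc : circ v = fun y => (fun y : E3 => y 0 * v y 1) y - (fun y : E3 => y 1 * v y 0) y := rfl
  rw [hc, Bds1_pd_sub ((VEq_smooth 0).mul h1) ((VEq_smooth 1).mul h0),
    VEq_pd_coord h1 i 0, VEq_pd_coord h0 i 1]

private theorem VEq_pd_pd_circ {v : E3 → E3} (hv : ContDiff ℝ ∞ v) (i : Fin 3) (x : E3) :
    pd i (pd i (circ v)) x = (2 * e i 0 * pd i (fun z => v z 1) x +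
        x 0 * pd i (pd i (fun z => v z 1)) x) -
      (2 * e i 1 * pd i (fun z => v z 0) x + x 1 * pd i (pd i (fun z => v z 0)) x) := by
  have h0 := Bds1_proj_smooth hv 0
  have h1 := Bds1_proj_smooth hv 1
  have k0 := pd_smooth h0 i
  have k1 := pd_smooth h1 i
  have a1 : ContDiff ℝ ∞ (fun y : E3 => e i 0 * v y 1) := contDiff_const.mul h1
  have a0 : ContDiff ℝ ∞ (fun y : E3 => e i 1 * v y 0) := contDiff_const.mul h0
  have b1 : ContDiff ℝ ∞ (fun y : E3 => y 0 * pd i (fun z => v z 1) y) := (VEq_smooth 0).mul k1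
  have b0 : ContDiff ℝ ∞ (fun y : E3 => y 1 * pd i (fun z => v z 0) y) := (VEq_smooth 1).mul k0
  rw [VEq_pd_circ hv i, Bds1_pd_sub (a1.add b1) (a0.add b0), VEq_pd_add a1 b1, VEq_pd_add a0 b0,
    VEq_pd_const h1, VEq_pd_const h0, VEq_pd_coord k1 i 0, VEq_pd_coord k0 i 1]
  ring

private theorem VEq_adv_circ {v : E3 → E3} (hv : ContDiff ℝ ∞ v) (w x : E3) :
    adv w (circ v) x = x 0 * adv w (fun z => v z 1) x - x 1 * adv w (fun z => v z 0) x +
      (w 0 * v x 1 - w 1 * v x 0) := by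
  unfold adv
  simp only [VEq_pd_circ hv, Fin.sum_univ_three, e_apply]
  simp only [Fin.isValue, if_true, Fin.reduceEq, if_false]
  ring

private theorem VEq_lap_circ {v : E3 → E3} (hv : ContDiff ℝ ∞ v) (x : E3) :
    lap (circ v) x = x 0 * lap (fun z => v z 1) x - x 1 * lap (fun z => v z 0) x +
      2 * curl v x 2 := by
  have hc : curl v x 2 = pd 0 (fun z => v z 1) x - pd 1 (fun z => v z 0) x := by
    rw [pd_comp hv, pd_comp hv]; rfl
  unfold lap
  simp only [VEq_pd_pd_circ hv, Fin.sum_univ_three, e_apply, hc]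
  simp only [Fin.isValue, if_true, Fin.reduceEq, if_false]
  ring

private theorem VEq_time {f : ℝ → E3 → ℝ} (hf : JS T f) {t : ℝ} (ht : t ∈ Ioo 0 T) (x : E3) :
    DifferentiableAt ℝ (fun s => f s x) t := by
  have h1 : ContDiffAt ℝ ∞ (fun q : ℝ × E3 => f q.1 q.2) (t, x) :=
    hf.contDiffAt (prod_mem_nhds (Ico_mem_nhds ht.1 ht.2) univ_mem)
  have h2 : DifferentiableAt ℝ (fun q : ℝ × E3 => f q.1 q.2) (t, x) :=
    h1.differentiableAt (by simp)
  have h3 : DifferentiableAt ℝ (fun s : ℝ => (s, x)) t := by fun_prop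
  exact DifferentiableAt.comp (f := fun s : ℝ => (s, x)) t h2 h3

private theorem VEq_grad {g : E3 → ℝ} (hg : Differentiable ℝ g) (x : E3) (j : Fin 3) :
    (gradient g x) j = pd j g x := by
  have h1 : inner ℝ (gradient g x) (e j) = fderiv ℝ g x (e j) := by
    rw [gradient, InnerProductSpace.toDual_symm_apply]
  unfold pd
  rw [← h1, inner_eq]
  simp only [e_apply]
  fin_cases j <;> simp

theorem circ_ns (h : IsAxisymNS T u p) {t : ℝ} (ht : t ∈ Ioo 0 T) (x : E3) :
    deriv (fun s => circ (u s) x) t + adv (u t x) (circ (u t)) x = lap (circ (u t)) x - 2 * curl (u t) x 2 := by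
  have ht' : t ∈ Ico 0 T := ⟨ht.1.le, ht.2⟩
  have hv := h.slice ht'
  have d1 := VEq_time (js_u h 1) ht x
  have d0 := VEq_time (js_u h 0) ht x
  have hd : deriv (fun s => circ (u s) x) t =
      x 0 * deriv (fun s => u s x 1) t - x 1 * deriv (fun s => u s x 0) t :=
    ((d1.hasDerivAt.const_mul (x 0)).sub (d0.hasDerivAt.const_mul (x 1))).deriv
  have e1 := ns_comp h ht x 1
  have e0 := ns_comp h ht x 0
  have hp := h.pressure_rotGen ht x
  have hpd : Differentiable ℝ (p t) := (h.slice_p ht').differentiable (by simp)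
  rw [VEq_grad hpd, VEq_grad hpd] at hp
  rw [hd, VEq_adv_circ hv, VEq_lap_circ hv]
  linear_combination x 0 * e1 - x 1 * e0 - hp

private theorem VEq_deriv {F G : ℝ → ℝ} {t c : ℝ} (ht : t ∈ Ioo 0 T)
    (hFG : ∀ s ∈ Ico 0 T, F s = c * G s) : deriv F t = c * deriv G t := by
  have h1 : F =ᶠ[𝓝 t] fun s => c * G s := by
    filter_upwards [Ico_mem_nhds ht.1 ht.2] with s hs
    exact hFG s hs
  rw [h1.deriv_eq, deriv_const_mul_field]

theorem V_eq (h : IsAxisymNS T u p) {t : ℝ} (ht : t ∈ Ioo 0 T) (x : E3) (hx : 0 < rsq x) :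
    deriv (fun s => sV (u s) x) t + adv (u t x) (sV (u t)) x
      = lap (sV (u t)) x + 2 / rsq x * rdr (sV (u t)) x + -2 * sW (u t) x * sV (u t) x := by
  have ht' : t ∈ Ico 0 T := ⟨ht.1.le, ht.2⟩
  have hax := axF_of h ht'
  have hsm := (svw_smooth h ht').1
  have hns := circ_ns h ht x
  have hd : deriv (fun s => circ (u s) x) t = rsq x * deriv (fun s => sV (u s) x) t :=
    VEq_deriv ht (fun s hs => circ_eq (axF_of h hs) x)
  have hc : circ (u t) = fun y => rsq y * sV (u t) y := funext fun y => circ_eq hax y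
  have hr := rdr_circ hax x
  have hf := flux_eq hax x
  have hf' : x 0 * u t x 0 + x 1 * u t x 1 = rsq x * sW (u t) x := hf
  rw [hc, rdr_rsq hsm] at hr
  rw [hd, hc, adv_rsq hsm, lap_rsq hsm, hf'] at hns
  have hcu : curl (u t) x 2 = rdr (sV (u t)) x + 2 * sV (u t) x := by
    have : rsq x * curl (u t) x 2 = rsq x * (rdr (sV (u t)) x + 2 * sV (u t) x) := by
      rw [← hr]; ring
    exact mul_left_cancel₀ hx.ne' this
  rw [hcu] at hns
  have key : rsq x * (deriv (fun s => sV (u s) x) t + adv (u t x) (sV (u t)) x) =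
      rsq x * (lap (sV (u t)) x + 2 / rsq x * rdr (sV (u t)) x + -2 * sW (u t) x * sV (u t) x) := by
    have h2 : rsq x * (2 / rsq x * rdr (sV (u t)) x) = 2 * rdr (sV (u t)) x := by
      field_simp
    rw [mul_add (rsq x) (_ + _), mul_add (rsq x) (lap _ x), h2]
    linear_combination hns
  exact mul_left_cancel₀ hx.ne' key

theorem circ_om (h : IsAxisymNS T u p) {t : ℝ} (ht : t ∈ Ioo 0 T) (x : E3) :
    deriv (fun s => circ (curl (u s)) x) t + adv (u t x) (circ (curl (u t))) x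
      = lap (circ (curl (u t))) x - 2 * curl (curl (u t)) x 2
        + ((u t x 0 * curl (u t) x 1 - u t x 1 * curl (u t) x 0)
        + (x 0 * fderiv ℝ (u t) x (curl (u t) x) 1 - x 1 * fderiv ℝ (u t) x (curl (u t) x) 0)) := by
  have ht' : t ∈ Ico 0 T := ⟨ht.1.le, ht.2⟩
  have hv := h.slice ht'
  have hw := curl_smooth hv
  have d1 := VEq_time (js_curl h 1) ht x
  have d0 := VEq_time (js_curl h 0) ht x
  have hd : deriv (fun s => circ (curl (u s)) x) t =
      x 0 * deriv (fun s => curl (u s) x 1) t - x 1 * deriv (fun s => curl (u s) x 0) t :=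
    ((d1.hasDerivAt.const_mul (x 0)).sub (d0.hasDerivAt.const_mul (x 1))).deriv
  have e1 := vorticity_eq h ht x 1
  have e0 := vorticity_eq h ht x 0
  rw [hd, VEq_adv_circ hw, VEq_lap_circ hw]
  linear_combination x 0 * e1 - x 1 * e0

theorem Om_eq (h : IsAxisymNS T u p) {t : ℝ} (ht : t ∈ Ioo 0 T) (x : E3) (hx : 0 < rsq x) :
    deriv (fun s => sO (u s) x) t + adv (u t x) (sO (u t)) x
      = lap (sO (u t)) x + 2 / rsq x * rdr (sO (u t)) x + 2 * sV (u t) x * pd 2 (sV (u t)) x := by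
  have ht' : t ∈ Ico 0 T := ⟨ht.1.le, ht.2⟩
  have hax := axF_of h ht'
  have hcx := curl_axF hax
  have hsV := (svw_smooth h ht').1
  have hsm := (svw_smooth h ht').2.2
  have hns := circ_om h ht x
  have hd : deriv (fun s => circ (curl (u s)) x) t = rsq x * deriv (fun s => sO (u s) x) t :=
    VEq_deriv ht (fun s hs => om_eq (axF_of h hs) x)
  have hc : circ (curl (u t)) = fun y => rsq y * sO (u t) y := funext fun y => om_eq hax y
  have hcV : circ (u t) = fun y => rsq y * sV (u t) y := funext fun y => circ_eq hax y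
  have hr := rdr_circ hcx x
  have hf := flux_eq hax x
  have hf' : x 0 * u t x 0 + x 1 * u t x 1 = rsq x * sW (u t) x := hf
  have hvo := circ_vort hax x
  have hp2 : pd 2 (circ (u t)) x = rsq x * pd 2 (sV (u t)) x := by
    have h1 := adv_rsq hsV (e 2) x
    rw [← hcV] at h1
    have h2 : ∀ f : E3 → ℝ, adv (e 2) f x = pd 2 f x := by
      intro f
      unfold adv
      simp only [Fin.sum_univ_three, e_apply]
      simp only [Fin.isValue, if_true, Fin.reduceEq, if_false]
      ring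
    rw [h2, h2] at h1
    rw [h1]
    simp only [e_apply]
    simp only [Fin.isValue, Fin.reduceEq, if_false]
    ring
  rw [hp2, hf, circ_eq hax x, om_eq hax x] at hvo
  rw [hc, rdr_rsq hsm] at hr
  rw [hd, hc, adv_rsq hsm, lap_rsq hsm, hf'] at hns
  have hcu : curl (curl (u t)) x 2 = rdr (sO (u t)) x + 2 * sO (u t) x := by
    have : rsq x * curl (curl (u t)) x 2 = rsq x * (rdr (sO (u t)) x + 2 * sO (u t) x) := by
      rw [← hr]; ring
    exact mul_left_cancel₀ hx.ne' this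
  rw [hcu] at hns
  have hE : (u t x 0 * curl (u t) x 1 - u t x 1 * curl (u t) x 0)
        + (x 0 * fderiv ℝ (u t) x (curl (u t) x) 1 - x 1 * fderiv ℝ (u t) x (curl (u t) x) 0) =
      2 * rsq x * sW (u t) x * sO (u t) x + 2 * rsq x * sV (u t) x * pd 2 (sV (u t)) x := by
    apply mul_left_cancel₀ hx.ne'
    rw [hvo]
    ring
  rw [hE] at hns
  have key : rsq x * (deriv (fun s => sO (u s) x) t + adv (u t x) (sO (u t)) x) =
      rsq x * (lap (sO (u t)) x + 2 / rsq x * rdr (sO (u t)) x +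
        2 * sV (u t) x * pd 2 (sV (u t)) x) := by
    have h2 : rsq x * (2 / rsq x * rdr (sO (u t)) x) = 2 * rdr (sO (u t)) x := by
      field_simp
    rw [mul_add (rsq x) (_ + _), mul_add (rsq x) (lap _ x), h2]
    linear_combination hns
  exact mul_left_cancel₀ hx.ne' key

end Pool.Agent.H87.NS
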