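/-
ROW KerW. PROOF. ker_plane: at `x = (r, 0, x₂)`, `r > 0`: by kernel_identity and kernel_sym,
`|∫ v₀(y) 3 ε² (‖x-y‖² + ε²) ^ (-5/2) dy| ≤ 12 r ∫ |sO v| / ‖x-y‖²` for every `ε > 0`; kernel_limit gives `c0 |v x 0| ≤ 12 r ∫ ...`; and
`r v x 0 = radFlux v x = r² sW v x` (flux_eq, `x 1 = 0`, `rsq x = r²`), so `|v x 0| = r |sW v x|`; divide by `r c0` (c0_pos).
ker_all: choose `θ` with `rot θ x = (rad x, 0, x₂)` (`cos θ = x₀ / rad x`, `sin θ = - x₁ / rad x`), sW_rot, and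
`∫ |sO v y| / ‖rot θ x - y‖² dy = ∫ |sO v (rot θ y)| / ‖rot θ x - rot θ y‖² dy = ∫ |sO v y| / ‖x - y‖² dy`
(`(rotL θ).measurePreserving`, `MeasurePreserving.integral_comp'`, sO_rot; `rotL θ` is a linear isometry).
(The structure Flow is row FlowOf.)
-/
import Pool.Agent.H87.NS.KSym
import Pool.Agent.H87.NS.KId
import Pool.Agent.H87.NS.KLim
import Pool.Agent.H87.NS.VEq

set_option autoImplicit false

open Set Filter Topology MeasureTheory
open scoped ContDiff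

namespace Pool.Agent.H87.NS

open Pool.Agent.H16

theorem ker_plane {v : E3 → E3} (hv : AxF v) {K : ℝ} (hK : ∀ j : Fin 3, DB 1 K (fun x => v x j))
    (hK' : ∀ j : Fin 3, DB 1 K (fun x => curl v x j))
    (hO : ContDiff ℝ ∞ (sO v)) (hOK : BL K (sO v)) {x : E3} (hx0 : 0 < x 0) (hx1 : x 1 = 0) :
    |sW v x| ≤ 12 / c0 * ∫ y, |sO v y| / ‖x - y‖ ^ 2 := by
  have hg : Continuous (fun y => v y 0) := (continuous_coord 0).comp hv.smooth.continuous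
  have hgb : ∀ y, |(fun y => v y 0) y| ≤ K := (DB_BL (hK 0)).1
  have hlim := kernel_limit hg hgb (B := 12 * x 0 * ∫ y, |sO v y| / ‖x - y‖ ^ 2) x (by
    intro ε hε
    have h1 := kernel_identity hv.smooth hv.div hK hε x
    have h2 := kernel_sym hv hK' hO hOK hε hx0 hx1
    rw [← h1] at h2
    exact h2)
  have hfl := flux_eq hv x
  have hr : radFlux v x = x 0 * v x 0 := by
    unfold radFlux
    rw [hx1]
    ring
  have hrs : rsq x = x 0 * x 0 := by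
    unfold rsq
    rw [hx1]
    ring
  have h3 : v x 0 = x 0 * sW v x := by
    rw [hr, hrs, mul_assoc] at hfl
    exact mul_left_cancel₀ hx0.ne' hfl
  have hlim' : c0 * |v x 0| ≤ 12 * x 0 * ∫ y, |sO v y| / ‖x - y‖ ^ 2 := hlim
  rw [h3, abs_mul, abs_of_pos hx0] at hlim'
  have hc := c0_pos
  have h4 : c0 * |sW v x| ≤ 12 * ∫ y, |sO v y| / ‖x - y‖ ^ 2 := by
    have h5 : x 0 * (c0 * |sW v x|) ≤ x 0 * (12 * ∫ y, |sO v y| / ‖x - y‖ ^ 2) := by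
      calc x 0 * (c0 * |sW v x|) = c0 * (x 0 * |sW v x|) := by ring
        _ ≤ 12 * x 0 * ∫ y, |sO v y| / ‖x - y‖ ^ 2 := hlim'
        _ = x 0 * (12 * ∫ y, |sO v y| / ‖x - y‖ ^ 2) := by ring
    exact le_of_mul_le_mul_left h5 hx0
  rw [div_mul_eq_mul_div, le_div_iff₀ hc]
  linarith

theorem ker_all {v : E3 → E3} (hv : AxF v) {K : ℝ} (hK : ∀ j : Fin 3, DB 1 K (fun x => v x j))
    (hK' : ∀ j : Fin 3, DB 1 K (fun x => curl v x j))
    (hO : ContDiff ℝ ∞ (sO v)) (hOK : BL K (sO v)) {x : E3} (hx : 0 < rad x) :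
    |sW v x| ≤ 12 / c0 * ∫ y, |sO v y| / ‖x - y‖ ^ 2 := by
  have hrs := rad_sq x
  have hz : ∃ z : E3, z 0 = rad x ∧ z 1 = 0 ∧ z 2 = x 2 := ⟨!₂[rad x, 0, x 2], rfl, rfl, rfl⟩
  obtain ⟨z, hz0, hz1, hz2⟩ := hz
  obtain ⟨θ, h1, _, _⟩ := KSym_rot (rsq_pos hx) (show rsq z = rsq x by
    unfold rsq
    rw [hz0, hz1, hrs]
    ring) hz2
  have h2 := ker_plane hv hK hK' hO hOK (x := z) (by rw [hz0]; exact hx) hz1
  rw [← h1, sW_rot hv] at h2
  have h3 : ∫ y, |sO v y| / ‖rot θ x - y‖ ^ 2 = ∫ y, |sO v y| / ‖x - y‖ ^ 2 := by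
    rw [← KSym_cov (rotL θ) (fun y => |sO v y| / ‖rot θ x - y‖ ^ 2)]
    refine integral_congr_ae (Eventually.of_forall fun y => ?_)
    change |sO v (rot θ y)| / ‖rot θ x - rot θ y‖ ^ 2 = |sO v y| / ‖x - y‖ ^ 2
    rw [sO_rot hv]
    have h4 : ‖rot θ x - rot θ y‖ = ‖x - y‖ := by
      have h5 := (rotL θ).norm_map (x - y)
      rw [map_sub] at h5
      exact h5
    rw [h4]
  rw [h3] at h2
  exact h2

end Pool.Agent.H87.NS
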