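/-
ROW FlowOf. PROOF. drift: drift_of. evV, evO: V_eq, Om_eq; smoothness svw_smooth; jointV, jointO; jcV, jcO, jcdV, jcdO; contG: products (JC_mul,
JC_comp / JC_const for the constant factors; `JC T (fun t => pd 2 (sV (u t)))` is jcdV); bounds: svwDB and `BL` of the products `-2 W V`,
`2 V pd 2 V` by mul_BL, smul_BL (`W`, `V` bounded, all functions continuous for `t ∈ [0,T)`; DB_BL, DB_pd, DB_mono; take the maximum of the constants).
wcont: jcW. wbd: svwDB, DB_BL. ker: ker_all with uDB, curlDB, svwDB at `T' = t` (DB_mono, maximum of the constants).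
-/
import Pool.Agent.H87.NS.KerW

set_option autoImplicit false

open Set Filter Topology MeasureTheory
open scoped ContDiff

namespace Pool.Agent.H87.NS

open Pool.Agent.H16

theorem flow_of {T : ℝ} {u : ℝ → E3 → E3} {p : ℝ → E3 → ℝ} (h : IsHInfAxisymNS T u p) :
    Flow T u (fun t => sV (u t)) (fun t => sW (u t)) (fun t => sO (u t)) := by
  have hns := h.ns
  refine ⟨drift_of hns, ⟨fun t ht => (svw_smooth hns ht).1, jointV hns, jcV hns, jcdV hns, ?_, ?_,
    fun t ht x hx => V_eq hns ht x hx⟩, ⟨fun t ht => (svw_smooth hns ht).2.2, jointO hns, jcO hns,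
    jcdO hns, ?_, ?_, fun t ht x hx => Om_eq hns ht x hx⟩, jcW hns, ?_, ?_⟩
  · exact JC_mul (JC_mul (JC_const continuous_const) (jcW hns)) (jcV hns)
  · intro T' hT'
    obtain ⟨K, hK⟩ := svwDB h hT'
    refine ⟨max K (2 * K * K + (2 * K) ^ 2 * K), fun t ht => ?_⟩
    have ht' : t ∈ Ico 0 T := ⟨ht.1, lt_of_le_of_lt ht.2 hT'⟩
    obtain ⟨hV, hW, _⟩ := hK t ht
    obtain ⟨sV', sW', _⟩ := svw_smooth hns ht'
    refine ⟨DB_mono hV (by norm_num) (le_max_left _ _), ?_⟩
    refine BL_mono (mul_BL sV'.continuous (continuous_const.mul sW'.continuous) (DB_BL hV)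
      (g := fun x => -2 * sW (u t) x) (K' := 2 * K) fun x => ?_) (le_max_right _ _)
    rw [abs_mul, abs_neg, abs_two]
    exact mul_le_mul_of_nonneg_left ((DB_BL hW).1 x) zero_le_two
  · exact JC_mul (JC_mul (JC_const continuous_const) (jcV hns)) (jcdV hns 2)
  · intro T' hT'
    obtain ⟨K, hK⟩ := svwDB h hT'
    refine ⟨max K (2 * K * K + (2 * K) ^ 2 * K), fun t ht => ?_⟩
    have ht' : t ∈ Ico 0 T := ⟨ht.1, lt_of_le_of_lt ht.2 hT'⟩
    obtain ⟨hV, _, hO⟩ := hK t ht
    obtain ⟨sV', _, _⟩ := svw_smooth hns ht'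
    refine ⟨DB_mono hO (by norm_num) (le_max_left _ _), ?_⟩
    refine BL_mono (mul_BL (pd_smooth sV' 2).continuous (continuous_const.mul sV'.continuous)
      (DB_BL (DB_pd hV 2)) (g := fun x => 2 * sV (u t) x) (K' := 2 * K) fun x => ?_) (le_max_right _ _)
    rw [abs_mul, abs_two]
    exact mul_le_mul_of_nonneg_left ((DB_BL hV).1 x) zero_le_two
  · intro T' hT'
    obtain ⟨K, hK⟩ := svwDB h hT'
    exact ⟨K, fun t ht => DB_BL (hK t ht).2.1⟩
  · intro t ht x hx
    obtain ⟨K1, hK1⟩ := uDB h ht.2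
    obtain ⟨K2, hK2⟩ := curlDB h ht.2
    obtain ⟨K3, hK3⟩ := svwDB h ht.2
    have ht0 : t ∈ Icc 0 t := ⟨ht.1, le_rfl⟩
    refine ker_all (K := max K1 (max K2 K3)) (axF_of hns ht) (fun j => ?_) (fun j => ?_)
      (svw_smooth hns ht).2.2 ?_ hx
    · exact DB_mono (hK1 t ht0 j) (by norm_num) (le_max_left _ _)
    · exact DB_mono (hK2 t ht0 j).1 (by norm_num) ((le_max_left _ _).trans (le_max_right _ _))
    · exact BL_mono (DB_BL (hK3 t ht0).2.2) ((le_max_right _ _).trans (le_max_right _ _))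

end Pool.Agent.H87.NS
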