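/-
ROW Sob. The Sobolev inequality in dimension 3. PROOF. Mathlib: `MeasureTheory.eLpNorm_le_eLpNorm_fderiv_of_eq_inner` (or
`eLpNorm_le_eLpNorm_fderiv_of_eq`) with `p = 2`, `p' = 6`, `finrank = 3` (`1/6 = 1/2 - 1/3`): for compactly supported `C¹` functions `g`,
`‖g‖_6 ≤ C ‖fderiv g‖_2`, and `‖fderiv g y‖² ≤ gsq g y` (in fact equality; `fderiv g y w = ∑ w_i pd i g y` and Cauchy-Schwarz). For
general `G` take a smooth cut-off `φ` with `φ = 1` on the unit ball, support in the ball of radius 2, `0 ≤ φ ≤ 1` (`ContDiffBump`),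
`|∂_i φ| ≤ C₁`, and `g_n(y) = φ(y / (n+1)) G(y)`: `|∂_i g_n| ≤ |∂_i G| + C₁ |G| / (n+1)`, so
`∫ gsq g_n ≤ 2 ∫ gsq G + 6 C₁² ∫ G² / (n+1)²`. `g_n⁶ → G⁶` pointwise, so by Fatou `∫ G⁶ ≤ liminf ∫ g_n⁶ ≤ C⁶ (2 ∫ gsq G)³`; this gives
the bound and the integrability (`G⁶` is also integrable since `G⁶ ≤ K⁴ G²`). Then take the power `1/3`:
`(∫ G⁶) ^ (1/3) ≤ 2 C² ∫ gsq G`, `S = 2 C² + 1`.
-/
import Pool.Agent.H87.NS.IBP

set_option autoImplicit false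

open Set Filter Topology MeasureTheory
open scoped ContDiff

namespace Pool.Agent.H87.NS

open Pool.Agent.H16

theorem Sob_fd (g : E3 → ℝ) (y : E3) : ‖fderiv ℝ g y‖ ≤ √(gsq g y) := by
  refine ContinuousLinearMap.opNorm_le_bound _ (Real.sqrt_nonneg _) fun w => ?_
  have hw : w = ∑ i, w i • e i := by
    ext j
    simp [e, Finset.sum_apply, Pi.single_apply]
  have h1 : fderiv ℝ g y w = ∑ i, w i * pd i g y := by
    conv_lhs => rw [hw]
    rw [map_sum]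
    refine Finset.sum_congr rfl fun i _ => ?_
    rw [map_smul, smul_eq_mul]
    rfl
  have h2 : (∑ i, w i * pd i g y) ^ 2 ≤ (∑ i, w i ^ 2) * gsq g y :=
    Finset.sum_mul_sq_le_sq_mul_sq _ _ _
  have h3 : ‖w‖ = √(∑ i, w i ^ 2) := by
    rw [EuclideanSpace.norm_eq]
    simp
  rw [h1, h3, Real.norm_eq_abs, ← Real.sqrt_sq_eq_abs, ← Real.sqrt_mul' _
    (Finset.sum_nonneg fun i _ => sq_nonneg _)]
  refine Real.sqrt_le_sqrt ?_
  rw [mul_comm (gsq g y)]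
  exact h2

theorem Sob_cpt {g : E3 → ℝ} (hg : ContDiff ℝ 1 g) (hc : HasCompactSupport g) :
    ∫⁻ y, ‖g y‖ₑ ^ (6 : ℝ) ≤ ((eLpNormLESNormFDerivOfEqInnerConst (volume : Measure E3) 2 : NNReal) : ENNReal) ^ (6 : ℝ) *
      (∫⁻ y, ENNReal.ofReal (gsq g y)) ^ (3 : ℝ) := by
  have h1 := eLpNorm_le_eLpNorm_fderiv_of_eq_inner (volume : Measure E3) (u := g) hg hc
    (p := 2) (p' := 6) (by norm_num) (by rw [finrank_euclideanSpace_fin]; norm_num)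
    (by rw [finrank_euclideanSpace_fin]; norm_num)
  have h2 := eLpNorm_nnreal_pow_eq_lintegral (f := g) (p := 6) (μ := (volume : Measure E3)) (by norm_num)
  have h3 := eLpNorm_nnreal_pow_eq_lintegral (f := fderiv ℝ g) (p := 2) (μ := (volume : Measure E3)) (by norm_num)
  have h6 : ((6 : NNReal) : ℝ) = 6 := by norm_num
  have h22 : ((2 : NNReal) : ℝ) = 2 := by norm_num
  rw [h6] at h2
  rw [h22] at h3
  rw [h22] at h1
  rw [← h2]
  refine (ENNReal.rpow_le_rpow h1 (by norm_num)).trans ?_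
  rw [ENNReal.mul_rpow_of_nonneg _ _ (by norm_num : (0 : ℝ) ≤ 6)]
  refine mul_le_mul_right ?_ _
  have h4 : (6 : ℝ) = 2 * 3 := by norm_num
  rw [h4, ENNReal.rpow_mul, h3]
  refine ENNReal.rpow_le_rpow (lintegral_mono fun y => ?_) (by norm_num)
  rw [← ofReal_norm, ENNReal.ofReal_rpow_of_nonneg (norm_nonneg _) (by norm_num)]
  refine ENNReal.ofReal_le_ofReal ?_
  have h5 := Sob_fd g y
  have h7 : (0 : ℝ) ≤ gsq g y := gsq_nonneg g y
  calc ‖fderiv ℝ g y‖ ^ (2 : ℝ) = ‖fderiv ℝ g y‖ ^ 2 := by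
        rw [← Real.rpow_natCast]
        norm_num
    _ ≤ (√(gsq g y)) ^ 2 := pow_le_pow_left₀ (norm_nonneg _) h5 2
    _ = gsq g y := Real.sq_sqrt h7

/-- the cut-off function -/
noncomputable def Sob_bump : ContDiffBump (0 : E3) := ⟨1, 2, one_pos, one_lt_two⟩

theorem Sob_C1 : ∃ C : ℝ, 0 ≤ C ∧ ∀ z, ‖fderiv ℝ (Sob_bump : E3 → ℝ) z‖ ≤ C := by
  have h1 : Continuous (fderiv ℝ (Sob_bump : E3 → ℝ)) :=
    (Sob_bump.contDiff (n := 1)).continuous_fderiv (by norm_num)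
  obtain ⟨C, hC⟩ := h1.bounded_above_of_compact_support
    (Sob_bump.hasCompactSupport.fderiv (𝕜 := ℝ))
  exact ⟨C, (norm_nonneg _).trans (hC 0), hC⟩

/-- the truncated function -/
noncomputable def Sob_g (G : E3 → ℝ) (n : ℕ) (y : E3) : ℝ :=
  Sob_bump (((n : ℝ) + 1)⁻¹ • y) * G y

theorem Sob_cd {G : E3 → ℝ} (hG : ContDiff ℝ 1 G) (n : ℕ) : ContDiff ℝ 1 (Sob_g G n) := by
  unfold Sob_g
  exact ((Sob_bump.contDiff (n := 1)).comp (contDiff_const_smul _)).mul hG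

theorem Sob_cs (G : E3 → ℝ) (n : ℕ) : HasCompactSupport (Sob_g G n) := by
  have hc : ((n : ℝ) + 1)⁻¹ ≠ 0 := by positivity
  have h1 : HasCompactSupport fun y : E3 => Sob_bump (((n : ℝ) + 1)⁻¹ • y) :=
    Sob_bump.hasCompactSupport.comp_homeomorph (Homeomorph.smulOfNeZero _ hc)
  exact h1.mul_right

theorem Sob_gsq {G : E3 → ℝ} (hG : ContDiff ℝ 1 G) {C : ℝ}
    (hC : ∀ z, ‖fderiv ℝ (Sob_bump : E3 → ℝ) z‖ ≤ C) (n : ℕ) (y : E3) :
    gsq (Sob_g G n) y ≤ 2 * gsq G y + 6 * C ^ 2 * (((n : ℝ) + 1)⁻¹) ^ 2 * G y ^ 2 := by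
  set c : ℝ := ((n : ℝ) + 1)⁻¹ with hc
  have hc0 : 0 ≤ c := by positivity
  have hC0 : 0 ≤ C := (norm_nonneg _).trans (hC 0)
  have hφ : HasFDerivAt (fun y : E3 => Sob_bump (c • y))
      (c • fderiv ℝ (Sob_bump : E3 → ℝ) (c • y)) y := by
    have h1 : HasFDerivAt (Sob_bump : E3 → ℝ) (fderiv ℝ (Sob_bump : E3 → ℝ) (c • y)) (c • y) :=
      ((Sob_bump.contDiff (n := 1)).differentiable (by norm_num) _).hasFDerivAt
    have h2 : HasFDerivAt (fun y : E3 => c • y) (c • ContinuousLinearMap.id ℝ E3) y :=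
      (hasFDerivAt_id y).const_smul c
    have h3 := h1.comp y h2
    refine h3.congr_fderiv ?_
    ext w
    simp
  have hGd : HasFDerivAt G (fderiv ℝ G y) y := (hG.differentiable (by norm_num) y).hasFDerivAt
  have hm := hφ.mul hGd
  have hpd : ∀ i, pd i (Sob_g G n) y =
      Sob_bump (c • y) * pd i G y + G y * (c * fderiv ℝ (Sob_bump : E3 → ℝ) (c • y) (e i)) := by
    intro i
    have h1 : fderiv ℝ (Sob_g G n) y =
        Sob_bump (c • y) • fderiv ℝ G y + G y • (c • fderiv ℝ (Sob_bump : E3 → ℝ) (c • y)) :=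
      hm.fderiv
    unfold pd
    rw [h1]
    simp
  have hb : ∀ i, pd i (Sob_g G n) y ^ 2 ≤ 2 * pd i G y ^ 2 + 2 * (C ^ 2 * c ^ 2 * G y ^ 2) := by
    intro i
    rw [hpd i]
    have h1 : |fderiv ℝ (Sob_bump : E3 → ℝ) (c • y) (e i)| ≤ C := by
      have h2 := (fderiv ℝ (Sob_bump : E3 → ℝ) (c • y)).le_opNorm (e i)
      have h3 : ‖e i‖ = 1 := by simp [e]
      rw [h3, mul_one] at h2
      exact h2.trans (hC _)
    have h2 : (fderiv ℝ (Sob_bump : E3 → ℝ) (c • y) (e i)) ^ 2 ≤ C ^ 2 := sq_le_sq' (abs_le.1 h1).1 (abs_le.1 h1).2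
    have h3 : 0 ≤ Sob_bump (c • y) := Sob_bump.nonneg
    have h4 : Sob_bump (c • y) ≤ 1 := Sob_bump.le_one
    have h5 : (Sob_bump (c • y) * pd i G y) ^ 2 ≤ pd i G y ^ 2 := by
      rw [mul_pow]
      have : Sob_bump (c • y) ^ 2 ≤ 1 := pow_le_one₀ h3 h4
      nlinarith [sq_nonneg (pd i G y)]
    have h6 : (G y * (c * fderiv ℝ (Sob_bump : E3 → ℝ) (c • y) (e i))) ^ 2 ≤ C ^ 2 * c ^ 2 * G y ^ 2 := by
      rw [mul_pow, mul_pow]
      have : c ^ 2 * (fderiv ℝ (Sob_bump : E3 → ℝ) (c • y) (e i)) ^ 2 ≤ c ^ 2 * C ^ 2 :=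
        mul_le_mul_of_nonneg_left h2 (sq_nonneg _)
      calc G y ^ 2 * (c ^ 2 * (fderiv ℝ (Sob_bump : E3 → ℝ) (c • y) (e i)) ^ 2)
          ≤ G y ^ 2 * (c ^ 2 * C ^ 2) := mul_le_mul_of_nonneg_left this (sq_nonneg _)
        _ = _ := by ring
    have h7 : ∀ a b : ℝ, (a + b) ^ 2 ≤ 2 * a ^ 2 + 2 * b ^ 2 := fun a b => by nlinarith [sq_nonneg (a - b)]
    refine (h7 _ _).trans ?_
    linarith
  unfold gsq
  refine (Finset.sum_le_sum fun i _ => hb i).trans (le_of_eq ?_)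
  rw [Finset.sum_add_distrib, ← Finset.mul_sum, Finset.sum_const, Finset.card_univ, Fintype.card_fin,
    nsmul_eq_mul]
  push_cast
  ring

theorem Sob_lim (G : E3 → ℝ) (y : E3) :
    Tendsto (fun n : ℕ => ‖Sob_g G n y‖ₑ ^ (6 : ℝ)) atTop (𝓝 (‖G y‖ₑ ^ (6 : ℝ))) := by
  refine tendsto_const_nhds.congr' ?_
  obtain ⟨N, hN⟩ := exists_nat_ge ‖y‖
  filter_upwards [eventually_ge_atTop N] with n hn
  have h1 : (((n : ℝ) + 1)⁻¹ • y) ∈ Metric.closedBall (0 : E3) Sob_bump.rIn := by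
    rw [mem_closedBall_zero_iff, norm_smul]
    have h2 : Sob_bump.rIn = 1 := rfl
    have h3 : (N : ℝ) ≤ n := by exact_mod_cast hn
    rw [h2, norm_inv, Real.norm_of_nonneg (by positivity), inv_mul_le_iff₀ (by positivity)]
    linarith
  unfold Sob_g
  rw [Sob_bump.one_of_mem_closedBall h1, one_mul]

theorem Sob_lint {G : E3 → ℝ} {K : ℝ} (hG : ContDiff ℝ 1 G) (hK : DB 1 K G) :
    ∫⁻ y, ‖G y‖ₑ ^ (6 : ℝ) ≤ ((eLpNormLESNormFDerivOfEqInnerConst (volume : Measure E3) 2 : NNReal) : ENNReal) ^ (6 : ℝ) *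
      (ENNReal.ofReal (2 * ∫ y, gsq G y)) ^ (3 : ℝ) := by
  obtain ⟨C, hC0, hC⟩ := Sob_C1
  have hA := (gsq_int hK).1
  have hB := (DB_BL hK).2.1
  set A := ∫ y, gsq G y with hAd
  set B := ∫ y, G y ^ 2 with hBd
  set D : ENNReal := ((eLpNormLESNormFDerivOfEqInnerConst (volume : Measure E3) 2 : NNReal) : ENNReal) ^ (6 : ℝ) with hD
  have hDtop : D ≠ ⊤ := ENNReal.rpow_ne_top_of_nonneg (by norm_num) ENNReal.coe_ne_top
  have h1 : ∀ n : ℕ, ∫⁻ y, ‖Sob_g G n y‖ₑ ^ (6 : ℝ) ≤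
      D * (ENNReal.ofReal (2 * A + 6 * C ^ 2 * (((n : ℝ) + 1)⁻¹) ^ 2 * B)) ^ (3 : ℝ) := by
    intro n
    refine (Sob_cpt (Sob_cd hG n) (Sob_cs G n)).trans (mul_le_mul_right ?_ _)
    refine ENNReal.rpow_le_rpow ?_ (by norm_num)
    refine (lintegral_mono fun y => ENNReal.ofReal_le_ofReal (Sob_gsq hG hC n y)).trans ?_
    have hint : Integrable (fun y => 2 * gsq G y + 6 * C ^ 2 * (((n : ℝ) + 1)⁻¹) ^ 2 * G y ^ 2) :=
      (hA.const_mul 2).add (hB.const_mul _)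
    rw [← ofReal_integral_eq_lintegral_ofReal hint
      (Eventually.of_forall fun y => by
        have h2 := gsq_nonneg G y
        have h3 := sq_nonneg (G y)
        show (0 : ℝ) ≤ 2 * gsq G y + 6 * C ^ 2 * (((n : ℝ) + 1)⁻¹) ^ 2 * G y ^ 2
        positivity)]
    refine ENNReal.ofReal_le_ofReal (le_of_eq ?_)
    have h4 := integral_add (hA.const_mul 2) (hB.const_mul (6 * C ^ 2 * (((n : ℝ) + 1)⁻¹) ^ 2))
    rw [integral_const_mul, integral_const_mul] at h4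
    exact h4
  have h2 : Tendsto (fun n : ℕ => D * (ENNReal.ofReal
      (2 * A + 6 * C ^ 2 * (((n : ℝ) + 1)⁻¹) ^ 2 * B)) ^ (3 : ℝ)) atTop
      (𝓝 (D * (ENNReal.ofReal (2 * A)) ^ (3 : ℝ))) := by
    refine ENNReal.Tendsto.const_mul ?_ (Or.inr hDtop)
    refine (ENNReal.continuous_rpow_const.tendsto _).comp ?_
    refine (ENNReal.continuous_ofReal.tendsto _).comp ?_
    have h3 : Tendsto (fun n : ℕ => ((n : ℝ) + 1)⁻¹) atTop (𝓝 0) :=
      tendsto_inv_atTop_zero.comp (tendsto_atTop_add_const_right _ _ tendsto_natCast_atTop_atTop)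
    have h4 := ((h3.pow 2).const_mul (6 * C ^ 2)).mul_const B
    have h5 := h4.const_add (2 * A)
    simpa using h5
  have h3 : ∫⁻ y, ‖G y‖ₑ ^ (6 : ℝ) ≤ liminf (fun n : ℕ => ∫⁻ y, ‖Sob_g G n y‖ₑ ^ (6 : ℝ)) atTop := by
    have h4 : ∫⁻ y, ‖G y‖ₑ ^ (6 : ℝ) = ∫⁻ y, liminf (fun n : ℕ => ‖Sob_g G n y‖ₑ ^ (6 : ℝ)) atTop :=
      lintegral_congr fun y => (Sob_lim G y).liminf_eq.symm
    rw [h4]
    refine lintegral_liminf_le fun n => ?_
    exact ((Sob_cd hG n).continuous.measurable.enorm).pow_const _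
  refine h3.trans ?_
  rw [← h2.liminf_eq]
  exact liminf_le_liminf (Eventually.of_forall h1)

theorem sobolev : ∃ S : ℝ, 0 < S ∧ ∀ (G : E3 → ℝ) (K : ℝ), ContDiff ℝ 1 G → DB 1 K G →
    Integrable (fun y => G y ^ 6) ∧ (∫ y, G y ^ 6) ^ (1/3 : ℝ) ≤ S * ∫ y, gsq G y := by
  set C : ℝ := ((eLpNormLESNormFDerivOfEqInnerConst (volume : Measure E3) 2 : NNReal) : ℝ) with hCd
  have hC0 : 0 ≤ C := NNReal.coe_nonneg _
  refine ⟨2 * C ^ 2 + 1, by positivity, fun G K hG hK => ?_⟩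
  have hA0 : 0 ≤ ∫ y, gsq G y := integral_nonneg fun y => gsq_nonneg G y
  have h1 := Sob_lint hG hK
  have h2 : ∀ y, ENNReal.ofReal (G y ^ 6) = ‖G y‖ₑ ^ (6 : ℝ) := by
    intro y
    have e1 : G y ^ 6 = |G y| ^ 6 := (Even.pow_abs (by decide) _).symm
    rw [← ofReal_norm, ENNReal.ofReal_rpow_of_nonneg (norm_nonneg _) (by norm_num), e1,
      Real.norm_eq_abs, ← Real.rpow_natCast]
    norm_num
  have h3 : ((eLpNormLESNormFDerivOfEqInnerConst (volume : Measure E3) 2 : NNReal) : ENNReal) ^ (6 : ℝ) *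
      (ENNReal.ofReal (2 * ∫ y, gsq G y)) ^ (3 : ℝ) =
      ENNReal.ofReal (C ^ 6 * (2 * ∫ y, gsq G y) ^ 3) := by
    have e1 : ENNReal.ofReal (C ^ 6 * (2 * ∫ y, gsq G y) ^ 3) =
        ENNReal.ofReal (C ^ 6) * ENNReal.ofReal ((2 * ∫ y, gsq G y) ^ 3) :=
      ENNReal.ofReal_mul (by positivity)
    have e2 : ENNReal.ofReal ((2 * ∫ y, gsq G y) ^ 3) = ENNReal.ofReal (2 * ∫ y, gsq G y) ^ 3 :=
      ENNReal.ofReal_pow (by positivity) 3
    have e3 : ENNReal.ofReal C = ((eLpNormLESNormFDerivOfEqInnerConst (volume : Measure E3) 2 : NNReal) : ENNReal) := by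
      rw [hCd, ENNReal.ofReal_coe_nnreal]
    have e4 : ∀ x : ENNReal, x ^ (6 : ℝ) = x ^ 6 := fun x => by
      rw [← ENNReal.rpow_natCast]
      norm_num
    have e5 : ∀ x : ENNReal, x ^ (3 : ℝ) = x ^ 3 := fun x => by
      rw [← ENNReal.rpow_natCast]
      norm_num
    rw [e1, e2, ENNReal.ofReal_pow hC0, e3, e4, e5]
  rw [h3] at h1
  have h4 : ∫⁻ y, ENNReal.ofReal (G y ^ 6) ≤ ENNReal.ofReal (C ^ 6 * (2 * ∫ y, gsq G y) ^ 3) := by
    simp only [h2]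
    exact h1
  have hm : AEStronglyMeasurable (fun y => G y ^ 6) (volume : Measure E3) :=
    (hG.continuous.pow 6).aestronglyMeasurable
  have hnn : ∀ y, 0 ≤ G y ^ 6 := fun y => Even.pow_nonneg (by decide) _
  have hint : Integrable (fun y => G y ^ 6) := by
    refine ⟨hm, ?_⟩
    rw [hasFiniteIntegral_iff_ofReal (Eventually.of_forall hnn)]
    exact h4.trans_lt ENNReal.ofReal_lt_top
  refine ⟨hint, ?_⟩
  have h5 : ∫ y, G y ^ 6 ≤ C ^ 6 * (2 * ∫ y, gsq G y) ^ 3 := by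
    rw [integral_eq_lintegral_of_nonneg_ae (Eventually.of_forall hnn) hm]
    refine ENNReal.toReal_le_of_le_ofReal (by positivity) h4
  have h6 : (∫ y, G y ^ 6) ^ (1/3 : ℝ) ≤ (C ^ 6 * (2 * ∫ y, gsq G y) ^ 3) ^ (1/3 : ℝ) :=
    Real.rpow_le_rpow (integral_nonneg hnn) h5 (by norm_num)
  refine h6.trans ?_
  have h7 : C ^ 6 * (2 * ∫ y, gsq G y) ^ 3 = (C ^ 2 * (2 * ∫ y, gsq G y)) ^ (3 : ℝ) := by
    rw [show (3 : ℝ) = ((3 : ℕ) : ℝ) by norm_num, Real.rpow_natCast]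
    ring
  rw [h7, ← Real.rpow_mul (by positivity)]
  norm_num
  nlinarith [sq_nonneg C]

/-- The Sobolev constant. -/
noncomputable def SB : ℝ := Classical.choose sobolev

theorem SB_pos : 0 < SB := (Classical.choose_spec sobolev).1

theorem SB_spec {G : E3 → ℝ} {K : ℝ} (hG : ContDiff ℝ 1 G) (hK : DB 1 K G) :
    Integrable (fun y => G y ^ 6) ∧ (∫ y, G y ^ 6) ^ (1/3 : ℝ) ≤ SB * ∫ y, gsq G y :=
  (Classical.choose_spec sobolev).2 G K hG hK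

end Pool.Agent.H87.NS
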