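/-
ROW Hardy. Hardy's inequality with centre `x`. PROOF. Translate: `y ↦ x - y` (`integral_sub_left_eq_self`), or work with the centre `x`
directly. Let `ε > 0`, `N(y) = ‖y - x‖² + ε²`, `X_i(y) = (y - x)_i / N(y)`: bounded by `1 / ε` (in fact `X_i² ≤ 1 / N`), smooth,
`∂_i X_i = 1 / N - 2 (y-x)_i² / N²` bounded, `∑_i ∂_i X_i = 3 / N - 2 ‖y-x‖² / N² ≥ 1 / N`. Integration by parts
(`integral_mul_fderiv_eq_neg_fderiv_mul_of_integrable` with `f = G²` and `g = X_i`; `G² ∂_i X_i`, `G ∂_i G X_i` and `G² X_i` are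
integrable since `G`, `∂_i G` are square integrable and `X_i`, `∂_i X_i` are bounded):
`∫ G² / N ≤ ∑_i ∫ G² ∂_i X_i = - 2 ∑_i ∫ G ∂_i G X_i ≤ ∫ (2 ∑_i ... )`. Pointwise, with `g = gsq G`,
`- 2 G ∑_i ∂_i G X_i ≤ 2 |G| √g / √N ≤ (1/2) G² / N + 2 g` (Cauchy-Schwarz for sums, `∑ X_i² ≤ 1 / N`, and
`2 a b ≤ a²/2 + 2 b²`). So `∫ G² / N ≤ (1/2) ∫ G² / N + 2 ∫ g`, i.e. `∫ G² / N ≤ 4 ∫ g` for every `ε > 0`. Let `ε = 1/(n+1) → 0`:
monotone convergence / Fatou (`integrable_of_tendsto`, or `lintegral_liminf_le`, or `integrable_of_monotone...`) gives the integrability of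
`G² / ‖x-y‖²` and the bound (at `y = x` the function is `0` in Lean; a null set).
-/
import Pool.Agent.H87.NS.IBP

set_option autoImplicit false

open Set Filter Topology MeasureTheory
open scoped ContDiff

namespace Pool.Agent.H87.NS

open Pool.Agent.H16

/-- regularised squared distance -/
noncomputable def Hardy_N (x : E3) (ε : ℝ) (y : E3) : ℝ :=
  (y 0 - x 0) ^ 2 + (y 1 - x 1) ^ 2 + (y 2 - x 2) ^ 2 + ε ^ 2

/-- the vector field -/
noncomputable def Hardy_X (x : E3) (ε : ℝ) (i : Fin 3) (y : E3) : ℝ :=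
  (y i - x i) * (Hardy_N x ε y)⁻¹

theorem Hardy_N_eq (x : E3) (ε : ℝ) (y : E3) : Hardy_N x ε y = ‖x - y‖ ^ 2 + ε ^ 2 := by
  unfold Hardy_N
  rw [norm_sq_eq]
  simp only [PiLp.sub_apply]
  ring

theorem Hardy_N_ge (x : E3) (ε : ℝ) (y : E3) : ε ^ 2 ≤ Hardy_N x ε y := by
  unfold Hardy_N
  linarith only [sq_nonneg (y 0 - x 0), sq_nonneg (y 1 - x 1), sq_nonneg (y 2 - x 2)]

theorem Hardy_coord (i : Fin 3) : ContDiff ℝ 1 (fun y : E3 => y i) :=
  (EuclideanSpace.proj i : E3 →L[ℝ] ℝ).contDiff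

theorem Hardy_N_smooth (x : E3) (ε : ℝ) : ContDiff ℝ 1 (Hardy_N x ε) := by
  unfold Hardy_N
  exact ((((Hardy_coord 0).sub contDiff_const).pow 2).add
    (((Hardy_coord 1).sub contDiff_const).pow 2)).add
    (((Hardy_coord 2).sub contDiff_const).pow 2) |>.add contDiff_const

theorem Hardy_X_smooth (x : E3) {ε : ℝ} (hε : 0 < ε) (i : Fin 3) :
    ContDiff ℝ 1 (Hardy_X x ε i) := by
  unfold Hardy_X
  refine ((Hardy_coord i).sub contDiff_const).mul ((Hardy_N_smooth x ε).inv fun y => ?_)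
  have := Hardy_N_ge x ε y
  have : 0 < ε ^ 2 := by positivity
  linarith

theorem Hardy_pdX (x : E3) {ε : ℝ} (hε : 0 < ε) (i : Fin 3) (y : E3) :
    fderiv ℝ (Hardy_X x ε i) y (e i) =
      (Hardy_N x ε y)⁻¹ - 2 * (y i - x i) ^ 2 * ((Hardy_N x ε y)⁻¹) ^ 2 := by
  have hN : 0 < Hardy_N x ε y := lt_of_lt_of_le (by positivity) (Hardy_N_ge x ε y)
  have hc : ∀ j : Fin 3, HasFDerivAt (fun z : E3 => z j - x j)
      (EuclideanSpace.proj j : E3 →L[ℝ] ℝ) y := fun j =>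
    ((EuclideanSpace.proj j : E3 →L[ℝ] ℝ).hasFDerivAt).sub_const _
  have hNF : HasFDerivAt (Hardy_N x ε) (fderiv ℝ (Hardy_N x ε) y) y :=
    ((Hardy_N_smooth x ε).differentiable (by norm_num) y).hasFDerivAt
  have hNd : fderiv ℝ (Hardy_N x ε) y (e i) = 2 * (y i - x i) := by
    have h1 : HasFDerivAt (Hardy_N x ε)
        ((2 * (y 0 - x 0)) • (EuclideanSpace.proj 0 : E3 →L[ℝ] ℝ) +
          (2 * (y 1 - x 1)) • (EuclideanSpace.proj 1 : E3 →L[ℝ] ℝ) +
          (2 * (y 2 - x 2)) • (EuclideanSpace.proj 2 : E3 →L[ℝ] ℝ)) y := by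
      have := (((hc 0).pow 2).add ((hc 1).pow 2)).add ((hc 2).pow 2) |>.add_const (ε ^ 2)
      convert! this using 1
      simp
    rw [h1.fderiv]
    fin_cases i <;> simp [e]
  have hinv : HasFDerivAt (fun z => (Hardy_N x ε z)⁻¹)
      ((-(Hardy_N x ε y ^ 2)⁻¹) • fderiv ℝ (Hardy_N x ε) y) y :=
    (hasDerivAt_inv hN.ne').comp_hasFDerivAt y hNF
  have hX : HasFDerivAt (Hardy_X x ε i)
      ((y i - x i) • ((-(Hardy_N x ε y ^ 2)⁻¹) • fderiv ℝ (Hardy_N x ε) y) +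
        (Hardy_N x ε y)⁻¹ • (EuclideanSpace.proj i : E3 →L[ℝ] ℝ)) y := (hc i).mul hinv
  rw [hX.fderiv]
  have hpe : (EuclideanSpace.proj i : E3 →L[ℝ] ℝ) (e i) = 1 := by simp [e]
  rw [add_apply, smul_apply, smul_apply, smul_apply, hNd, hpe]
  simp only [smul_eq_mul]
  rw [inv_pow]
  ring

theorem Hardy_sq_le (x : E3) {ε : ℝ} (hε : 0 < ε) (i : Fin 3) (y : E3) :
    (y i - x i) ^ 2 * ((Hardy_N x ε y)⁻¹) ^ 2 ≤ (Hardy_N x ε y)⁻¹ := by
  have hN : 0 < Hardy_N x ε y := lt_of_lt_of_le (by positivity) (Hardy_N_ge x ε y)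
  have h1 : (y i - x i) ^ 2 ≤ Hardy_N x ε y := by
    unfold Hardy_N
    fin_cases i <;>
      simp only [Fin.zero_eta, Fin.mk_one, Fin.reduceFinMk, Fin.isValue] <;>
      linarith only [sq_nonneg (y 0 - x 0), sq_nonneg (y 1 - x 1), sq_nonneg (y 2 - x 2),
        sq_nonneg ε]
  have h2 : (y i - x i) ^ 2 * ((Hardy_N x ε y)⁻¹) ^ 2 ≤
      Hardy_N x ε y * ((Hardy_N x ε y)⁻¹) ^ 2 :=
    mul_le_mul_of_nonneg_right h1 (by positivity)
  refine h2.trans (le_of_eq ?_)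
  field_simp

theorem Hardy_inv_le (x : E3) {ε : ℝ} (hε : 0 < ε) (y : E3) :
    (Hardy_N x ε y)⁻¹ ≤ (ε ^ 2)⁻¹ :=
  inv_anti₀ (by positivity) (Hardy_N_ge x ε y)

theorem Hardy_eps {G : E3 → ℝ} (hG : ContDiff ℝ 1 G) {K : ℝ} (hK : DB 1 K G) (x : E3)
    {ε : ℝ} (hε : 0 < ε) :
    Integrable (fun y => G y ^ 2 * (Hardy_N x ε y)⁻¹) ∧
      ∫ y, G y ^ 2 * (Hardy_N x ε y)⁻¹ ≤ 4 * ∫ y, gsq G y := by
  have hGc : Continuous G := hG.continuous
  have hBL : BL K G := hK.1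
  have hBLi : ∀ i, BL K (pd i G) := fun i => hK.2 i
  have hGi : ∀ i, Continuous (pd i G) := fun i => pd_cont hG i
  have hNc : Continuous (fun y => (Hardy_N x ε y)⁻¹) :=
    (Hardy_N_smooth x ε).continuous.inv₀ fun y => by
      have := Hardy_N_ge x ε y
      have : 0 < ε ^ 2 := by positivity
      linarith
  have hNpos : ∀ y, 0 < (Hardy_N x ε y)⁻¹ := fun y =>
    inv_pos.2 (lt_of_lt_of_le (by positivity) (Hardy_N_ge x ε y))
  have hG2 : Integrable (fun y => G y ^ 2) := hBL.2.1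
  have hXc : ∀ i, Continuous (Hardy_X x ε i) := fun i => (Hardy_X_smooth x hε i).continuous
  have hXb : ∀ i y, |Hardy_X x ε i y| ≤ 1 + (ε ^ 2)⁻¹ := by
    intro i y
    have h1 : Hardy_X x ε i y ^ 2 ≤ (ε ^ 2)⁻¹ := by
      unfold Hardy_X
      rw [mul_pow]
      exact (Hardy_sq_le x hε i y).trans (Hardy_inv_le x hε y)
    have h2 : |Hardy_X x ε i y| ≤ 1 + Hardy_X x ε i y ^ 2 := by
      rw [← sq_abs]
      nlinarith [abs_nonneg (Hardy_X x ε i y), sq_nonneg (|Hardy_X x ε i y| - 1)]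
    linarith
  have hpc : ∀ i, Continuous (fun y => fderiv ℝ (Hardy_X x ε i) y (e i)) := fun i =>
    ((Hardy_X_smooth x hε i).continuous_fderiv (by norm_num)).clm_apply continuous_const
  have hpb : ∀ i y, |fderiv ℝ (Hardy_X x ε i) y (e i)| ≤ 2 * (ε ^ 2)⁻¹ := by
    intro i y
    rw [Hardy_pdX x hε i y]
    have h1 := Hardy_sq_le x hε i y
    have h2 := Hardy_inv_le x hε y
    have h3 := hNpos y
    have h4 : 0 ≤ (y i - x i) ^ 2 * ((Hardy_N x ε y)⁻¹) ^ 2 := by positivity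
    rw [abs_le]
    constructor <;> linarith only [h1, h2, h3, h4]
  have hI1 : ∀ i, Integrable (fun y => G y ^ 2 * fderiv ℝ (Hardy_X x ε i) y (e i)) := by
    intro i
    refine (hG2.mul_const (2 * (ε ^ 2)⁻¹)).mono'
      ((hGc.pow 2).mul (hpc i)).aestronglyMeasurable (ae_of_all _ fun y => ?_)
    rw [Real.norm_eq_abs, abs_mul, abs_of_nonneg (sq_nonneg (G y))]
    exact mul_le_mul_of_nonneg_left (hpb i y) (sq_nonneg _)
  have hI2 : ∀ i, Integrable (fun y => G y ^ 2 * Hardy_X x ε i y) := by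
    intro i
    refine (hG2.mul_const (1 + (ε ^ 2)⁻¹)).mono'
      ((hGc.pow 2).mul (hXc i)).aestronglyMeasurable (ae_of_all _ fun y => ?_)
    rw [Real.norm_eq_abs, abs_mul, abs_of_nonneg (sq_nonneg (G y))]
    exact mul_le_mul_of_nonneg_left (hXb i y) (sq_nonneg _)
  have hfd : ∀ i y, fderiv ℝ (fun z => G z ^ 2) y (e i) = 2 * G y * pd i G y := by
    intro i y
    have h1 : HasFDerivAt G (fderiv ℝ G y) y := (hG.differentiable (by norm_num) y).hasFDerivAt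
    have h2 := h1.pow 2
    have h3 : fderiv ℝ (fun z => G z ^ 2) y = (2 * G y) • fderiv ℝ G y := by
      have := h2.fderiv
      simpa using this
    rw [h3]
    simp [pd]
  have hI3 : ∀ i, Integrable (fun y => 2 * G y * pd i G y * Hardy_X x ε i y) := by
    intro i
    have h1 := (BL_mul hGc (hGi i) hBL (hBLi i)).norm.mul_const (2 * (1 + (ε ^ 2)⁻¹))
    refine h1.mono' (((continuous_const.mul hGc).mul (hGi i)).mul (hXc i)).aestronglyMeasurable
      (ae_of_all _ fun y => ?_)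
    rw [Real.norm_eq_abs, Real.norm_eq_abs, abs_mul]
    have h2 : |2 * G y * pd i G y| = 2 * |G y * pd i G y| := by
      rw [mul_assoc, abs_mul]; simp
    rw [h2]
    have h3 := mul_le_mul_of_nonneg_left (hXb i y) (show 0 ≤ 2 * |G y * pd i G y| by positivity)
    linarith
  have hIBP : ∀ i, ∫ y, G y ^ 2 * fderiv ℝ (Hardy_X x ε i) y (e i) =
      - ∫ y, 2 * G y * pd i G y * Hardy_X x ε i y := by
    intro i
    have h1 : Integrable (fun y => fderiv ℝ (fun z => G z ^ 2) y (e i) * Hardy_X x ε i y) := by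
      refine (hI3 i).congr (ae_of_all _ fun y => ?_)
      simp only [hfd i y]
    rw [integral_mul_fderiv_eq_neg_fderiv_mul_of_integrable h1 (hI1 i) (hI2 i)
      (fun y _ => (hG.pow 2).differentiable (by norm_num) y)
      (fun y _ => (Hardy_X_smooth x hε i).differentiable (by norm_num) y)]
    congr 1
    refine integral_congr_ae (ae_of_all _ fun y => ?_)
    simp only [hfd i y]
  have hIN : Integrable (fun y => G y ^ 2 * (Hardy_N x ε y)⁻¹) := by
    refine (hG2.mul_const ((ε ^ 2)⁻¹)).mono'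
      ((hGc.pow 2).mul hNc).aestronglyMeasurable (ae_of_all _ fun y => ?_)
    rw [Real.norm_eq_abs, abs_of_nonneg (mul_nonneg (sq_nonneg _) (hNpos y).le)]
    exact mul_le_mul_of_nonneg_left (Hardy_inv_le x hε y) (sq_nonneg _)
  refine ⟨hIN, ?_⟩
  have hr : ∀ y, ((y 0 - x 0) ^ 2 + (y 1 - x 1) ^ 2 + (y 2 - x 2) ^ 2) *
      ((Hardy_N x ε y)⁻¹) ^ 2 ≤ (Hardy_N x ε y)⁻¹ := by
    intro y
    have hN : 0 < Hardy_N x ε y := lt_of_lt_of_le (by positivity) (Hardy_N_ge x ε y)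
    have h1 : (y 0 - x 0) ^ 2 + (y 1 - x 1) ^ 2 + (y 2 - x 2) ^ 2 ≤ Hardy_N x ε y := by
      unfold Hardy_N
      nlinarith [sq_nonneg ε]
    refine (mul_le_mul_of_nonneg_right h1 (by positivity)).trans (le_of_eq ?_)
    field_simp
  have hA : ∫ y, G y ^ 2 * (Hardy_N x ε y)⁻¹ ≤
      ∑ i, ∫ y, G y ^ 2 * fderiv ℝ (Hardy_X x ε i) y (e i) := by
    rw [← integral_finsetSum _ fun i _ => hI1 i]
    refine integral_mono hIN (integrable_finsetSum _ fun i _ => hI1 i) fun y => ?_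
    simp only
    rw [← Finset.mul_sum]
    refine mul_le_mul_of_nonneg_left ?_ (sq_nonneg _)
    rw [Fin.sum_univ_three, Hardy_pdX x hε, Hardy_pdX x hε, Hardy_pdX x hε]
    have := hr y
    linarith only [this]
  have hI4 : ∀ i, Integrable (fun y => -(2 * G y * pd i G y * Hardy_X x ε i y)) := fun i =>
    (hI3 i).neg
  have hB : ∑ i, ∫ y, G y ^ 2 * fderiv ℝ (Hardy_X x ε i) y (e i) ≤
      ∫ y, (1 / 2 * (G y ^ 2 * (Hardy_N x ε y)⁻¹) + 2 * gsq G y) := by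
    have h1 : ∑ i, ∫ y, G y ^ 2 * fderiv ℝ (Hardy_X x ε i) y (e i) =
        ∫ y, ∑ i, -(2 * G y * pd i G y * Hardy_X x ε i y) := by
      rw [integral_finsetSum _ fun i _ => hI4 i]
      refine Finset.sum_congr rfl fun i _ => ?_
      rw [hIBP i, integral_neg]
    rw [h1]
    refine integral_mono (integrable_finsetSum _ fun i _ => hI4 i)
      ((hIN.const_mul _).add ((gsq_int hK).1.const_mul _)) fun y => ?_
    simp only
    have h2 := hr y
    have h3 : Hardy_X x ε 0 y ^ 2 + Hardy_X x ε 1 y ^ 2 + Hardy_X x ε 2 y ^ 2 ≤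
        (Hardy_N x ε y)⁻¹ := by
      unfold Hardy_X
      linarith only [h2]
    have h4 := mul_le_mul_of_nonneg_left h3 (sq_nonneg (G y))
    unfold gsq
    rw [Fin.sum_univ_three, Fin.sum_univ_three]
    linarith only [sq_nonneg (G y * Hardy_X x ε 0 y + 2 * pd 0 G y),
      sq_nonneg (G y * Hardy_X x ε 1 y + 2 * pd 1 G y),
      sq_nonneg (G y * Hardy_X x ε 2 y + 2 * pd 2 G y), h4]
  rw [integral_add (hIN.const_mul _) ((gsq_int hK).1.const_mul _), integral_const_mul,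
    integral_const_mul] at hB
  linarith

theorem hardy {G : E3 → ℝ} (hG : ContDiff ℝ 1 G) {K : ℝ} (hK : DB 1 K G) (x : E3) :
    Integrable (fun y => G y ^ 2 / ‖x - y‖ ^ 2) ∧ ∫ y, G y ^ 2 / ‖x - y‖ ^ 2 ≤ 4 * ∫ y, gsq G y := by
  have hGc : Continuous G := hG.continuous
  have hmeas : Measurable (fun y => G y ^ 2 / ‖x - y‖ ^ 2) :=
    (hGc.pow 2).measurable.div ((continuous_const.sub continuous_id).norm.pow 2).measurable
  have hnn : ∀ y, 0 ≤ G y ^ 2 / ‖x - y‖ ^ 2 := fun y => by positivity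
  have hε : ∀ n : ℕ, (0 : ℝ) < 1 / ((n : ℝ) + 1) := fun n => by positivity
  have hNpos : ∀ (n : ℕ) (y : E3), 0 < (Hardy_N x (1 / ((n : ℝ) + 1)) y)⁻¹ := fun n y =>
    inv_pos.2 (lt_of_lt_of_le (by have := hε n; positivity) (Hardy_N_ge x _ y))
  have hlim : ∀ᵐ y : E3, Tendsto
      (fun n : ℕ => ENNReal.ofReal (G y ^ 2 * (Hardy_N x (1 / ((n : ℝ) + 1)) y)⁻¹)) atTop
      (𝓝 (ENNReal.ofReal (G y ^ 2 / ‖x - y‖ ^ 2))) := by
    have hne : ∀ᵐ y : E3, y ≠ x := by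
      rw [ae_iff]
      simp
    filter_upwards [hne] with y hy
    refine (ENNReal.continuous_ofReal.tendsto _).comp ?_
    have h1 : Tendsto (fun n : ℕ => (1 / ((n : ℝ) + 1))) atTop (𝓝 0) :=
      tendsto_one_div_add_atTop_nhds_zero_nat
    have h2 : Tendsto (fun n : ℕ => ‖x - y‖ ^ 2 + (1 / ((n : ℝ) + 1)) ^ 2) atTop
        (𝓝 (‖x - y‖ ^ 2)) := by
      have := (h1.pow 2).const_add (‖x - y‖ ^ 2)
      simpa using this
    have h3 : ‖x - y‖ ^ 2 ≠ 0 := by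
      have : x - y ≠ 0 := sub_ne_zero.2 (Ne.symm hy)
      positivity
    have h4 := (h2.inv₀ h3).const_mul (G y ^ 2)
    simp only [Hardy_N_eq]
    rw [div_eq_mul_inv]
    exact h4
  have hlin : ∫⁻ y, ENNReal.ofReal (G y ^ 2 / ‖x - y‖ ^ 2) ≤
      ENNReal.ofReal (4 * ∫ y, gsq G y) := by
    have h1 : ∫⁻ y, ENNReal.ofReal (G y ^ 2 / ‖x - y‖ ^ 2) =
        ∫⁻ y, liminf (fun n : ℕ => ENNReal.ofReal
          (G y ^ 2 * (Hardy_N x (1 / ((n : ℝ) + 1)) y)⁻¹)) atTop := by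
      refine lintegral_congr_ae ?_
      filter_upwards [hlim] with y hy using hy.liminf_eq.symm
    rw [h1]
    refine (lintegral_liminf_le' fun n => ?_).trans ?_
    · exact ENNReal.measurable_ofReal.comp_aemeasurable
        (Hardy_eps hG hK x (hε n)).1.aestronglyMeasurable.aemeasurable
    · refine liminf_le_of_frequently_le' (Frequently.of_forall fun n => ?_)
      rw [← ofReal_integral_eq_lintegral_ofReal (Hardy_eps hG hK x (hε n)).1
        (ae_of_all _ fun y => mul_nonneg (sq_nonneg _) (hNpos n y).le)]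
      exact ENNReal.ofReal_le_ofReal (Hardy_eps hG hK x (hε n)).2
  have hfin : Integrable (fun y => G y ^ 2 / ‖x - y‖ ^ 2) :=
    ⟨hmeas.aestronglyMeasurable, (hasFiniteIntegral_iff_ofReal (ae_of_all _ hnn)).2
      (lt_of_le_of_lt hlin ENNReal.ofReal_lt_top)⟩
  refine ⟨hfin, ?_⟩
  rw [integral_eq_lintegral_of_nonneg_ae (ae_of_all _ hnn) hmeas.aestronglyMeasurable]
  refine ENNReal.toReal_le_of_le_ofReal ?_ hlin
  have : 0 ≤ ∫ y, gsq G y := integral_nonneg fun y => gsq_nonneg G y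
  linarith

end Pool.Agent.H87.NS
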