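/-
ROW S1. PROOF. `|W| G²` is integrable (`W` is bounded and continuous, `G²` is integrable) and, for `x` off the axis (a set of full
measure: the axis `rad x = 0` is contained in the subspace `x 0 = 0`, `Measure.addHaar_affineSubspace` or similar),
`|W(x)| G(x)² ≤ (12 / c0) ∫ |Om(y)| G(x)² / ‖x-y‖² dy`. By Tonelli (`lintegral_lintegral_swap`, with `ENNReal.ofReal`) and hardy
`∫∫ |Om(y)| G(x)² / ‖x-y‖² dy dx = ∫ |Om(y)| (∫ G(x)² / ‖x-y‖² dx) dy ≤ 4 (∫ gsq G) ∫ |Om|`. (`‖x-y‖ = ‖y-x‖`.)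
S3: with the constant `C` of near_far and hardy for `f = Om`: `√(∫ Om² / ‖x-y‖²) ≤ √(4 ∫ gsq Om) = 2 √(∫ gsq Om)`; constant `2 C`.
-/
import Pool.Agent.H87.NS.Hardy
import Pool.Agent.H87.NS.HInt

set_option autoImplicit false

open Set Filter Topology MeasureTheory
open scoped ContDiff

namespace Pool.Agent.H87.NS

open Pool.Agent.H16

theorem axis_null : ∀ᵐ x : E3, 0 < rad x := by
  have h1 : LinearMap.ker ((EuclideanSpace.proj (0 : Fin 3) : E3 →L[ℝ] ℝ) : E3 →ₗ[ℝ] ℝ) ≠ ⊤ := by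
    intro h
    have h2 : (e 0 : E3) ∈ LinearMap.ker ((EuclideanSpace.proj (0 : Fin 3) : E3 →L[ℝ] ℝ) : E3 →ₗ[ℝ] ℝ) := by
      rw [h]; exact Submodule.mem_top
    rw [LinearMap.mem_ker] at h2
    simp [e] at h2
  have h2 := Measure.addHaar_submodule (volume : Measure E3) _ h1
  rw [ae_iff]
  refine measure_mono_null ?_ h2
  intro x hx
  have hx' : ¬ 0 < rad x := hx
  have h3 : x 0 ^ 2 + x 1 ^ 2 ≤ 0 := by
    by_contra h
    exact hx' (Real.sqrt_pos.2 (not_le.1 h))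
  have h4 : x 0 = 0 := by nlinarith [sq_nonneg (x 0), sq_nonneg (x 1)]
  simpa using h4

theorem S1 {W Om G : E3 → ℝ} (hW : Continuous W) {K₁ : ℝ} (hWb : ∀ x, |W x| ≤ K₁) (hOm : Continuous Om)
    (hint : Integrable Om) (hG : ContDiff ℝ 1 G) {K : ℝ} (hK : DB 1 K G) {c : ℝ} (hc : 0 ≤ c)
    (hker : ∀ x, 0 < rad x → |W x| ≤ c * ∫ y, |Om y| / ‖x - y‖ ^ 2)
    (hki : ∀ x, Integrable (fun y => |Om y| / ‖x - y‖ ^ 2)) :
    ∫ x, |W x| * G x ^ 2 ≤ 4 * c * (∫ x, |Om x|) * ∫ x, gsq G x := by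
  have hG2 : Integrable (fun x => G x ^ 2) := (DB_BL hK).2.1
  have hGc : Continuous G := hG.continuous
  have hmeas : Measurable fun p : E3 × E3 => |Om p.2| * (G p.1 ^ 2 / ‖p.1 - p.2‖ ^ 2) := by
    have h1 : Measurable fun p : E3 × E3 => |Om p.2| := (hOm.comp continuous_snd).abs.measurable
    have h2 : Measurable fun p : E3 × E3 => G p.1 ^ 2 := ((hGc.comp continuous_fst).pow 2).measurable
    have h3 : Measurable fun p : E3 × E3 => ‖p.1 - p.2‖ ^ 2 :=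
      ((continuous_fst.sub continuous_snd).norm.pow 2).measurable
    exact h1.mul (h2.div h3)
  have hH : ∀ y : E3, Integrable (fun x : E3 => G x ^ 2 / ‖x - y‖ ^ 2) ∧
      ∫ x, G x ^ 2 / ‖x - y‖ ^ 2 ≤ 4 * ∫ x, gsq G x := by
    intro y
    have h := hardy hG hK y
    simp only [norm_sub_rev y] at h
    exact h
  have hprod : Integrable (fun p : E3 × E3 => |Om p.2| * (G p.1 ^ 2 / ‖p.1 - p.2‖ ^ 2)) (volume.prod volume) := by
    rw [integrable_prod_iff' hmeas.aestronglyMeasurable]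
    refine ⟨Eventually.of_forall fun y => (hH y).1.const_mul (|Om y|), ?_⟩
    have e1 : (fun y : E3 => ∫ x : E3, ‖|Om y| * (G x ^ 2 / ‖x - y‖ ^ 2)‖) =
        fun y : E3 => |Om y| * ∫ x : E3, G x ^ 2 / ‖x - y‖ ^ 2 := by
      ext y
      rw [← integral_const_mul]
      refine integral_congr_ae (Eventually.of_forall fun x => ?_)
      exact Real.norm_of_nonneg (mul_nonneg (abs_nonneg _) (div_nonneg (sq_nonneg _) (sq_nonneg _)))
    have e2 : AEStronglyMeasurable (fun y : E3 => ∫ x : E3, ‖|Om y| * (G x ^ 2 / ‖x - y‖ ^ 2)‖) volume :=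
      (hmeas.norm.stronglyMeasurable.integral_prod_left' (μ := (volume : Measure E3))).aestronglyMeasurable
    rw [e1] at e2 ⊢
    refine Integrable.mono' ((hint.abs).mul_const (4 * ∫ x, gsq G x)) e2 (Eventually.of_forall fun y => ?_)
    have h0 : 0 ≤ ∫ x : E3, G x ^ 2 / ‖x - y‖ ^ 2 :=
      integral_nonneg fun x => div_nonneg (sq_nonneg _) (sq_nonneg _)
    rw [Real.norm_of_nonneg (mul_nonneg (abs_nonneg _) h0)]
    exact mul_le_mul_of_nonneg_left (hH y).2 (abs_nonneg _)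
  have hL : Integrable (fun x => |W x| * G x ^ 2) := by
    refine Integrable.mono' (hG2.const_mul K₁) (hW.abs.mul (hGc.pow 2)).aestronglyMeasurable
      (Eventually.of_forall fun x => ?_)
    rw [Real.norm_of_nonneg (mul_nonneg (abs_nonneg _) (sq_nonneg _))]
    exact mul_le_mul_of_nonneg_right (hWb x) (sq_nonneg _)
  have h1 : ∫ x, |W x| * G x ^ 2 ≤ ∫ x, c * ∫ y, |Om y| * (G x ^ 2 / ‖x - y‖ ^ 2) := by
    refine integral_mono_ae hL (hprod.integral_prod_left.const_mul c) ?_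
    filter_upwards [axis_null] with x hx
    calc |W x| * G x ^ 2 ≤ (c * ∫ y, |Om y| / ‖x - y‖ ^ 2) * G x ^ 2 :=
          mul_le_mul_of_nonneg_right (hker x hx) (sq_nonneg _)
      _ = c * ∫ y, |Om y| * (G x ^ 2 / ‖x - y‖ ^ 2) := by
          rw [mul_assoc, ← integral_mul_const]
          congr 1
          refine integral_congr_ae (Eventually.of_forall fun y => ?_)
          ring
  refine h1.trans ?_
  rw [integral_const_mul]
  have h2 : ∫ x, ∫ y, |Om y| * (G x ^ 2 / ‖x - y‖ ^ 2) = ∫ y, ∫ x, |Om y| * (G x ^ 2 / ‖x - y‖ ^ 2) :=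
    integral_integral_swap (f := fun x y => |Om y| * (G x ^ 2 / ‖x - y‖ ^ 2)) hprod
  rw [h2]
  have h3 : ∫ y, ∫ x, |Om y| * (G x ^ 2 / ‖x - y‖ ^ 2) ≤ ∫ y, |Om y| * (4 * ∫ x, gsq G x) := by
    refine integral_mono_ae hprod.integral_prod_right (hint.abs.mul_const _) (Eventually.of_forall fun y => ?_)
    simp only
    rw [integral_const_mul]
    exact mul_le_mul_of_nonneg_left (hH y).2 (abs_nonneg _)
  calc c * ∫ y, ∫ x, |Om y| * (G x ^ 2 / ‖x - y‖ ^ 2) ≤ c * ∫ y, |Om y| * (4 * ∫ x, gsq G x) :=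
        mul_le_mul_of_nonneg_left h3 hc
    _ = 4 * c * (∫ x, |Om x|) * ∫ x, gsq G x := by rw [integral_mul_const]; ring

theorem S3 : ∃ C : ℝ, 0 < C ∧ ∀ (Om : E3 → ℝ) (K : ℝ), ContDiff ℝ 1 Om → DB 1 K Om → ∀ x : E3,
    ∫ y, |Om y| / ‖x - y‖ ^ 2 ≤ C * (√(∫ y, Om y ^ 2) + √(∫ y, gsq Om y)) := by
  obtain ⟨C, hC, h⟩ := near_far
  refine ⟨2 * C, by positivity, fun Om K hOm hK x => ?_⟩
  obtain ⟨h1, h2⟩ := hardy hOm hK x
  have h3 := h Om K hOm.continuous (DB_BL hK) x h1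
  have h4 : √(∫ y, Om y ^ 2 / ‖x - y‖ ^ 2) ≤ 2 * √(∫ y, gsq Om y) := by
    have h5 : √(4 * ∫ y, gsq Om y) = 2 * √(∫ y, gsq Om y) := by
      rw [Real.sqrt_mul (by norm_num)]
      congr 1
      rw [show (4 : ℝ) = 2 ^ 2 by norm_num]
      exact Real.sqrt_sq (by norm_num)
    rw [← h5]
    exact Real.sqrt_le_sqrt h2
  have h6 : 0 ≤ √(∫ y, Om y ^ 2) := Real.sqrt_nonneg _
  have h7 : C * (√(∫ y, Om y ^ 2 / ‖x - y‖ ^ 2) + √(∫ y, Om y ^ 2)) ≤
      C * (2 * √(∫ y, gsq Om y) + 2 * √(∫ y, Om y ^ 2)) := mul_le_mul_of_nonneg_left (by linarith) hC.le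
  linarith

end Pool.Agent.H87.NS
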