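/-
ROW Avk. The averages `avk k f x = ∫₀¹ s^k f(s x₀, s x₁, x₂) ds`. PROOF.
`sq s` is linear in `x`. avk_pd: differentiate under the integral sign along the direction `e i`
(`hasFDerivAt_integral_of_dominated_of_fderiv_le`, or `intervalIntegral.hasFDerivAt_integral_of_dominated_of_fderiv_le`; the bound
on the unit ball around `x`: `(s, y) ↦ fderiv ℝ f (sq s y)` is continuous on the compact set `[0,1] × closedBall x 1`), and
`fderiv (f ∘ sq s) x (e i) = fderiv f (sq s x) (sq s (e i))`, `sq s (e i) = s • e i` for `i ≠ 2`, `sq s (e 2) = e 2`.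
avk_smooth: the integral is differentiable with `fderiv ℝ (avk k f) x = ∑ i, (pd i (avk k f) x) • proj i`, and the `pd i (avk k f)` are
again averages of smooth functions (avk_pd), so `ContDiff ℝ n (avk k f)` for all `k`, `f` by induction on `n`
(`contDiff_succ_iff_fderiv`, `contDiff_infty`; continuity of `avk k f`: `intervalIntegral.continuous_parametric_intervalIntegral_of_continuous`).
avk_BL: `|avk k f| ≤ ∫₀¹ s^k K ≤ K`. Let `k ≥ 1`: `s^k ≤ s` on `[0,1]`; Cauchy-Schwarz with the weights `s^(1/2)`, `s^(3/2)`: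
`(avk k f x)² ≤ (∫₀¹ s |f(sq s x)| ds)² ≤ (∫₀¹ s^(1/2) ds) (∫₀¹ s^(3/2) f(sq s x)² ds) = (2/3) ∫₀¹ s^(3/2) f(sq s x)² ds`; by
Tonelli and the substitution `y = sq s x` (a linear map of determinant `s²`: `∫ f(sq s x)² dx = s⁻² ∫ f²`),
`∫ (avk k f)² ≤ (2/3) (∫₀¹ s^(-1/2) ds) ∫ f² = (4/3) ∫ f² ≤ 2 K`.
avk_DB: induction on `n` with avk_pd (`pd i f` is smooth).
-/
import Pool.Agent.H87.NS.IBP
import Pool.Agent.H72.GS.ParamInt

set_option autoImplicit false

open Set Filter Topology MeasureTheory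
open scoped ContDiff

namespace Pool.Agent.H87.NS

open Pool.Agent.H16

theorem Avk_sq0 (s : ℝ) (x : E3) : sq s x 0 = s * x 0 := rfl
theorem Avk_sq1 (s : ℝ) (x : E3) : sq s x 1 = s * x 1 := rfl
theorem Avk_sq2 (s : ℝ) (x : E3) : sq s x 2 = x 2 := rfl

/-- `sq s` as a linear map -/
noncomputable def Avk_L (s : ℝ) : E3 →ₗ[ℝ] E3 where
  toFun := sq s
  map_add' x y := by
    apply ext3
    · show s * (x 0 + y 0) = s * x 0 + s * y 0
      ring
    · show s * (x 1 + y 1) = s * x 1 + s * y 1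
      ring
    · show x 2 + y 2 = x 2 + y 2
      rfl
  map_smul' c x := by
    apply ext3
    · show s * (c * x 0) = c * (s * x 0)
      ring
    · show s * (c * x 1) = c * (s * x 1)
      ring
    · show c * x 2 = c * x 2
      rfl

/-- `sq s` as a continuous linear map -/
noncomputable def Avk_C (s : ℝ) : E3 →L[ℝ] E3 := LinearMap.toContinuousLinearMap (Avk_L s)

theorem Avk_C_apply (s : ℝ) (x : E3) : Avk_C s x = sq s x := rfl

theorem Avk_sq_smooth : ContDiff ℝ ∞ (fun p : E3 × ℝ => sq p.2 p.1) := by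
  have hc : ∀ i : Fin 3, ContDiff ℝ ∞ (fun p : E3 × ℝ => p.1 i) := by
    intro i
    exact (EuclideanSpace.proj (𝕜 := ℝ) i).contDiff.comp contDiff_fst
  rw [contDiff_euclidean]
  intro i
  fin_cases i
  · exact contDiff_snd.mul (hc 0)
  · exact contDiff_snd.mul (hc 1)
  · exact hc 2

theorem Avk_sq_cont : Continuous (fun p : E3 × ℝ => sq p.2 p.1) := Avk_sq_smooth.continuous

theorem Avk_F_smooth {f : E3 → ℝ} (hf : ContDiff ℝ ∞ f) (k : ℕ) :
    ContDiff ℝ ∞ (fun p : E3 × ℝ => p.2 ^ k * f (sq p.2 p.1)) :=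
  (contDiff_snd.pow k).mul (hf.comp Avk_sq_smooth)

theorem avk_smooth {f : E3 → ℝ} (hf : ContDiff ℝ ∞ f) (k : ℕ) : ContDiff ℝ ∞ (avk k f) :=
  H72GS.contDiff_paramInt (Avk_F_smooth hf k) 0 1

theorem Avk_fderiv {f : E3 → ℝ} (hf : ContDiff ℝ ∞ f) (k : ℕ) (x v : E3) :
    fderiv ℝ (avk k f) x v = ∫ s in (0:ℝ)..1, s ^ k * fderiv ℝ f (sq s x) (sq s v) := by
  have h1 := H72GS.fderiv_paramInt (Avk_F_smooth hf k) 0 1 x v
  have h2 : fderiv ℝ (avk k f) x v = ∫ s in (0:ℝ)..1,
      fderiv ℝ (fun p : E3 × ℝ => p.2 ^ k * f (sq p.2 p.1)) (x, s) (v, 0) := h1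
  rw [h2]
  refine intervalIntegral.integral_congr fun s _ => ?_
  have hF : HasFDerivAt (fun p : E3 × ℝ => p.2 ^ k * f (sq p.2 p.1))
      (fderiv ℝ (fun p : E3 × ℝ => p.2 ^ k * f (sq p.2 p.1)) (x, s)) (x, s) :=
    ((Avk_F_smooth hf k).differentiable (by simp) _).hasFDerivAt
  have hA : HasFDerivAt (fun y : E3 => s ^ k * f (sq s y))
      ((fderiv ℝ (fun p : E3 × ℝ => p.2 ^ k * f (sq p.2 p.1)) (x, s)) ∘L
        ContinuousLinearMap.inl ℝ E3 ℝ) x :=
    HasFDerivAt.comp (g := fun p : E3 × ℝ => p.2 ^ k * f (sq p.2 p.1)) (f := fun y : E3 => (y, s)) x hF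
      (hasFDerivAt_prodMk_left (𝕜 := ℝ) x s)
  have hff : HasFDerivAt f (fderiv ℝ f (sq s x)) (Avk_C s x) :=
    (hf.differentiable (by simp) _).hasFDerivAt
  have hB : HasFDerivAt (fun y : E3 => s ^ k * f (Avk_C s y))
      (s ^ k • (fderiv ℝ f (sq s x) ∘L Avk_C s)) x :=
    (hff.comp x (Avk_C s).hasFDerivAt).const_mul (s ^ k)
  have hAB := hA.unique hB
  have := congrArg (fun T : E3 →L[ℝ] ℝ => T v) hAB
  exact this

theorem Avk_e_hor (s : ℝ) {i : Fin 3} (hi : i ≠ 2) : sq s (e i) = s • e i := by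
  have h2 : (e i : E3) 2 = 0 := by
    unfold e
    rw [EuclideanSpace.single_apply, if_neg (Ne.symm hi)]
  apply ext3
  · rfl
  · rfl
  · show (e i : E3) 2 = s * (e i : E3) 2
    rw [h2, mul_zero]

theorem Avk_e_two (s : ℝ) : sq s (e 2) = e 2 := by
  have h0 : (e 2 : E3) 0 = 0 := by
    unfold e
    rw [EuclideanSpace.single_apply, if_neg (by decide)]
  have h1 : (e 2 : E3) 1 = 0 := by
    unfold e
    rw [EuclideanSpace.single_apply, if_neg (by decide)]
  apply ext3
  · show s * (e 2 : E3) 0 = (e 2 : E3) 0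
    rw [h0, mul_zero]
  · show s * (e 2 : E3) 1 = (e 2 : E3) 1
    rw [h1, mul_zero]
  · rfl

theorem avk_pd_hor {f : E3 → ℝ} (hf : ContDiff ℝ ∞ f) (k : ℕ) {i : Fin 3} (hi : i ≠ 2) :
    pd i (avk k f) = avk (k + 1) (pd i f) := by
  funext x
  unfold pd
  rw [Avk_fderiv hf]
  unfold avk
  refine intervalIntegral.integral_congr fun s _ => ?_
  show s ^ k * fderiv ℝ f (sq s x) (sq s (e i)) = s ^ (k + 1) * fderiv ℝ f (sq s x) (e i)
  rw [Avk_e_hor s hi, map_smul, smul_eq_mul]
  ring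

theorem avk_pd_two {f : E3 → ℝ} (hf : ContDiff ℝ ∞ f) (k : ℕ) :
    pd 2 (avk k f) = avk k (pd 2 f) := by
  funext x
  unfold pd
  rw [Avk_fderiv hf]
  unfold avk
  refine intervalIntegral.integral_congr fun s _ => ?_
  show s ^ k * fderiv ℝ f (sq s x) (sq s (e 2)) = s ^ k * fderiv ℝ f (sq s x) (e 2)
  rw [Avk_e_two s]

theorem Avk_det (s : ℝ) : LinearMap.det (Avk_L s) = s ^ 2 := by
  rw [← LinearMap.det_toMatrix (EuclideanSpace.basisFun (Fin 3) ℝ).toBasis]
  have h : LinearMap.toMatrix (EuclideanSpace.basisFun (Fin 3) ℝ).toBasis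
      (EuclideanSpace.basisFun (Fin 3) ℝ).toBasis (Avk_L s) = Matrix.diagonal ![s, s, 1] := by
    ext i j
    rw [LinearMap.toMatrix_apply, OrthonormalBasis.coe_toBasis, OrthonormalBasis.coe_toBasis_repr_apply,
      EuclideanSpace.basisFun_apply, EuclideanSpace.basisFun_repr]
    show sq s (EuclideanSpace.single j 1) i = _
    fin_cases i <;> fin_cases j <;> simp [sq]
  rw [h, Matrix.det_diagonal, Fin.prod_univ_three]
  simp
  ring

theorem Avk_lint {s : ℝ} (hs : 0 < s) {G : E3 → ENNReal} (hG : Measurable G) :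
    ENNReal.ofReal (s ^ 2) * ∫⁻ x, G (sq s x) = ∫⁻ x, G x := by
  have hdet : LinearMap.det (Avk_L s) ≠ 0 := by
    rw [Avk_det]
    positivity
  have h1 := Measure.map_linearMap_addHaar_eq_smul_addHaar (volume : Measure E3) hdet
  have hm : Measurable (Avk_L s) := (Avk_C s).continuous.measurable
  have h2 : ∫⁻ x, G (sq s x) = ∫⁻ x, G x ∂(Measure.map (Avk_L s) volume) := by
    rw [lintegral_map hG hm]
    rfl
  rw [h2, h1, lintegral_smul_measure, Avk_det, smul_eq_mul, ← mul_assoc, ← ENNReal.ofReal_mul (by positivity),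
    abs_of_nonneg (by positivity), mul_inv_cancel₀ (by positivity), ENNReal.ofReal_one, one_mul]

theorem Avk_cont {f : E3 → ℝ} (hf : Continuous f) (k : ℕ) :
    Continuous (fun p : E3 × ℝ => p.2 ^ k * f (sq p.2 p.1)) :=
  (continuous_snd.pow k).mul (hf.comp Avk_sq_cont)

theorem Avk_jensen {g : ℝ → ℝ} (hg : Continuous g) :
    (∫ s in (0:ℝ)..1, g s) ^ 2 ≤ ∫ s in (0:ℝ)..1, g s ^ 2 := by
  have h1 : 0 ≤ ∫ s in (0:ℝ)..1, (g s - ∫ s in (0:ℝ)..1, g s) ^ 2 :=
    intervalIntegral.integral_nonneg zero_le_one fun s _ => sq_nonneg _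
  have h2 : ∫ s in (0:ℝ)..1, (g s - ∫ s in (0:ℝ)..1, g s) ^ 2 =
      (∫ s in (0:ℝ)..1, g s ^ 2) - (∫ s in (0:ℝ)..1, g s) ^ 2 := by
    generalize hm : ∫ s in (0:ℝ)..1, g s = m
    have e : ∀ s, (g s - m) ^ 2 = g s ^ 2 - (2 * m * g s - m ^ 2) := fun s => by ring
    simp only [e]
    rw [intervalIntegral.integral_sub, intervalIntegral.integral_sub,
      intervalIntegral.integral_const_mul, hm, intervalIntegral.integral_const]
    · simp only [sub_zero, smul_eq_mul, one_mul]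
      ring
    · exact (continuous_const.mul hg).intervalIntegrable _ _
    · exact continuous_const.intervalIntegrable _ _
    · exact (hg.pow 2).intervalIntegrable _ _
    · exact ((continuous_const.mul hg).sub continuous_const).intervalIntegrable _ _
  rw [h2] at h1
  linarith

theorem avk_BL {f : E3 → ℝ} (hf : Continuous f) {k : ℕ} (hk : 1 ≤ k) {K : ℝ} (h : BL K f) :
    BL (2 * K) (avk k f) := by
  have hK : 0 ≤ K := BL_nonneg h
  obtain ⟨hb, hint, hle⟩ := h
  have hc : Continuous (avk k f) :=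
    intervalIntegral.continuous_parametric_intervalIntegral_of_continuous'
      (f := fun x s => s ^ k * f (sq s x)) (Avk_cont hf k) 0 1
  have hcs : ∀ x : E3, Continuous fun s : ℝ => f (sq s x) := fun x =>
    hf.comp (Avk_sq_cont.comp (by fun_prop : Continuous fun s : ℝ => (x, s)))
  have hpt : ∀ x, avk k f x ^ 2 ≤ ∫ s in (0:ℝ)..1, s ^ 2 * f (sq s x) ^ 2 := by
    intro x
    have hg : Continuous fun s : ℝ => s ^ k * f (sq s x) := (continuous_id.pow k).mul (hcs x)
    refine (Avk_jensen hg).trans ?_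
    refine intervalIntegral.integral_mono_on zero_le_one ((hg.pow 2).intervalIntegrable _ _)
      (((continuous_id.pow 2).mul ((hcs x).pow 2)).intervalIntegrable _ _) ?_
    intro s hs
    show (s ^ k * f (sq s x)) ^ 2 ≤ s ^ 2 * f (sq s x) ^ 2
    rw [mul_pow]
    refine mul_le_mul_of_nonneg_right ?_ (sq_nonneg _)
    refine pow_le_pow_left₀ (pow_nonneg hs.1 k) ?_ 2
    calc s ^ k ≤ s ^ 1 := pow_le_pow_of_le_one hs.1 hs.2 hk
      _ = s := pow_one s
  have hlint : ∫⁻ x, ENNReal.ofReal (avk k f x ^ 2) ≤ ENNReal.ofReal K := by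
    calc ∫⁻ x, ENNReal.ofReal (avk k f x ^ 2)
        ≤ ∫⁻ x, ∫⁻ s in Ioc (0:ℝ) 1, ENNReal.ofReal (s ^ 2 * f (sq s x) ^ 2) := by
          refine lintegral_mono fun x => ?_
          have hcc : Continuous fun s : ℝ => s ^ 2 * f (sq s x) ^ 2 :=
            (continuous_id.pow 2).mul ((hcs x).pow 2)
          rw [← ofReal_integral_eq_lintegral_ofReal (hcc.intervalIntegrable 0 1).1
            (Eventually.of_forall fun s => by positivity), ← intervalIntegral.integral_of_le zero_le_one]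
          exact ENNReal.ofReal_le_ofReal (hpt x)
      _ = ∫⁻ s in Ioc (0:ℝ) 1, ∫⁻ x, ENNReal.ofReal (s ^ 2 * f (sq s x) ^ 2) := by
          refine lintegral_lintegral_swap ?_
          refine Measurable.aemeasurable ?_
          refine ENNReal.measurable_ofReal.comp (Continuous.measurable ?_)
          exact (continuous_snd.pow 2).mul ((hf.comp Avk_sq_cont).pow 2)
      _ = ∫⁻ s in Ioc (0:ℝ) 1, ∫⁻ x, ENNReal.ofReal (f x ^ 2) := by
          refine setLIntegral_congr_fun measurableSet_Ioc fun s hs => ?_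
          have hG : Measurable fun x : E3 => ENNReal.ofReal (f x ^ 2) :=
            ENNReal.measurable_ofReal.comp (hf.pow 2).measurable
          show ∫⁻ x, ENNReal.ofReal (s ^ 2 * f (sq s x) ^ 2) = ∫⁻ x, ENNReal.ofReal (f x ^ 2)
          rw [← Avk_lint hs.1 hG, ← lintegral_const_mul]
          · refine lintegral_congr fun x => ?_
            rw [ENNReal.ofReal_mul (by positivity)]
          · exact hG.comp (Avk_C s).continuous.measurable
      _ = ∫⁻ x, ENNReal.ofReal (f x ^ 2) := by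
          rw [lintegral_const]
          simp
      _ = ENNReal.ofReal (∫ x, f x ^ 2) := by
          rw [ofReal_integral_eq_lintegral_ofReal hint (Eventually.of_forall fun x => sq_nonneg _)]
      _ ≤ ENNReal.ofReal K := ENNReal.ofReal_le_ofReal hle
  have hnn : 0 ≤ᵐ[volume] fun x => avk k f x ^ 2 := Eventually.of_forall fun x => sq_nonneg _
  have hi : Integrable fun x => avk k f x ^ 2 := by
    refine ⟨(hc.pow 2).aestronglyMeasurable, ?_⟩
    rw [hasFiniteIntegral_iff_ofReal hnn]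
    exact hlint.trans_lt ENNReal.ofReal_lt_top
  refine ⟨fun x => ?_, hi, ?_⟩
  · have h1 : ‖avk k f x‖ ≤ K * |1 - 0| := by
      refine intervalIntegral.norm_integral_le_of_norm_le_const fun s hs => ?_
      rw [uIoc_of_le zero_le_one] at hs
      rw [norm_mul, Real.norm_eq_abs, Real.norm_eq_abs, abs_of_nonneg (pow_nonneg hs.1.le k)]
      calc s ^ k * |f (sq s x)| ≤ 1 * K :=
            mul_le_mul (pow_le_one₀ hs.1.le hs.2) (hb _) (abs_nonneg _) zero_le_one
        _ = K := one_mul K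
    rw [sub_zero, abs_one, mul_one, Real.norm_eq_abs] at h1
    linarith
  · rw [← ofReal_integral_eq_lintegral_ofReal hi hnn] at hlint
    have := (ENNReal.ofReal_le_ofReal_iff hK).1 hlint
    linarith

theorem avk_DB {f : E3 → ℝ} (hf : ContDiff ℝ ∞ f) {k : ℕ} (hk : 1 ≤ k) {n : ℕ} {K : ℝ} (h : DB n K f) :
    DB n (2 * K) (avk k f) := by
  induction n generalizing f k with
  | zero => exact avk_BL hf.continuous hk h
  | succ n ih =>
    refine ⟨avk_BL hf.continuous hk h.1, fun i => ?_⟩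
    by_cases hi : i = 2
    · subst hi
      rw [avk_pd_two hf]
      exact ih (pd_smooth hf 2) hk (h.2 2)
    · rw [avk_pd_hor hf k hi]
      exact ih (pd_smooth hf i) (by omega) (h.2 i)

end Pool.Agent.H87.NS
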