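import Pool.Agent.H87.NS.Defs

/-! Tori. -/

set_option autoImplicit false

open Set Filter Topology MeasureTheory
open scoped ContDiff

namespace Pool.Agent.H87.NS

open Pool.Agent.H16

/-- The solid torus (with square section) of radius `R` and half-width `ρ`. -/
def Dt (R ρ : ℝ) : Set E3 := {x | |rad x - R| ≤ ρ ∧ |x 2| ≤ ρ}

/-- `∑ |∂_i v|²`. -/
noncomputable def dsq (v : E3 → E3) (x : E3) : ℝ := ∑ i, ‖fderiv ℝ v x (e i)‖ ^ 2

end Pool.Agent.H87.NS
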