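/-
ROW Cut. The cut-off. PROOF. Let `s(x) = (rsq x - R²)² / R² + (x 2)²`, `χ(x) = Real.smoothTransition (s x / L² - 1)`; `4 ≤ L`, `2 L ≤ R / 2`.
With `r = rad x`, `(rsq x - R²)² / R² = (r - R)² (r + R)² / R² ≥ (r - R)²`, so `s ≥ (r-R)² + (x 2)²`; if `r ≤ 3 R / 2` then `|rsq x - R²| ≤ √s R` and
`s ≤ (25/4) ((r-R)² + (x 2)²)`. `χ = 0` where `s ≤ L²`, `χ = 1` where `s ≥ 2 L²`. If `(r-R)² + (x 2)² ≤ 1` then `r ≤ R + 1 ≤ 3R/2`, `s ≤ 25/4 ≤ L²`: `χ = 0`.
If `x ∉ Dt R (2L)` then `(r-R)² + (x 2)² > 4 L² > 2 L²`, `s > 2 L²`: `χ = 1`; also `χ = 1` on the open set `{s > 2 L²}`, which contains the complement of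
`Dt R (2L)`; all derivatives of `χ` vanish there. If `s ≤ 2 L²` then `|r - R| ≤ √2 L ≤ R / 2`, so `R/2 ≤ r ≤ 3R/2` (hence `near`: `rsq x < R²/4` implies
`s > 2L²`; `far`: `Dt R (2L)` is bounded). Derivatives: `∂_i s = 4 (rsq - R²) x_i / R²` for `i = 0, 1` (`|.| ≤ 4 √s R r / R² ≤ 6 √s ≤ 9 L`), `∂_2 s = 2 x₂` (`|.| ≤ 3 L`),
`lap s = (8 rsq + 8 (rsq - R²)) / R² + 2` (`|.| ≤ 40`), `rdr s = 4 (rsq - R²) rsq / R²`, `(2/rsq) rdr s = 8 (rsq - R²) / R²` (`|.| ≤ 8 √s / R ≤ 12 L / R`). Chain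
rule with `θ = Real.smoothTransition` (`θ', θ''` bounded by a constant `C₁`: they are continuous and vanish outside `[0, 1]`):
`pd i χ = θ' ∂_i s / L²`, `lap χ = θ'' gsq s / L⁴ + θ' lap s / L²`, `(2/rsq) rdr χ = θ' (2/rsq) rdr s / L²`.
-/
import Pool.Agent.H87.NS.TDefs
import Pool.Agent.H87.NS.IBP

set_option autoImplicit false

open Set Filter Topology MeasureTheory
open scoped ContDiff

namespace Pool.Agent.H87.NS

open Pool.Agent.H16

/-- the one-variable profile -/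
private noncomputable def Cut_H (L y : ℝ) : ℝ := Real.smoothTransition (y / L ^ 2 - 1)

/-- the phase -/
private noncomputable def Cut_s (R : ℝ) (x : E3) : ℝ := (rsq x - R ^ 2) ^ 2 / R ^ 2 + x 2 ^ 2

private theorem Cut_bd : ∃ C : ℝ, 1 ≤ C ∧ (∀ y, |deriv Real.smoothTransition y| ≤ C) ∧
    (∀ y, |deriv (deriv Real.smoothTransition) y| ≤ C) ∧
    (∀ y, 1 < y → deriv Real.smoothTransition y = 0 ∧ deriv (deriv Real.smoothTransition) y = 0) ∧
    (∀ y, y < 0 → deriv Real.smoothTransition y = 0 ∧ deriv (deriv Real.smoothTransition) y = 0) := by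
  have hs : ContDiff ℝ ∞ Real.smoothTransition := Real.smoothTransition.contDiff
  have hs1 : ContDiff ℝ ∞ (deriv Real.smoothTransition) := (contDiff_infty_iff_deriv.1 hs).2
  have hs2 : ContDiff ℝ ∞ (deriv (deriv Real.smoothTransition)) := (contDiff_infty_iff_deriv.1 hs1).2
  have h1 : ∀ y : ℝ, 1 < y → deriv Real.smoothTransition y = 0 ∧ deriv (deriv Real.smoothTransition) y = 0 := by
    intro y hy
    have e1 : Real.smoothTransition =ᶠ[𝓝 y] fun _ => 1 := by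
      filter_upwards [lt_mem_nhds hy] with z hz
      exact Real.smoothTransition.one_of_one_le hz.le
    have e2 := e1.deriv
    have e3 : deriv Real.smoothTransition =ᶠ[𝓝 y] fun _ => 0 := by
      filter_upwards [e2] with z hz
      rw [hz]
      simp
    refine ⟨e3.eq_of_nhds, ?_⟩
    rw [e3.deriv_eq]
    simp
  have h0 : ∀ y : ℝ, y < 0 → deriv Real.smoothTransition y = 0 ∧ deriv (deriv Real.smoothTransition) y = 0 := by
    intro y hy
    have e1 : Real.smoothTransition =ᶠ[𝓝 y] fun _ => 0 := by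
      filter_upwards [gt_mem_nhds hy] with z hz
      exact Real.smoothTransition.zero_of_nonpos (le_of_lt hz)
    have e2 := e1.deriv
    have e3 : deriv Real.smoothTransition =ᶠ[𝓝 y] fun _ => 0 := by
      filter_upwards [e2] with z hz
      rw [hz]
      simp
    refine ⟨e3.eq_of_nhds, ?_⟩
    rw [e3.deriv_eq]
    simp
  obtain ⟨A, hA⟩ := isCompact_Icc.exists_bound_of_continuousOn (s := Icc (0:ℝ) 1) hs1.continuous.continuousOn
  obtain ⟨B, hB⟩ := isCompact_Icc.exists_bound_of_continuousOn (s := Icc (0:ℝ) 1) hs2.continuous.continuousOn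
  have hC0 : (0:ℝ) ≤ max 1 (max A B) := zero_le_one.trans (le_max_left _ _)
  refine ⟨max 1 (max A B), le_max_left _ _, fun y => ?_, fun y => ?_, h1, h0⟩
  · rcases lt_or_ge y 0 with hy | hy
    · rw [(h0 y hy).1, abs_zero]
      exact hC0
    · rcases lt_or_ge 1 y with hy' | hy'
      · rw [(h1 y hy').1, abs_zero]
        exact hC0
      · exact (hA y ⟨hy, hy'⟩).trans ((le_max_left _ _).trans (le_max_right _ _))
  · rcases lt_or_ge y 0 with hy | hy
    · rw [(h0 y hy).2, abs_zero]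
      exact hC0
    · rcases lt_or_ge 1 y with hy' | hy'
      · rw [(h1 y hy').2, abs_zero]
        exact hC0
      · exact (hB y ⟨hy, hy'⟩).trans ((le_max_right _ _).trans (le_max_right _ _))

private theorem Cut_H_smooth (L : ℝ) : ContDiff ℝ ∞ (Cut_H L) := by
  unfold Cut_H
  exact Real.smoothTransition.contDiff.comp ((contDiff_id.div_const _).sub contDiff_const)

private theorem Cut_dH (L : ℝ) : deriv (Cut_H L) = fun y => deriv Real.smoothTransition (y / L ^ 2 - 1) / L ^ 2 := by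
  funext y
  have h1 : HasDerivAt (fun y : ℝ => y / L ^ 2 - 1) (1 / L ^ 2) y := by
    simpa using ((hasDerivAt_id y).div_const (L ^ 2)).sub_const 1
  have h2 : HasDerivAt Real.smoothTransition (deriv Real.smoothTransition (y / L ^ 2 - 1)) (y / L ^ 2 - 1) :=
    ((Real.smoothTransition.contDiff (n := 1)).differentiable (by norm_num) _).hasDerivAt
  have h3 := h2.comp y h1
  have h4 : HasDerivAt (Cut_H L) (deriv Real.smoothTransition (y / L ^ 2 - 1) * (1 / L ^ 2)) y := h3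
  rw [h4.deriv]
  ring

private theorem Cut_ddH (L y : ℝ) : deriv (deriv (Cut_H L)) y =
    deriv (deriv Real.smoothTransition) (y / L ^ 2 - 1) / L ^ 4 := by
  rw [Cut_dH]
  have h1 : HasDerivAt (fun y : ℝ => y / L ^ 2 - 1) (1 / L ^ 2) y := by
    simpa using ((hasDerivAt_id y).div_const (L ^ 2)).sub_const 1
  have hs : ContDiff ℝ ∞ Real.smoothTransition := Real.smoothTransition.contDiff
  have hs1 : ContDiff ℝ ∞ (deriv Real.smoothTransition) := (contDiff_infty_iff_deriv.1 hs).2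
  have h2 : HasDerivAt (deriv Real.smoothTransition) (deriv (deriv Real.smoothTransition) (y / L ^ 2 - 1)) (y / L ^ 2 - 1) :=
    (hs1.differentiable (by simp) _).hasDerivAt
  have h3 := (h2.comp y h1).div_const (L ^ 2)
  have h4 : HasDerivAt (fun y => deriv Real.smoothTransition (y / L ^ 2 - 1) / L ^ 2)
    (deriv (deriv Real.smoothTransition) (y / L ^ 2 - 1) * (1 / L ^ 2) / L ^ 2) y := h3
  rw [h4.deriv, mul_one_div, div_div, ← pow_add]

private theorem Cut_coord (j : Fin 3) : ContDiff ℝ ∞ (fun x : E3 => x j) := by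
  fun_prop

private theorem Cut_s_smooth (R : ℝ) : ContDiff ℝ ∞ (Cut_s R) := by
  unfold Cut_s rsq
  exact ((((Cut_coord 0).pow 2).add ((Cut_coord 1).pow 2)).sub contDiff_const |>.pow 2 |>.div_const _).add ((Cut_coord 2).pow 2)

private theorem Cut_pd {f : E3 → ℝ} (hf : ContDiff ℝ ∞ f) {x : E3} {i : Fin 3} {a : ℝ}
    (h : HasDerivAt (fun t : ℝ => f (x + t • e i)) a 0) : pd i f x = a := by
  have h1 : DifferentiableAt ℝ f x := hf.differentiable (by simp) x
  unfold pd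
  rw [← h1.lineDeriv_eq_fderiv, lineDeriv]
  exact h.deriv

private theorem Cut_line (x : E3) (i j : Fin 3) (t : ℝ) :
    HasDerivAt (fun t : ℝ => (x + t • e i) j) (e i j) t := by
  have h1 : (fun t : ℝ => (x + t • e i) j) = fun t : ℝ => x j + t * e i j := by
    funext t
    simp
  rw [h1]
  simpa using ((hasDerivAt_id t).mul_const (e i j)).const_add (x j)

private theorem Cut_pds (R : ℝ) (i : Fin 3) : pd i (Cut_s R) = fun x =>
    4 * (rsq x - R ^ 2) * (x 0 * e i 0 + x 1 * e i 1) / R ^ 2 + 2 * x 2 * e i 2 := by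
  funext x
  refine Cut_pd (Cut_s_smooth R) ?_
  have h0 := (Cut_line x i 0 0).pow 2
  have h1 := (Cut_line x i 1 0).pow 2
  have h2 := (Cut_line x i 2 0).pow 2
  have h3 := ((((h0.add h1).sub_const (R ^ 2)).pow 2).div_const (R ^ 2)).add h2
  have h7 : HasDerivAt (fun t : ℝ => Cut_s R (x + t • e i)) _ 0 := h3
  convert h7 using 1
  simp [rsq]
  ring

private theorem Cut_pds_smooth (R : ℝ) (i : Fin 3) : ContDiff ℝ ∞ (pd i (Cut_s R)) := pd_smooth (Cut_s_smooth R) i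

private theorem Cut_pdds (R : ℝ) (i : Fin 3) (x : E3) : pd i (pd i (Cut_s R)) x =
    8 * (x 0 * e i 0 + x 1 * e i 1) ^ 2 / R ^ 2 + 4 * (rsq x - R ^ 2) * (e i 0 ^ 2 + e i 1 ^ 2) / R ^ 2 + 2 * e i 2 ^ 2 := by
  refine Cut_pd (Cut_pds_smooth R i) ?_
  rw [Cut_pds]
  have g0 := Cut_line x i 0 0
  have g1 := Cut_line x i 1 0
  have g2 := Cut_line x i 2 0
  have h0 := g0.pow 2
  have h1 := g1.pow 2
  have h4 := ((h0.add h1).sub_const (R ^ 2)).const_mul 4
  have h5 := (g0.mul_const (e i 0)).add (g1.mul_const (e i 1))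
  have h6 := ((h4.mul h5).div_const (R ^ 2)).add ((g2.const_mul 2).mul_const (e i 2))
  have h7 : HasDerivAt (fun t : ℝ => 4 * (rsq (x + t • e i) - R ^ 2) *
    ((x + t • e i) 0 * e i 0 + (x + t • e i) 1 * e i 1) / R ^ 2 + 2 * (x + t • e i) 2 * e i 2) _ 0 := h6
  convert h7 using 1
  simp [rsq]
  ring

private theorem Cut_chi_pd (R L : ℝ) (i : Fin 3) (x : E3) :
    pd i (fun y => Cut_H L (Cut_s R y)) x = deriv (Cut_H L) (Cut_s R x) * pd i (Cut_s R) x :=
  comp_pd ((Cut_s_smooth R).of_le (by simp)) ((Cut_H_smooth L).of_le (by simp)) i x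

private theorem Cut_e (i j : Fin 3) : e i j = if j = i then 1 else 0 := by
  simp [e_apply, eq_comm]

private theorem Cut_rdr (R : ℝ) (x : E3) : rdr (Cut_s R) x = 4 * (rsq x - R ^ 2) * rsq x / R ^ 2 := by
  unfold rdr
  rw [Cut_pds, Cut_pds]
  simp only [Cut_e]
  simp [rsq]
  ring

private theorem Cut_gsq (R : ℝ) (x : E3) : gsq (Cut_s R) x = 16 * ((rsq x - R ^ 2) / R) ^ 2 * (rsq x / R ^ 2) + 4 * x 2 ^ 2 := by
  unfold gsq
  rw [Fin.sum_univ_three, Cut_pds, Cut_pds, Cut_pds]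
  simp only [Cut_e]
  simp [rsq]
  ring

private theorem Cut_lap (R : ℝ) (x : E3) : lap (Cut_s R) x = (8 * rsq x + 8 * (rsq x - R ^ 2)) / R ^ 2 + 2 := by
  unfold lap
  rw [Fin.sum_univ_three, Cut_pdds, Cut_pdds, Cut_pdds]
  simp only [Cut_e]
  simp [rsq]
  ring

private theorem Cut_chi_rdr (R L : ℝ) (x : E3) :
    rdr (fun y => Cut_H L (Cut_s R y)) x = deriv (Cut_H L) (Cut_s R x) * rdr (Cut_s R) x := by
  unfold rdr
  rw [Cut_chi_pd, Cut_chi_pd]
  ring

private theorem Cut_chi_adv (R L : ℝ) (w x : E3) :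
    adv w (fun y => Cut_H L (Cut_s R y)) x = deriv (Cut_H L) (Cut_s R x) * adv w (Cut_s R) x := by
  unfold adv
  rw [Finset.mul_sum]
  refine Finset.sum_congr rfl fun i _ => ?_
  rw [Cut_chi_pd]
  ring

private theorem Cut_chi_lap (R L : ℝ) (x : E3) :
    lap (fun y => Cut_H L (Cut_s R y)) x = deriv (deriv (Cut_H L)) (Cut_s R x) * gsq (Cut_s R) x +
      deriv (Cut_H L) (Cut_s R x) * lap (Cut_s R) x := by
  unfold lap gsq
  rw [Finset.mul_sum, Finset.mul_sum, ← Finset.sum_add_distrib]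
  refine Finset.sum_congr rfl fun i _ => ?_
  have h1 : pd i (fun y => Cut_H L (Cut_s R y)) = fun y => deriv (Cut_H L) (Cut_s R y) * pd i (Cut_s R) y := by
    funext y
    exact Cut_chi_pd R L i y
  rw [h1]
  have hs := Cut_s_smooth R
  have hH1 : ContDiff ℝ ∞ (deriv (Cut_H L)) := (contDiff_infty_iff_deriv.1 (Cut_H_smooth L)).2
  have e1 : HasFDerivAt (fun y => deriv (Cut_H L) (Cut_s R y)) (fderiv ℝ (fun y => deriv (Cut_H L) (Cut_s R y)) x) x :=
    ((hH1.comp hs).differentiable (by simp) x).hasFDerivAt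
  have e2 : HasFDerivAt (pd i (Cut_s R)) (fderiv ℝ (pd i (Cut_s R)) x) x :=
    ((Cut_pds_smooth R i).differentiable (by simp) x).hasFDerivAt
  have e3 := (e1.mul e2).fderiv
  have e4 : pd i (fun y => deriv (Cut_H L) (Cut_s R y) * pd i (Cut_s R) y) x =
      deriv (Cut_H L) (Cut_s R x) * pd i (pd i (Cut_s R)) x + pd i (Cut_s R) x * pd i (fun y => deriv (Cut_H L) (Cut_s R y)) x := by
    unfold pd at e3 ⊢
    have e5 : (fun y => deriv (Cut_H L) (Cut_s R y) * (fderiv ℝ (Cut_s R) y) (e i)) =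
      ((fun y => deriv (Cut_H L) (Cut_s R y)) * fun x => (fderiv ℝ (Cut_s R) x) (e i)) := rfl
    rw [e5, e3]
    simp
  rw [e4, comp_pd (hs.of_le (by simp)) (hH1.of_le (by simp)) i x]
  ring

private theorem Cut_adv (w : E3) (f : E3 → ℝ) (x : E3) : |adv w f x| ≤ ‖w‖ * √(gsq f x) := by
  apply abs_le_of_sq_le_sq _ (by positivity)
  rw [mul_pow, Real.sq_sqrt (gsq_nonneg f x), norm_sq_eq]
  unfold adv gsq
  simp only [Fin.sum_univ_three]
  nlinarith [sq_nonneg (w 0 * pd 1 f x - w 1 * pd 0 f x), sq_nonneg (w 0 * pd 2 f x - w 2 * pd 0 f x),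
    sq_nonneg (w 1 * pd 2 f x - w 2 * pd 1 f x)]

/-- bounds in the region where the profile is not constant -/
private theorem Cut_reg {R L : ℝ} (hL : 4 ≤ L) (hR : 2 * L ≤ R / 2) {x : E3} (hs : Cut_s R x ≤ 2 * L ^ 2) :
    gsq (Cut_s R) x ≤ 72 * L ^ 2 ∧ |lap (Cut_s R) x| ≤ 28 ∧ |2 / rsq x * rdr (Cut_s R) x| ≤ 12 * (L / R) ∧
      R ^ 2 / 4 ≤ rsq x ∧ rsq x ≤ 2 * R ^ 2 ∧ x 2 ^ 2 ≤ 2 * L ^ 2 := by
  have hR0 : 0 < R := by linarith
  have hL0 : 0 < L := by linarith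
  set m := (rsq x - R ^ 2) / R with hm
  have hr0 : 0 ≤ rsq x := by unfold rsq; positivity
  have hs' : m ^ 2 + x 2 ^ 2 ≤ 2 * L ^ 2 := by
    unfold Cut_s at hs
    rw [hm, div_pow]
    exact hs
  have hm2 : m ^ 2 ≤ 2 * L ^ 2 := by nlinarith [sq_nonneg (x 2)]
  have hx2 : x 2 ^ 2 ≤ 2 * L ^ 2 := by nlinarith [sq_nonneg m]
  have hmabs : |m| ≤ 3 / 2 * L := by
    apply abs_le_of_sq_le_sq _ (by positivity)
    nlinarith
  have hm3 := abs_le.mp hmabs
  have hrs : rsq x = R ^ 2 + m * R := by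
    rw [hm]
    field_simp
    ring
  have hup : rsq x ≤ 2 * R ^ 2 := by
    rw [hrs]
    nlinarith
  have hlow : R ^ 2 / 4 ≤ rsq x := by
    rw [hrs]
    nlinarith
  have hRsq : 0 < R ^ 2 := by positivity
  have hq0 : 0 ≤ rsq x / R ^ 2 := by positivity
  have hq : rsq x / R ^ 2 ≤ 2 := by
    rw [div_le_iff₀ hRsq]
    exact hup
  have hmR : |m / R| ≤ 3 / 2 * (L / R) := by
    rw [abs_div, abs_of_pos hR0, div_le_iff₀ hR0]
    calc |m| ≤ 3 / 2 * L := hmabs
      _ = 3 / 2 * (L / R) * R := by field_simp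
  have hLR : L / R ≤ 1 / 4 := by
    rw [div_le_iff₀ hR0]
    linarith
  have hdiv : (rsq x - R ^ 2) / R ^ 2 = m / R := by
    rw [hm]
    field_simp
  refine ⟨?_, ?_, ?_, hlow, hup, hx2⟩
  · rw [Cut_gsq, ← hm]
    have h1 : m ^ 2 * (rsq x / R ^ 2) ≤ 2 * L ^ 2 * 2 := mul_le_mul hm2 hq hq0 (by positivity)
    nlinarith
  · rw [Cut_lap]
    have h1 : (8 * rsq x + 8 * (rsq x - R ^ 2)) / R ^ 2 = 8 * (rsq x / R ^ 2) + 8 * (m / R) := by
      rw [← hdiv]
      ring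
    rw [h1, abs_le]
    have h2 := abs_le.mp hmR
    constructor <;> linarith [h2.1, h2.2]
  · rw [Cut_rdr]
    have h0 : rsq x ≠ 0 := by
      have : 0 < rsq x := by nlinarith
      exact this.ne'
    have h1 : 2 / rsq x * (4 * (rsq x - R ^ 2) * rsq x / R ^ 2) = 8 * ((rsq x - R ^ 2) / R ^ 2) := by
      field_simp
      ring
    rw [h1, hdiv, abs_mul, abs_of_pos (by norm_num : (0:ℝ) < 8)]
    linarith

private theorem Cut_low {R : ℝ} (hR : 0 < R) (x : E3) : (rad x - R) ^ 2 + x 2 ^ 2 ≤ Cut_s R x := by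
  unfold Cut_s
  have h1 : (rad x - R) ^ 2 ≤ (rsq x - R ^ 2) ^ 2 / R ^ 2 := by
    rw [le_div_iff₀ (by positivity), ← rad_sq' x]
    have h2 := rad_nonneg x
    have h3 : (rad x ^ 2 - R ^ 2) ^ 2 = (rad x - R) ^ 2 * (rad x + R) ^ 2 := by ring
    rw [h3]
    refine mul_le_mul_of_nonneg_left ?_ (sq_nonneg _)
    nlinarith
  linarith

private theorem Cut_up {R : ℝ} (hR : 0 < R) {x : E3} (h : rad x ≤ 3 / 2 * R) :
    Cut_s R x ≤ 25 / 4 * ((rad x - R) ^ 2 + x 2 ^ 2) := by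
  unfold Cut_s
  have h1 : (rsq x - R ^ 2) ^ 2 / R ^ 2 ≤ 25 / 4 * (rad x - R) ^ 2 := by
    rw [div_le_iff₀ (by positivity), ← rad_sq' x]
    have h2 := rad_nonneg x
    have h3 : (rad x ^ 2 - R ^ 2) ^ 2 = (rad x - R) ^ 2 * (rad x + R) ^ 2 := by ring
    rw [h3]
    have h4 : (rad x + R) ^ 2 ≤ 25 / 4 * R ^ 2 := by nlinarith
    calc (rad x - R) ^ 2 * (rad x + R) ^ 2 ≤ (rad x - R) ^ 2 * (25 / 4 * R ^ 2) :=
          mul_le_mul_of_nonneg_left h4 (sq_nonneg _)
      _ = _ := by ring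
  nlinarith [sq_nonneg (x 2)]

theorem cutoff : ∃ C : ℝ, 0 < C ∧ ∀ R L : ℝ, 4 ≤ L → 2 * L ≤ R / 2 → ∃ χ : E3 → ℝ, Wt χ ∧
    (∀ x, (rad x - R) ^ 2 + x 2 ^ 2 ≤ 1 → χ x = 0) ∧
    (∀ x, x ∉ Dt R (2 * L) → χ x = 1 ∧ lap χ x = 0 ∧ rdr χ x = 0 ∧ ∀ w, adv w χ x = 0) ∧
    (∀ x w, |adv w χ x| ≤ C / L * ‖w‖) ∧ (∀ x, |lap χ x| ≤ C / L ^ 2) ∧
    (∀ x, |2 / rsq x * rdr χ x| ≤ C / (L * R)) := by
  obtain ⟨C₁, hC1, hb1, hb2, hv1, hv0⟩ := Cut_bd
  refine ⟨100 * C₁, by linarith, fun R L hL hR => ?_⟩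
  have hR0 : 0 < R := by linarith
  have hL0 : 0 < L := by linarith
  have hL2 : 0 < L ^ 2 := by positivity
  have hL4 : 0 < L ^ 4 := by positivity
  -- the derivatives of the profile
  have hout : ∀ x, 2 * L ^ 2 < Cut_s R x →
      deriv (Cut_H L) (Cut_s R x) = 0 ∧ deriv (deriv (Cut_H L)) (Cut_s R x) = 0 := by
    intro x hx
    have h1 : 1 < Cut_s R x / L ^ 2 - 1 := by
      rw [lt_sub_iff_add_lt, lt_div_iff₀ hL2]
      linarith
    rw [Cut_ddH, Cut_dH]
    simp only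
    rw [(hv1 _ h1).1, (hv1 _ h1).2]
    simp
  have hd1 : ∀ y, |deriv (Cut_H L) y| ≤ C₁ / L ^ 2 := by
    intro y
    rw [Cut_dH]
    simp only
    rw [abs_div, abs_of_pos hL2]
    exact div_le_div_of_nonneg_right (hb1 _) hL2.le
  have hd2 : ∀ y, |deriv (deriv (Cut_H L)) y| ≤ C₁ / L ^ 4 := by
    intro y
    rw [Cut_ddH, abs_div, abs_of_pos hL4]
    exact div_le_div_of_nonneg_right (hb2 _) hL4.le
  have hfd : ∀ x, deriv (Cut_H L) (Cut_s R x) = 0 → fderiv ℝ (fun y => Cut_H L (Cut_s R y)) x = 0 := by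
    intro x hx
    have h1 : HasFDerivAt (Cut_H L ∘ Cut_s R) (deriv (Cut_H L) (Cut_s R x) • fderiv ℝ (Cut_s R) x) x :=
      HasDerivAt.comp_hasFDerivAt x ((Cut_H_smooth L).differentiable (by simp) (Cut_s R x)).hasDerivAt
        ((Cut_s_smooth R).differentiable (by simp) x).hasFDerivAt
    have h2 := h1.fderiv
    rw [hx, zero_smul] at h2
    exact h2
  refine ⟨fun y => Cut_H L (Cut_s R y), ⟨(Cut_H_smooth L).comp (Cut_s_smooth R), fun x => Real.smoothTransition.nonneg _,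
    fun x => Real.smoothTransition.le_one _, ⟨R ^ 2 / 4, by positivity, fun x hx => ?_⟩,
    ⟨2 * (R + L), fun x hx => ?_⟩⟩, fun x hx => ?_, fun x hx => ?_, fun x w => ?_, fun x => ?_, fun x => ?_⟩
  · refine hfd x (hout x ?_).1
    by_contra hcon
    have h1 := (Cut_reg hL hR (not_lt.mp hcon)).2.2.2.1
    linarith
  · refine hfd x (hout x ?_).1
    by_contra hcon
    obtain ⟨-, -, -, -, h1, h2⟩ := Cut_reg hL hR (not_lt.mp hcon)
    have h3 := norm_sq_eq x
    have h4 : (2 * (R + L)) ^ 2 < ‖x‖ ^ 2 := by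
      have : 0 ≤ 2 * (R + L) := by positivity
      exact pow_lt_pow_left₀ hx this two_ne_zero
    unfold rsq at h1
    nlinarith
  · have h1 : rad x ≤ 3 / 2 * R := by
      have h2 : (rad x - R) ^ 2 ≤ 1 := by nlinarith [sq_nonneg (x 2)]
      have h3 : rad x - R ≤ 1 := by nlinarith
      linarith
    have h2 := Cut_up hR0 h1
    refine Real.smoothTransition.zero_of_nonpos ?_
    rw [sub_nonpos, div_le_one hL2]
    nlinarith
  · have h1 := Cut_low hR0 x
    have h2 : 4 * L ^ 2 < (rad x - R) ^ 2 + x 2 ^ 2 := by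
      unfold Dt at hx
      simp only [mem_setOf_eq, not_and_or, not_le] at hx
      rcases hx with hx | hx
      · have h3 : (2 * L) ^ 2 < |rad x - R| ^ 2 := pow_lt_pow_left₀ hx (by positivity) two_ne_zero
        rw [sq_abs] at h3
        nlinarith [sq_nonneg (x 2)]
      · have h3 : (2 * L) ^ 2 < |x 2| ^ 2 := pow_lt_pow_left₀ hx (by positivity) two_ne_zero
        rw [sq_abs] at h3
        nlinarith [sq_nonneg (rad x - R)]
    have h3 : 2 * L ^ 2 < Cut_s R x := by linarith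
    obtain ⟨h4, h5⟩ := hout x h3
    refine ⟨?_, ?_, ?_, fun w => ?_⟩
    · refine Real.smoothTransition.one_of_one_le ?_
      rw [le_sub_iff_add_le, le_div_iff₀ hL2]
      linarith
    · rw [Cut_chi_lap, h4, h5]
      simp
    · rw [Cut_chi_rdr, h4]
      simp
    · rw [Cut_chi_adv, h4]
      simp
  · rw [Cut_chi_adv]
    rcases lt_or_ge (2 * L ^ 2) (Cut_s R x) with h | h
    · rw [(hout x h).1, zero_mul, abs_zero]
      positivity
    · obtain ⟨h1, -⟩ := Cut_reg hL hR h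
      rw [abs_mul]
      have h2 : √(gsq (Cut_s R) x) ≤ 9 * L := by
        rw [Real.sqrt_le_left (by positivity)]
        nlinarith
      have h3 := Cut_adv w (Cut_s R) x
      have h4 : |adv w (Cut_s R) x| ≤ ‖w‖ * (9 * L) := h3.trans (mul_le_mul_of_nonneg_left h2 (norm_nonneg w))
      calc |deriv (Cut_H L) (Cut_s R x)| * |adv w (Cut_s R) x| ≤ C₁ / L ^ 2 * (‖w‖ * (9 * L)) :=
            mul_le_mul (hd1 _) h4 (abs_nonneg _) (by positivity)
        _ = 9 * C₁ / L * ‖w‖ := by field_simp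
        _ ≤ 100 * C₁ / L * ‖w‖ := by gcongr; norm_num
  · rw [Cut_chi_lap]
    rcases lt_or_ge (2 * L ^ 2) (Cut_s R x) with h | h
    · rw [(hout x h).1, (hout x h).2, zero_mul, zero_mul, add_zero, abs_zero]
      positivity
    · obtain ⟨h1, h2, -⟩ := Cut_reg hL hR h
      refine (abs_add_le _ _).trans ?_
      rw [abs_mul, abs_mul, abs_of_nonneg (gsq_nonneg (Cut_s R) x)]
      calc |deriv (deriv (Cut_H L)) (Cut_s R x)| * gsq (Cut_s R) x + |deriv (Cut_H L) (Cut_s R x)| * |lap (Cut_s R) x| ≤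
          C₁ / L ^ 4 * (72 * L ^ 2) + C₁ / L ^ 2 * 28 :=
            add_le_add (mul_le_mul (hd2 _) h1 (gsq_nonneg _ _) (by positivity))
              (mul_le_mul (hd1 _) h2 (abs_nonneg _) (by positivity))
        _ = 100 * C₁ / L ^ 2 := by field_simp; ring
  · rw [Cut_chi_rdr]
    rcases lt_or_ge (2 * L ^ 2) (Cut_s R x) with h | h
    · rw [(hout x h).1, zero_mul, mul_zero, abs_zero]
      positivity
    · obtain ⟨-, -, h3, -⟩ := Cut_reg hL hR h
      have e1 : 2 / rsq x * (deriv (Cut_H L) (Cut_s R x) * rdr (Cut_s R) x) =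
          deriv (Cut_H L) (Cut_s R x) * (2 / rsq x * rdr (Cut_s R) x) := by ring
      rw [e1, abs_mul]
      calc |deriv (Cut_H L) (Cut_s R x)| * |2 / rsq x * rdr (Cut_s R) x| ≤ C₁ / L ^ 2 * (12 * (L / R)) :=
            mul_le_mul (hd1 _) h3 (abs_nonneg _) (by positivity)
        _ = 12 * C₁ / (L * R) := by field_simp
        _ ≤ 100 * C₁ / (L * R) := by gcongr; norm_num

end Pool.Agent.H87.NS
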