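/-
ROW EV. The energy inequality on the whole space, with a weight. PROOF. Let `φ : ℝ → ℝ` be smooth, `φ = 1` on `(-∞, 1]`, `φ = 0` on
`[2, ∞)`, `0 ≤ φ ≤ 1`, `|φ'| ≤ C₁`. `φ_n(x) = φ(‖x‖² / R²)`, `R = n + 1`: smooth, compact support, `→ 1` pointwise,
`pd i φ_n = φ'(‖x‖²/R²) 2 x_i / R²`, so `|pd i φ_n| ≤ C₁ 2 √2 R / R² ≤ C₂ / R`, `rdr φ_n = φ' 2 rsq / R²`, `|(2/rsq) rdr φ_n| ≤ 4 C₁ / R²`.
Use ev_axis with `ψ = χ φ_n`: `|rdr ψ| ≤ C rsq` (near the axis `rdr χ = 0`; if `rsq ≥ ε`, `|rdr χ|` is bounded by a constant `≤ (const/ε) rsq`, `∇χ` being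
continuous with bounded support). Pointwise
`evI ψ = φ_n [ - j'' gsq f χ + j' G χ - j' ∑ pd i f pd i χ + j(f) (adv u χ - (2/rsq) rdr χ) ] + E_n`,
`|E_n| ≤ (C₃ / R) (|j'(f)| √(gsq f) + j(f) (‖u‖ + 1))`, whose integral over `x` is `≤ C₄ / R` for all `t ∈ [a, b]` (`|j'(f)| ≤ C |f|`, `j(f) ≤ C f²`,
`f, √gsq f` square integrable with bounds uniform in `t`, `u` bounded: Evo.bd, Drift.bd, jfun_bd). Let `n → ∞`: `∫ j(f b) χ φ_n → ∫ j(f b) χ` and
`∫ j(f a) χ φ_n → ∫ j(f a) χ` (dominated convergence), and the time integral converges by ti_tail, to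
`∫_a^b ∫ [ - j'' gsq f χ + j' G χ - j' ∑ pd i f pd i χ + j(f) (adv u χ - (2/rsq) rdr χ) ]`. Here `(2/rsq) rdr χ` is continuous (zero near the
axis). Finally for each `t`, `- ∫ j'(f) ∑ pd i f pd i χ = - ∑ ∫ pd i (j∘f) pd i χ = ∫ j(f) lap χ` (`pd i χ` is smooth with compact support).
ev1: `χ = 1` (a weight; `pd i 1 = 0`).
-/
import Pool.Agent.H87.NS.EVe
import Pool.Agent.H87.NS.EvInt

set_option autoImplicit false

open Set Filter Topology MeasureTheory
open scoped ContDiff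

namespace Pool.Agent.H87.NS

open Pool.Agent.H16

private theorem EV_axis_null : volume {x : E3 | rsq x = 0} = 0 := by
  have h : {x : E3 | rsq x = 0} ⊆ ⋃ n : ℕ, {x : E3 | rsq x ≤ 0 ∧ ‖x‖ ≤ n} := by
    intro x hx
    obtain ⟨n, hn⟩ := exists_nat_ge ‖x‖
    exact mem_iUnion.2 ⟨n, le_of_eq hx, hn⟩
  refine measure_mono_null h (measure_iUnion_null fun n => ?_)
  have h2 := vol_axis (δ := 0) (L := n) le_rfl (Nat.cast_nonneg n)
  simpa using h2

/-- a smooth step -/
private theorem EV_step : ∃ (g : ℝ → ℝ) (C : ℝ), ContDiff ℝ ∞ g ∧ (∀ s, 0 ≤ g s) ∧ (∀ s, g s ≤ 1) ∧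
    (∀ s ≤ 1, g s = 1) ∧ (∀ s, 2 ≤ s → g s = 0) ∧ (∀ s, |deriv g s| ≤ C) ∧
    (∀ s, 2 < s → deriv g s = 0) ∧ 0 ≤ C := by
  set g : ℝ → ℝ := fun s => Real.smoothTransition (2 - s) with hg
  have hs : ContDiff ℝ ∞ g := Real.smoothTransition.contDiff.comp (contDiff_const.sub contDiff_id)
  have h1 : ∀ s ≤ 1, g s = 1 := fun s h => Real.smoothTransition.one_of_one_le (by linarith)
  have h0 : ∀ s, 2 ≤ s → g s = 0 := fun s h => Real.smoothTransition.zero_of_nonpos (by linarith)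
  have d0 : ∀ s, 2 < s → deriv g s = 0 := by
    intro s h
    have e : g =ᶠ[𝓝 s] fun _ => 0 := by
      filter_upwards [lt_mem_nhds h] with y hy using h0 y hy.le
    rw [e.deriv_eq, deriv_const]
  have d1 : ∀ s, s < 1 → deriv g s = 0 := by
    intro s h
    have e : g =ᶠ[𝓝 s] fun _ => 1 := by
      filter_upwards [gt_mem_nhds h] with y hy using h1 y hy.le
    rw [e.deriv_eq, deriv_const]
  have hc : HasCompactSupport (deriv g) := by
    refine HasCompactSupport.intro (isCompact_Icc (a := (1 : ℝ)) (b := 2)) fun s hs => ?_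
    rw [mem_Icc, not_and_or, not_le, not_le] at hs
    rcases hs with h | h
    · exact d1 s h
    · exact d0 s h
  have hcont : Continuous (deriv g) := hs.continuous_deriv (by simp)
  obtain ⟨C, hC⟩ := hcont.bounded_above_of_compact_support hc
  exact ⟨g, C, hs, fun s => Real.smoothTransition.nonneg _, fun s => Real.smoothTransition.le_one _,
    h1, h0, fun s => by simpa using hC s, d0, (norm_nonneg _).trans (hC 0)⟩

private theorem EV_pd_nsq (c : ℝ) (i : Fin 3) (x : E3) :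
    pd i (fun y : E3 => c * ‖y‖ ^ 2) x = c * (2 * x i) := by
  have h := ((hasStrictFDerivAt_norm_sq x).hasFDerivAt).const_mul c
  unfold pd
  rw [h.fderiv]
  simp [e, EuclideanSpace.inner_single_right]

private theorem EV_coord_le (x : E3) (i : Fin 3) : |x i| ≤ ‖x‖ := by
  have h := PiLp.norm_apply_le x i
  simpa using h

/-- the cutoff functions -/
private theorem EV_cut : ∃ (φ q : ℕ → E3 → ℝ) (κ : ℕ → ℝ), (∀ n, ContDiff ℝ ∞ (φ n)) ∧
    (∀ n, HasCompactSupport (φ n)) ∧ (∀ n x, 0 ≤ φ n x) ∧ (∀ n x, φ n x ≤ 1) ∧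
    (∀ x, Tendsto (fun n => φ n x) atTop (𝓝 1)) ∧ (∀ n i x, |pd i (φ n) x| ≤ κ n) ∧
    (∀ n, Continuous (q n)) ∧ (∀ n x, |q n x| ≤ κ n) ∧
    (∀ n x, rdr (φ n) x = q n x / 2 * rsq x) ∧ Tendsto κ atTop (𝓝 0) := by
  obtain ⟨g, C, gs, g0, g1, gone, gzero, dC, dz, hC⟩ := EV_step
  set c : ℕ → ℝ := fun n => 1 / ((n : ℝ) + 1) with hc
  have cpos : ∀ n, 0 < c n := fun n => by positivity
  have cle : ∀ n, c n ≤ 1 := fun n => by
    rw [hc]
    simp only
    rw [div_le_one (by positivity)]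
    have : (0 : ℝ) ≤ n := Nat.cast_nonneg n
    linarith
  have dcont : Continuous (deriv g) := gs.continuous_deriv (by simp)
  have hpd : ∀ n i x, pd i (fun y : E3 => g (c n ^ 2 * ‖y‖ ^ 2)) x =
      deriv g (c n ^ 2 * ‖x‖ ^ 2) * (c n ^ 2 * (2 * x i)) := by
    intro n i x
    rw [comp_pd (f := fun y : E3 => c n ^ 2 * ‖y‖ ^ 2) (H := g)
      (contDiff_const.mul (contDiff_norm_sq ℝ)) (gs.of_le (by simp)) i x, EV_pd_nsq]
  refine ⟨fun n x => g (c n ^ 2 * ‖x‖ ^ 2), fun n x => 4 * c n ^ 2 * deriv g (c n ^ 2 * ‖x‖ ^ 2),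
    fun n => 4 * C * c n, fun n => ?_, fun n => ?_, fun n x => g0 _, fun n x => g1 _, fun x => ?_,
    fun n i x => ?_, fun n => ?_, fun n x => ?_, fun n x => ?_, ?_⟩
  · exact gs.comp (contDiff_const.mul (contDiff_norm_sq ℝ))
  · refine HasCompactSupport.intro (isCompact_closedBall (0 : E3) (2 / c n)) fun x hx => ?_
    rw [Metric.mem_closedBall, dist_zero_right, not_le, div_lt_iff₀ (cpos n)] at hx
    refine gzero _ ?_
    nlinarith
  · refine tendsto_const_nhds.congr' ?_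
    obtain ⟨N, hN⟩ := exists_nat_ge ‖x‖
    filter_upwards [eventually_ge_atTop N] with n hn
    have h1 : c n * ‖x‖ ≤ 1 := by
      rw [hc]
      simp only
      rw [div_mul_eq_mul_div, one_mul, div_le_one (by positivity)]
      have : (N : ℝ) ≤ n := by exact_mod_cast hn
      linarith
    refine (gone _ ?_).symm
    have h2 : 0 ≤ c n * ‖x‖ := mul_nonneg (cpos n).le (norm_nonneg _)
    nlinarith
  · rw [hpd, abs_mul]
    rcases lt_or_ge 2 (c n ^ 2 * ‖x‖ ^ 2) with h | h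
    · rw [dz _ h, abs_zero, zero_mul]
      have := cpos n
      positivity
    · have h1 : c n * ‖x‖ ≤ 2 := by
        have h2 : 0 ≤ c n * ‖x‖ := mul_nonneg (cpos n).le (norm_nonneg _)
        nlinarith
      have h3 : |c n ^ 2 * (2 * x i)| ≤ 4 * c n := by
        rw [abs_mul, abs_mul, abs_of_nonneg (by positivity : (0 : ℝ) ≤ c n ^ 2),
          abs_of_nonneg (by norm_num : (0 : ℝ) ≤ 2)]
        have h4 := EV_coord_le x i
        calc c n ^ 2 * (2 * |x i|) ≤ c n ^ 2 * (2 * ‖x‖) := by gcongr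
          _ = 2 * c n * (c n * ‖x‖) := by ring
          _ ≤ 2 * c n * 2 := by
            have := cpos n
            gcongr
          _ = 4 * c n := by ring
      calc |deriv g (c n ^ 2 * ‖x‖ ^ 2)| * |c n ^ 2 * (2 * x i)| ≤ C * (4 * c n) :=
            mul_le_mul (dC _) h3 (abs_nonneg _) hC
        _ = 4 * C * c n := by ring
  · exact continuous_const.mul (dcont.comp (by fun_prop))
  · rw [abs_mul, abs_of_nonneg (by positivity : (0 : ℝ) ≤ 4 * c n ^ 2)]
    have h1 : c n ^ 2 ≤ c n := by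
      have := cpos n
      have := cle n
      nlinarith
    calc 4 * c n ^ 2 * |deriv g (c n ^ 2 * ‖x‖ ^ 2)| ≤ 4 * c n * C := by
          have := cpos n
          exact mul_le_mul (by linarith) (dC _) (abs_nonneg _) (by positivity)
      _ = 4 * C * c n := by ring
  · unfold rdr rsq
    rw [hpd, hpd]
    ring
  · have h := (tendsto_one_div_add_atTop_nhds_zero_nat (𝕜 := ℝ)).const_mul (4 * C)
    rw [mul_zero] at h
    exact h

private theorem EV_BL {g : E3 → ℝ} (hg : Continuous g) (hc : HasCompactSupport g) :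
    ∃ K, BL K g := by
  obtain ⟨C, hC⟩ := hg.bounded_above_of_compact_support hc
  refine ⟨max C (∫ x, g x ^ 2), fun x => ?_, ?_, le_max_right _ _⟩
  · have h := hC x
    rw [Real.norm_eq_abs] at h
    exact h.trans (le_max_left _ _)
  · have h2 : HasCompactSupport (fun x => g x ^ 2) := by
      refine hc.mono fun x hx => ?_
      rw [Function.mem_support] at hx ⊢
      intro h
      exact hx (by rw [h]; norm_num)
    have h3 : Continuous (fun x => g x ^ 2) := hg.pow 2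
    exact h3.integrable_of_hasCompactSupport h2

private theorem EV_DB1 {g : E3 → ℝ} (hg : ContDiff ℝ ∞ g) (hc : HasCompactSupport g) :
    ∃ K, DB 1 K g := by
  obtain ⟨K0, h0⟩ := EV_BL hg.continuous hc
  have h1 : ∀ i, ∃ K, BL K (pd i g) := fun i =>
    EV_BL (pd_smooth hg i).continuous (hc.fderiv_apply (𝕜 := ℝ) (e i))
  choose K1 hK1 using h1
  have hn : ∀ i, 0 ≤ K1 i := fun i => BL_nonneg (hK1 i)
  refine ⟨K0 + ∑ i, K1 i, ?_, fun i => ?_⟩
  · exact BL_mono h0 (le_add_of_nonneg_right (Finset.sum_nonneg fun i _ => hn i))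
  · refine BL_mono (hK1 i) ?_
    have h2 := Finset.single_le_sum (fun i _ => hn i) (Finset.mem_univ i)
    have h3 := BL_nonneg h0
    linarith

private theorem EV_rsq_cont : Continuous (rsq : E3 → ℝ) := by
  unfold rsq
  fun_prop

private theorem EV_rdr_cont {f : E3 → ℝ} (hf : ContDiff ℝ ∞ f) : Continuous (rdr f) := by
  have h0 := (pd_smooth hf 0).continuous
  have h1 := (pd_smooth hf 1).continuous
  unfold rdr
  fun_prop

private theorem EV_rsq_nonneg (x : E3) : 0 ≤ rsq x := by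
  unfold rsq
  positivity

/-- facts about a weight -/
private theorem EV_wt {χ : E3 → ℝ} (hχ : Wt χ) : ∃ M : ℝ, 0 ≤ M ∧ (∀ i x, |pd i χ x| ≤ M) ∧
    (∀ x, |2 / rsq x * rdr χ x| ≤ M) ∧ (∀ x, |rdr χ x| ≤ M * rsq x) ∧
    Continuous (fun x => 2 / rsq x * rdr χ x) ∧ (∀ i, HasCompactSupport (pd i χ)) ∧
    (∀ x, |lap χ x| ≤ M) := by
  obtain ⟨ε, hε, hnear⟩ := hχ.near
  obtain ⟨L, hfar⟩ := hχ.far
  have hpn : ∀ i x, rsq x < ε → pd i χ x = 0 := fun i x h => by
    unfold pd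
    rw [hnear x h]
    rfl
  have hpf : ∀ i x, L < ‖x‖ → pd i χ x = 0 := fun i x h => by
    unfold pd
    rw [hfar x h]
    rfl
  have hcs : ∀ i, HasCompactSupport (pd i χ) := fun i => by
    refine HasCompactSupport.intro (isCompact_closedBall (0 : E3) L) fun x hx => ?_
    rw [Metric.mem_closedBall, dist_zero_right, not_le] at hx
    exact hpf i x hx
  have hcr : HasCompactSupport (rdr χ) := by
    refine HasCompactSupport.intro (isCompact_closedBall (0 : E3) L) fun x hx => ?_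
    rw [Metric.mem_closedBall, dist_zero_right, not_le] at hx
    unfold rdr
    rw [hpf 0 x hx, hpf 1 x hx]
    ring
  have hrc := EV_rdr_cont hχ.smooth
  have hrn : ∀ x, rsq x < ε → rdr χ x = 0 := fun x h => by
    unfold rdr
    rw [hpn 0 x h, hpn 1 x h]
    ring
  obtain ⟨M0, hM0⟩ := hrc.bounded_above_of_compact_support hcr
  have hM0' : ∀ x, |rdr χ x| ≤ M0 := fun x => by simpa using hM0 x
  have hM0n : 0 ≤ M0 := (abs_nonneg _).trans (hM0' 0)
  have h1 : ∀ i, ∃ K, ∀ x, |pd i χ x| ≤ K := fun i => by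
    obtain ⟨K, hK⟩ := (pd_smooth hχ.smooth i).continuous.bounded_above_of_compact_support (hcs i)
    exact ⟨K, fun x => by simpa using hK x⟩
  choose K1 hK1 using h1
  have h2 : ∀ i, ∃ K, ∀ x, |pd i (pd i χ) x| ≤ K := fun i => by
    obtain ⟨K, hK⟩ := (pd_smooth (pd_smooth hχ.smooth i) i).continuous.bounded_above_of_compact_support
      ((hcs i).fderiv_apply (𝕜 := ℝ) (e i))
    exact ⟨K, fun x => by simpa using hK x⟩
  choose K2 hK2 using h2
  have n1 : ∀ i, 0 ≤ K1 i := fun i => (abs_nonneg _).trans (hK1 i 0)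
  have n2 : ∀ i, 0 ≤ K2 i := fun i => (abs_nonneg _).trans (hK2 i 0)
  have s1 : 0 ≤ ∑ i, K1 i := Finset.sum_nonneg fun i _ => n1 i
  have s2 : 0 ≤ ∑ i, K2 i := Finset.sum_nonneg fun i _ => n2 i
  have hme : 0 ≤ M0 / ε := div_nonneg hM0n hε.le
  have hr1 : ∀ x, |rdr χ x| ≤ M0 / ε * rsq x := fun x => by
    rcases lt_or_ge (rsq x) ε with h | h
    · rw [hrn x h, abs_zero]
      exact mul_nonneg hme (EV_rsq_nonneg x)
    · refine (hM0' x).trans ?_
      calc M0 = M0 / ε * ε := by field_simp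
        _ ≤ M0 / ε * rsq x := mul_le_mul_of_nonneg_left h hme
  have hr2 : ∀ x, |2 / rsq x * rdr χ x| ≤ 2 * (M0 / ε) := fun x => by
    rcases (EV_rsq_nonneg x).eq_or_lt with h | h
    · rw [← h, div_zero, zero_mul, abs_zero]
      positivity
    · rw [abs_mul, abs_of_pos (by positivity : 0 < 2 / rsq x)]
      calc 2 / rsq x * |rdr χ x| ≤ 2 / rsq x * (M0 / ε * rsq x) :=
            mul_le_mul_of_nonneg_left (hr1 x) (by positivity)
        _ = 2 * (M0 / ε) := by field_simp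
  refine ⟨2 * (M0 / ε) + ∑ i, K1 i + ∑ i, K2 i, by positivity, fun i x => ?_, fun x => ?_,
    fun x => ?_, ?_, hcs, fun x => ?_⟩
  · refine (hK1 i x).trans ?_
    have h3 := Finset.single_le_sum (fun i _ => n1 i) (Finset.mem_univ i)
    linarith
  · exact (hr2 x).trans (by linarith)
  · refine (hr1 x).trans (mul_le_mul_of_nonneg_right ?_ (EV_rsq_nonneg x))
    linarith
  · refine continuous_iff_continuousAt.2 fun x => ?_
    rcases lt_or_ge (rsq x) ε with h | h
    · have h4 : ∀ᶠ y in 𝓝 x, rsq y < ε := EV_rsq_cont.continuousAt.eventually (gt_mem_nhds h)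
      refine (continuousAt_const (y := (0 : ℝ))).congr ?_
      filter_upwards [h4] with y hy
      rw [hrn y hy, mul_zero]
    · exact (continuousAt_const.div EV_rsq_cont.continuousAt (hε.trans_le h).ne').mul
        hrc.continuousAt
  · unfold lap
    refine (Finset.abs_sum_le_sum_abs _ _).trans ?_
    refine (Finset.sum_le_sum fun i _ => hK2 i x).trans ?_
    linarith

/-- pointwise bound for the terms with derivatives of the test function -/
private theorem EV_pt {C M Ku q : ℝ} {j : ℝ → ℝ} {v : E3} {f φ : E3 → ℝ} {x : E3} (hC : 0 ≤ C)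
    (h1 : |deriv j (f x)| ≤ C * |f x|) (h0 : 0 ≤ j (f x)) (h2 : j (f x) ≤ C * f x ^ 2)
    (hM : ∀ i, |pd i φ x| ≤ M) (hq : |q| ≤ M) (hv : ‖v‖ ≤ Ku) :
    |deriv j (f x) * (∑ i, pd i f x * pd i φ x)| + |j (f x) * (adv v φ x - q)| ≤
      C * M * (3 + 3 * Ku) * (f x ^ 2 + gsq f x) := by
  have hM0 : 0 ≤ M := (abs_nonneg _).trans hq
  have hKu : 0 ≤ Ku := (norm_nonneg _).trans hv
  set g := √(gsq f x) with hg
  have hg0 : 0 ≤ g := Real.sqrt_nonneg _
  have hg2 : g ^ 2 = gsq f x := Real.sq_sqrt (gsq_nonneg f x)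
  have hs : |∑ i, pd i f x * pd i φ x| ≤ 3 * (g * M) := by
    refine (Finset.abs_sum_le_sum_abs _ _).trans ?_
    have : ∀ i ∈ (Finset.univ : Finset (Fin 3)), |pd i f x * pd i φ x| ≤ g * M := fun i _ => by
      rw [abs_mul]
      exact mul_le_mul (pd_le_gsq f i x) (hM i) (abs_nonneg _) hg0
    refine (Finset.sum_le_sum this).trans (le_of_eq ?_)
    rw [Finset.sum_const, Finset.card_univ, Fintype.card_fin, nsmul_eq_mul]
    norm_num
  have ha : |adv v φ x| ≤ 3 * (Ku * M) := by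
    unfold adv
    refine (Finset.abs_sum_le_sum_abs _ _).trans ?_
    have : ∀ i ∈ (Finset.univ : Finset (Fin 3)), |v i * pd i φ x| ≤ Ku * M := fun i _ => by
      rw [abs_mul]
      exact mul_le_mul ((EV_coord_le v i).trans hv) (hM i) (abs_nonneg _) hKu
    refine (Finset.sum_le_sum this).trans (le_of_eq ?_)
    rw [Finset.sum_const, Finset.card_univ, Fintype.card_fin, nsmul_eq_mul]
    norm_num
  have hf2 : |f x| ^ 2 = f x ^ 2 := sq_abs _
  have b1 : |deriv j (f x) * (∑ i, pd i f x * pd i φ x)| ≤ C * |f x| * (3 * (g * M)) := by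
    rw [abs_mul]
    exact mul_le_mul h1 hs (abs_nonneg _) (by positivity)
  have b2 : |j (f x) * (adv v φ x - q)| ≤ C * f x ^ 2 * (3 * (Ku * M) + M) := by
    rw [abs_mul, abs_of_nonneg h0]
    refine mul_le_mul h2 ((abs_sub _ _).trans (add_le_add ha hq)) (abs_nonneg _) (by positivity)
  have b3 : |f x| * g ≤ (f x ^ 2 + gsq f x) / 2 := by
    rw [← hf2, ← hg2]
    nlinarith [sq_nonneg (|f x| - g)]
  have hCM : 0 ≤ C * M := mul_nonneg hC hM0
  have hgs : 0 ≤ gsq f x := gsq_nonneg f x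
  have b4 : C * |f x| * (3 * (g * M)) ≤ C * M * (3 * ((f x ^ 2 + gsq f x) / 2)) := by
    calc C * |f x| * (3 * (g * M)) = C * M * (3 * (|f x| * g)) := by ring
      _ ≤ _ := by gcongr
  have b5 : C * f x ^ 2 * (3 * (Ku * M) + M) = C * M * ((3 * Ku + 1) * f x ^ 2) := by ring
  have b6 : 3 * ((f x ^ 2 + gsq f x) / 2) + (3 * Ku + 1) * f x ^ 2 ≤
      (3 + 3 * Ku) * (f x ^ 2 + gsq f x) := by
    have := sq_nonneg (f x)
    have h7 : 0 ≤ Ku * gsq f x := mul_nonneg hKu hgs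
    nlinarith
  calc _ ≤ C * M * (3 * ((f x ^ 2 + gsq f x) / 2)) + C * M * ((3 * Ku + 1) * f x ^ 2) := by
        rw [← b5]
        exact add_le_add (b1.trans b4) b2
    _ = C * M * (3 * ((f x ^ 2 + gsq f x) / 2) + (3 * Ku + 1) * f x ^ 2) := by ring
    _ ≤ C * M * ((3 + 3 * Ku) * (f x ^ 2 + gsq f x)) := mul_le_mul_of_nonneg_left b6 hCM
    _ = _ := by ring

variable {T : ℝ} {u : ℝ → E3 → E3} {f G : ℝ → E3 → ℝ}

private theorem EV_slice {Φ : ℝ → E3 → ℝ} (h : JC T Φ) {t : ℝ} (ht : t ∈ Ico 0 T) :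
    Continuous (Φ t) := by
  have h1 : Continuous fun x : E3 => ((t, x) : ℝ × E3) := by fun_prop
  have h2 := ContinuousOn.comp_continuous h h1 (fun x => ⟨ht, mem_univ _⟩)
  exact h2

/-- the terms with derivatives of the test function -/
private noncomputable def EV_R (j : ℝ → ℝ) (v : E3 → E3) (f w φ q : E3 → ℝ) (x : E3) : ℝ :=
  w x * (j (f x) * (adv (v x) φ x - q x) - deriv j (f x) * (∑ i, pd i f x * pd i φ x))

private theorem EV_jcR (hu : Drift T u) (hf : Evo T u f G) {j : ℝ → ℝ} (hj : JFun j)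
    {w φ q : E3 → ℝ} (hw : Continuous w) (hφ : ContDiff ℝ ∞ φ) (hq : Continuous q) :
    JC T (fun t => EV_R j (u t) (f t) w φ q) := by
  have hjc : Continuous j := hj.smooth.continuous
  have hdc : Continuous (deriv j) := hj.smooth.continuous_deriv (by simp)
  have h1 : ContinuousOn (fun p : ℝ × E3 => j (f p.1 p.2)) (Ico 0 T ×ˢ univ) :=
    hjc.comp_continuousOn hf.cont
  have h2 : ContinuousOn (fun p : ℝ × E3 => deriv j (f p.1 p.2)) (Ico 0 T ×ˢ univ) :=
    hdc.comp_continuousOn hf.cont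
  have h3 : ContinuousOn (fun p : ℝ × E3 => adv (u p.1 p.2) φ p.2) (Ico 0 T ×ˢ univ) := by
    unfold adv
    refine continuousOn_finsetSum _ fun i _ => ?_
    exact ((continuous_coord i).comp_continuousOn hu.cont).mul
      ((pd_smooth hφ i).continuous.comp continuous_snd).continuousOn
  have h4 : ContinuousOn (fun p : ℝ × E3 => ∑ i, pd i (f p.1) p.2 * pd i φ p.2)
      (Ico 0 T ×ˢ univ) := by
    refine continuousOn_finsetSum _ fun i _ => ?_
    exact (hf.contd i).mul ((pd_smooth hφ i).continuous.comp continuous_snd).continuousOn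
  have h5 : ContinuousOn (fun p : ℝ × E3 => q p.2) (Ico 0 T ×ˢ univ) :=
    (hq.comp continuous_snd).continuousOn
  have h6 : ContinuousOn (fun p : ℝ × E3 => w p.2) (Ico 0 T ×ˢ univ) :=
    (hw.comp continuous_snd).continuousOn
  exact h6.mul ((h1.mul (h3.sub h5)).sub (h2.mul h4))

private theorem EV_Rbd (hu : Drift T u) (hf : Evo T u f G) {j : ℝ → ℝ} (hj : JFun j) {b : ℝ}
    (hb : b < T) : ∃ D : ℝ, 0 ≤ D ∧ ∀ (w φ q : E3 → ℝ) (M : ℝ), Continuous w → ContDiff ℝ ∞ φ →
      Continuous q → (∀ x, |w x| ≤ 1) → (∀ i x, |pd i φ x| ≤ M) → (∀ x, |q x| ≤ M) →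
      ∀ t ∈ Icc 0 b, Integrable (EV_R j (u t) (f t) w φ q) ∧
        ∫ x, |EV_R j (u t) (f t) w φ q x| ≤ D * M := by
  obtain ⟨K, hK⟩ := hf.bd b hb
  obtain ⟨Ku, hKu⟩ := hu.bd b hb
  obtain ⟨C, hC, hCb⟩ := jfun_bd hj K
  refine ⟨C * (3 + 3 * |Ku|) * (4 * |K|), by positivity, ?_⟩
  intro w φ q M hw hφ hq hw1 hM hqM t ht
  have ht' : t ∈ Ico 0 T := ⟨ht.1, ht.2.trans_lt hb⟩
  obtain ⟨hfd, hG⟩ := hK t ht
  have hfb := DB_BL hfd
  have hM0 : 0 ≤ M := (abs_nonneg _).trans (hqM 0)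
  have hc := EV_slice (EV_jcR hu hf hj hw hφ hq) ht'
  have hpt : ∀ x, |EV_R j (u t) (f t) w φ q x| ≤
      C * M * (3 + 3 * |Ku|) * (f t x ^ 2 + gsq (f t) x) := by
    intro x
    obtain ⟨c1, c2, c3⟩ := hCb (f t x) (hfb.1 x)
    have h := EV_pt (q := q x) (v := u t x) (φ := φ) hC c2 (jfun_nonneg hj _) c1
      (fun i => hM i x) (hqM x) ((hKu t ht x).trans (le_abs_self Ku))
    refine le_trans ?_ h
    unfold EV_R
    rw [abs_mul]
    refine (mul_le_mul_of_nonneg_right (hw1 x) (abs_nonneg _)).trans ?_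
    rw [one_mul, add_comm]
    exact abs_sub _ _
  have hgi := gsq_int hfd
  have hbi : Integrable (fun x => C * M * (3 + 3 * |Ku|) * (f t x ^ 2 + gsq (f t) x)) :=
    (hfb.2.1.add hgi.1).const_mul _
  have hi : Integrable (EV_R j (u t) (f t) w φ q) := by
    refine hbi.mono' hc.aestronglyMeasurable (Filter.Eventually.of_forall fun x => ?_)
    rw [Real.norm_eq_abs]
    exact hpt x
  refine ⟨hi, (integral_mono hi.abs hbi hpt).trans ?_⟩
  rw [integral_const_mul, integral_add hfb.2.1 hgi.1]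
  have h1 : (∫ x, f t x ^ 2) + ∫ x, gsq (f t) x ≤ 4 * |K| := by
    have h2 := hfb.2.2
    have h3 := hgi.2
    have h4 := le_abs_self K
    linarith
  calc C * M * (3 + 3 * |Ku|) * ((∫ x, f t x ^ 2) + ∫ x, gsq (f t) x) ≤
        C * M * (3 + 3 * |Ku|) * (4 * |K|) := mul_le_mul_of_nonneg_left h1 (by positivity)
    _ = _ := by ring

/-- the terms without derivatives of the test function -/
private noncomputable def EV_P (j : ℝ → ℝ) (f G χ : E3 → ℝ) (x : E3) : ℝ :=
  (deriv j (f x) * G x - deriv (deriv j) (f x) * gsq f x) * χ x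

private theorem EV_jcP (hf : Evo T u f G) {j : ℝ → ℝ} (hj : JFun j) {χ : E3 → ℝ}
    (hχ : Continuous χ) : JC T (fun t => EV_P j (f t) (G t) χ) := by
  obtain ⟨h1, h2, h3, h4⟩ := evo_jc hf hj
  exact (ContinuousOn.sub h3 h2).mul (hχ.comp continuous_snd).continuousOn

private theorem EV_Pbd (hf : Evo T u f G) {j : ℝ → ℝ} (hj : JFun j) {b : ℝ} (hb : b < T) :
    ∃ D : ℝ, ∀ (χ : E3 → ℝ), Continuous χ → (∀ x, |χ x| ≤ 1) → ∀ t ∈ Icc 0 b,
      Integrable (EV_P j (f t) (G t) χ) ∧ ∫ x, |EV_P j (f t) (G t) χ x| ≤ D := by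
  obtain ⟨K, hK⟩ := evo_bd hf hj hb
  refine ⟨K + K, fun χ hχ hχ1 t ht => ?_⟩
  obtain ⟨h1, ⟨h2, h2'⟩, ⟨h3, h3'⟩⟩ := hK t ht
  have ht' : t ∈ Ico 0 T := ⟨ht.1, ht.2.trans_lt hb⟩
  have hc := EV_slice (EV_jcP hf hj hχ) ht'
  have hpt : ∀ x, |EV_P j (f t) (G t) χ x| ≤
      |deriv j (f t x) * G t x| + |deriv (deriv j) (f t x) * gsq (f t) x| := by
    intro x
    unfold EV_P
    rw [abs_mul]
    refine (mul_le_mul_of_nonneg_left (hχ1 x) (abs_nonneg _)).trans ?_
    rw [mul_one]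
    exact abs_sub _ _
  have hbi := h3.abs.add h2.abs
  have hi : Integrable (EV_P j (f t) (G t) χ) := by
    refine hbi.mono' hc.aestronglyMeasurable (Filter.Eventually.of_forall fun x => ?_)
    rw [Real.norm_eq_abs]
    exact hpt x
  refine ⟨hi, (integral_mono hi.abs hbi hpt).trans ?_⟩
  have h5 := integral_add h3.abs h2.abs
  simp only [Pi.add_apply] at h5 ⊢
  rw [h5]
  linarith

/-- the last integration by parts -/
private theorem EV_lap (hf : Evo T u f G) {j : ℝ → ℝ} (hj : JFun j) {χ : E3 → ℝ} (hχ : Wt χ)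
    (hcs : ∀ i, HasCompactSupport (pd i χ)) {t : ℝ} (ht : t ∈ Ico 0 T) :
    Integrable (fun x => j (f t x) * lap χ x +
      deriv j (f t x) * (∑ i, pd i (f t) x * pd i χ x)) ∧
    ∫ x, (j (f t x) * lap χ x + deriv j (f t x) * (∑ i, pd i (f t) x * pd i χ x)) = 0 := by
  obtain ⟨K, hK⟩ := hf.bd t ht.2
  have hfd := (hK t ⟨ht.1, le_rfl⟩).1
  have hfs : ContDiff ℝ 1 (f t) := (hf.smooth t ht).of_le (by simp)
  have hjs : ContDiff ℝ 1 j := hj.smooth.of_le (by simp)
  obtain ⟨K', hK'⟩ := comp_DB hjs hj.zero K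
  have hjf := hK' (f t) hfs hfd
  have hjfs : ContDiff ℝ 1 (fun y => j (f t y)) := hjs.comp hfs
  have e1 : (fun x => j (f t x) * lap χ x + deriv j (f t x) * (∑ i, pd i (f t) x * pd i χ x)) =
      fun x => ∑ i, (pd i (pd i χ) x * j (f t x) + pd i χ x * pd i (fun y => j (f t y)) x) := by
    funext x
    unfold lap
    rw [Finset.mul_sum, Finset.mul_sum, ← Finset.sum_add_distrib]
    refine Finset.sum_congr rfl fun i _ => ?_
    rw [comp_pd hfs hjs i x]
    ring
  have hgs : ∀ i, ContDiff ℝ ∞ (pd i χ) := fun i => pd_smooth hχ.smooth i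
  have i1 : ∀ i, Integrable (fun x => pd i (pd i χ) x * j (f t x)) := fun i => by
    have hc : Continuous (fun x => pd i (pd i χ) x * j (f t x)) :=
      (pd_smooth (hgs i) i).continuous.mul hjfs.continuous
    have hs : HasCompactSupport (pd i (pd i χ)) := (hcs i).fderiv_apply (𝕜 := ℝ) (e i)
    exact hc.integrable_of_hasCompactSupport hs.mul_right
  have i2 : ∀ i, Integrable (fun x => pd i χ x * pd i (fun y => j (f t y)) x) := fun i => by
    have hc : Continuous (fun x => pd i χ x * pd i (fun y => j (f t y)) x) :=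
      (hgs i).continuous.mul (pd_cont hjfs i)
    exact hc.integrable_of_hasCompactSupport (hcs i).mul_right
  rw [e1]
  have i3 : ∀ i ∈ (Finset.univ : Finset (Fin 3)), Integrable (fun x =>
      pd i (pd i χ) x * j (f t x) + pd i χ x * pd i (fun y => j (f t y)) x) := fun i _ =>
    (i1 i).add (i2 i)
  refine ⟨integrable_finsetSum _ i3, ?_⟩
  rw [integral_finsetSum _ i3]
  refine Finset.sum_eq_zero fun i _ => ?_
  obtain ⟨K2, hK2⟩ := EV_DB1 (hgs i) (hcs i)
  have h := ibp ((hgs i).of_le (by simp)) hjfs hK2 hjf i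
  have h3 := integral_add (i1 i) (i2 i)
  rw [h3, h]
  ring

/-- the energy inequality with a weight -/
theorem ev (hu : Drift T u) (hf : Evo T u f G) {j : ℝ → ℝ} (hj : JFun j) {χ : E3 → ℝ} (hχ : Wt χ)
    {a b : ℝ} (ha : 0 ≤ a) (hab : a ≤ b) (hb : b < T) :
    ∫ x, j (f b x) * χ x ≤
      (∫ x, j (f a x) * χ x) + ∫ t in a..b, ∫ x, evJ j (u t) (f t) (G t) χ x := by
  obtain ⟨M, hM0, hMpd, hMq, hMr, hqc, hcs, hMl⟩ := EV_wt hχ
  obtain ⟨φ, q, κ, φs, φc, φ0, φ1, φl, φpd, qc, qb, qr, κ0⟩ := EV_cut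
  obtain ⟨K', hP⟩ := EV_Pbd hf hj hb
  obtain ⟨D, hD, hR⟩ := EV_Rbd hu hf hj hb
  have hχc : Continuous χ := hχ.smooth.continuous
  have hχ1 : ∀ x, |χ x| ≤ 1 := fun x => abs_le.2 ⟨by linarith [hχ.nonneg x], hχ.le_one x⟩
  set q0 : E3 → ℝ := fun x => 2 / rsq x * rdr χ x with hq0
  set Φ : ℝ → E3 → ℝ := fun t x =>
    EV_P j (f t) (G t) χ x + EV_R j (u t) (f t) (fun _ => 1) χ q0 x with hΦ
  have hΦc : JC T Φ := ContinuousOn.add (EV_jcP hf hj hχc)
    (EV_jcR hu hf hj continuous_const hχ.smooth hqc)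
  have hR0 := hR (fun _ => 1) χ q0 M continuous_const hχ.smooth hqc (fun _ => by simp) hMpd hMq
  have hΦb : ∀ t ∈ Icc 0 b, Integrable (Φ t) ∧ ∫ x, |Φ t x| ≤ K' + D * M := by
    intro t ht
    obtain ⟨p1, p2⟩ := hP χ hχc hχ1 t ht
    obtain ⟨r1, r2⟩ := hR0 t ht
    refine ⟨p1.add r1, ?_⟩
    have h1 : ∫ x, |Φ t x| ≤ ∫ x, (|EV_P j (f t) (G t) χ x| +
        |EV_R j (u t) (f t) (fun _ => 1) χ q0 x|) :=
      integral_mono (p1.add r1).abs (p1.abs.add r1.abs) fun x => abs_add_le _ _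
    rw [integral_add p1.abs r1.abs] at h1
    linarith
  have hEc : ∀ n, JC T (fun t => EV_R j (u t) (f t) χ (φ n) (q n)) := fun n =>
    EV_jcR hu hf hj hχc (φs n) (qc n)
  have hEb : ∀ n, ∀ t ∈ Icc 0 b, Integrable (EV_R j (u t) (f t) χ (φ n) (q n)) ∧
      ∫ x, |EV_R j (u t) (f t) χ (φ n) (q n) x| ≤ D * κ n := fun n =>
    hR χ (φ n) (q n) (κ n) hχc (φs n) (qc n) hχ1 (φpd n) (qb n)
  have hφ1 : ∀ n x, |φ n x| ≤ 1 := fun n x => abs_le.2 ⟨by linarith [φ0 n x], φ1 n x⟩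
  have hΦφc : ∀ n, JC T (fun t x => Φ t x * φ n x) := fun n =>
    JC_mul hΦc (JC_const (φs n).continuous)
  have hΦφb : ∀ n, ∀ t ∈ Icc 0 b, Integrable (fun x => Φ t x * φ n x) ∧
      ∫ x, |Φ t x * φ n x| ≤ K' + D * M := by
    intro n t ht
    obtain ⟨h1, h2⟩ := hΦb t ht
    have hpt : ∀ x, |Φ t x * φ n x| ≤ |Φ t x| := fun x => by
      rw [abs_mul]
      exact mul_le_of_le_one_right (abs_nonneg _) (hφ1 n x)
    have hi : Integrable (fun x => Φ t x * φ n x) := by
      refine h1.abs.mono' ?_ (Filter.Eventually.of_forall fun x => ?_)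
      · exact h1.aestronglyMeasurable.mul (φs n).continuous.aestronglyMeasurable
      · rw [Real.norm_eq_abs]
        exact hpt x
    exact ⟨hi, (integral_mono hi.abs h1.abs hpt).trans h2⟩
  -- the integrand of the energy identity
  have hev : ∀ n t, (fun x => evI j (u t) (f t) (G t) (fun y => χ y * φ n y) x) =ᵐ[volume]
      fun x => Φ t x * φ n x + EV_R j (u t) (f t) χ (φ n) (q n) x := by
    intro n t
    have hnull : ∀ᵐ x : E3, rsq x ≠ 0 := by
      rw [ae_iff]
      simpa using EV_axis_null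
    filter_upwards [hnull] with x hx
    have hpd : ∀ i, pd i (fun y => χ y * φ n y) x = χ x * pd i (φ n) x + φ n x * pd i χ x := by
      intro i
      unfold pd
      have hd1 : DifferentiableAt ℝ χ x := hχ.smooth.differentiable (by simp) x
      have hd2 : DifferentiableAt ℝ (φ n) x := (φs n).differentiable (by simp) x
      rw [fderiv_fun_mul hd1 hd2]
      simp
    have hrd : rdr (fun y => χ y * φ n y) x = χ x * rdr (φ n) x + φ n x * rdr χ x := by
      unfold rdr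
      rw [hpd, hpd]
      ring
    have had : adv (u t x) (fun y => χ y * φ n y) x =
        χ x * adv (u t x) (φ n) x + φ n x * adv (u t x) χ x := by
      unfold adv
      rw [Finset.mul_sum, Finset.mul_sum, ← Finset.sum_add_distrib]
      refine Finset.sum_congr rfl fun i _ => ?_
      rw [hpd]
      ring
    have hsm : ∑ i, pd i (f t) x * pd i (fun y => χ y * φ n y) x =
        χ x * (∑ i, pd i (f t) x * pd i (φ n) x) + φ n x * (∑ i, pd i (f t) x * pd i χ x) := by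
      rw [Finset.mul_sum, Finset.mul_sum, ← Finset.sum_add_distrib]
      refine Finset.sum_congr rfl fun i _ => ?_
      rw [hpd]
      ring
    have hq : 2 / rsq x * rdr (φ n) x = q n x := by
      rw [qr]
      field_simp
    simp only [evI, hΦ, EV_P, EV_R, hrd, had, hsm, hq0]
    rw [← hq]
    ring
  have hint : ∀ n, ∀ t ∈ Icc 0 b, ∫ x, evI j (u t) (f t) (G t) (fun y => χ y * φ n y) x =
      (∫ x, Φ t x * φ n x) + ∫ x, EV_R j (u t) (f t) χ (φ n) (q n) x := by
    intro n t ht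
    rw [integral_congr_ae (hev n t)]
    exact integral_add (hΦφb n t ht).1 (hEb n t ht).1
  have huI : uIcc a b ⊆ Icc 0 b := by
    rw [uIcc_of_le hab]
    exact Icc_subset_Icc_left ha
  -- the inequality for the cut off weight
  have h1 : ∀ n, ∫ x, j (f b x) * (χ x * φ n x) ≤ (∫ x, j (f a x) * (χ x * φ n x)) +
      ((∫ t in a..b, ∫ x, Φ t x * φ n x) + D * κ n * |b - a|) := by
    intro n
    have hCr : ∀ x, |rdr (fun y => χ y * φ n y) x| ≤ (M + κ n) * rsq x := by
      intro x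
      have hd1 : DifferentiableAt ℝ χ x := hχ.smooth.differentiable (by simp) x
      have hd2 : DifferentiableAt ℝ (φ n) x := (φs n).differentiable (by simp) x
      have hrd : rdr (fun y => χ y * φ n y) x = χ x * rdr (φ n) x + φ n x * rdr χ x := by
        unfold rdr pd
        rw [fderiv_fun_mul hd1 hd2]
        simp
        ring
      have hκ : 0 ≤ κ n := (abs_nonneg _).trans (qb n 0)
      rw [hrd, qr]
      refine (abs_add_le _ _).trans ?_
      rw [abs_mul, abs_mul, abs_mul, abs_of_nonneg (EV_rsq_nonneg x), abs_div,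
        abs_of_nonneg (by norm_num : (0 : ℝ) ≤ 2)]
      have g1 : |χ x| * (|q n x| / 2 * rsq x) ≤ 1 * (κ n * rsq x) := by
        refine mul_le_mul (hχ1 x) (mul_le_mul_of_nonneg_right ?_ (EV_rsq_nonneg x)) ?_ zero_le_one
        · have := qb n x
          linarith
        · have := EV_rsq_nonneg x
          positivity
      have g2 : |φ n x| * |rdr χ x| ≤ 1 * (M * rsq x) :=
        mul_le_mul (hφ1 n x) (hMr x) (abs_nonneg _) zero_le_one
      linarith
    have h := ev_axis hu hf hj (ψ := fun y => χ y * φ n y) (hχ.smooth.mul (φs n))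
      ((φc n).mul_left) (fun x => mul_nonneg (hχ.nonneg x) (φ0 n x)) hCr ha hab hb
    refine h.trans (add_le_add le_rfl ?_)
    have h2 : ∫ t in a..b, ∫ x, evI j (u t) (f t) (G t) (fun y => χ y * φ n y) x =
        ∫ t in a..b, ((∫ x, Φ t x * φ n x) + ∫ x, EV_R j (u t) (f t) χ (φ n) (q n) x) :=
      intervalIntegral.integral_congr fun t ht => hint n t (huI ht)
    rw [h2, intervalIntegral.integral_add (ti_int (hΦφc n) hb (hΦφb n) ha hab)
      (ti_int (hEc n) hb (hEb n) ha hab)]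
    refine add_le_add le_rfl ?_
    have h3 := intervalIntegral.norm_integral_le_of_norm_le_const (a := a) (b := b)
      (C := D * κ n) (f := fun t => ∫ x, EV_R j (u t) (f t) χ (φ n) (q n) x) (fun t ht => by
        have ht' : t ∈ Icc 0 b := huI (uIoc_subset_uIcc ht)
        exact (norm_integral_le_integral_norm _).trans (hEb n t ht').2)
    exact (le_abs_self _).trans h3
  -- limits
  have hT : T ≠ 0 ∧ b ∈ Ico 0 T ∧ a ∈ Ico 0 T :=
    ⟨by linarith, ⟨ha.trans hab, hb⟩, ⟨ha, hab.trans_lt hb⟩⟩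
  have hlim : ∀ t ∈ Ico 0 T, Tendsto (fun n => ∫ x, j (f t x) * (χ x * φ n x)) atTop
      (𝓝 (∫ x, j (f t x) * χ x)) := by
    intro t ht
    have hi := (evo_int hf hj ht).1
    refine tendsto_integral_of_dominated_convergence (fun x => |j (f t x)|) (fun n => ?_) hi.abs
      (fun n => Filter.Eventually.of_forall fun x => ?_)
      (Filter.Eventually.of_forall fun x => ?_)
    · exact hi.aestronglyMeasurable.mul (hχc.mul (φs n).continuous).aestronglyMeasurable
    · rw [Real.norm_eq_abs, abs_mul, abs_mul]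
      refine mul_le_of_le_one_right (abs_nonneg _) ?_
      exact mul_le_one₀ (hχ1 x) (abs_nonneg _) (hφ1 n x)
    · have h := ((φl x).const_mul (χ x)).const_mul (j (f t x))
      rw [mul_one] at h
      exact h
  have hlim2 := ti_tail hΦc hb hΦb ha hab (fun n => (φs n).continuous) hφ1 φl
  have hlim3 : Tendsto (fun n => D * κ n * |b - a|) atTop (𝓝 0) := by
    have h := (κ0.const_mul D).mul_const |b - a|
    rw [mul_zero, zero_mul] at h
    exact h
  have hfin := le_of_tendsto_of_tendsto' (hlim b hT.2.1)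
    ((hlim a hT.2.2).add (hlim2.add hlim3)) h1
  rw [add_zero] at hfin
  refine hfin.trans (le_of_eq ?_)
  congr 1
  refine intervalIntegral.integral_congr fun t ht => ?_
  have ht' := huI ht
  have ht2 : t ∈ Ico 0 T := ⟨ht'.1, ht'.2.trans_lt hb⟩
  obtain ⟨g1, g2⟩ := EV_lap hf hj hχ hcs ht2
  have h4 := integral_add (hΦb t ht').1 g1
  rw [g2, add_zero] at h4
  rw [← h4]
  refine integral_congr_ae (Filter.Eventually.of_forall fun x => ?_)
  simp only [hΦ, EV_P, EV_R, evJ, hq0]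
  ring

theorem ev1 (hu : Drift T u) (hf : Evo T u f G) {j : ℝ → ℝ} (hj : JFun j)
    {a b : ℝ} (ha : 0 ≤ a) (hab : a ≤ b) (hb : b < T) :
    (∫ x, j (f b x)) + ∫ t in a..b, ∫ x, deriv (deriv j) (f t x) * gsq (f t) x
      ≤ (∫ x, j (f a x)) + ∫ t in a..b, ∫ x, deriv j (f t x) * G t x := by
  have hw : Wt (fun _ : E3 => (1 : ℝ)) := by
    refine ⟨contDiff_const, fun _ => zero_le_one, fun _ => le_rfl, ⟨1, one_pos, fun x _ => ?_⟩,
      ⟨0, fun x _ => ?_⟩⟩
    · simp
    · simp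
  have h := ev hu hf hj hw ha hab hb
  have hpd : ∀ i x, pd i (fun _ : E3 => (1 : ℝ)) x = 0 := fun i x => by
    unfold pd
    simp
  have hpd' : ∀ i, pd i (fun _ : E3 => (1 : ℝ)) = fun _ => 0 := fun i => funext (hpd i)
  have hlap : ∀ x, lap (fun _ : E3 => (1 : ℝ)) x = 0 := fun x => by
    unfold lap
    refine Finset.sum_eq_zero fun i _ => ?_
    rw [hpd' i]
    unfold pd
    simp
  have huI : uIcc a b ⊆ Ico 0 T := by
    rw [uIcc_of_le hab]
    exact fun t ht => ⟨ha.trans ht.1, ht.2.trans_lt hb⟩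
  obtain ⟨-, i2, i3⟩ := evo_ii hf hj ha hab hb
  have h2 : ∫ t in a..b, ∫ x, evJ j (u t) (f t) (G t) (fun _ : E3 => (1 : ℝ)) x =
      ∫ t in a..b, ((∫ x, deriv j (f t x) * G t x) -
        ∫ x, deriv (deriv j) (f t x) * gsq (f t) x) := by
    refine intervalIntegral.integral_congr fun t ht => ?_
    obtain ⟨-, j2, j3⟩ := evo_int hf hj (huI ht)
    rw [← integral_sub j3 j2]
    refine integral_congr_ae (Filter.Eventually.of_forall fun x => ?_)
    simp only [evJ, adv, rdr, hpd, hlap]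
    simp
    ring
  rw [h2, intervalIntegral.integral_sub i3 i2] at h
  simp only [mul_one] at h
  linarith

end Pool.Agent.H87.NS
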