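/-
ROW JQ. The one-variable functions. Write `P = s² + ε² > 0` (`ε > 0`; real powers: `Real.rpow_add`, `Real.rpow_natCast`, ...).
PROOF. `jq ε s = P^(3/4) - ε^(3/2)`: smooth, `jq' = (3/2) s P^(-1/4)`, `jq'' = (3/2) P^(-1/4) - (3/4) s² P^(-5/4) = P^(-5/4) ((3/4) s² + (3/2) ε²)`,
which is `≥ (3/4) P^(-1/4) ≥ 0`; `jq 0 = (ε²)^(3/4) - ε^(3/2) = 0`.
jq_le: `P^(3/4) ≤ (s²)^(3/4) + (ε²)^(3/4)` (`Real.rpow_add_le_add_rpow` / `NNReal.rpow_add_le_add_rpow`, subadditivity), `(s²)^(3/4) = |s|^(3/2)`.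
jq_tend: continuity in `ε`. hq_le_jq: concavity of `x^(3/4)`: with `a = P ≥ b = ε²`, `a^(3/4) - b^(3/4) ≥ (3/4) a^(-1/4) (a - b)` (tangent line at `a`;
e.g. from `b^(3/4) a^(1/4) ≤ (3/4) b + (1/4) a`, the weighted AM-GM inequality `Real.geom_mean_le_arith_mean2_weighted`), and
`hq² = s² P^(-1/4)`, `s² = a - b`. jq_hq: direct. hq_deriv_sq: `hq' = P^(-1/8) - (1/4) s² P^(-9/8) = P^(-9/8) ((3/4) s² + ε²)`, and
`((3/4) s² + ε²)² ≤ (3/4) P ((3/4) s² + (3/2) ε²)` (expand: `(9/16) s⁴ + (3/2) s² ε² + ε⁴ ≤ (9/16) s⁴ + (27/16) s² ε² + (9/8) ε⁴`), times `P^(-9/4)`.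
hq_mul: `P^(1/2) = (P^(3/4))^(2/3) = (jq + ε^(3/2))^(2/3) ≤ jq^(2/3) + ε` (subadditivity), times `hq²`, and `ε hq² = ε s² P^(-1/4) ≤ ε s² ε^(-1/2) = √ε s²`.
young: `|s| g = (|s| P^(1/8)) (P^(-1/8) g) ≤ (l/2) s² P^(1/4) + (1/(2l)) P^(-1/4) g²`, `s² P^(1/4) = hq² P^(1/2)`, and
`P^(-1/4) ≤ (4/3) jq''`.
ja: `ja κ s = √(s² + κ²) - κ`, `ja' = s / √(s² + κ²)`, `ja'' = κ² / (s² + κ²)^(3/2) ≥ 0`; `√(s²+κ²) ≤ |s| + κ`, `|s| ≤ √(s²+κ²)`.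
-/
import Pool.Agent.H87.NS.Defs

set_option autoImplicit false

open Set Filter Topology MeasureTheory
open scoped ContDiff

namespace Pool.Agent.H87.NS

theorem JQ_pos {ε : ℝ} (hε : 0 < ε) (s : ℝ) : 0 < s ^ 2 + ε ^ 2 := by positivity

theorem JQ_d {ε : ℝ} (hε : 0 < ε) (a s : ℝ) :
    HasDerivAt (fun s : ℝ => (s ^ 2 + ε ^ 2) ^ a) (2 * s * a * (s ^ 2 + ε ^ 2) ^ (a - 1)) s := by
  have h1 : HasDerivAt (fun s : ℝ => s ^ 2 + ε ^ 2) (2 * s) s := by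
    have := (hasDerivAt_pow 2 s).add_const (ε ^ 2)
    simpa using this
  exact h1.rpow_const (Or.inl (JQ_pos hε s).ne')

theorem JQ_smooth {ε : ℝ} (hε : 0 < ε) (a : ℝ) :
    ContDiff ℝ ∞ (fun s : ℝ => (s ^ 2 + ε ^ 2) ^ a) :=
  ((contDiff_id.pow 2).add contDiff_const).rpow_const_of_ne fun s => (JQ_pos hε s).ne'

theorem JQ_eps {ε : ℝ} (hε : 0 < ε) (a b : ℝ) (h : 2 * a = b) : (ε ^ 2) ^ a = ε ^ b := by
  rw [← Real.rpow_natCast, ← Real.rpow_mul hε.le, ← h]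
  norm_num

theorem JQ_abs (s a b : ℝ) (h : 2 * a = b) : (s ^ 2) ^ a = |s| ^ b := by
  rw [← sq_abs, ← Real.rpow_natCast, ← Real.rpow_mul (abs_nonneg s), ← h]
  norm_num

theorem jq_deriv {ε : ℝ} (hε : 0 < ε) (s : ℝ) :
    deriv (jq ε) s = 3 / 2 * s * (s ^ 2 + ε ^ 2) ^ (-(1/4) : ℝ) := by
  have h1 : HasDerivAt (jq ε) (2 * s * (3 / 4) * (s ^ 2 + ε ^ 2) ^ ((3 / 4 : ℝ) - 1)) s :=
    (JQ_d hε (3 / 4) s).sub_const _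
  rw [h1.deriv, show ((3 / 4 : ℝ) - 1) = -(1 / 4) by norm_num]
  ring

theorem JQ_deriv2 {ε : ℝ} (hε : 0 < ε) (s : ℝ) :
    deriv (deriv (jq ε)) s = 3 / 2 * (s ^ 2 + ε ^ 2) ^ (-(1/4) : ℝ) -
      3 / 4 * s ^ 2 * ((s ^ 2 + ε ^ 2) ^ (-(1/4) : ℝ) / (s ^ 2 + ε ^ 2)) := by
  have h0 : deriv (jq ε) = fun s => 3 / 2 * s * (s ^ 2 + ε ^ 2) ^ (-(1/4) : ℝ) :=
    funext fun s => jq_deriv hε s
  have h1 : HasDerivAt (fun s : ℝ => 3 / 2 * s * (s ^ 2 + ε ^ 2) ^ (-(1/4) : ℝ))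
      (3 / 2 * (s ^ 2 + ε ^ 2) ^ (-(1/4) : ℝ) +
        3 / 2 * s * (2 * s * (-(1 / 4)) * (s ^ 2 + ε ^ 2) ^ ((-(1/4) : ℝ) - 1))) s := by
    have h2 : HasDerivAt (fun s : ℝ => 3 / 2 * s) (3 / 2) s := by
      simpa using (hasDerivAt_id s).const_mul (3 / 2 : ℝ)
    exact h2.mul (JQ_d hε (-(1 / 4)) s)
  rw [h0, h1.deriv, Real.rpow_sub_one (JQ_pos hε s).ne']
  ring

theorem jq_deriv2 {ε : ℝ} (hε : 0 < ε) (s : ℝ) :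
    3 / 4 * (s ^ 2 + ε ^ 2) ^ (-(1/4) : ℝ) ≤ deriv (deriv (jq ε)) s := by
  rw [JQ_deriv2 hε]
  have hP := JQ_pos hε s
  have hq : 0 < (s ^ 2 + ε ^ 2) ^ (-(1/4) : ℝ) := Real.rpow_pos_of_pos hP _
  have h1 : s ^ 2 * ((s ^ 2 + ε ^ 2) ^ (-(1/4) : ℝ) / (s ^ 2 + ε ^ 2)) ≤
      (s ^ 2 + ε ^ 2) ^ (-(1/4) : ℝ) := by
    rw [← mul_div_assoc, div_le_iff₀ hP, mul_comm]
    exact mul_le_mul_of_nonneg_left (by nlinarith [sq_nonneg ε]) hq.le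
  nlinarith

theorem jq_jfun {ε : ℝ} (hε : 0 < ε) : JFun (jq ε) where
  smooth := (JQ_smooth hε (3 / 4)).sub contDiff_const
  zero := by
    show ((0 : ℝ) ^ 2 + ε ^ 2) ^ (3/4 : ℝ) - ε ^ (3/2 : ℝ) = 0
    rw [zero_pow two_ne_zero, zero_add, JQ_eps hε (3/4) (3/2) (by norm_num), sub_self]
  dzero := by rw [jq_deriv hε]; ring
  convex := fun s => le_trans (by have := JQ_pos hε s; positivity) (jq_deriv2 hε s)

theorem jq_le {ε : ℝ} (hε : 0 < ε) (s : ℝ) : jq ε s ≤ |s| ^ (3/2 : ℝ) := by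
  unfold jq
  have h1 := Real.rpow_add_le_add_rpow (sq_nonneg s) (sq_nonneg ε)
    (show (0 : ℝ) ≤ 3 / 4 by norm_num) (show (3 / 4 : ℝ) ≤ 1 by norm_num)
  rw [JQ_abs s (3/4) (3/2) (by norm_num), JQ_eps hε (3/4) (3/2) (by norm_num)] at h1
  linarith

theorem jq_tend (s : ℝ) : Tendsto (fun n : ℕ => jq (1 / ((n : ℝ) + 1)) s) atTop (𝓝 (|s| ^ (3/2 : ℝ))) := by
  have h1 : Tendsto (fun n : ℕ => (1 / ((n : ℝ) + 1))) atTop (𝓝 0) :=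
    tendsto_one_div_add_atTop_nhds_zero_nat
  have h2 : Tendsto (fun n : ℕ => s ^ 2 + (1 / ((n : ℝ) + 1)) ^ 2) atTop (𝓝 (s ^ 2)) := by
    have := (h1.pow 2).const_add (s ^ 2)
    simpa using this
  have h3 := h2.rpow_const (p := (3 / 4 : ℝ)) (Or.inr (by norm_num))
  have h4 := h1.rpow_const (p := (3 / 2 : ℝ)) (Or.inr (by norm_num))
  have h5 := h3.sub h4
  rw [Real.zero_rpow (by norm_num), sub_zero, JQ_abs s (3/4) (3/2) (by norm_num)] at h5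
  exact h5

theorem hq_smooth {ε : ℝ} (hε : 0 < ε) : ContDiff ℝ ∞ (hq ε) :=
  contDiff_id.mul (JQ_smooth hε (-(1 / 8)))

theorem hq_zero (ε : ℝ) : hq ε 0 = 0 := by
  unfold hq; simp

theorem JQ_eighth {ε : ℝ} (hε : 0 < ε) (s : ℝ) :
    ((s ^ 2 + ε ^ 2) ^ (-(1/8) : ℝ)) ^ 2 = (s ^ 2 + ε ^ 2) ^ (-(1/4) : ℝ) := by
  rw [← Real.rpow_natCast, ← Real.rpow_mul (JQ_pos hε s).le]
  norm_num

theorem JQ_hsq {ε : ℝ} (hε : 0 < ε) (s : ℝ) :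
    hq ε s ^ 2 = s ^ 2 * (s ^ 2 + ε ^ 2) ^ (-(1/4) : ℝ) := by
  unfold hq
  rw [mul_pow, JQ_eighth hε]

theorem JQ_quart {ε : ℝ} (hε : 0 < ε) (s : ℝ) :
    (s ^ 2 + ε ^ 2) ^ (1/4 : ℝ) * (s ^ 2 + ε ^ 2) ^ (-(1/4) : ℝ) = 1 := by
  rw [← Real.rpow_add (JQ_pos hε s)]
  norm_num

theorem JQ_34 {ε : ℝ} (hε : 0 < ε) (s : ℝ) :
    (s ^ 2 + ε ^ 2) ^ (3/4 : ℝ) = (s ^ 2 + ε ^ 2) * (s ^ 2 + ε ^ 2) ^ (-(1/4) : ℝ) := by
  rw [show (3 / 4 : ℝ) = 1 + -(1/4) by norm_num, Real.rpow_add (JQ_pos hε s), Real.rpow_one]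

theorem hq_le_jq {ε : ℝ} (hε : 0 < ε) (s : ℝ) : hq ε s ^ 2 ≤ 4 / 3 * jq ε s := by
  rw [JQ_hsq hε]
  unfold jq
  rw [JQ_34 hε]
  have hP := JQ_pos hε s
  have hq0 : 0 < (s ^ 2 + ε ^ 2) ^ (-(1/4) : ℝ) := Real.rpow_pos_of_pos hP _
  have h1 := Real.geom_mean_le_arith_mean2_weighted (show (0 : ℝ) ≤ 3 / 4 by norm_num)
    (show (0 : ℝ) ≤ 1 / 4 by norm_num) (sq_nonneg ε) hP.le (by norm_num)
  rw [JQ_eps hε (3/4) (3/2) (by norm_num)] at h1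
  have h2 := mul_le_mul_of_nonneg_right h1 hq0.le
  rw [mul_assoc, JQ_quart hε, mul_one] at h2
  nlinarith

theorem jq_hq {ε : ℝ} (hε : 0 < ε) (s : ℝ) : s * deriv (jq ε) s = 3 / 2 * hq ε s ^ 2 := by
  rw [jq_deriv hε, JQ_hsq hε]
  ring

theorem hq_deriv_sq {ε : ℝ} (hε : 0 < ε) (s : ℝ) :
    deriv (hq ε) s ^ 2 ≤ 3 / 4 * deriv (deriv (jq ε)) s := by
  have hP := JQ_pos hε s
  have h1 : HasDerivAt (hq ε) (1 * (s ^ 2 + ε ^ 2) ^ (-(1/8) : ℝ) +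
      s * (2 * s * (-(1 / 8)) * (s ^ 2 + ε ^ 2) ^ ((-(1/8) : ℝ) - 1))) s :=
    (hasDerivAt_id s).mul (JQ_d hε (-(1 / 8)) s)
  rw [h1.deriv, Real.rpow_sub_one hP.ne', JQ_deriv2 hε, ← JQ_eighth hε]
  set r := (s ^ 2 + ε ^ 2) ^ (-(1/8) : ℝ)
  obtain ⟨u, hu⟩ : ∃ u, u = s ^ 2 / (s ^ 2 + ε ^ 2) := ⟨_, rfl⟩
  have hu0 : 0 ≤ u := by rw [hu]; positivity
  have hu1 : u ≤ 1 := by
    rw [hu, div_le_one hP]; nlinarith [sq_nonneg ε]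
  have e1 : 1 * r + s * (2 * s * (-(1 / 8)) * (r / (s ^ 2 + ε ^ 2))) = r * (1 - u / 4) := by
    rw [hu]; ring
  have e2 : 3 / 4 * (3 / 2 * r ^ 2 - 3 / 4 * s ^ 2 * (r ^ 2 / (s ^ 2 + ε ^ 2))) =
      r ^ 2 * (3 / 4 * (3 / 2 - 3 / 4 * u)) := by
    rw [hu]; ring
  rw [e1, e2, mul_pow]
  refine mul_le_mul_of_nonneg_left ?_ (sq_nonneg r)
  nlinarith [mul_nonneg (sub_nonneg.2 hu1) hu0]

theorem JQ_nonneg {ε : ℝ} (hε : 0 < ε) (s : ℝ) : 0 ≤ jq ε s := by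
  have := hq_le_jq hε s
  nlinarith [sq_nonneg (hq ε s)]

theorem hq_mul {ε : ℝ} (hε : 0 < ε) (s : ℝ) :
    hq ε s ^ 2 * (s ^ 2 + ε ^ 2) ^ (1/2 : ℝ) ≤ hq ε s ^ 2 * jq ε s ^ (2/3 : ℝ) + √ε * s ^ 2 := by
  have hP := JQ_pos hε s
  have h1 : (s ^ 2 + ε ^ 2) ^ (1/2 : ℝ) ≤ jq ε s ^ (2/3 : ℝ) + ε := by
    have e1 : (s ^ 2 + ε ^ 2) ^ (1/2 : ℝ) = (jq ε s + ε ^ (3/2 : ℝ)) ^ (2/3 : ℝ) := by
      unfold jq
      rw [sub_add_cancel, ← Real.rpow_mul hP.le]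
      norm_num
    have e2 : (ε ^ (3/2 : ℝ)) ^ (2/3 : ℝ) = ε := by
      rw [← Real.rpow_mul hε.le]; norm_num
    have h2 := Real.rpow_add_le_add_rpow (JQ_nonneg hε s)
      (show (0 : ℝ) ≤ ε ^ (3/2 : ℝ) by positivity)
      (show (0 : ℝ) ≤ 2 / 3 by norm_num) (show (2 / 3 : ℝ) ≤ 1 by norm_num)
    rw [e2] at h2
    rw [e1]
    exact h2
  have h3 : hq ε s ^ 2 * ε ≤ √ε * s ^ 2 := by
    rw [JQ_hsq hε]
    have h4 : (s ^ 2 + ε ^ 2) ^ (-(1/4) : ℝ) ≤ (ε ^ 2) ^ (-(1/4) : ℝ) :=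
      Real.rpow_le_rpow_of_nonpos (by positivity) (by nlinarith [sq_nonneg s]) (by norm_num)
    rw [JQ_eps hε (-(1/4)) (-(1/2)) (by norm_num)] at h4
    have h5 : ε ^ (-(1/2) : ℝ) * ε = √ε := by
      rw [Real.sqrt_eq_rpow]
      nth_rewrite 2 [← Real.rpow_one ε]
      rw [← Real.rpow_add hε]
      norm_num
    have h6 : (s ^ 2 + ε ^ 2) ^ (-(1/4) : ℝ) * ε ≤ √ε := by
      rw [← h5]; exact mul_le_mul_of_nonneg_right h4 hε.le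
    nlinarith [sq_nonneg s, mul_le_mul_of_nonneg_left h6 (sq_nonneg s)]
  have h7 := mul_le_mul_of_nonneg_left h1 (sq_nonneg (hq ε s))
  linarith

theorem jq_young {ε l g : ℝ} (hε : 0 < ε) (hl : 0 < l) (hg : 0 ≤ g) (s : ℝ) :
    |s| * g ≤ l / 2 * (hq ε s ^ 2 * (s ^ 2 + ε ^ 2) ^ (1/2 : ℝ))
      + 2 / (3 * l) * (deriv (deriv (jq ε)) s * g ^ 2) := by
  have hP := JQ_pos hε s
  have h1 := jq_deriv2 hε s
  have hQ : 0 < (s ^ 2 + ε ^ 2) ^ (1/4 : ℝ) := Real.rpow_pos_of_pos hP _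
  have hq0 : 0 < (s ^ 2 + ε ^ 2) ^ (-(1/4) : ℝ) := Real.rpow_pos_of_pos hP _
  have hQq := JQ_quart hε s
  have e1 : hq ε s ^ 2 * (s ^ 2 + ε ^ 2) ^ (1/2 : ℝ) = s ^ 2 * (s ^ 2 + ε ^ 2) ^ (1/4 : ℝ) := by
    rw [JQ_hsq hε, mul_assoc, ← Real.rpow_add hP]
    norm_num
  rw [e1]
  set Q := (s ^ 2 + ε ^ 2) ^ (1/4 : ℝ)
  set q := (s ^ 2 + ε ^ 2) ^ (-(1/4) : ℝ)
  have h2 : 2 / (3 * l) * (3 / 4 * q * g ^ 2) ≤ 2 / (3 * l) * (deriv (deriv (jq ε)) s * g ^ 2) :=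
    mul_le_mul_of_nonneg_left (mul_le_mul_of_nonneg_right h1 (sq_nonneg g)) (by positivity)
  have h3 : 2 / (3 * l) * (3 / 4 * q * g ^ 2) = q * g ^ 2 / (2 * l) := by
    field_simp; ring
  have h4 : |s| * g ≤ l / 2 * (s ^ 2 * Q) + q * g ^ 2 / (2 * l) := by
    have h5 : 0 ≤ q / (2 * l) * (l * |s| * Q - g) ^ 2 := by positivity
    have h6 : q / (2 * l) * (l * |s| * Q - g) ^ 2 =
        l / 2 * (|s| ^ 2 * Q) * (Q * q) - |s| * g * (Q * q) + q * g ^ 2 / (2 * l) := by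
      field_simp; ring
    rw [h6, hQq, sq_abs] at h5
    linarith
  linarith

theorem JQ_ja {κ : ℝ} (hκ : 0 < κ) (s : ℝ) :
    HasDerivAt (ja κ) (s / √(s ^ 2 + κ ^ 2)) s := by
  have h1 : HasDerivAt (fun s : ℝ => s ^ 2 + κ ^ 2) (2 * s) s := by
    have := (hasDerivAt_pow 2 s).add_const (κ ^ 2)
    simpa using this
  have h2 := (h1.sqrt (JQ_pos hκ s).ne').sub_const κ
  have h3 : 2 * s / (2 * √(s ^ 2 + κ ^ 2)) = s / √(s ^ 2 + κ ^ 2) :=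
    mul_div_mul_left _ _ two_ne_zero
  rw [h3] at h2
  exact h2

theorem JQ_le_sqrt (κ s : ℝ) : |s| ≤ √(s ^ 2 + κ ^ 2) :=
  Real.abs_le_sqrt (by nlinarith [sq_nonneg κ])

theorem ja_deriv {κ : ℝ} (hκ : 0 < κ) (s : ℝ) : |deriv (ja κ) s| ≤ 1 := by
  have h0 : 0 < √(s ^ 2 + κ ^ 2) := Real.sqrt_pos.2 (JQ_pos hκ s)
  rw [(JQ_ja hκ s).deriv, abs_div, abs_of_pos h0, div_le_one h0]
  exact JQ_le_sqrt κ s

theorem ja_jfun {κ : ℝ} (hκ : 0 < κ) : JFun (ja κ) where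
  smooth := (((contDiff_id.pow 2).add contDiff_const).sqrt fun s =>
    (JQ_pos hκ s).ne').sub contDiff_const
  zero := by
    show √((0 : ℝ) ^ 2 + κ ^ 2) - κ = 0
    rw [zero_pow two_ne_zero, zero_add, Real.sqrt_sq hκ.le, sub_self]
  dzero := by rw [(JQ_ja hκ 0).deriv, zero_div]
  convex := fun s => by
    have hP := JQ_pos hκ s
    have h0 : 0 < √(s ^ 2 + κ ^ 2) := Real.sqrt_pos.2 hP
    have e : deriv (ja κ) = fun s => s / √(s ^ 2 + κ ^ 2) := funext fun s => (JQ_ja hκ s).deriv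
    have h1 : HasDerivAt (fun s : ℝ => √(s ^ 2 + κ ^ 2)) (s / √(s ^ 2 + κ ^ 2)) s := by
      have := (JQ_ja hκ s).add_const κ
      have e2 : (fun x => ja κ x + κ) = fun s : ℝ => √(s ^ 2 + κ ^ 2) := by
        funext x; unfold ja; ring
      rwa [e2] at this
    have h2 := (hasDerivAt_id s).div h1 h0.ne'
    have h3 : deriv (fun s : ℝ => s / √(s ^ 2 + κ ^ 2)) s =
        (1 * √(s ^ 2 + κ ^ 2) - s * (s / √(s ^ 2 + κ ^ 2))) / √(s ^ 2 + κ ^ 2) ^ 2 := h2.deriv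
    rw [e, h3]
    refine div_nonneg ?_ (sq_nonneg _)
    have h4 : s * (s / √(s ^ 2 + κ ^ 2)) ≤ √(s ^ 2 + κ ^ 2) := by
      rw [← mul_div_assoc, div_le_iff₀ h0, Real.mul_self_sqrt hP.le]
      nlinarith [sq_nonneg κ]
    linarith

theorem ja_le {κ : ℝ} (hκ : 0 < κ) (s : ℝ) : 0 ≤ ja κ s ∧ ja κ s ≤ |s| ∧ |s| ≤ ja κ s + κ := by
  unfold ja
  refine ⟨?_, ?_, ?_⟩
  · have : κ ≤ √(s ^ 2 + κ ^ 2) := Real.le_sqrt_of_sq_le (by nlinarith [sq_nonneg s])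
    linarith
  · have : √(s ^ 2 + κ ^ 2) ≤ |s| + κ := by
      rw [Real.sqrt_le_left (by positivity)]
      have := abs_nonneg s
      nlinarith [sq_abs s, mul_nonneg this hκ.le]
    linarith
  · have := JQ_le_sqrt κ s
    linarith

theorem ja_tend (s : ℝ) : Tendsto (fun n : ℕ => ja (1 / ((n : ℝ) + 1)) s) atTop (𝓝 |s|) := by
  have h1 : Tendsto (fun n : ℕ => (1 / ((n : ℝ) + 1))) atTop (𝓝 0) :=
    tendsto_one_div_add_atTop_nhds_zero_nat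
  have h2 : Tendsto (fun n : ℕ => s ^ 2 + (1 / ((n : ℝ) + 1)) ^ 2) atTop (𝓝 (s ^ 2)) := by
    have := (h1.pow 2).const_add (s ^ 2)
    simpa using this
  have h3 := h2.sqrt.sub h1
  rw [sub_zero, Real.sqrt_sq_eq_abs] at h3
  exact h3

theorem pow_deriv (m : ℕ) (s : ℝ) : deriv (fun s : ℝ => s ^ (2 * m)) s = 2 * m * s ^ (2 * m - 1) := by
  rw [(hasDerivAt_pow (2 * m) s).deriv]
  push_cast
  ring

theorem pow_deriv2 (m : ℕ) (s : ℝ) :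
    deriv (deriv (fun s : ℝ => s ^ (2 * m))) s = 2 * m * ((2 * m - 1 : ℕ) : ℝ) * s ^ (2 * m - 2) := by
  have e : deriv (fun s : ℝ => s ^ (2 * m)) = fun s => 2 * (m : ℝ) * s ^ (2 * m - 1) :=
    funext fun s => pow_deriv m s
  rw [e, ((hasDerivAt_pow (2 * m - 1) s).const_mul (2 * (m : ℝ))).deriv,
    show 2 * m - 1 - 1 = 2 * m - 2 by omega]
  ring

theorem pow_jfun {m : ℕ} (hm : 1 ≤ m) : JFun (fun s : ℝ => s ^ (2 * m)) where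
  smooth := contDiff_id.pow _
  zero := by
    show (0 : ℝ) ^ (2 * m) = 0
    exact zero_pow (by omega)
  dzero := by
    rw [pow_deriv, zero_pow (by omega), mul_zero]
  convex := fun s => by
    rw [pow_deriv2]
    have : (0 : ℝ) ≤ s ^ (2 * m - 2) := by
      rw [show 2 * m - 2 = 2 * (m - 1) by omega, pow_mul]
      positivity
    positivity

end Pool.Agent.H87.NS
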