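/-
ROW PtV. PROOF. Let `H = hq ε ∘ V` (`DB 1` by comp_DB, hq_smooth, hq_zero), `D = ∫ jq''(V) gsq V`, `J = ∫ jq ε (V) ≤ N`, `N > 0`, `l > 0` to be chosen.
Integrate jq_young at `s = V x`, `g = √(gsq V x)`, then hq_mul:
`∫ |V| √(gsq V) ≤ (l/2) (∫ H² jq(V)^(2/3) + √ε ∫ V²) + (2/(3l)) D`.
Hölder with exponents `3` and `3/2` (`integral_mul_le_Lp_mul_Lq_of_nonneg`): `∫ H² jq(V)^(2/3) ≤ (∫ H⁶)^(1/3) (∫ jq(V))^(2/3)
≤ SB (∫ gsq H) N^(2/3)` (SB_spec), and `gsq H = hq'(V)² gsq V ≤ (3/4) jq''(V) gsq V` (comp_gsq, hq_deriv_sq), so it is `≤ (3/4) SB N^(2/3) D`.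
With `l = (4/3) / (√SB N^(1/3))`: `(l/2) (3/4) SB N^(2/3) = (1/2) √SB N^(1/3)`, `2/(3l) = (1/2) √SB N^(1/3)`, `l/2 ≤ (√SB N^(1/3))⁻¹`.
Integrability of all terms: continuous functions of `V` vanishing to second order (jfun_bd for jq; `H² ≤ (4/3) jq ≤ C V²`, `V` bounded), times bounded
functions, and `jq''(V) gsq V ≤ C gsq V`.
-/
import Pool.Agent.H87.NS.JQ
import Pool.Agent.H87.NS.JF
import Pool.Agent.H87.NS.Sob

set_option autoImplicit false

open Set Filter Topology MeasureTheory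
open scoped ContDiff

namespace Pool.Agent.H87.NS

open Pool.Agent.H16

lemma PtV_cont_gsq {V : E3 → ℝ} (hV : ContDiff ℝ ∞ V) : Continuous (gsq V) := by
  unfold gsq
  exact continuous_finset_sum _ fun i _ => (pd_smooth hV i).continuous.pow 2

lemma PtV_memLp {f : E3 → ℝ} {p : ℝ} (hp : 0 < p) (hf : Continuous f) (h0 : ∀ x, 0 ≤ f x)
    (hi : Integrable (fun x => f x ^ p)) : MemLp f (ENNReal.ofReal p) volume := by
  rw [← integrable_norm_rpow_iff hf.aestronglyMeasurable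
    (by rw [ne_eq, ENNReal.ofReal_eq_zero, not_le]; exact hp) ENNReal.ofReal_ne_top]
  rw [ENNReal.toReal_ofReal hp.le]
  simpa only [Real.norm_of_nonneg (h0 _)] using hi

theorem pt_V {V : E3 → ℝ} (hV : ContDiff ℝ ∞ V) {K : ℝ} (hK : DB 1 K V) {ε N : ℝ} (hε : 0 < ε) (hN : 0 < N)
    (hJ : ∫ x, jq ε (V x) ≤ N) :
    ∫ x, |V x| * √(gsq V x) ≤ √SB * N ^ (1/3 : ℝ) * (∫ x, deriv (deriv (jq ε)) (V x) * gsq V x)
      + (√SB * N ^ (1/3 : ℝ))⁻¹ * √ε * (∫ x, V x ^ 2) := by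
  have hj := jq_jfun hε
  have hV1 : ContDiff ℝ 1 V := hV.of_le (by exact_mod_cast le_top)
  have hH1 : ContDiff ℝ 1 (hq ε) := (hq_smooth hε).of_le (by exact_mod_cast le_top)
  obtain ⟨hVb, hVi, -⟩ := DB_BL hK
  obtain ⟨hGi, -⟩ := gsq_int hK
  obtain ⟨C, hC0, hC⟩ := jfun_bd hj K
  set H : E3 → ℝ := fun y => hq ε (V y) with hH
  have hHc : ContDiff ℝ 1 H := hH1.comp hV1
  obtain ⟨K', hK'⟩ := comp_DB hH1 (hq_zero ε) K
  have hHDB : DB 1 K' H := hK' V hV1 hK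
  obtain ⟨hH6i, hH6⟩ := SB_spec hHc hHDB
  obtain ⟨hGHi, -⟩ := gsq_int hHDB
  -- continuity
  have hjc : Continuous (jq ε) := hj.smooth.continuous
  have hj1 : ContDiff ℝ ∞ (deriv (jq ε)) :=
    (contDiff_infty_iff_deriv.1 hj.smooth).2
  have hj2 : Continuous (deriv (deriv (jq ε))) := (contDiff_infty_iff_deriv.1 hj1).2.continuous
  have hJc : Continuous (fun x => jq ε (V x)) := hjc.comp hV.continuous
  have hJ2c : Continuous (fun x => deriv (deriv (jq ε)) (V x)) := hj2.comp hV.continuous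
  have hGc := PtV_cont_gsq hV
  have hJ0 : ∀ x, 0 ≤ jq ε (V x) := fun x => jfun_nonneg hj _
  have hJC : ∀ x, jq ε (V x) ≤ C * V x ^ 2 := fun x => (hC (V x) (hVb x)).1
  have hJi : Integrable (fun x => jq ε (V x)) := by
    refine Integrable.mono' (hVi.const_mul C) hJc.aestronglyMeasurable (ae_of_all _ fun x => ?_)
    rw [Real.norm_of_nonneg (hJ0 x)]
    exact hJC x
  have hDi : Integrable (fun x => deriv (deriv (jq ε)) (V x) * gsq V x) := by
    refine Integrable.mono' (hGi.const_mul C) (hJ2c.mul hGc).aestronglyMeasurable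
      (ae_of_all _ fun x => ?_)
    rw [Real.norm_of_nonneg (mul_nonneg (hj.convex _) (gsq_nonneg _ _))]
    exact mul_le_mul_of_nonneg_right (hC (V x) (hVb x)).2.2 (gsq_nonneg _ _)
  set D := ∫ x, deriv (deriv (jq ε)) (V x) * gsq V x with hD
  have hD0 : 0 ≤ D := integral_nonneg fun x => mul_nonneg (hj.convex _) (gsq_nonneg _ _)
  -- the gradient of H
  have hGH : ∫ x, gsq H x ≤ 3 / 4 * D := by
    rw [hD, ← integral_const_mul]
    refine integral_mono hGHi (hDi.const_mul _) fun x => ?_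
    have h1 := comp_gsq hV1 hH1 x
    have h2 := hq_deriv_sq hε (V x)
    show gsq (fun y => hq ε (V y)) x ≤ _
    rw [h1]
    calc deriv (hq ε) (V x) ^ 2 * gsq V x ≤ (3 / 4 * deriv (deriv (jq ε)) (V x)) * gsq V x :=
          mul_le_mul_of_nonneg_right h2 (gsq_nonneg _ _)
      _ = 3 / 4 * (deriv (deriv (jq ε)) (V x) * gsq V x) := by ring
  have hGH0 : 0 ≤ ∫ x, gsq H x := integral_nonneg fun x => gsq_nonneg _ _
  have hp1 : Continuous (fun x => jq ε (V x) ^ (2/3 : ℝ)) :=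
    hJc.rpow_const fun x => Or.inr (by norm_num)
  have hH2c : Continuous (fun x => H x ^ 2) := hHc.continuous.pow 2
  -- Hoelder
  have hcH : ∀ x, (H x ^ 2) ^ (3 : ℝ) = H x ^ 6 := by
    intro x
    rw [show (3 : ℝ) = ((3 : ℕ) : ℝ) by norm_num, Real.rpow_natCast]
    ring
  have hcJ : ∀ x, (jq ε (V x) ^ (2/3 : ℝ)) ^ (3/2 : ℝ) = jq ε (V x) := by
    intro x
    rw [← Real.rpow_mul (hJ0 x)]
    norm_num
  have m1 : MemLp (fun x => H x ^ 2) (ENNReal.ofReal 3) volume := by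
    refine PtV_memLp (by norm_num) hH2c (fun x => sq_nonneg _) ?_
    simp only [hcH]
    exact hH6i
  have m2 : MemLp (fun x => jq ε (V x) ^ (2/3 : ℝ)) (ENNReal.ofReal (3/2)) volume := by
    refine PtV_memLp (by norm_num) hp1 (fun x => Real.rpow_nonneg (hJ0 x) _) ?_
    simp only [hcJ]
    exact hJi
  have hconj : (3 : ℝ).HolderConjugate (3/2) := by
    rw [Real.holderConjugate_iff]
    norm_num
  have hHol := integral_mul_le_Lp_mul_Lq_of_nonneg hconj (ae_of_all _ fun x => sq_nonneg (H x))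
    (ae_of_all _ fun x => Real.rpow_nonneg (hJ0 x) (2/3)) m1 m2
  simp only [hcH, hcJ] at hHol
  have e32 : (1 / (3/2) : ℝ) = 2/3 := by norm_num
  rw [e32] at hHol
  have hI1i : Integrable (fun x => H x ^ 2 * jq ε (V x) ^ (2/3 : ℝ)) := by
    refine Integrable.mono' ((hJi.const_mul (4/3)).mul_const ((C * K ^ 2) ^ (2/3 : ℝ)))
      (hH2c.mul hp1).aestronglyMeasurable (ae_of_all _ fun x => ?_)
    rw [Real.norm_of_nonneg (mul_nonneg (sq_nonneg _) (Real.rpow_nonneg (hJ0 x) _))]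
    refine mul_le_mul (hq_le_jq hε (V x)) (Real.rpow_le_rpow (hJ0 x) ?_ (by norm_num))
      (Real.rpow_nonneg (hJ0 x) _) (mul_nonneg (by norm_num) (hJ0 x))
    refine (hJC x).trans (mul_le_mul_of_nonneg_left ?_ hC0)
    have := hVb x
    rw [← sq_abs (V x)]
    exact pow_le_pow_left₀ (abs_nonneg _) this 2
  have hJN : (∫ x, jq ε (V x)) ^ (2/3 : ℝ) ≤ N ^ (2/3 : ℝ) :=
    Real.rpow_le_rpow (integral_nonneg hJ0) hJ (by norm_num)
  have hI1 : ∫ x, H x ^ 2 * jq ε (V x) ^ (2/3 : ℝ) ≤ (SB * (3 / 4 * D)) * N ^ (2/3 : ℝ) := by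
    refine hHol.trans ?_
    refine mul_le_mul (hH6.trans (mul_le_mul_of_nonneg_left hGH SB_pos.le)) hJN
      (Real.rpow_nonneg (integral_nonneg hJ0) _) (by have := SB_pos; positivity)
  -- the choice of l
  set a := √SB * N ^ (1/3 : ℝ) with ha
  have hSB := SB_pos
  have ha0 : 0 < a := by
    have : 0 < √SB := Real.sqrt_pos.2 hSB
    positivity
  have ha2 : a ^ 2 = SB * N ^ (2/3 : ℝ) := by
    rw [ha, mul_pow, Real.sq_sqrt hSB.le, ← Real.rpow_natCast (N ^ (1/3 : ℝ)) 2, ← Real.rpow_mul hN.le]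
    norm_num
  set l := (4/3) / a with hl
  have hl0 : 0 < l := by positivity
  have hpt : ∀ x, |V x| * √(gsq V x) ≤ l / 2 * (H x ^ 2 * jq ε (V x) ^ (2/3 : ℝ)) + l / 2 * √ε * V x ^ 2
      + 2 / (3 * l) * (deriv (deriv (jq ε)) (V x) * gsq V x) := by
    intro x
    have h1 := jq_young hε hl0 (Real.sqrt_nonneg (gsq V x)) (V x)
    rw [Real.sq_sqrt (gsq_nonneg _ _)] at h1
    have h2 := hq_mul hε (V x)
    have h3 := mul_le_mul_of_nonneg_left h2 (by positivity : 0 ≤ l / 2)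
    show _ ≤ l / 2 * (hq ε (V x) ^ 2 * jq ε (V x) ^ (2/3 : ℝ)) + l / 2 * √ε * V x ^ 2 + _
    linarith
  have i1 := hI1i.const_mul (l / 2)
  have i2 := hVi.const_mul (l / 2 * √ε)
  have i3 := hDi.const_mul (2 / (3 * l))
  have i12 : Integrable (fun x => l / 2 * (H x ^ 2 * jq ε (V x) ^ (2/3 : ℝ)) + l / 2 * √ε * V x ^ 2) :=
    i1.add i2
  have hint : ∫ x, |V x| * √(gsq V x) ≤ l / 2 * (∫ x, H x ^ 2 * jq ε (V x) ^ (2/3 : ℝ))
      + l / 2 * √ε * (∫ x, V x ^ 2) + 2 / (3 * l) * D := by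
    have h1 := integral_mono_of_nonneg (ae_of_all _ fun x =>
      mul_nonneg (abs_nonneg (V x)) (Real.sqrt_nonneg (gsq V x))) (i12.add i3) (ae_of_all _ hpt)
    have h2 : ∫ x, (l / 2 * (H x ^ 2 * jq ε (V x) ^ (2/3 : ℝ)) + l / 2 * √ε * V x ^ 2
        + 2 / (3 * l) * (deriv (deriv (jq ε)) (V x) * gsq V x)) =
        l / 2 * (∫ x, H x ^ 2 * jq ε (V x) ^ (2/3 : ℝ))
      + l / 2 * √ε * (∫ x, V x ^ 2) + 2 / (3 * l) * D := by
      rw [integral_add i12 i3, integral_add i1 i2, integral_const_mul, integral_const_mul,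
        integral_const_mul]
    rw [← h2]
    exact h1
  refine hint.trans ?_
  have hV2 : 0 ≤ ∫ x, V x ^ 2 := integral_nonneg fun x => sq_nonneg _
  have f1 : l / 2 * (∫ x, H x ^ 2 * jq ε (V x) ^ (2/3 : ℝ)) ≤ a / 2 * D := by
    calc l / 2 * (∫ x, H x ^ 2 * jq ε (V x) ^ (2/3 : ℝ))
        ≤ l / 2 * ((SB * (3 / 4 * D)) * N ^ (2/3 : ℝ)) := mul_le_mul_of_nonneg_left hI1 (by positivity)
      _ = l / 2 * (3 / 4) * (SB * N ^ (2/3 : ℝ)) * D := by ring
      _ = l / 2 * (3 / 4) * a ^ 2 * D := by rw [ha2]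
      _ = a / 2 * D := by
          rw [hl]
          field_simp
  have f2 : 2 / (3 * l) * D = a / 2 * D := by
    rw [hl]
    field_simp
    ring
  have f3 : l / 2 * √ε * (∫ x, V x ^ 2) ≤ a⁻¹ * √ε * ∫ x, V x ^ 2 := by
    have h1 : l / 2 ≤ a⁻¹ := by
      rw [hl, div_div, div_le_iff₀ (by positivity)]
      field_simp
      norm_num
    gcongr
  linarith

end Pool.Agent.H87.NS
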