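/-
ROW StepJ. PROOF. step_J: ev1 for `V` (F.evV) and `j = jq ε` (jq_jfun): `∫ jq(V b) + ∫_a^b ∫ jq'' gsq V ≤ ∫ jq(V a) + ∫_a^b ∫ jq'(V) (-2 W V)`. For each
`t ∈ [a,b]`, `jq'(V) (-2 W V) ≤ 2 |W| |V jq'(V)| = 3 |W| hq(V)²` (jq_hq), and S1 with `G = hq ε ∘ V` (comp_DB), `c = 12 / c0` (F.ker; the integrability
hypothesis is int_div), `gsq G ≤ (3/4) jq''(V) gsq V` (comp_gsq, hq_deriv_sq):
`3 ∫ |W| G² ≤ 3 * 4 * (12/c0) * c1 * (3/4) ∫ jq'' gsq V = (108/216) ∫ jq'' gsq V = (1/2) ∫ jq'' gsq V` (`c1 = c0 / 216`, c0_pos). Integrate in `t` (evo_ii for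
the interval integrability, `intervalIntegral.integral_mono_on`).
VdV: let `N = ∫ |V a|^(3/2)`, `δ > 0`, `N' = N + δ`, `0 < ε`. By step_J on `[a, t]` and jq_le, `∫ jq ε (V t) ≤ N ≤ N'` and `∫_a^b D_ε ≤ 2 N`. pt_V at each
`t` and integration: `∫_a^b ∫ |V| √gsq V ≤ √SB N'^(1/3) 2 N + (√SB N'^(1/3))⁻¹ √ε (b - a) K` (`∫ V² ≤ K` on `[0,b]`). Let `ε → 0`, then `δ → 0`:
`≤ 2 √SB N^(1/3) N = 2 √SB N^(4/3)`. Interval integrability of `t ↦ ∫ |V| √(gsq V)`: ti_int (`|V| √g ≤ V² + g`).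
-/
import Pool.Agent.H87.NS.PtV
import Pool.Agent.H87.NS.EV
import Pool.Agent.H87.NS.S1
import Pool.Agent.H87.NS.KInt

set_option autoImplicit false

open Set Filter Topology MeasureTheory
open scoped ContDiff

namespace Pool.Agent.H87.NS

open Pool.Agent.H16

variable {T : ℝ} {u : ℝ → E3 → E3} {V W Om : ℝ → E3 → ℝ}

theorem StepJ_pw (g : E3 → ℝ) (x : E3) : |g x| * √(gsq g x) ≤ g x ^ 2 + gsq g x := by
  have h1 := Real.sq_sqrt (gsq_nonneg g x)
  have h2 := sq_abs (g x)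
  have h3 := Real.sqrt_nonneg (gsq g x)
  nlinarith [sq_nonneg (|g x| - √(gsq g x)), abs_nonneg (g x), mul_nonneg (abs_nonneg (g x)) h3]

theorem StepJ_nn (g : E3 → ℝ) (x : E3) : 0 ≤ |g x| * √(gsq g x) :=
  mul_nonneg (abs_nonneg _) (Real.sqrt_nonneg _)

theorem StepJ_gsq_cont {g : E3 → ℝ} (hg : ContDiff ℝ 1 g) : Continuous (gsq g) := by
  unfold gsq
  exact continuous_finsetSum _ fun i _ => (pd_cont hg i).pow 2

theorem vdv_bd (F : Flow T u V W Om) {b : ℝ} (hb : b < T) :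
    ∃ K : ℝ, 0 < K ∧ ∀ t ∈ Icc 0 b, Integrable (fun x => |V t x| * √(gsq (V t) x)) ∧
      ∫ x, |V t x| * √(gsq (V t) x) ≤ K := by
  obtain ⟨K, hK⟩ := F.evV.bd b hb
  refine ⟨|K| + 3 * |K| + 1, by positivity, fun t ht => ?_⟩
  have hd := (hK t ht).1
  have hsm : ContDiff ℝ 1 (V t) :=
    (F.evV.smooth t ⟨ht.1, ht.2.trans_lt hb⟩).of_le (by exact_mod_cast le_top)
  have h1 := (DB_BL hd).2
  have h2 := gsq_int hd
  have h3 : Integrable (fun x => V t x ^ 2 + gsq (V t) x) := h1.1.add h2.1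
  have h4 : Integrable (fun x => |V t x| * √(gsq (V t) x)) := by
    refine h3.mono' ?_ (Eventually.of_forall fun x => ?_)
    · exact (hsm.continuous.abs.mul (StepJ_gsq_cont hsm).sqrt).aestronglyMeasurable
    · rw [Real.norm_of_nonneg (StepJ_nn _ _)]
      exact StepJ_pw _ _
  refine ⟨h4, ?_⟩
  have h5 : ∫ x, |V t x| * √(gsq (V t) x) ≤ ∫ x, (V t x ^ 2 + gsq (V t) x) :=
    integral_mono h4 h3 (fun x => StepJ_pw _ _)
  have h6 : ∫ x, (V t x ^ 2 + gsq (V t) x) = (∫ x, V t x ^ 2) + ∫ x, gsq (V t) x :=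
    integral_add h1.1 h2.1
  have h7 := le_abs_self K
  linarith [h1.2, h2.2]

/-- The function `t ↦ ∫ |V| |∇ V|` is interval integrable and bounded. -/
theorem vdv_ii (F : Flow T u V W Om) {a b : ℝ} (ha : 0 ≤ a) (hab : a ≤ b) (hb : b < T) :
    IntervalIntegrable (fun t => ∫ x, |V t x| * √(gsq (V t) x)) volume a b := by
  obtain ⟨K, _, hK⟩ := vdv_bd F hb
  have hg : JC T (fun t => gsq (V t)) := (evo_jc F.evV (jq_jfun one_pos)).2.2.2
  have hV : JC T V := F.evV.cont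
  have hJ : JC T (fun t x => |V t x| * √(gsq (V t) x)) := by
    unfold JC at hg hV ⊢
    exact hV.abs.mul hg.sqrt
  refine ti_int hJ hb (K := K) (fun t ht => ⟨(hK t ht).1, ?_⟩) ha hab
  simp only [abs_of_nonneg (StepJ_nn _ _)]
  exact (hK t ht).2

theorem StepJ_D_nonneg {ε : ℝ} (hε : 0 < ε) (g : E3 → ℝ) :
    0 ≤ ∫ x, deriv (deriv (jq ε)) (g x) * gsq g x :=
  integral_nonneg fun x => mul_nonneg ((jq_jfun hε).convex _) (gsq_nonneg _ _)

/-- The estimate of the stretching term at one time. -/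
theorem StepJ_one (F : Flow T u V W Om) {t : ℝ} (ht : t ∈ Ico 0 T)
    (hs : Integrable (Om t) ∧ ∫ x, |Om t x| ≤ c1) {ε : ℝ} (hε : 0 < ε) :
    ∫ x, deriv (jq ε) (V t x) * (-2 * W t x * V t x)
      ≤ 1 / 2 * ∫ x, deriv (deriv (jq ε)) (V t x) * gsq (V t) x := by
  have hc0 := c0_pos
  obtain ⟨T', hT1, hT2⟩ := exists_between ht.2
  have htT : t ∈ Icc 0 T' := ⟨ht.1, hT1.le⟩
  obtain ⟨K, hK⟩ := F.evV.bd T' hT2
  obtain ⟨KW, hKW⟩ := F.wbd T' hT2
  obtain ⟨KO, hKO⟩ := F.evO.bd T' hT2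
  have hd := (hK t htT).1
  have hdO := (hKO t htT).1
  have hdW := hKW t htT
  have hsm : ContDiff ℝ 1 (V t) := (F.evV.smooth t ht).of_le (by exact_mod_cast le_top)
  have hsO : Continuous (Om t) := (F.evO.smooth t ht).continuous
  have hWc : Continuous (W t) := by
    have h1 := F.wcont
    unfold JC at h1
    have h2 : ContinuousOn (fun x : E3 => W t x) univ :=
      h1.comp (f := fun x : E3 => (t, x)) (by fun_prop) (fun _ _ => ⟨ht, mem_univ _⟩)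
    exact continuousOn_univ.1 h2
  have hh1 : ContDiff ℝ 1 (hq ε) := (hq_smooth hε).of_le (by exact_mod_cast le_top)
  obtain ⟨K', hK'⟩ := comp_DB hh1 (hq_zero ε) K
  have hG : ContDiff ℝ 1 (fun y => hq ε (V t y)) := hh1.comp hsm
  have hGD : DB 1 K' (fun y => hq ε (V t y)) := hK' (V t) hsm hd
  have hS := S1 hWc hdW.1 hsO hs.1 hG hGD (c := 12 / c0) (by positivity)
    (fun x hx => F.ker t ht x hx) (int_div hsO (DB_BL hdO))
  have hint := evo_int F.evV (jq_jfun hε) ht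
  -- comparison of the gradients
  have hgG : ∫ x, gsq (fun y => hq ε (V t y)) x ≤
      3 / 4 * ∫ x, deriv (deriv (jq ε)) (V t x) * gsq (V t) x := by
    rw [← integral_const_mul]
    refine integral_mono (gsq_int hGD).1 (hint.2.1.const_mul _) fun x => ?_
    show gsq (fun y => hq ε (V t y)) x ≤ 3 / 4 * (deriv (deriv (jq ε)) (V t x) * gsq (V t) x)
    rw [comp_gsq hsm hh1, ← mul_assoc]
    exact mul_le_mul_of_nonneg_right (hq_deriv_sq hε _) (gsq_nonneg _ _)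
  have hG2 : Integrable (fun x => |W t x| * hq ε (V t x) ^ 2) := by
    refine Integrable.mono' ((DB_BL hGD).2.1.const_mul KW)
      (hWc.abs.mul (hG.continuous.pow 2)).aestronglyMeasurable (Eventually.of_forall fun x => ?_)
    rw [Real.norm_of_nonneg (mul_nonneg (abs_nonneg _) (sq_nonneg _))]
    exact mul_le_mul_of_nonneg_right (hdW.1 x) (sq_nonneg _)
  have h1 : ∫ x, deriv (jq ε) (V t x) * (-2 * W t x * V t x) ≤
      ∫ x, 3 * (|W t x| * hq ε (V t x) ^ 2) := by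
    refine integral_mono hint.2.2 (hG2.const_mul 3) fun x => ?_
    show deriv (jq ε) (V t x) * (-2 * W t x * V t x) ≤ 3 * (|W t x| * hq ε (V t x) ^ 2)
    have h2 := jq_hq hε (V t x)
    have h3 : deriv (jq ε) (V t x) * (-2 * W t x * V t x) = -W t x * (3 * hq ε (V t x) ^ 2) := by
      have : deriv (jq ε) (V t x) * (-2 * W t x * V t x) =
          -W t x * (2 * (V t x * deriv (jq ε) (V t x))) := by ring
      rw [this, h2]
      ring
    rw [h3]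
    have h4 : -W t x ≤ |W t x| := neg_le_abs _
    calc -W t x * (3 * hq ε (V t x) ^ 2) ≤ |W t x| * (3 * hq ε (V t x) ^ 2) :=
          mul_le_mul_of_nonneg_right h4 (by positivity)
      _ = 3 * (|W t x| * hq ε (V t x) ^ 2) := by ring
  rw [integral_const_mul] at h1
  have hgn : 0 ≤ ∫ x, gsq (fun y => hq ε (V t y)) x := integral_nonneg fun x => gsq_nonneg _ _
  have hc1 : c1 = c0 / 216 := rfl
  have h5 : 4 * (12 / c0) * (∫ x, |Om t x|) * ∫ x, gsq (fun y => hq ε (V t y)) x ≤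
      4 * (12 / c0) * c1 * (3 / 4 * ∫ x, deriv (deriv (jq ε)) (V t x) * gsq (V t) x) := by
    refine mul_le_mul (mul_le_mul_of_nonneg_left hs.2 (by positivity)) hgG hgn ?_
    rw [hc1]
    positivity
  have h6 : 3 * (4 * (12 / c0) * c1 * (3 / 4 * ∫ x, deriv (deriv (jq ε)) (V t x) * gsq (V t) x)) =
      1 / 2 * ∫ x, deriv (deriv (jq ε)) (V t x) * gsq (V t) x := by
    rw [hc1]
    field_simp
    ring
  rw [← h6]
  refine h1.trans (mul_le_mul_of_nonneg_left (hS.trans h5) (by norm_num))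

theorem step_J (F : Flow T u V W Om) {a b : ℝ} (ha : 0 ≤ a) (hab : a ≤ b) (hb : b < T)
    (hs : ∀ t ∈ Icc a b, Integrable (Om t) ∧ ∫ x, |Om t x| ≤ c1) {ε : ℝ} (hε : 0 < ε) :
    (∫ x, jq ε (V b x)) + 1 / 2 * ∫ t in a..b, ∫ x, deriv (deriv (jq ε)) (V t x) * gsq (V t) x
      ≤ ∫ x, jq ε (V a x) := by
  have h1 := ev1 F.drift F.evV (jq_jfun hε) ha hab hb
  have hii := evo_ii F.evV (jq_jfun hε) ha hab hb
  have h2 : ∫ t in a..b, ∫ x, deriv (jq ε) (V t x) * (-2 * W t x * V t x) ≤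
      ∫ t in a..b, 1 / 2 * ∫ x, deriv (deriv (jq ε)) (V t x) * gsq (V t) x := by
    refine intervalIntegral.integral_mono_on hab hii.2.2 (hii.2.1.const_mul _) fun t ht => ?_
    exact StepJ_one F ⟨ha.trans ht.1, ht.2.trans_lt hb⟩ (hs t ht) hε
  rw [intervalIntegral.integral_const_mul] at h2
  linarith

theorem StepJ_eps (F : Flow T u V W Om) {a b : ℝ} (ha : 0 ≤ a) (hab : a ≤ b) (hb : b < T)
    (hs : ∀ t ∈ Icc a b, Integrable (Om t) ∧ ∫ x, |Om t x| ≤ c1)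
    (hN : Integrable (fun x => |V a x| ^ (3/2 : ℝ))) {K : ℝ}
    (hK : ∀ t ∈ Icc 0 b, DB 1 K (V t)) {N' : ℝ} (hN' : 0 < N')
    (hNN : ∫ x, |V a x| ^ (3/2 : ℝ) ≤ N') {ε : ℝ} (hε : 0 < ε) :
    ∫ t in a..b, ∫ x, |V t x| * √(gsq (V t) x) ≤
      √SB * N' ^ (1/3 : ℝ) * (2 * ∫ x, |V a x| ^ (3/2 : ℝ)) +
        (√SB * N' ^ (1/3 : ℝ))⁻¹ * √ε * K * (b - a) := by
  have hSB := SB_pos
  have hii := evo_ii F.evV (jq_jfun hε) ha hab hb
  have haT : a ∈ Ico 0 T := ⟨ha, hab.trans_lt hb⟩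
  have hja : ∫ x, jq ε (V a x) ≤ ∫ x, |V a x| ^ (3/2 : ℝ) :=
    integral_mono (evo_int F.evV (jq_jfun hε) haT).1 hN fun x => jq_le hε _
  have hJt : ∀ t ∈ Icc a b, ∫ x, jq ε (V t x) ≤ N' := by
    intro t ht
    have h1 := step_J F ha ht.1 (ht.2.trans_lt hb) (fun r hr => hs r ⟨hr.1, hr.2.trans ht.2⟩) hε
    have h2 : 0 ≤ ∫ r in a..t, ∫ x, deriv (deriv (jq ε)) (V r x) * gsq (V r) x :=
      intervalIntegral.integral_nonneg ht.1 fun r _ => StepJ_D_nonneg hε (V r)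
    linarith
  have hA : 0 < √SB * N' ^ (1/3 : ℝ) := mul_pos (Real.sqrt_pos.2 hSB) (Real.rpow_pos_of_pos hN' _)
  have hD := step_J F ha hab hb hs hε
  have hjb : 0 ≤ ∫ x, jq ε (V b x) := integral_nonneg fun x => jfun_nonneg (jq_jfun hε) _
  have h3 : ∫ t in a..b, ∫ x, |V t x| * √(gsq (V t) x) ≤
      ∫ t in a..b, (√SB * N' ^ (1/3 : ℝ) * (∫ x, deriv (deriv (jq ε)) (V t x) * gsq (V t) x) +
        (√SB * N' ^ (1/3 : ℝ))⁻¹ * √ε * K) := by
    refine intervalIntegral.integral_mono_on hab (vdv_ii F ha hab hb)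
      ((hii.2.1.const_mul _).add intervalIntegrable_const) fun t ht => ?_
    have htT : t ∈ Ico 0 T := ⟨ha.trans ht.1, ht.2.trans_lt hb⟩
    have hd := hK t ⟨ha.trans ht.1, ht.2⟩
    have h4 := pt_V (F.evV.smooth t htT) hd hε hN' (hJt t ht)
    refine h4.trans ?_
    have h5 : ∫ x, V t x ^ 2 ≤ K := (DB_BL hd).2.2
    have h6 : 0 ≤ (√SB * N' ^ (1/3 : ℝ))⁻¹ * √ε :=
      mul_nonneg (inv_nonneg.2 hA.le) (Real.sqrt_nonneg _)
    have h7 := mul_le_mul_of_nonneg_left h5 h6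
    linarith
  have h4 : ∫ t in a..b, (√SB * N' ^ (1/3 : ℝ) *
        (∫ x, deriv (deriv (jq ε)) (V t x) * gsq (V t) x) +
        (√SB * N' ^ (1/3 : ℝ))⁻¹ * √ε * K) =
      √SB * N' ^ (1/3 : ℝ) * (∫ t in a..b, ∫ x, deriv (deriv (jq ε)) (V t x) * gsq (V t) x) +
        (√SB * N' ^ (1/3 : ℝ))⁻¹ * √ε * K * (b - a) := by
    rw [intervalIntegral.integral_add (hii.2.1.const_mul _) intervalIntegrable_const,
      intervalIntegral.integral_const_mul, intervalIntegral.integral_const, smul_eq_mul]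
    ring
  rw [h4] at h3
  refine h3.trans ?_
  have h5 : ∫ t in a..b, ∫ x, deriv (deriv (jq ε)) (V t x) * gsq (V t) x ≤
      2 * ∫ x, |V a x| ^ (3/2 : ℝ) := by linarith
  have h6 := mul_le_mul_of_nonneg_left h5 hA.le
  linarith

theorem VdV (F : Flow T u V W Om) {a b : ℝ} (ha : 0 ≤ a) (hab : a ≤ b) (hb : b < T)
    (hs : ∀ t ∈ Icc a b, Integrable (Om t) ∧ ∫ x, |Om t x| ≤ c1)
    (hN : Integrable (fun x => |V a x| ^ (3/2 : ℝ))) :
    ∫ t in a..b, ∫ x, |V t x| * √(gsq (V t) x) ≤ 2 * √SB * (∫ x, |V a x| ^ (3/2 : ℝ)) ^ (4/3 : ℝ) := by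
  obtain ⟨K, hK⟩ := F.evV.bd b hb
  have hK1 : ∀ t ∈ Icc 0 b, DB 1 K (V t) := fun t ht => (hK t ht).1
  set N := ∫ x, |V a x| ^ (3/2 : ℝ) with hNd
  have hN0 : 0 ≤ N := integral_nonneg fun x => Real.rpow_nonneg (abs_nonneg _) _
  -- let `ε → 0`
  have h1 : ∀ δ : ℝ, 0 < δ → ∫ t in a..b, ∫ x, |V t x| * √(gsq (V t) x) ≤
      √SB * (N + δ) ^ (1/3 : ℝ) * (2 * N) := by
    intro δ hδ
    have h2 : Tendsto (fun ε : ℝ => √SB * (N + δ) ^ (1/3 : ℝ) * (2 * N) +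
        (√SB * (N + δ) ^ (1/3 : ℝ))⁻¹ * √ε * K * (b - a)) (𝓝[>] 0)
        (𝓝 (√SB * (N + δ) ^ (1/3 : ℝ) * (2 * N) +
        (√SB * (N + δ) ^ (1/3 : ℝ))⁻¹ * √0 * K * (b - a))) := by
      refine Tendsto.mono_left ?_ nhdsWithin_le_nhds
      have hc : Continuous (fun ε : ℝ => √SB * (N + δ) ^ (1/3 : ℝ) * (2 * N) +
        (√SB * (N + δ) ^ (1/3 : ℝ))⁻¹ * √ε * K * (b - a)) := by fun_prop
      exact hc.tendsto 0
    rw [Real.sqrt_zero, mul_zero, zero_mul, zero_mul, add_zero] at h2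
    refine ge_of_tendsto h2 ?_
    filter_upwards [self_mem_nhdsWithin] with ε hε
    exact StepJ_eps F ha hab hb hs hN hK1 (by linarith) (by linarith) hε
  -- let `δ → 0`
  have h3 : Tendsto (fun δ : ℝ => √SB * (N + δ) ^ (1/3 : ℝ) * (2 * N)) (𝓝[>] 0)
      (𝓝 (√SB * (N + 0) ^ (1/3 : ℝ) * (2 * N))) := by
    refine Tendsto.mono_left ?_ nhdsWithin_le_nhds
    have hc : Continuous (fun δ : ℝ => √SB * (N + δ) ^ (1/3 : ℝ) * (2 * N)) := by
      have h4 : Continuous (fun δ : ℝ => (N + δ) ^ (1/3 : ℝ)) :=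
        (Real.continuous_rpow_const (by norm_num)).comp (continuous_const.add continuous_id)
      exact (continuous_const.mul h4).mul continuous_const
    exact hc.tendsto 0
  rw [add_zero] at h3
  have h5 := ge_of_tendsto h3 (by
    filter_upwards [self_mem_nhdsWithin] with δ hδ
    exact h1 δ hδ)
  refine h5.trans (le_of_eq ?_)
  have h6 : N ^ (4/3 : ℝ) = N ^ (1/3 : ℝ) * N := by
    have h7 := Real.rpow_add_one' hN0 (y := 1/3) (by norm_num)
    rw [← h7]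
    norm_num
  rw [h6]
  ring

end Pool.Agent.H87.NS
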