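/-
ROW Wb. The pointwise bound of `W`. PROOF. W_le: for `0 < rad x`: F.ker and S3 (with `Om t`, ContDiff by F.evO.smooth, `DB 1` by F.evO.bd at `T' = t`);
`CW = 12 / c0 * CS3`. For `rad x = 0`: `W t` is continuous (F.wcont) and `{0 < rad}` is dense (e.g. `x + s • e 0`, `s → 0+`). ww_ii: `t ↦ ∫ Om²`,
`t ↦ ∫ gsq Om` are bounded and measurable on `[0,b]` (ti_int gives interval integrability, hence a.e. strong measurability; or use
`AEStronglyMeasurable` composed with `√`, bounded by a constant). ww_bd: from F.evO.bd.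
gron: Gronwall's inequality. Let `Kf(t) = ∫_a^t w`, continuous (`intervalIntegral.continuousOn_primitive_interval`) and nondecreasing. Claim, by induction on
`n : ℕ`: for `a ≤ s ≤ t ≤ b` with `2 l ∫_s^t w ≤ n`, `y t ≤ 2^n y s`. `n = 0`: `l ∫_s^t w y ≤ l Y ∫_s^t w ≤ 0`. Step `n → n+1`: if `2 l ∫_s^t w ≤ n` nothing
to do (`2^n ≤ 2^(n+1)`, `y s ≥ 0`); otherwise by the intermediate value theorem there is `m ∈ [s, t]` with `2 l ∫_s^m w = n`, and `2 l ∫_m^t w ≤ 1`; for
`r ∈ [m, t]`, `y r ≤ y m + l S ∫_m^t w ≤ y m + S / 2` with `S = sup_{[m,t]} y` (finite, `≤ Y`), so `S ≤ y m + S/2`, `S ≤ 2 y m`; `y t ≤ 2 y m ≤ 2^(n+1) y s`.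
Apply with `n = ⌈2 l Q⌉₊ ≤ 2 l Q + 1` (`Q ≥ 0`), `2^n ≤ exp n ≤ exp (2 l Q + 1)`.
small_gron: if `l ∫_a^b w ≤ 1/2` then `S = sup_{[a,b]} y ≤ y a + S/2`.
-/
import Pool.Agent.H87.NS.EvInt
import Pool.Agent.H87.NS.S1
import Pool.Agent.H87.NS.KInt

set_option autoImplicit false

open Set Filter Topology MeasureTheory
open scoped ContDiff

namespace Pool.Agent.H87.NS

open Pool.Agent.H16

/-- The constant of S3. -/
noncomputable def CS3 : ℝ := Classical.choose S3

theorem CS3_pos : 0 < CS3 := (Classical.choose_spec S3).1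

/-- The constant in the pointwise bound of `u_r / r`. -/
noncomputable def CW : ℝ := 12 / c0 * CS3

/-- The bound of `u_r / r`. -/
noncomputable def ww (f : E3 → ℝ) : ℝ := CW * (√(∫ x, f x ^ 2) + √(∫ x, gsq f x))

variable {T : ℝ} {u : ℝ → E3 → E3} {V W Om : ℝ → E3 → ℝ}

theorem CW_pos : 0 < CW := by
  unfold CW
  exact mul_pos (div_pos (by norm_num) c0_pos) CS3_pos

theorem ww_nonneg (f : E3 → ℝ) : 0 ≤ ww f := by
  unfold ww
  exact mul_nonneg CW_pos.le (add_nonneg (Real.sqrt_nonneg _) (Real.sqrt_nonneg _))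

theorem W_le (F : Flow T u V W Om) {t : ℝ} (ht : t ∈ Ico 0 T) (x : E3) : |W t x| ≤ ww (Om t) := by
  obtain ⟨K, hK⟩ := F.evO.bd t ht.2
  have hDB : DB 1 K (Om t) := (hK t ⟨ht.1, le_rfl⟩).1
  have hsm : ContDiff ℝ 1 (Om t) := (F.evO.smooth t ht).of_le (by exact_mod_cast le_top)
  have hoff : ∀ x, 0 < rad x → |W t x| ≤ ww (Om t) := by
    intro x hx
    have h1 := F.ker t ht x hx
    have h2 := (Classical.choose_spec S3).2 (Om t) K hsm hDB x
    have h3 : (0 : ℝ) ≤ 12 / c0 := (div_pos (by norm_num) c0_pos).le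
    refine h1.trans ((mul_le_mul_of_nonneg_left h2 h3).trans (le_of_eq ?_))
    unfold ww CW CS3
    ring
  have hcont : Continuous (W t) := by
    have h1 : ContinuousOn (fun q : ℝ × E3 => W q.1 q.2) (Ico 0 T ×ˢ univ) := F.wcont
    have h2 : Continuous fun x : E3 => (t, x) := by fun_prop
    rw [← continuousOn_univ]
    exact h1.comp h2.continuousOn fun x _ => ⟨ht, trivial⟩
  have hclosed : IsClosed {x : E3 | |W t x| ≤ ww (Om t)} := isClosed_le hcont.abs continuous_const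
  have hdense : Dense {x : E3 | 0 < rad x} := Measure.dense_of_ae axis_null
  have h3 : closure {x : E3 | 0 < rad x} ⊆ {x : E3 | |W t x| ≤ ww (Om t)} :=
    closure_minimal (fun x hx => hoff x hx) hclosed
  rw [hdense.closure_eq] at h3
  exact h3 (mem_univ x)

theorem ww_bd (F : Flow T u V W Om) {b : ℝ} (hb : b < T) : ∃ K : ℝ, ∀ t ∈ Icc 0 b, ww (Om t) ≤ K := by
  obtain ⟨K, hK⟩ := F.evO.bd b hb
  refine ⟨CW * (√K + √(3 * K)), fun t ht => ?_⟩
  have h := (hK t ht).1
  unfold ww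
  refine mul_le_mul_of_nonneg_left ?_ CW_pos.le
  exact add_le_add (Real.sqrt_le_sqrt (DB_BL h).2.2) (Real.sqrt_le_sqrt (gsq_int h).2)

theorem ww_ii (F : Flow T u V W Om) {a b : ℝ} (ha : 0 ≤ a) (hab : a ≤ b) (hb : b < T) :
    IntervalIntegrable (fun t => ww (Om t)) volume a b := by
  obtain ⟨K, hK⟩ := ww_bd F hb
  have hJ1 : JC T (fun t x => Om t x ^ 2) := ContinuousOn.pow F.evO.cont 2
  have hJ2 : JC T (fun t x => gsq (Om t) x) :=
    continuousOn_finset_sum _ fun i _ => ContinuousOn.pow (F.evO.contd i) 2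
  have h1 := Real.continuous_sqrt.comp_aestronglyMeasurable (TI_meas hJ1 hb ha)
  have h2 := Real.continuous_sqrt.comp_aestronglyMeasurable (TI_meas hJ2 hb ha)
  rw [intervalIntegrable_iff_integrableOn_Icc_of_le hab]
  refine Integrable.of_bound ((h1.add h2).const_mul CW) K ?_
  refine ae_restrict_of_forall_mem measurableSet_Icc fun t ht => ?_
  have h3 : 0 ≤ ww (Om t) := ww_nonneg _
  have h4 := hK t ⟨ha.trans ht.1, ht.2⟩
  show ‖ww (Om t)‖ ≤ K
  rw [Real.norm_eq_abs, abs_of_nonneg h3]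
  exact h4

theorem small_gron {a b l Y : ℝ} {y w : ℝ → ℝ} (hab : a ≤ b) (hw : IntervalIntegrable w volume a b)
    (hw0 : ∀ t ∈ Icc a b, 0 ≤ w t) (hy0 : ∀ t ∈ Icc a b, 0 ≤ y t)
    (hyY : ∀ t ∈ Icc a b, y t ≤ Y) (hwy : IntervalIntegrable (fun t => w t * y t) volume a b) (hl : 0 ≤ l)
    (hsm : l * ∫ t in a..b, w t ≤ 1 / 2)
    (h : ∀ t ∈ Icc a b, y t ≤ y a + l * ∫ r in a..t, w r * y r) :
    ∀ t ∈ Icc a b, y t ≤ 2 * y a := by
  have hbdd : BddAbove (y '' Icc a b) := by
    refine ⟨Y, ?_⟩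
    rintro _ ⟨t, ht, rfl⟩
    exact hyY t ht
  have haI : a ∈ Icc a b := ⟨le_rfl, hab⟩
  have hne : (y '' Icc a b).Nonempty := ⟨y a, a, haI, rfl⟩
  obtain ⟨S, hS⟩ : ∃ S, S = sSup (y '' Icc a b) := ⟨_, rfl⟩
  have hleS : ∀ t ∈ Icc a b, y t ≤ S := by
    intro t ht
    rw [hS]
    exact le_csSup hbdd ⟨t, ht, rfl⟩
  have hS0 : 0 ≤ S := (hy0 a haI).trans (hleS a haI)
  have hkey : ∀ t ∈ Icc a b, y t ≤ y a + S / 2 := by
    intro t ht
    have hsub : uIcc a t ⊆ uIcc a b := by
      rw [uIcc_of_le ht.1, uIcc_of_le hab]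
      exact Icc_subset_Icc_right ht.2
    have hsub2 : uIcc t b ⊆ uIcc a b := by
      rw [uIcc_of_le ht.2, uIcc_of_le hab]
      exact Icc_subset_Icc_left ht.1
    have hw1 : IntervalIntegrable w volume a t := hw.mono_set hsub
    have hw2 : IntervalIntegrable w volume t b := hw.mono_set hsub2
    have h1 : ∫ r in a..t, w r * y r ≤ ∫ r in a..t, w r * S := by
      refine intervalIntegral.integral_mono_on ht.1 (hwy.mono_set hsub) (hw1.mul_const S) ?_
      intro r hr
      have hr' : r ∈ Icc a b := ⟨hr.1, hr.2.trans ht.2⟩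
      exact mul_le_mul_of_nonneg_left (hleS r hr') (hw0 r hr')
    rw [intervalIntegral.integral_mul_const] at h1
    have h2 : ∫ r in a..t, w r ≤ ∫ r in a..b, w r := by
      rw [← intervalIntegral.integral_add_adjacent_intervals hw1 hw2]
      have : 0 ≤ ∫ r in t..b, w r :=
        intervalIntegral.integral_nonneg ht.2 fun r hr => hw0 r ⟨ht.1.trans hr.1, hr.2⟩
      linarith
    have h3 := h t ht
    have h4 : l * ∫ r in a..t, w r * y r ≤ S / 2 := by
      calc l * ∫ r in a..t, w r * y r ≤ l * ((∫ r in a..t, w r) * S) := mul_le_mul_of_nonneg_left h1 hl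
        _ ≤ l * ((∫ r in a..b, w r) * S) :=
            mul_le_mul_of_nonneg_left (mul_le_mul_of_nonneg_right h2 hS0) hl
        _ = (l * ∫ r in a..b, w r) * S := by ring
        _ ≤ 1 / 2 * S := mul_le_mul_of_nonneg_right hsm hS0
        _ = S / 2 := by ring
    linarith
  have hSle : S ≤ y a + S / 2 := by
    conv_lhs => rw [hS]
    refine csSup_le hne ?_
    rintro _ ⟨t, ht, rfl⟩
    exact hkey t ht
  intro t ht
  have := hleS t ht
  linarith

theorem gron {a b l Q Y : ℝ} {y w : ℝ → ℝ} (hab : a ≤ b) (hw : IntervalIntegrable w volume a b)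
    (hw0 : ∀ t ∈ Icc a b, 0 ≤ w t) (hQ : ∫ t in a..b, w t ≤ Q) (hy0 : ∀ t ∈ Icc a b, 0 ≤ y t)
    (hyY : ∀ t ∈ Icc a b, y t ≤ Y) (hwy : IntervalIntegrable (fun t => w t * y t) volume a b) (hl : 0 ≤ l)
    (h : ∀ s t, a ≤ s → s ≤ t → t ≤ b → y t ≤ y s + l * ∫ r in s..t, w r * y r) :
    y b ≤ y a * Real.exp (2 * l * Q + 1) := by
  have hsub : ∀ s t, a ≤ s → s ≤ t → t ≤ b → uIcc s t ⊆ uIcc a b := by
    intro s t has hst htb
    rw [uIcc_of_le hst, uIcc_of_le hab]
    exact Icc_subset_Icc has htb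
  have hstep : ∀ s t, a ≤ s → s ≤ t → t ≤ b → 2 * l * ∫ r in s..t, w r ≤ 1 → y t ≤ 2 * y s := by
    intro s t has hst htb hs
    have hI : ∀ r ∈ Icc s t, r ∈ Icc a b := fun r hr => ⟨has.trans hr.1, hr.2.trans htb⟩
    refine small_gron (l := l) (Y := Y) hst (hw.mono_set (hsub s t has hst htb))
      (fun r hr => hw0 r (hI r hr)) (fun r hr => hy0 r (hI r hr)) (fun r hr => hyY r (hI r hr))
      (hwy.mono_set (hsub s t has hst htb)) hl ?_ ?_ t ⟨hst, le_rfl⟩
    · linarith [mul_assoc 2 l (∫ r in s..t, w r)]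
    · intro r hr
      exact h s r has hr.1 (hr.2.trans htb)
  have hclaim : ∀ n : ℕ, ∀ s t, a ≤ s → s ≤ t → t ≤ b → 2 * l * ∫ r in s..t, w r ≤ (n : ℝ) + 1 →
      y t ≤ 2 ^ (n + 1) * y s := by
    intro n
    induction n with
    | zero =>
      intro s t has hst htb hs
      rw [Nat.cast_zero, zero_add] at hs
      rw [zero_add, pow_one]
      exact hstep s t has hst htb hs
    | succ n ih =>
      intro s t has hst htb hs
      push_cast at hs
      have hys : 0 ≤ y s := hy0 s ⟨has, hst.trans htb⟩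
      rcases le_or_gt (2 * l * ∫ r in s..t, w r) ((n : ℝ) + 1) with hc | hc
      · refine (ih s t has hst htb hc).trans ?_
        refine mul_le_mul_of_nonneg_right ?_ hys
        exact pow_le_pow_right₀ one_le_two (by omega)
      · have hwst : IntervalIntegrable w volume s t := hw.mono_set (hsub s t has hst htb)
        have hcont : ContinuousOn (fun m => 2 * l * ∫ r in s..m, w r) (Icc s t) := by
          have h1 := intervalIntegral.continuousOn_primitive_interval' hwst left_mem_uIcc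
          rw [uIcc_of_le hst] at h1
          exact continuousOn_const.mul h1
        have hmem : (n : ℝ) + 1 ∈ Icc (2 * l * ∫ r in s..s, w r) (2 * l * ∫ r in s..t, w r) := by
          rw [intervalIntegral.integral_same, mul_zero]
          exact ⟨by positivity, hc.le⟩
        obtain ⟨m, hm, hm2⟩ := intermediate_value_Icc hst hcont hmem
        have hm2' : 2 * l * ∫ r in s..m, w r = (n : ℝ) + 1 := hm2
        have hw1 : IntervalIntegrable w volume s m :=
          hw.mono_set (hsub s m has hm.1 (hm.2.trans htb))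
        have hw2 : IntervalIntegrable w volume m t :=
          hw.mono_set (hsub m t (has.trans hm.1) hm.2 htb)
        have h3 : ∫ r in s..t, w r = (∫ r in s..m, w r) + ∫ r in m..t, w r :=
          (intervalIntegral.integral_add_adjacent_intervals hw1 hw2).symm
        have h4 : 2 * l * ∫ r in m..t, w r ≤ 1 := by
          rw [h3, mul_add, hm2'] at hs
          linarith
        have h5 := hstep m t (has.trans hm.1) hm.2 htb h4
        have h6 := ih s m has hm.1 (hm.2.trans htb) hm2'.le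
        calc y t ≤ 2 * y m := h5
          _ ≤ 2 * (2 ^ (n + 1) * y s) := by linarith
          _ = 2 ^ (n + 1 + 1) * y s := by ring
  have hint0 : 0 ≤ ∫ t in a..b, w t := intervalIntegral.integral_nonneg hab hw0
  have hQ0 : 0 ≤ Q := hint0.trans hQ
  have hlQ : 0 ≤ 2 * l * Q := by positivity
  have h1 := hclaim ⌊2 * l * Q⌋₊ a b le_rfl hab le_rfl (by
    have h2 : 2 * l * ∫ r in a..b, w r ≤ 2 * l * Q := mul_le_mul_of_nonneg_left hQ (by positivity)
    exact h2.trans (Nat.lt_floor_add_one _).le)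
  have hya : 0 ≤ y a := hy0 a ⟨le_rfl, hab⟩
  refine h1.trans ?_
  rw [mul_comm]
  refine mul_le_mul_of_nonneg_left ?_ hya
  have h2 : (2 : ℝ) ≤ Real.exp 1 := by
    have := Real.add_one_le_exp (1 : ℝ)
    linarith
  calc (2 : ℝ) ^ (⌊2 * l * Q⌋₊ + 1) ≤ Real.exp 1 ^ (⌊2 * l * Q⌋₊ + 1) :=
        pow_le_pow_left₀ (by norm_num) h2 _
    _ = Real.exp ((⌊2 * l * Q⌋₊ : ℝ) + 1) := by
        rw [← Real.exp_nat_mul]
        push_cast
        rw [mul_one]
    _ ≤ Real.exp (2 * l * Q + 1) := by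
        rw [Real.exp_le_exp]
        have := Nat.floor_le hlQ
        linarith

end Pool.Agent.H87.NS
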