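/-
ROW P1. Initial stage. PROOF. y4: for `V`, `j = s⁴`: ev1 on `[0,t]`: `∫ V(t)⁴ ≤ ∫ V(0)⁴ + ∫_0^t ∫ (-8 W V⁴) ≤ ∫ V(0)⁴ + 8 ∫_0^t ww(Om) ∫ V⁴` (W_le), small_gron with
`l = 8`: `8 ∫_0^b ww ≤ 1/2`, so `∫ V(t)⁴ ≤ 2 ∫ V(0)⁴`. (`y = ∫ V⁴` is bounded, evo_bd; `ww y` is interval integrable: product of bounded measurable functions.)
y2: `j = s²`: `∫ V(t)² + 2 ∫_0^t ∫ gsq V ≤ ∫ V(0)² + 4 ∫_0^t ww ∫ V²`; small_gron with `l = 4` gives `∫ V(t)² ≤ 2 ∫ V(0)²`, then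
`2 ∫_0^b ∫ gsq V ≤ ∫ V(0)² + 4 (1/16) 2 ∫ V(0)² ≤ 2 ∫ V(0)²`; `|V| √(gsq V) ≤ (V² + gsq V) / 2`, so
`∫_0^b ∫ |V| √(gsq V) ≤ (1/2) (2 b + 1) ∫ V(0)² ≤ (1 + b) ∫ V(0)²`.
y32: `j = jq ε`: `jq'(V) (-2 W V) ≤ 3 |W| hq(V)² ≤ 4 ww(Om) jq(V)` (jq_hq, hq_le_jq), small_gron with `l = 4`: `∫ jq ε (V b) ≤ 2 ∫ jq ε (V 0) ≤ 2 ∫ |V 0|^(3/2)` (jq_le);
`ε = 1/(n+1) → 0`, jq_tend and Fatou.
p1: given `T₁ ≥ 1` let `δ > 0` be such that `CW (2 T₁ √(Q₁) + √(Q₁)) < 1/16` for `Q₁ = (1 + 2 T₁) δ` (`Q₁ → 0` as `δ → 0`). Suppose `∫_0^b ww(Om) > 1/16`. By the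
intermediate value theorem (the primitive is continuous, `0` at `0`) there is `b' ∈ [0, b]` with `∫_0^{b'} ww(Om) = 1/16`. y4 on `[0, b']` and step_O2: for
`t ∈ [0, b']`, `∫ Om(t)² + ∫_0^t ∫ gsq Om ≤ δ + T₁ 2 δ = Q₁`. `√(∫ gsq Om) ≤ (√Q₁ + (∫ gsq Om) / √Q₁) / 2`, so
`∫_0^{b'} ww(Om) ≤ CW (b' √Q₁ + (b' √Q₁ + √Q₁) / 2) < 1/16`, a contradiction.
-/
import Pool.Agent.H87.NS.Wb
import Pool.Agent.H87.NS.JQ
import Pool.Agent.H87.NS.EV
import Pool.Agent.H87.NS.StepV4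
import Pool.Agent.H87.NS.StepJ

set_option autoImplicit false

open Set Filter Topology MeasureTheory
open scoped ContDiff

namespace Pool.Agent.H87.NS

open Pool.Agent.H16

variable {T : ℝ} {u : ℝ → E3 → E3} {V W Om : ℝ → E3 → ℝ}

theorem P1_gii {f G : ℝ → E3 → ℝ} (hf : Evo T u f G) {a b : ℝ} (ha : 0 ≤ a) (hab : a ≤ b) (hb : b < T) :
    IntervalIntegrable (fun t => ∫ x, gsq (f t) x) volume a b := by
  obtain ⟨K, hK⟩ := hf.bd b hb
  obtain ⟨-, -, -, hJ⟩ := evo_jc hf (pow_jfun (m := 1) le_rfl)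
  refine ti_int (K := 3 * K) hJ hb (fun t ht => ?_) ha hab
  have h := gsq_int (hK t ht).1
  refine ⟨h.1, ?_⟩
  simp only [abs_of_nonneg (gsq_nonneg _ _)]
  exact h.2

theorem P1_wy (F : Flow T u V W Om) {j : ℝ → ℝ} (hj : JFun j) {a b : ℝ} (ha : 0 ≤ a) (hab : a ≤ b) (hb : b < T) :
    IntervalIntegrable (fun r => ww (Om r) * ∫ x, j (V r x)) volume a b := by
  obtain ⟨K, hK⟩ := ww_bd F hb
  obtain ⟨K', hK'⟩ := evo_bd F.evV hj hb
  have h1 := ww_ii F ha hab hb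
  have h2 := (evo_ii F.evV hj ha hab hb).1
  rw [intervalIntegrable_iff_integrableOn_Icc_of_le hab] at h1 h2 ⊢
  refine Integrable.of_bound (h1.aestronglyMeasurable.mul h2.aestronglyMeasurable) (K * K') ?_
  refine ae_restrict_of_forall_mem measurableSet_Icc fun t ht => ?_
  have ht' : t ∈ Icc 0 b := ⟨ha.trans ht.1, ht.2⟩
  have h3 : 0 ≤ ww (Om t) := ww_nonneg _
  have h4 := TI_bound (hK' t ht').1.2
  have h5 := hK t ht'
  show ‖ww (Om t) * ∫ x, j (V t x)‖ ≤ K * K'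
  rw [norm_mul, Real.norm_of_nonneg h3]
  exact mul_le_mul h5 h4 (norm_nonneg _) (h3.trans h5)

theorem P1_en (F : Flow T u V W Om) {j : ℝ → ℝ} (hj : JFun j) {c : ℝ} (hc0 : 0 ≤ c)
    (hc : ∀ s, |s * deriv j s| ≤ c * j s) {t : ℝ} (h0 : 0 ≤ t) (ht : t < T) :
    (∫ x, j (V t x)) + ∫ r in (0:ℝ)..t, ∫ x, deriv (deriv j) (V r x) * gsq (V r) x ≤
      (∫ x, j (V 0 x)) + 2 * c * ∫ r in (0:ℝ)..t, ww (Om r) * ∫ x, j (V r x) := by
  have h1 := ev1 F.drift F.evV hj le_rfl h0 ht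
  refine h1.trans ?_
  refine add_le_add le_rfl ?_
  rw [← intervalIntegral.integral_const_mul]
  refine intervalIntegral.integral_mono_on h0 (evo_ii F.evV hj le_rfl h0 ht).2.2
    ((P1_wy F hj le_rfl h0 ht).const_mul _) fun r hr => ?_
  have hrT : r ∈ Ico 0 T := ⟨hr.1, hr.2.trans_lt ht⟩
  obtain ⟨i1, -, i3⟩ := evo_int F.evV hj hrT
  rw [← mul_assoc, ← integral_const_mul]
  refine integral_mono i3 (i1.const_mul _) fun x => ?_
  have h2 := W_le F hrT x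
  have h3 := hc (V r x)
  have h4 : 0 ≤ ww (Om r) := ww_nonneg _
  show deriv j (V r x) * (-2 * W r x * V r x) ≤ 2 * c * ww (Om r) * j (V r x)
  calc deriv j (V r x) * (-2 * W r x * V r x) ≤ |deriv j (V r x) * (-2 * W r x * V r x)| := le_abs_self _
    _ = 2 * (|W r x| * |V r x * deriv j (V r x)|) := by
        rw [show deriv j (V r x) * (-2 * W r x * V r x) = -2 * (W r x * (V r x * deriv j (V r x))) by ring,
          abs_mul, abs_mul]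
        norm_num
    _ ≤ 2 * (ww (Om r) * (c * j (V r x))) := by
        refine mul_le_mul_of_nonneg_left ?_ zero_le_two
        exact mul_le_mul h2 h3 (abs_nonneg _) h4
    _ = 2 * c * ww (Om r) * j (V r x) := by ring

theorem P1_gron (F : Flow T u V W Om) {j : ℝ → ℝ} (hj : JFun j) {c : ℝ} (hc0 : 0 ≤ c)
    (hc : ∀ s, |s * deriv j s| ≤ c * j s) {b : ℝ} (h0 : 0 ≤ b) (hb : b < T)
    (hw : 2 * c * ∫ t in (0:ℝ)..b, ww (Om t) ≤ 1 / 2) :
    ∀ t ∈ Icc 0 b, ∫ x, j (V t x) ≤ 2 * ∫ x, j (V 0 x) := by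
  obtain ⟨K', hK'⟩ := evo_bd F.evV hj hb
  refine small_gron (y := fun t => ∫ x, j (V t x)) (w := fun t => ww (Om t)) (l := 2 * c) (Y := K') h0
    (ww_ii F le_rfl h0 hb) (fun t _ => ww_nonneg _)
    (fun t _ => integral_nonneg fun x => jfun_nonneg hj _) (fun t ht => ?_) (P1_wy F hj le_rfl h0 hb)
    (by positivity) hw fun t ht => ?_
  · exact (le_abs_self _).trans (TI_bound (hK' t ht).1.2)
  · have h1 := P1_en F hj hc0 hc ht.1 (ht.2.trans_lt hb)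
    have h2 : 0 ≤ ∫ r in (0:ℝ)..t, ∫ x, deriv (deriv j) (V r x) * gsq (V r) x :=
      intervalIntegral.integral_nonneg ht.1 fun r _ =>
        integral_nonneg fun x => mul_nonneg (hj.convex _) (gsq_nonneg _ _)
    linarith

theorem P1_pow (m : ℕ) (hm : 1 ≤ m) (s : ℝ) :
    |s * deriv (fun s : ℝ => s ^ (2 * m)) s| ≤ (2 * m : ℝ) * (fun s : ℝ => s ^ (2 * m)) s := by
  rw [pow_deriv]
  have h1 : s * (2 * (m : ℝ) * s ^ (2 * m - 1)) = 2 * (m : ℝ) * s ^ (2 * m) := by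
    have h2 : s ^ (2 * m) = s ^ (2 * m - 1) * s := by
      rw [← pow_succ]
      congr 1
      omega
    rw [h2]
    ring
  rw [h1, abs_of_nonneg]
  have h3 : 0 ≤ s ^ (2 * m) := by
    rw [pow_mul]
    positivity
  positivity

theorem y4 (F : Flow T u V W Om) {b : ℝ} (h0 : 0 ≤ b) (hb : b < T) (hw : ∫ t in (0:ℝ)..b, ww (Om t) ≤ 1 / 16) :
    ∀ t ∈ Icc 0 b, ∫ x, V t x ^ 4 ≤ 2 * ∫ x, V 0 x ^ 4 := by
  intro t ht
  have h1 := P1_gron F (pow_jfun (m := 2) (by norm_num)) (c := (2 * (2 : ℕ) : ℝ)) (by positivity)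
    (P1_pow 2 (by norm_num)) h0 hb (by push_cast; linarith) t ht
  exact h1

theorem y2 (F : Flow T u V W Om) {b : ℝ} (h0 : 0 ≤ b) (hb : b < T) (hw : ∫ t in (0:ℝ)..b, ww (Om t) ≤ 1 / 16) :
    ∫ t in (0:ℝ)..b, ∫ x, |V t x| * √(gsq (V t) x) ≤ (1 + b) * ∫ x, V 0 x ^ 2 := by
  have hj := pow_jfun (m := 1) le_rfl
  have hww0 : 0 ≤ ∫ t in (0:ℝ)..b, ww (Om t) := intervalIntegral.integral_nonneg h0 fun r _ => ww_nonneg _
  have h1 : ∀ t ∈ Icc 0 b, ∫ x, V t x ^ 2 ≤ 2 * ∫ x, V 0 x ^ 2 := by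
    intro t ht
    have h2 := P1_gron F hj (c := (2 * (1 : ℕ) : ℝ)) (by positivity)
      (P1_pow 1 le_rfl) h0 hb (by push_cast; linarith) t ht
    exact h2
  have h2 := P1_en F hj (c := (2 * (1 : ℕ) : ℝ)) (by positivity) (P1_pow 1 le_rfl) h0 hb
  obtain ⟨y0, hy0⟩ : ∃ y0, y0 = ∫ x, V 0 x ^ 2 := ⟨_, rfl⟩
  rw [← hy0] at h1 ⊢
  have hy00 : 0 ≤ y0 := by
    rw [hy0]
    exact integral_nonneg fun x => sq_nonneg _
  have e1 : ∀ r, ∫ x, deriv (deriv (fun s : ℝ => s ^ (2 * 1))) (V r x) * gsq (V r) x = 2 * ∫ x, gsq (V r) x := by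
    intro r
    rw [← integral_const_mul]
    congr 1
    funext x
    rw [pow_deriv2]
    norm_num
  have e2 : ∫ r in (0:ℝ)..b, ∫ x, deriv (deriv (fun s : ℝ => s ^ (2 * 1))) (V r x) * gsq (V r) x =
      2 * ∫ r in (0:ℝ)..b, ∫ x, gsq (V r) x := by
    rw [← intervalIntegral.integral_const_mul]
    congr 1
    funext r
    exact e1 r
  rw [e2] at h2
  have h2' : (∫ x, V b x ^ 2) + 2 * ∫ r in (0:ℝ)..b, ∫ x, gsq (V r) x ≤
      y0 + 4 * ∫ r in (0:ℝ)..b, ww (Om r) * ∫ x, V r x ^ 2 := by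
    have h3 : (2 * (2 * ((1 : ℕ) : ℝ))) = 4 := by norm_num
    rw [h3] at h2
    rw [hy0]
    exact h2
  have h4 : ∫ r in (0:ℝ)..b, ww (Om r) * ∫ x, V r x ^ 2 ≤ ∫ r in (0:ℝ)..b, ww (Om r) * (2 * y0) := by
    refine intervalIntegral.integral_mono_on h0 (P1_wy F hj le_rfl h0 hb)
      ((ww_ii F le_rfl h0 hb).mul_const _) fun r hr => ?_
    exact mul_le_mul_of_nonneg_left (h1 r hr) (ww_nonneg _)
  rw [intervalIntegral.integral_mul_const] at h4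
  have h5 : (∫ t in (0:ℝ)..b, ww (Om t)) * (2 * y0) ≤ 1 / 16 * (2 * y0) :=
    mul_le_mul_of_nonneg_right hw (by positivity)
  have h6 : 0 ≤ ∫ x, V b x ^ 2 := integral_nonneg fun x => sq_nonneg _
  have h7 : ∫ r in (0:ℝ)..b, ∫ x, gsq (V r) x ≤ y0 := by linarith
  have h8 : ∫ t in (0:ℝ)..b, ∫ x, |V t x| * √(gsq (V t) x) ≤
      ∫ t in (0:ℝ)..b, (1 / 2 * (2 * y0) + 1 / 2 * ∫ x, gsq (V t) x) := by
    refine intervalIntegral.integral_mono_on h0 (vdv_ii F le_rfl h0 hb)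
      (intervalIntegrable_const.add ((P1_gii F.evV le_rfl h0 hb).const_mul _)) fun r hr => ?_
    have hrT : r ∈ Ico 0 T := ⟨hr.1, hr.2.trans_lt hb⟩
    obtain ⟨K, -, hK⟩ := vdv_bd F hb
    obtain ⟨K2, hK2⟩ := F.evV.bd b hb
    have i1 := (DB_BL (hK2 r hr).1).2.1
    have i2 := (gsq_int (hK2 r hr).1).1
    have h9 : ∫ x, |V r x| * √(gsq (V r) x) ≤ ∫ x, (1 / 2 * V r x ^ 2 + 1 / 2 * gsq (V r) x) := by
      refine integral_mono (hK r hr).1 ((i1.const_mul _).add (i2.const_mul _)) fun x => ?_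
      have h10 := Real.sq_sqrt (gsq_nonneg (V r) x)
      have h11 := sq_abs (V r x)
      show |V r x| * √(gsq (V r) x) ≤ 1 / 2 * V r x ^ 2 + 1 / 2 * gsq (V r) x
      nlinarith [sq_nonneg (|V r x| - √(gsq (V r) x))]
    rw [integral_add (i1.const_mul _) (i2.const_mul _), integral_const_mul, integral_const_mul] at h9
    have h12 := h1 r hr
    linarith
  rw [intervalIntegral.integral_add intervalIntegrable_const ((P1_gii F.evV le_rfl h0 hb).const_mul _),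
    intervalIntegral.integral_const, intervalIntegral.integral_const_mul, smul_eq_mul] at h8
  have h9 : 0 ≤ b * y0 := mul_nonneg h0 hy00
  nlinarith

theorem P1_fatou {Φ : ℕ → E3 → ℝ} {g : E3 → ℝ} {B : ℝ} (hB : 0 ≤ B) (hg : Measurable g) (hg0 : ∀ x, 0 ≤ g x)
    (hΦ : ∀ n, Continuous (Φ n)) (hΦ0 : ∀ n x, 0 ≤ Φ n x) (hi : ∀ n, Integrable (Φ n)) (hb : ∀ n, ∫ x, Φ n x ≤ B)
    (ht : ∀ x, Tendsto (fun n => Φ n x) atTop (𝓝 (g x))) : Integrable g ∧ ∫ x, g x ≤ B := by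
  have h1 : ∫⁻ x, ENNReal.ofReal (g x) ≤ ENNReal.ofReal B := by
    have h2 : ∀ x, liminf (fun n => ENNReal.ofReal (Φ n x)) atTop = ENNReal.ofReal (g x) := fun x =>
      (ENNReal.tendsto_ofReal (ht x)).liminf_eq
    calc ∫⁻ x, ENNReal.ofReal (g x) = ∫⁻ x, liminf (fun n => ENNReal.ofReal (Φ n x)) atTop := by
          refine lintegral_congr fun x => (h2 x).symm
      _ ≤ liminf (fun n => ∫⁻ x, ENNReal.ofReal (Φ n x)) atTop :=
          lintegral_liminf_le fun n => (hΦ n).measurable.ennreal_ofReal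
      _ ≤ ENNReal.ofReal B := by
          refine liminf_le_of_le ?_ ?_
          · exact isBoundedUnder_of ⟨0, fun _ => bot_le⟩
          · intro c hc
            obtain ⟨n, hn⟩ := hc.exists
            refine hn.trans ?_
            rw [← ofReal_integral_eq_lintegral_ofReal (hi n) (Eventually.of_forall (hΦ0 n))]
            exact ENNReal.ofReal_le_ofReal (hb n)
  have h2 : Integrable g := by
    refine ⟨hg.aestronglyMeasurable, ?_⟩
    rw [hasFiniteIntegral_iff_ofReal (Eventually.of_forall hg0)]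
    exact h1.trans_lt ENNReal.ofReal_lt_top
  refine ⟨h2, ?_⟩
  rw [← ofReal_integral_eq_lintegral_ofReal h2 (Eventually.of_forall hg0)] at h1
  exact (ENNReal.ofReal_le_ofReal_iff hB).1 h1

theorem y32 (F : Flow T u V W Om) {b : ℝ} (h0 : 0 ≤ b) (hb : b < T) (hw : ∫ t in (0:ℝ)..b, ww (Om t) ≤ 1 / 16)
    (hN : Integrable (fun x => |V 0 x| ^ (3/2 : ℝ))) :
    Integrable (fun x => |V b x| ^ (3/2 : ℝ)) ∧ ∫ x, |V b x| ^ (3/2 : ℝ) ≤ 2 * ∫ x, |V 0 x| ^ (3/2 : ℝ) := by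
  have hbT : b ∈ Ico 0 T := ⟨h0, hb⟩
  have hcont : Continuous (V b) := (F.evV.smooth b hbT).continuous
  have h0T : (0:ℝ) ∈ Ico 0 T := ⟨le_rfl, h0.trans_lt hb⟩
  have hN0 : 0 ≤ ∫ x, |V 0 x| ^ (3/2 : ℝ) := integral_nonneg fun x => Real.rpow_nonneg (abs_nonneg _) _
  have hww0 : 0 ≤ ∫ t in (0:ℝ)..b, ww (Om t) := intervalIntegral.integral_nonneg h0 fun r _ => ww_nonneg _
  have hε : ∀ n : ℕ, (0:ℝ) < 1 / ((n : ℝ) + 1) := fun n => by positivity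
  refine P1_fatou (Φ := fun n x => jq (1 / ((n : ℝ) + 1)) (V b x)) (by positivity) ?_
    (fun x => Real.rpow_nonneg (abs_nonneg _) _) (fun n => ?_) (fun n x => ?_) (fun n => ?_) (fun n => ?_)
    (fun x => jq_tend (V b x))
  · exact (hcont.abs.rpow_const fun x => Or.inr (by norm_num)).measurable
  · exact (jq_jfun (hε n)).smooth.continuous.comp hcont
  · exact jfun_nonneg (jq_jfun (hε n)) _
  · exact (evo_int F.evV (jq_jfun (hε n)) hbT).1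
  · have h1 := P1_gron F (jq_jfun (hε n)) (c := 2) zero_le_two (fun s => ?_) h0 hb (by linarith) b ⟨h0, le_rfl⟩
    · refine h1.trans (mul_le_mul_of_nonneg_left ?_ zero_le_two)
      exact integral_mono (evo_int F.evV (jq_jfun (hε n)) h0T).1 hN fun x => jq_le (hε n) _
    · rw [jq_hq (hε n)]
      have h2 := hq_le_jq (hε n) s
      rw [abs_of_nonneg (by positivity)]
      linarith

theorem p1 {T₁ : ℝ} (hT₁ : 1 ≤ T₁) : ∃ δ : ℝ, 0 < δ ∧ ∀ (T : ℝ) (u : ℝ → E3 → E3) (V W Om : ℝ → E3 → ℝ),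
    Flow T u V W Om → ∀ b : ℝ, 0 ≤ b → b < T → b ≤ T₁ → ∫ x, V 0 x ^ 4 ≤ δ → ∫ x, Om 0 x ^ 2 ≤ δ →
    ∫ t in (0:ℝ)..b, ww (Om t) ≤ 1 / 16 := by
  have hCW := CW_pos
  obtain ⟨Q, hQ⟩ : ∃ Q : ℝ, Q = 1 / (32 * CW * (1 + 2 * T₁)) := ⟨_, rfl⟩
  have hden : 0 < 32 * CW * (1 + 2 * T₁) := by positivity
  have hQ0 : 0 < Q := by
    rw [hQ]
    positivity
  have hQe : CW * (Q * (1 + 2 * T₁)) = 1 / 32 := by
    rw [hQ]
    field_simp
  refine ⟨Q ^ 2 / (1 + 2 * T₁), by positivity, ?_⟩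
  intro T u V W Om F b h0 hb hbT hV hO
  obtain ⟨δ, hδ⟩ : ∃ δ : ℝ, δ = Q ^ 2 / (1 + 2 * T₁) := ⟨_, rfl⟩
  rw [← hδ] at hV hO
  have hδ0 : 0 < δ := by
    rw [hδ]
    positivity
  have hδe : δ * (1 + 2 * T₁) = Q ^ 2 := by
    rw [hδ]
    field_simp
  by_contra hcon
  rw [not_le] at hcon
  have hcont : ContinuousOn (fun m => ∫ r in (0:ℝ)..m, ww (Om r)) (Icc 0 b) := by
    have h1 := intervalIntegral.continuousOn_primitive_interval' (ww_ii F le_rfl h0 hb) left_mem_uIcc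
    rwa [uIcc_of_le h0] at h1
  have hmem : (1 / 16 : ℝ) ∈ Icc (∫ r in (0:ℝ)..0, ww (Om r)) (∫ r in (0:ℝ)..b, ww (Om r)) := by
    rw [intervalIntegral.integral_same]
    exact ⟨by norm_num, hcon.le⟩
  obtain ⟨b', hb', hb'2⟩ := intermediate_value_Icc h0 hcont hmem
  have hb'2' : ∫ r in (0:ℝ)..b', ww (Om r) = 1 / 16 := hb'2
  have hb'T : b' < T := hb'.2.trans_lt hb
  have hb'1 : b' ≤ T₁ := hb'.2.trans hbT
  have h4 := y4 F hb'.1 hb'T hb'2'.le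
  have hs : ∀ t ∈ Icc 0 b', (∫ x, Om t x ^ 2) + ∫ r in (0:ℝ)..t, ∫ x, gsq (Om r) x ≤ Q ^ 2 := by
    intro t ht
    have htT : t < T := ht.2.trans_lt hb'T
    have h5 := step_O2 F le_rfl ht.1 htT
    have h6 : ∫ r in (0:ℝ)..t, ∫ x, V r x ^ 4 ≤ ∫ r in (0:ℝ)..t, 2 * δ := by
      refine intervalIntegral.integral_mono_on ht.1
        ((evo_ii F.evV (pow_jfun (m := 2) (by norm_num)) le_rfl ht.1 htT).1) intervalIntegrable_const fun r hr => ?_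
      have := h4 r ⟨hr.1, hr.2.trans ht.2⟩
      show ∫ x, V r x ^ (2 * 2) ≤ 2 * δ
      have e : ∫ x, V r x ^ (2 * 2) = ∫ x, V r x ^ 4 := rfl
      rw [e]
      linarith
    rw [intervalIntegral.integral_const, smul_eq_mul, sub_zero] at h6
    have h7 : t * (2 * δ) ≤ T₁ * (2 * δ) := mul_le_mul_of_nonneg_right (ht.2.trans hb'1) (by positivity)
    nlinarith
  have hg0 : ∀ t ∈ Icc 0 b', 0 ≤ ∫ r in (0:ℝ)..t, ∫ x, gsq (Om r) x := fun t ht =>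
    intervalIntegral.integral_nonneg ht.1 fun r _ => integral_nonneg fun x => gsq_nonneg _ _
  have hgb : ∫ r in (0:ℝ)..b', ∫ x, gsq (Om r) x ≤ Q ^ 2 := by
    have := hs b' ⟨hb'.1, le_rfl⟩
    have h8 : 0 ≤ ∫ x, Om b' x ^ 2 := integral_nonneg fun x => sq_nonneg _
    linarith
  have hfin : ∫ r in (0:ℝ)..b', ww (Om r) ≤
      ∫ r in (0:ℝ)..b', (CW * (Q + Q / 2) + CW / (2 * Q) * ∫ x, gsq (Om r) x) := by
    refine intervalIntegral.integral_mono_on hb'.1 (ww_ii F le_rfl hb'.1 hb'T)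
      (intervalIntegrable_const.add ((P1_gii F.evO le_rfl hb'.1 hb'T).const_mul _)) fun r hr => ?_
    have h9 : √(∫ x, Om r x ^ 2) ≤ Q := by
      rw [Real.sqrt_le_left hQ0.le]
      have := hs r hr
      have := hg0 r hr
      linarith
    have h10 : 0 ≤ ∫ x, gsq (Om r) x := integral_nonneg fun x => gsq_nonneg _ _
    have h11 : √(∫ x, gsq (Om r) x) ≤ Q / 2 + 1 / (2 * Q) * ∫ x, gsq (Om r) x := by
      have h12 := Real.sq_sqrt h10
      obtain ⟨g, hg⟩ : ∃ g, g = √(∫ x, gsq (Om r) x) := ⟨_, rfl⟩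
      rw [← hg] at h12 ⊢
      rw [← h12]
      have h13 : 0 ≤ (Q - g) ^ 2 / (2 * Q) := by positivity
      have h14 : (Q - g) ^ 2 / (2 * Q) = Q / 2 + 1 / (2 * Q) * g ^ 2 - g := by
        field_simp
        ring
      linarith
    show CW * (√(∫ x, Om r x ^ 2) + √(∫ x, gsq (Om r) x)) ≤ _
    calc CW * (√(∫ x, Om r x ^ 2) + √(∫ x, gsq (Om r) x)) ≤
        CW * (Q + (Q / 2 + 1 / (2 * Q) * ∫ x, gsq (Om r) x)) :=
          mul_le_mul_of_nonneg_left (add_le_add h9 h11) hCW.le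
      _ = _ := by
          field_simp
          ring
  rw [hb'2', intervalIntegral.integral_add intervalIntegrable_const ((P1_gii F.evO le_rfl hb'.1 hb'T).const_mul _),
    intervalIntegral.integral_const, intervalIntegral.integral_const_mul, smul_eq_mul, sub_zero] at hfin
  have h15 : CW / (2 * Q) * ∫ r in (0:ℝ)..b', ∫ x, gsq (Om r) x ≤ CW / (2 * Q) * Q ^ 2 :=
    mul_le_mul_of_nonneg_left hgb (by positivity)
  have h16 : CW / (2 * Q) * Q ^ 2 = CW * Q / 2 := by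
    field_simp
  have h17 : b' * (CW * (Q + Q / 2)) ≤ T₁ * (CW * (Q + Q / 2)) :=
    mul_le_mul_of_nonneg_right hb'1 (by positivity)
  have h18 : 0 ≤ CW * Q := by positivity
  have h19 : 0 ≤ CW * Q * T₁ := by positivity
  nlinarith

end Pool.Agent.H87.NS
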