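/-
ROW Vol. The volume of the torus. PROOF. `E3` is `(x 0, x 1, x 2)` (`EuclideanSpace.volume_preserving_ofLp` or `measurableEquiv`; split `Fin 3 → ℝ` as
`(Fin 2 → ℝ) × ℝ` by `MeasurableEquiv.piFinSuccAbove` at the index 2, `volume_preserving_piFinSuccAbove`), the set is the product of the annulus
`{R - ρ ≤ √(a² + b²) ≤ R + ρ}` of area `π ((R+ρ)² - (R-ρ)²) = 4 π R ρ` (difference of two discs: `EuclideanSpace.volume_ball_fin_two` or
`Complex.volume_ball`, `MeasureTheory.measure_diff`) and the interval `|x 2| ≤ ρ` of length `2 ρ`: the volume is `8 π R ρ² ≤ 26 R ρ²`.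
(It is enough to have an upper bound: `π < 3.15`, `8 π < 26`.)
Dt_meas: `rad` and the coordinates are continuous.
-/
import Pool.Agent.H87.NS.TDefs

set_option autoImplicit false

open Set Filter Topology MeasureTheory
open scoped ContDiff

namespace Pool.Agent.H87.NS

open Pool.Agent.H16

theorem Dt_closed (R ρ : ℝ) : IsClosed (Dt R ρ) := by
  have hc : Continuous rad := by
    unfold rad
    fun_prop
  have h1 : IsClosed {x : E3 | |rad x - R| ≤ ρ} :=
    isClosed_le ((hc.sub continuous_const).abs) continuous_const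
  have h2 : IsClosed {x : E3 | |x 2| ≤ ρ} :=
    isClosed_le (by fun_prop) continuous_const
  exact h1.inter h2

theorem Vol_annulus {R ρ : ℝ} (hρ : 0 < ρ) (hR : ρ ≤ R) :
    volume {y : EuclideanSpace ℝ (Fin 2) | |‖y‖ - R| ≤ ρ} ≤ ENNReal.ofReal (4 * Real.pi * R * ρ) := by
  have hsub : {y : EuclideanSpace ℝ (Fin 2) | |‖y‖ - R| ≤ ρ} ⊆
      Metric.closedBall 0 (R + ρ) \ Metric.ball 0 (R - ρ) := by
    intro y hy
    rw [mem_ofPred_eq, abs_le] at hy
    rw [Set.mem_sdiff, mem_closedBall_zero_iff, mem_ball_zero_iff, not_lt]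
    exact ⟨by linarith, by linarith⟩
  refine (measure_mono hsub).trans ?_
  have hsub2 : Metric.ball (0 : EuclideanSpace ℝ (Fin 2)) (R - ρ) ⊆ Metric.closedBall 0 (R + ρ) :=
    Metric.ball_subset_closedBall.trans (Metric.closedBall_subset_closedBall (by linarith))
  rw [measure_sdiff hsub2 measurableSet_ball.nullMeasurableSet measure_ball_lt_top.ne,
    EuclideanSpace.volume_closedBall_fin_two, EuclideanSpace.volume_ball_fin_two]
  have h1 : 0 ≤ R - ρ := by linarith
  have h2 : 0 ≤ R + ρ := by linarith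
  have hpi := Real.pi_pos
  have e1 : ENNReal.ofReal (R + ρ) ^ 2 * ENNReal.ofReal Real.pi = ENNReal.ofReal ((R + ρ) ^ 2 * Real.pi) := by
    rw [ENNReal.ofReal_mul (by positivity), ENNReal.ofReal_pow h2]
  have e2 : ENNReal.ofReal (R - ρ) ^ 2 * ENNReal.ofReal Real.pi = ENNReal.ofReal ((R - ρ) ^ 2 * Real.pi) := by
    rw [ENNReal.ofReal_mul (by positivity), ENNReal.ofReal_pow h1]
  rw [e1, e2, ← ENNReal.ofReal_sub _ (by positivity)]
  refine ENNReal.ofReal_le_ofReal (le_of_eq ?_)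
  ring

theorem Dt_vol {R ρ : ℝ} (hρ : 0 < ρ) (hR : ρ ≤ R) : volume (Dt R ρ) ≤ ENNReal.ofReal (26 * R * ρ ^ 2) := by
  have m1 : MeasurePreserving (@WithLp.ofLp 2 (Fin 3 → ℝ)) := PiLp.volume_preserving_ofLp (Fin 3)
  have m2 := volume_preserving_piFinSuccAbove (fun _ : Fin 3 => ℝ) 2
  have m3 : MeasurePreserving (@WithLp.toLp 2 (Fin 2 → ℝ)) := PiLp.volume_preserving_toLp (Fin 2)
  have m4 := (MeasurePreserving.id (volume : Measure ℝ)).prod m3
  have m := m4.comp (m2.comp m1)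
  have hset : Dt R ρ = (Prod.map id (@WithLp.toLp 2 (Fin 2 → ℝ)) ∘
      (MeasurableEquiv.piFinSuccAbove (fun _ : Fin 3 => ℝ) 2) ∘ @WithLp.ofLp 2 (Fin 3 → ℝ)) ⁻¹'
      (Icc (-ρ) ρ ×ˢ {y : EuclideanSpace ℝ (Fin 2) | |‖y‖ - R| ≤ ρ}) := by
    ext x
    have hn : ‖@WithLp.toLp 2 (Fin 2 → ℝ) (fun j => x ((2 : Fin 3).succAbove j))‖ = rad x := by
      rw [EuclideanSpace.norm_eq, rad]
      congr 1
      rw [Fin.sum_univ_two, Real.norm_eq_abs, Real.norm_eq_abs, sq_abs, sq_abs]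
      rfl
    rw [mem_preimage, mem_prod, Dt, mem_ofPred_eq, mem_ofPred_eq, ← hn, mem_Icc, and_comm, ← abs_le]
    rfl
  have hmeas : MeasurableSet {y : EuclideanSpace ℝ (Fin 2) | |‖y‖ - R| ≤ ρ} :=
    (isClosed_le (by fun_prop) continuous_const).measurableSet
  rw [hset, m.measure_preimage (measurableSet_Icc.prod hmeas).nullMeasurableSet, Measure.prod_prod, Real.volume_Icc]
  refine (mul_le_mul_right (Vol_annulus hρ hR) _).trans ?_
  rw [← ENNReal.ofReal_mul (by linarith)]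
  refine ENNReal.ofReal_le_ofReal ?_
  have hpi := Real.pi_lt_d2
  have h1 : 0 < R * ρ ^ 2 := by
    have : 0 < R := by linarith
    positivity
  nlinarith

end Pool.Agent.H87.NS
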