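/-
ROW Loc. Local estimates in a torus. PROOF. Off the axis `|sO v x| = |circ (curl v) x| / rsq x ≤ ‖curl v x‖ / rad x` (om_eq, Pool.Agent.H16.circ_le);
on `Dt R ρ` with `ρ ≤ R / 2`, `rad x ≥ R / 2`, so `|sO v x| ≤ (2 / R) ‖curl v x‖`. `‖curl v x‖² ≤ 2 dsq v x` (`(a - b)² ≤ 2 a² + 2 b²` for each component).
loc1: Cauchy-Schwarz on `Dt R ρ`: `∫_D |sO v| ≤ (2/R) ∫_D ‖curl v‖ ≤ (2/R) √(vol D) √(∫ ‖curl v‖²) ≤ (2/R) √(26 R ρ²) √(2 ∫ dsq v)`.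
loc2: `∫_D |sO v| ‖v‖ ≤ (2/R) ∫ ‖curl v‖ ‖v‖ ≤ (2/R) √(2 ∫ dsq v) √(∫ ‖v‖²)`; in the stated form use
`2 a b ≤ τ a² + b² / τ`: `‖curl v‖ ‖v‖ ≤ (τ ‖curl v‖² + ‖v‖² / τ) / 2 ≤ τ dsq v + ‖v‖² / (2 τ)`.
-/
import Pool.Agent.H87.NS.Vol
import Pool.Agent.H87.NS.VRep
import Pool.Agent.H87.NS.Avk

set_option autoImplicit false

open Set Filter Topology MeasureTheory
open scoped ContDiff

namespace Pool.Agent.H87.NS

open Pool.Agent.H16

theorem Loc_curl (v : E3 → E3) (x : E3) : ‖curl v x‖ ^ 2 ≤ 2 * dsq v x := by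
  have h1 := norm_sq_eq (curl v x)
  rw [h1]
  unfold dsq
  simp only [norm_sq_eq, Fin.sum_univ_three]
  have e0 : curl v x 0 = fderiv ℝ v x (e 1) 2 - fderiv ℝ v x (e 2) 1 := rfl
  have e1 : curl v x 1 = fderiv ℝ v x (e 2) 0 - fderiv ℝ v x (e 0) 2 := rfl
  have e2 : curl v x 2 = fderiv ℝ v x (e 0) 1 - fderiv ℝ v x (e 1) 0 := rfl
  rw [e0, e1, e2]
  nlinarith [sq_nonneg (fderiv ℝ v x (e 1) 2 + fderiv ℝ v x (e 2) 1),
    sq_nonneg (fderiv ℝ v x (e 2) 0 + fderiv ℝ v x (e 0) 2),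
    sq_nonneg (fderiv ℝ v x (e 0) 1 + fderiv ℝ v x (e 1) 0),
    sq_nonneg (fderiv ℝ v x (e 0) 0), sq_nonneg (fderiv ℝ v x (e 1) 1),
    sq_nonneg (fderiv ℝ v x (e 2) 2)]

theorem Loc_sO {v : E3 → E3} (hv : AxF v) {R ρ : ℝ} (hρ : 0 < ρ) (hR : ρ ≤ R / 2) {x : E3}
    (hx : x ∈ Dt R ρ) : |sO v x| ≤ 2 / R * ‖curl v x‖ := by
  have hR0 : 0 < R := by linarith
  have h1 : R / 2 ≤ rad x := by
    have := (abs_le.1 hx.1).1
    linarith
  have h2 : 0 < rad x := by linarith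
  have h3 : rsq x = rad x ^ 2 := (rad_sq' x).symm
  have h4 := circ_le (curl v) x
  rw [om_eq hv x, h3, abs_mul, abs_of_pos (by positivity : 0 < rad x ^ 2)] at h4
  have h5 : rad x * |sO v x| ≤ ‖curl v x‖ := by
    have : rad x * (rad x * |sO v x|) ≤ rad x * ‖curl v x‖ := by
      calc rad x * (rad x * |sO v x|) = rad x ^ 2 * |sO v x| := by ring
        _ ≤ _ := h4
    exact le_of_mul_le_mul_left this h2
  have h6 : R / 2 * |sO v x| ≤ ‖curl v x‖ :=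
    (mul_le_mul_of_nonneg_right h1 (abs_nonneg _)).trans h5
  rw [div_mul_eq_mul_div, le_div_iff₀ hR0]
  linarith

theorem Loc_cint {v : E3 → E3} (hv : AxF v) (hi : Integrable (dsq v)) :
    Integrable (fun x => ‖curl v x‖ ^ 2) := by
  refine (hi.const_mul 2).mono' ?_ (Eventually.of_forall fun x => ?_)
  · exact ((curl_smooth hv.smooth).continuous.norm.pow 2).aestronglyMeasurable
  · rw [Real.norm_of_nonneg (by positivity)]
    exact Loc_curl v x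

theorem Loc_fin {R ρ : ℝ} (hρ : 0 < ρ) (hR : ρ ≤ R) : volume (Dt R ρ) ≠ ⊤ :=
  ((Dt_vol hρ hR).trans_lt ENNReal.ofReal_lt_top).ne

theorem loc1 {v : E3 → E3} (hv : AxF v) (hi : Integrable (dsq v)) {R ρ : ℝ} (hρ : 0 < ρ) (hR : ρ ≤ R / 2) :
    ∫ x in Dt R ρ, |sO v x| ≤ 2 / R * √(26 * R * ρ ^ 2) * √(2 * ∫ x, dsq v x) := by
  have hR0 : 0 < R := by linarith
  have hρR : ρ ≤ R := by linarith
  have hD := (Dt_closed R ρ).measurableSet
  have hfin := Loc_fin hρ hρR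
  have : IsFiniteMeasure (volume.restrict (Dt R ρ)) := isFiniteMeasure_restrict.2 hfin
  have hc2 : Integrable (fun x => ‖curl v x‖ ^ 2) (volume.restrict (Dt R ρ)) :=
    (Loc_cint hv hi).restrict
  have hcc : Continuous fun x => ‖curl v x‖ := (curl_smooth hv.smooth).continuous.norm
  have hc1 : Integrable (fun x => ‖curl v x‖) (volume.restrict (Dt R ρ)) := by
    refine ((integrable_const (1 : ℝ)).add hc2).mono' hcc.aestronglyMeasurable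
      (Eventually.of_forall fun x => ?_)
    rw [norm_norm]
    show ‖curl v x‖ ≤ 1 + ‖curl v x‖ ^ 2
    nlinarith [norm_nonneg (curl v x), sq_nonneg (‖curl v x‖ - 1)]
  have h1 : ∫ x in Dt R ρ, |sO v x| ≤ ∫ x in Dt R ρ, 2 / R * ‖curl v x‖ := by
    refine integral_mono_of_nonneg (Eventually.of_forall fun x => abs_nonneg _) (hc1.const_mul _) ?_
    filter_upwards [ae_restrict_mem hD] with x hx
    exact Loc_sO hv hρ hR hx
  rw [integral_const_mul] at h1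
  set m : ℝ := (volume (Dt R ρ)).toReal with hm
  have hm1 : m ≤ 26 * R * ρ ^ 2 := ENNReal.toReal_le_of_le_ofReal (by positivity) (Dt_vol hρ hρR)
  have hm0 : 0 ≤ m := ENNReal.toReal_nonneg
  have hquad : ∀ t : ℝ, 0 ≤ m * (t * t) + (-(2 * ∫ x in Dt R ρ, ‖curl v x‖)) * t +
      ∫ x in Dt R ρ, ‖curl v x‖ ^ 2 := by
    intro t
    have a1 : 0 ≤ ∫ x in Dt R ρ, (t - ‖curl v x‖) ^ 2 := integral_nonneg fun x => sq_nonneg _
    have a2 : ∫ x in Dt R ρ, (t - ‖curl v x‖) ^ 2 = m * (t * t) +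
        (-(2 * ∫ x in Dt R ρ, ‖curl v x‖)) * t + ∫ x in Dt R ρ, ‖curl v x‖ ^ 2 := by
      have a3 : ∀ x, (t - ‖curl v x‖) ^ 2 = t * t + (-(2 * t)) * ‖curl v x‖ + ‖curl v x‖ ^ 2 :=
        fun x => by ring
      simp only [a3]
      have b1 : Integrable (fun _ : E3 => t * t) (volume.restrict (Dt R ρ)) := integrable_const _
      have b2 := hc1.const_mul (-(2 * t))
      have b3 : ∫ x in Dt R ρ, (t * t + (-(2 * t)) * ‖curl v x‖ + ‖curl v x‖ ^ 2) =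
          (∫ x in Dt R ρ, (t * t + (-(2 * t)) * ‖curl v x‖)) + ∫ x in Dt R ρ, ‖curl v x‖ ^ 2 :=
        integral_add (b1.add b2) hc2
      have b4 : ∫ x in Dt R ρ, (t * t + (-(2 * t)) * ‖curl v x‖) =
          (∫ _x in Dt R ρ, t * t) + ∫ x in Dt R ρ, (-(2 * t)) * ‖curl v x‖ := integral_add b1 b2
      have b5 : ∫ _x in Dt R ρ, t * t = m * (t * t) := by
        rw [setIntegral_const, smul_eq_mul]
        rfl
      rw [b3, b4, b5, integral_const_mul]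
      ring
    rw [← a2]
    exact a1
  have hdisc := discrim_le_zero (fun t => hquad t)
  unfold discrim at hdisc
  have hI2 : ∫ x in Dt R ρ, ‖curl v x‖ ^ 2 ≤ 2 * ∫ x, dsq v x := by
    have c1 : ∫ x in Dt R ρ, ‖curl v x‖ ^ 2 ≤ ∫ x, ‖curl v x‖ ^ 2 :=
      setIntegral_le_integral (Loc_cint hv hi) (Eventually.of_forall fun x => sq_nonneg _)
    refine c1.trans ?_
    rw [← integral_const_mul]
    exact integral_mono (Loc_cint hv hi) (hi.const_mul 2) fun x => Loc_curl v x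
  have hI20 : 0 ≤ ∫ x in Dt R ρ, ‖curl v x‖ ^ 2 := integral_nonneg fun x => sq_nonneg _
  have hI10 : 0 ≤ ∫ x in Dt R ρ, ‖curl v x‖ := integral_nonneg fun x => norm_nonneg _
  have h2 : (∫ x in Dt R ρ, ‖curl v x‖) ^ 2 ≤ (26 * R * ρ ^ 2) * (2 * ∫ x, dsq v x) := by
    have c1 : (∫ x in Dt R ρ, ‖curl v x‖) ^ 2 ≤ m * ∫ x in Dt R ρ, ‖curl v x‖ ^ 2 := by nlinarith
    exact c1.trans (mul_le_mul hm1 hI2 hI20 (by positivity))
  have h3 : ∫ x in Dt R ρ, ‖curl v x‖ ≤ √(26 * R * ρ ^ 2) * √(2 * ∫ x, dsq v x) := by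
    rw [← Real.sqrt_mul (by positivity)]
    exact Real.le_sqrt_of_sq_le h2
  refine h1.trans ?_
  rw [mul_assoc]
  exact mul_le_mul_of_nonneg_left h3 (by positivity)

theorem loc2 {v : E3 → E3} (hv : AxF v) (hi : Integrable (dsq v)) (hi' : Integrable (fun x => ‖v x‖ ^ 2))
    {R ρ τ : ℝ} (hρ : 0 < ρ) (hR : ρ ≤ R / 2) (hτ : 0 < τ) :
    ∫ x in Dt R ρ, |sO v x| * ‖v x‖ ≤ 2 / R * (τ * (∫ x, dsq v x) + (∫ x, ‖v x‖ ^ 2) / (2 * τ)) := by
  have hR0 : 0 < R := by linarith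
  have hD := (Dt_closed R ρ).measurableSet
  have hint : Integrable (fun x => 2 / R * (τ * dsq v x + (2 * τ)⁻¹ * ‖v x‖ ^ 2)) :=
    ((hi.const_mul τ).add (hi'.const_mul (2 * τ)⁻¹)).const_mul (2 / R)
  have hnn : ∀ x, 0 ≤ 2 / R * (τ * dsq v x + (2 * τ)⁻¹ * ‖v x‖ ^ 2) := by
    intro x
    have : 0 ≤ dsq v x := Finset.sum_nonneg fun i _ => sq_nonneg _
    positivity
  have h1 : ∫ x in Dt R ρ, |sO v x| * ‖v x‖ ≤
      ∫ x in Dt R ρ, 2 / R * (τ * dsq v x + (2 * τ)⁻¹ * ‖v x‖ ^ 2) := by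
    refine integral_mono_of_nonneg (Eventually.of_forall fun x => by positivity) hint.restrict ?_
    filter_upwards [ae_restrict_mem hD] with x hx
    have h2 := Loc_sO hv hρ hR hx
    have h3 := Loc_curl v x
    have h4 : ‖curl v x‖ * ‖v x‖ ≤ τ * dsq v x + (2 * τ)⁻¹ * ‖v x‖ ^ 2 := by
      have h5 : 2 * (‖curl v x‖ * ‖v x‖) ≤ τ * ‖curl v x‖ ^ 2 + τ⁻¹ * ‖v x‖ ^ 2 := by
        have h6 : 0 ≤ τ⁻¹ * (τ * ‖curl v x‖ - ‖v x‖) ^ 2 := by positivity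
        have h7 : τ⁻¹ * (τ * ‖curl v x‖ - ‖v x‖) ^ 2 =
            τ * ‖curl v x‖ ^ 2 - 2 * (‖curl v x‖ * ‖v x‖) + τ⁻¹ * ‖v x‖ ^ 2 := by
          field_simp
          ring
        linarith
      have h8 : (2 * τ)⁻¹ = τ⁻¹ / 2 := by
        field_simp
      rw [h8]
      nlinarith
    calc |sO v x| * ‖v x‖ ≤ (2 / R * ‖curl v x‖) * ‖v x‖ :=
          mul_le_mul_of_nonneg_right h2 (norm_nonneg _)
      _ = 2 / R * (‖curl v x‖ * ‖v x‖) := by ring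
      _ ≤ _ := mul_le_mul_of_nonneg_left h4 (by positivity)
  refine h1.trans ((setIntegral_le_integral hint (Eventually.of_forall hnn)).trans (le_of_eq ?_))
  rw [integral_const_mul]
  congr 1
  have h9 : ∫ x, (τ * dsq v x + (2 * τ)⁻¹ * ‖v x‖ ^ 2) =
      (∫ x, τ * dsq v x) + ∫ x, (2 * τ)⁻¹ * ‖v x‖ ^ 2 :=
    integral_add (hi.const_mul τ) (hi'.const_mul (2 * τ)⁻¹)
  rw [h9, integral_const_mul, integral_const_mul]
  ring

end Pool.Agent.H87.NS
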