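/-
ROW Pig. A good time. PROOF. dsq_ii: `t ↦ ∫ dsq (u t)` is interval integrable and bounded on `[0,b]`: `dsq (u t) x = ∑_i ∑_j (pd i (u_j))²` (pd_comp, norm of `E3` as sum of squares), jointly
continuous (js_u, JS_pd, JS_JC), with bounded integrals (uDB), ti_int. energy1: h.energy and `∫ ‖u t‖² ≥ 0`. kin: `∫ ‖u t‖² ≤ ∫ ‖u 0‖²` since the dissipation is
`≥ 0`. pigeon: let `e₀ = ∫ ‖u 0‖²`, `T₁ = exp Λ < T`, `g(t) = ∫ dsq (u t) ≥ 0`. If `t g(t) > e₀ / Λ` for all `t ∈ [1, T₁]` then `g(t) > (e₀/Λ) / t`, and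
`∫_1^{T₁} g ≥ (e₀/Λ) Λ = e₀`, with strict inequality (`∫_1^{T₁} (g - (e₀/Λ)/t) > 0`: `intervalIntegral.intervalIntegral_pos_of_pos_on`);
but `∫_1^{T₁} g ≤ ∫_0^{T₁} g ≤ e₀ / 2 ≤ e₀`, a contradiction.
-/
import Pool.Agent.H87.NS.TDefs
import Pool.Agent.H87.NS.Bds1
import Pool.Agent.H87.NS.TI

set_option autoImplicit false

open Set Filter Topology MeasureTheory
open scoped ContDiff

namespace Pool.Agent.H87.NS

open Pool.Agent.H16

variable {T : ℝ} {u : ℝ → E3 → E3} {p : ℝ → E3 → ℝ}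

private theorem Pig_dsq {v : E3 → E3} (hv : ContDiff ℝ ∞ v) (x : E3) :
    dsq v x = gsq (fun y => v y 0) x + gsq (fun y => v y 1) x + gsq (fun y => v y 2) x := by
  unfold dsq gsq
  simp only [pd_comp hv, EuclideanSpace.real_norm_sq_eq, Fin.sum_univ_three]
  ring

private theorem Pig_jc (h : IsHInfAxisymNS T u p) : JC T (fun t => dsq (u t)) := by
  have h1 : ∀ j : Fin 3, JC T (fun t x => gsq (fun y => u t y j) x) := by
    intro j
    have h2 : ∀ i : Fin 3, JC T (fun t => pd i (fun y => u t y j)) := fun i =>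
      JS_JC (JS_pd (js_u h.ns j) i)
    have h3 := JC_add (JC_add (JC_mul (h2 0) (h2 0)) (JC_mul (h2 1) (h2 1)))
      (JC_mul (h2 2) (h2 2))
    have h4 : (fun t x => gsq (fun y => u t y j) x) = fun t x =>
        pd 0 (fun y => u t y j) x * pd 0 (fun y => u t y j) x +
        pd 1 (fun y => u t y j) x * pd 1 (fun y => u t y j) x +
        pd 2 (fun y => u t y j) x * pd 2 (fun y => u t y j) x := by
      funext t x
      simp only [gsq, Fin.sum_univ_three, pow_two]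
    rw [h4]
    exact h3
  have h5 := JC_add (JC_add (h1 0) (h1 1)) (h1 2)
  refine ContinuousOn.congr h5 ?_
  rintro ⟨t, x⟩ ⟨ht, -⟩
  exact Pig_dsq (h.ns.slice ht) x

private theorem Pig_bd (h : IsHInfAxisymNS T u p) {b : ℝ} (hb : b < T) :
    ∃ K : ℝ, ∀ t ∈ Icc 0 b, Integrable (dsq (u t)) ∧ ∫ x, |dsq (u t) x| ≤ K := by
  obtain ⟨K, hK⟩ := uDB h hb
  refine ⟨3 * K + 3 * K + 3 * K, fun t ht => ?_⟩
  have ht' : t ∈ Ico 0 T := ⟨ht.1, ht.2.trans_lt hb⟩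
  have h1 := fun j : Fin 3 => gsq_int (DB_mono (hK t ht j) (m := 1) (by norm_num) le_rfl)
  have h2 : dsq (u t) = fun x => gsq (fun y => u t y 0) x + gsq (fun y => u t y 1) x +
      gsq (fun y => u t y 2) x := funext fun x => Pig_dsq (h.ns.slice ht') x
  have h3 : ∀ x, |dsq (u t) x| = dsq (u t) x := fun x =>
    abs_of_nonneg (Finset.sum_nonneg fun _ _ => sq_nonneg _)
  simp only [h3]
  rw [h2]
  have h01 : Integrable (fun x => gsq (fun y => u t y 0) x + gsq (fun y => u t y 1) x) :=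
    (h1 0).1.add (h1 1).1
  refine ⟨h01.add (h1 2).1, ?_⟩
  rw [integral_add h01 (h1 2).1, integral_add (h1 0).1 (h1 1).1]
  exact add_le_add (add_le_add (h1 0).2 (h1 1).2) (h1 2).2

theorem dsq_int (h : IsHInfAxisymNS T u p) {t : ℝ} (ht : t ∈ Ico 0 T) :
    Integrable (dsq (u t)) ∧ Integrable (fun x => ‖u t x‖ ^ 2) := by
  obtain ⟨K, hK⟩ := Pig_bd h ht.2
  obtain ⟨K', hK'⟩ := uDB h ht.2
  refine ⟨(hK t ⟨ht.1, le_rfl⟩).1, ?_⟩
  have h1 := fun j : Fin 3 => (DB_BL (hK' t ⟨ht.1, le_rfl⟩ j)).2.1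
  have h2 : (fun x => ‖u t x‖ ^ 2) = fun x => u t x 0 ^ 2 + u t x 1 ^ 2 + u t x 2 ^ 2 := by
    funext x
    rw [EuclideanSpace.real_norm_sq_eq, Fin.sum_univ_three]
  rw [h2]
  exact ((h1 0).add (h1 1)).add (h1 2)

theorem dsq_ii (h : IsHInfAxisymNS T u p) {a b : ℝ} (ha : 0 ≤ a) (hab : a ≤ b) (hb : b < T) :
    IntervalIntegrable (fun t => ∫ x, dsq (u t) x) volume a b := by
  obtain ⟨K, hK⟩ := Pig_bd h hb
  exact ti_int (Pig_jc h) hb hK ha hab

private theorem Pig_nonneg (v : E3 → E3) : 0 ≤ ∫ x, dsq v x :=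
  integral_nonneg fun _ => Finset.sum_nonneg fun _ _ => sq_nonneg _

theorem energy1 (h : IsHInfAxisymNS T u p) {t : ℝ} (ht : t ∈ Ico 0 T) :
    ∫ s in (0:ℝ)..t, ∫ x, dsq (u s) x ≤ (∫ x, ‖u 0 x‖ ^ 2) / 2 ∧ ∫ x, ‖u t x‖ ^ 2 ≤ ∫ x, ‖u 0 x‖ ^ 2 := by
  have h1 := h.energy t ht
  have h2 : (∫ x, ‖u t x‖ ^ 2) + 2 * ∫ s in (0:ℝ)..t, ∫ x, dsq (u s) x ≤ ∫ x, ‖u 0 x‖ ^ 2 := h1
  have h3 : 0 ≤ ∫ x, ‖u t x‖ ^ 2 := integral_nonneg fun _ => sq_nonneg _
  have h4 : 0 ≤ ∫ s in (0:ℝ)..t, ∫ x, dsq (u s) x :=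
    intervalIntegral.integral_nonneg ht.1 fun s _ => Pig_nonneg (u s)
  constructor <;> linarith

theorem pigeon (h : IsHInfAxisymNS T u p) {L : ℝ} (hL : 0 < L) (hT : Real.exp L < T) :
    ∃ t₁ ∈ Icc 1 (Real.exp L), t₁ * ∫ x, dsq (u t₁) x ≤ (∫ x, ‖u 0 x‖ ^ 2) / L := by
  by_contra hcon
  push Not at hcon
  set e₀ : ℝ := ∫ x, ‖u 0 x‖ ^ 2 with he
  have he0 : 0 ≤ e₀ := integral_nonneg fun _ => sq_nonneg _
  have hE1 : (1 : ℝ) < Real.exp L := by
    have := Real.exp_lt_exp.2 hL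
    rwa [Real.exp_zero] at this
  have hi1 := dsq_ii h (zero_le_one) hE1.le hT
  have hi0 := dsq_ii h (le_refl (0 : ℝ)) zero_le_one (hE1.trans hT)
  have hinv : IntervalIntegrable (fun t : ℝ => e₀ / L * t⁻¹) volume 1 (Real.exp L) := by
    refine IntervalIntegrable.const_mul ?_ _
    refine intervalIntegral.intervalIntegrable_inv (fun x hx => ?_) continuousOn_id
    rw [uIcc_of_le hE1.le] at hx
    have := hx.1
    intro h0
    linarith
  have hpos : 0 < ∫ t in (1:ℝ)..Real.exp L, ((∫ x, dsq (u t) x) - e₀ / L * t⁻¹) := by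
    refine intervalIntegral.intervalIntegral_pos_of_pos_on (hi1.sub hinv) (fun t ht => ?_) hE1
    have h1 := hcon t ⟨ht.1.le, ht.2.le⟩
    have ht0 : 0 < t := by linarith [ht.1]
    have h2 : e₀ / L * t⁻¹ < ∫ x, dsq (u t) x := by
      rw [← div_eq_mul_inv, div_lt_iff₀ ht0]
      linarith
    linarith
  rw [intervalIntegral.integral_sub hi1 hinv, intervalIntegral.integral_const_mul,
    integral_inv_of_pos one_pos (by linarith), div_one, Real.log_exp,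
    div_mul_cancel₀ _ hL.ne'] at hpos
  have h3 := (energy1 h ⟨(Real.exp_pos L).le, hT⟩).1
  rw [← intervalIntegral.integral_add_adjacent_intervals hi0 hi1] at h3
  have h4 : 0 ≤ ∫ s in (0:ℝ)..1, ∫ x, dsq (u s) x :=
    intervalIntegral.integral_nonneg zero_le_one fun s _ => Pig_nonneg (u s)
  rw [← he] at h3
  linarith

end Pool.Agent.H87.NS
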