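/-
ROW Tail. The part of `Om` far from the torus. PROOF. `χ` from cutoff. ev for `Om` (F.evO), `j = ja κ`, `a = 0`, `b = t₁`, weight `χ`:
`∫ ja κ (Om t₁) χ ≤ ∫ ja κ (Om 0) χ + ∫_0^{t₁} ∫ evJ`. The initial term is `0`: `χ = 0` where `Om 0 ≠ 0` (hypothesis), and `ja κ 0 = 0`. In `evJ`:
`- j'' gsq χ ≤ 0`; `j'(Om) 2 V pd 2 V χ ≤ 2 |V| √(gsq V)` (ja_deriv, pd_le_gsq, `0 ≤ χ ≤ 1`); `j(Om) ≤ |Om|` and
`|adv u χ| ≤ (C/L) ‖u‖` on `Dt R (2L)`, `0` outside; `|lap χ| + |(2/rsq) rdr χ| ≤ C/L² + C/(L R)`. So for every `t ∈ [0, t₁]`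
`∫ evJ ≤ 2 ∫ |V| √(gsq V) + (C/L) ∫_{Dt R (2L)} |Om| ‖u‖ + (C/L² + C/(L R)) K₁`. By loc2 with `ρ = 2 L`, `τ = √t₁`, the middle term is
`≤ (C/L) (2/R) (√t₁ ∫ dsq (u t) + (∫ ‖u t‖²) / (2 √t₁))`; its time integral over `[0, t₁]` is `≤ (C/L) (2/R) (√t₁ e₀/2 + √t₁ e₀/2) = 2 C √t₁ e₀ / (L R)`
(energy1, dsq_ii). Let `κ = 1/(n+1) → 0` (Fatou on the left, ja_tend; `Om t₁` is integrable by hypothesis so dominated convergence also works), and
`∫_{(Dt R (2L))ᶜ} |Om t₁| ≤ ∫ |Om t₁| χ`. (The integral of `evJ` in `x` is estimated for each `t` and then integrated in `t`: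
`intervalIntegral.integral_mono_on` needs the interval integrability of `t ↦ ∫ evJ`: if it fails the integral is `0` in Lean, and the bound is `≥ 0`; or
prove it by ti_int.)
-/
import Pool.Agent.H87.NS.Cut
import Pool.Agent.H87.NS.Loc
import Pool.Agent.H87.NS.Pig
import Pool.Agent.H87.NS.FlowOf
import Pool.Agent.H87.NS.EV
import Pool.Agent.H87.NS.JQ
import Pool.Agent.H87.NS.StepJ

set_option autoImplicit false

open Set Filter Topology MeasureTheory
open scoped ContDiff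

namespace Pool.Agent.H87.NS

open Pool.Agent.H16

/-- The constant of the cut-off. -/
noncomputable def CC : ℝ := Classical.choose cutoff

theorem CC_pos : 0 < CC := (Classical.choose_spec cutoff).1

/-- Monotonicity of the integral, for a nonnegative integrable majorant. -/
theorem Tail_le {f g : E3 → ℝ} (hfg : ∀ x, f x ≤ g x) (hg : ∀ x, 0 ≤ g x) (hi : Integrable g) :
    ∫ x, f x ≤ ∫ x, g x := by
  by_cases hf : Integrable f
  · exact integral_mono hf hi hfg
  · rw [integral_undef hf]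
    exact integral_nonneg hg

theorem Tail_ii {f g : ℝ → ℝ} {a b : ℝ} (hab : a ≤ b) (hfg : ∀ t ∈ Icc a b, f t ≤ g t)
    (hg : ∀ t ∈ Icc a b, 0 ≤ g t) (hi : IntervalIntegrable g volume a b) :
    ∫ t in a..b, f t ≤ ∫ t in a..b, g t := by
  by_cases hf : IntervalIntegrable f volume a b
  · exact intervalIntegral.integral_mono_on hab hf hi hfg
  · rw [intervalIntegral.integral_undef hf]
    exact intervalIntegral.integral_nonneg hab hg

theorem Tail_int3 {f g k : E3 → ℝ} (a b c : ℝ) (hf : Integrable f) (hg : Integrable g) (hk : Integrable k) :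
    ∫ x, (a * f x + b * g x + c * k x) = a * (∫ x, f x) + b * (∫ x, g x) + c * (∫ x, k x) := by
  have h1 : Integrable (fun x => a * f x + b * g x) := (hf.const_mul a).add (hg.const_mul b)
  rw [integral_add h1 (hk.const_mul c), integral_add (hf.const_mul a) (hg.const_mul b),
    integral_const_mul, integral_const_mul, integral_const_mul]

/-- Pointwise bound of the integrand. -/
theorem Tail_pt {κ : ℝ} (hκ : 0 < κ) (v : E3 → E3) (f V χ : E3 → ℝ) (x : E3) {A B1 B2 : ℝ} (D : Set E3)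
    (h0 : 0 ≤ χ x) (h1 : χ x ≤ 1)
    (hout : x ∉ D → lap χ x = 0 ∧ rdr χ x = 0 ∧ ∀ w, adv w χ x = 0)
    (hadv : ∀ w, |adv w χ x| ≤ A * ‖w‖) (hlap : |lap χ x| ≤ B1) (hrdr : |2 / rsq x * rdr χ x| ≤ B2) :
    evJ (ja κ) v f (fun x => 2 * V x * pd 2 V x) χ x ≤
      2 * (|V x| * √(gsq V x)) + A * (D.indicator (fun x => |f x| * ‖v x‖) x) + (B1 + B2) * |f x| := by
  have hj := ja_le hκ (f x)
  have hB1 : 0 ≤ B1 := (abs_nonneg _).trans hlap
  have hB2 : 0 ≤ B2 := (abs_nonneg _).trans hrdr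
  have t1 : 0 ≤ deriv (deriv (ja κ)) (f x) * gsq f x * χ x :=
    mul_nonneg (mul_nonneg ((ja_jfun hκ).convex _) (gsq_nonneg f x)) h0
  have t2 : deriv (ja κ) (f x) * (2 * V x * pd 2 V x) * χ x ≤ 2 * (|V x| * √(gsq V x)) := by
    refine (le_abs_self _).trans ?_
    rw [abs_mul, abs_mul, abs_mul, abs_mul, abs_two, abs_of_nonneg h0]
    have e1 := ja_deriv hκ (f x)
    have e2 := pd_le_gsq V 2 x
    have e3 : |V x| * |pd 2 V x| ≤ |V x| * √(gsq V x) := mul_le_mul_of_nonneg_left e2 (abs_nonneg _)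
    have e4 : 0 ≤ |V x| * |pd 2 V x| := by positivity
    calc |deriv (ja κ) (f x)| * (2 * |V x| * |pd 2 V x|) * χ x
        ≤ 1 * (2 * |V x| * |pd 2 V x|) * 1 := by gcongr
      _ = 2 * (|V x| * |pd 2 V x|) := by ring
      _ ≤ 2 * (|V x| * √(gsq V x)) := by linarith
  have t3 : ja κ (f x) * (adv (v x) χ x + lap χ x - 2 / rsq x * rdr χ x) ≤
      A * (D.indicator (fun x => |f x| * ‖v x‖) x) + (B1 + B2) * |f x| := by
    by_cases hx : x ∈ D
    · rw [indicator_of_mem hx]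
      have e1 : adv (v x) χ x + lap χ x - 2 / rsq x * rdr χ x ≤ A * ‖v x‖ + (B1 + B2) := by
        have := (abs_le.1 (hadv (v x))).2
        have := (abs_le.1 hlap).2
        have := (abs_le.1 hrdr).1
        linarith
      have e2 : 0 ≤ A * ‖v x‖ + (B1 + B2) := by
        have := (abs_nonneg _).trans (hadv (v x))
        linarith
      calc ja κ (f x) * (adv (v x) χ x + lap χ x - 2 / rsq x * rdr χ x)
          ≤ ja κ (f x) * (A * ‖v x‖ + (B1 + B2)) := mul_le_mul_of_nonneg_left e1 hj.1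
        _ ≤ |f x| * (A * ‖v x‖ + (B1 + B2)) := mul_le_mul_of_nonneg_right hj.2.1 e2
        _ = A * (|f x| * ‖v x‖) + (B1 + B2) * |f x| := by ring
    · obtain ⟨z1, z2, z3⟩ := hout hx
      rw [indicator_of_notMem hx, z1, z2, z3]
      have : 0 ≤ (B1 + B2) * |f x| := by positivity
      simpa using this
  unfold evJ
  linarith

theorem Tail_meas (R ρ : ℝ) : MeasurableSet (Dt R ρ) := by
  have hr : Continuous rad := continuous_rad
  have h2 : Continuous fun x : E3 => x 2 := by fun_prop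
  exact ((isClosed_le (hr.sub continuous_const).abs continuous_const).inter
    (isClosed_le h2.abs continuous_const)).measurableSet

theorem tail {T : ℝ} {u : ℝ → E3 → E3} {p : ℝ → E3 → ℝ} (h : IsHInfAxisymNS T u p) {R L t₁ K₁ : ℝ}
    (hL : 4 ≤ L) (hR : 2 * L ≤ R / 2) (ht : 0 < t₁) (htT : t₁ < T)
    (hs : ∀ x, 1 < (rad x - R) ^ 2 + x 2 ^ 2 → sO (u 0) x = 0)
    (hK : ∀ t ∈ Icc 0 t₁, Integrable (sO (u t)) ∧ ∫ x, |sO (u t) x| ≤ K₁) :
    ∫ x in (Dt R (2 * L))ᶜ, |sO (u t₁) x| ≤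
      2 * (∫ t in (0:ℝ)..t₁, ∫ x, |sV (u t) x| * √(gsq (sV (u t)) x))
      + 2 * CC * √t₁ * (∫ x, ‖u 0 x‖ ^ 2) / (L * R) + (CC / L ^ 2 + CC / (L * R)) * K₁ * t₁ := by
  have hL0 : 0 < L := by linarith
  have hR0 : 0 < R := by linarith
  have hC0 := CC_pos
  have F := flow_of h
  have hcut : ∀ R L : ℝ, 4 ≤ L → 2 * L ≤ R / 2 → ∃ χ : E3 → ℝ, Wt χ ∧
      (∀ x, (rad x - R) ^ 2 + x 2 ^ 2 ≤ 1 → χ x = 0) ∧
      (∀ x, x ∉ Dt R (2 * L) → χ x = 1 ∧ lap χ x = 0 ∧ rdr χ x = 0 ∧ ∀ w, adv w χ x = 0) ∧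
      (∀ x w, |adv w χ x| ≤ CC / L * ‖w‖) ∧ (∀ x, |lap χ x| ≤ CC / L ^ 2) ∧
      (∀ x, |2 / rsq x * rdr χ x| ≤ CC / (L * R)) := (Classical.choose_spec cutoff).2
  obtain ⟨χ, hw, hz, hout, hadv, hlap, hrdr⟩ := hcut R L hL hR
  set D := Dt R (2 * L) with hD
  have hDm : MeasurableSet D := Tail_meas R (2 * L)
  set e₀ := ∫ x, ‖u 0 x‖ ^ 2 with he₀
  have he0 : 0 ≤ e₀ := integral_nonneg fun x => sq_nonneg _
  have hK0 : 0 ≤ K₁ := (integral_nonneg fun x => abs_nonneg _).trans (hK 0 ⟨le_rfl, ht.le⟩).2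
  have hsq : 0 < √t₁ := Real.sqrt_pos.2 ht
  set Q := CC / L ^ 2 + CC / (L * R) with hQ
  have hQ0 : 0 ≤ Q := by positivity
  have hmem : ∀ {t}, t ∈ Icc 0 t₁ → t ∈ Ico 0 T := fun h => ⟨h.1, h.2.trans_lt htT⟩
  obtain ⟨Ku, hKu⟩ := F.drift.bd t₁ htT
  obtain ⟨Kv, -, hKv⟩ := vdv_bd F htT
  have hsm : ∀ t ∈ Icc 0 t₁, Continuous (sO (u t)) := fun t ht' =>
    (F.evO.smooth t (hmem ht')).continuous
  -- the bound of the integral at a fixed time
  have key : ∀ κ > 0, ∀ t ∈ Icc 0 t₁,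
      ∫ x, evJ (ja κ) (u t) (sO (u t)) (fun x => 2 * sV (u t) x * pd 2 (sV (u t)) x) χ x ≤
      2 * (∫ x, |sV (u t) x| * √(gsq (sV (u t)) x)) +
      CC / L * (2 / R * (√t₁ * (∫ x, dsq (u t) x) + e₀ / (2 * √t₁))) + Q * K₁ := by
    intro κ hκ t ht'
    obtain ⟨hIO, hKO⟩ := hK t ht'
    have hi1 := (hKv t ht').1
    have hcu : Continuous (u t) := (F.drift.smooth t (hmem ht')).continuous
    have hi2 : Integrable (fun x => |sO (u t) x| * ‖u t x‖) := by
      refine Integrable.mono' (hIO.abs.mul_const Ku)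
        ((hsm t ht').abs.mul hcu.norm).aestronglyMeasurable ?_
      refine Eventually.of_forall fun x => ?_
      rw [Real.norm_eq_abs, abs_of_nonneg (by positivity)]
      exact mul_le_mul_of_nonneg_left (hKu t ht' x) (abs_nonneg _)
    have hi2' := hi2.indicator hDm
    have hle := Tail_le
      (f := fun x => evJ (ja κ) (u t) (sO (u t)) (fun x => 2 * sV (u t) x * pd 2 (sV (u t)) x) χ x)
      (g := fun x => 2 * (|sV (u t) x| * √(gsq (sV (u t)) x)) +
        CC / L * (D.indicator (fun x => |sO (u t) x| * ‖u t x‖) x) + Q * |sO (u t) x|)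
      (fun x => Tail_pt hκ (u t) (sO (u t)) (sV (u t)) χ x D (hw.nonneg x) (hw.le_one x)
        (fun hx => (hout x hx).2) (hadv x) (hlap x) (hrdr x))
      (fun x => by
        have : 0 ≤ D.indicator (fun x => |sO (u t) x| * ‖u t x‖) x :=
          indicator_nonneg (fun y _ => by positivity) x
        positivity)
      (((hi1.const_mul 2).add (hi2'.const_mul (CC / L))).add (hIO.abs.const_mul Q))
    refine hle.trans ?_
    rw [Tail_int3 2 (CC / L) Q hi1 hi2' hIO.abs, integral_indicator hDm]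
    have hl2 := loc2 (axF_of h.ns (hmem ht')) (dsq_int h (hmem ht')).1 (dsq_int h (hmem ht')).2
      (R := R) (ρ := 2 * L) (τ := √t₁) (by positivity) hR hsq
    have hen := (energy1 h (hmem ht')).2
    have h3 : (∫ x, ‖u t x‖ ^ 2) / (2 * √t₁) ≤ e₀ / (2 * √t₁) := by gcongr
    have h4 : CC / L * (∫ x in D, |sO (u t) x| * ‖u t x‖) ≤
        CC / L * (2 / R * (√t₁ * (∫ x, dsq (u t) x) + e₀ / (2 * √t₁))) := by
      refine mul_le_mul_of_nonneg_left (hl2.trans ?_) (by positivity)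
      refine mul_le_mul_of_nonneg_left ?_ (by positivity)
      linarith
    have h5 : Q * (∫ x, |sO (u t) x|) ≤ Q * K₁ := mul_le_mul_of_nonneg_left hKO hQ0
    linarith
  have hg0 : ∀ t, 0 ≤ ∫ x, |sV (u t) x| * √(gsq (sV (u t)) x) := fun t =>
    integral_nonneg fun x => by positivity
  have hd0 : ∀ t, 0 ≤ ∫ x, dsq (u t) x := fun t =>
    integral_nonneg fun x => Finset.sum_nonneg fun _ _ => sq_nonneg _
  have hgi := vdv_ii F le_rfl ht.le htT
  have hdi := dsq_ii h le_rfl ht.le htT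
  -- the inequality with the regularised absolute value
  have main : ∀ κ > 0, ∫ x, ja κ (sO (u t₁) x) * χ x ≤
      2 * (∫ t in (0:ℝ)..t₁, ∫ x, |sV (u t) x| * √(gsq (sV (u t)) x))
      + 2 * CC * √t₁ * e₀ / (L * R) + Q * K₁ * t₁ := by
    intro κ hκ
    have h1 := ev F.drift F.evO (ja_jfun hκ) hw le_rfl ht.le htT
    have h2 : ∫ x, ja κ (sO (u 0) x) * χ x = 0 := by
      have : (fun x => ja κ (sO (u 0) x) * χ x) = fun _ => 0 := by
        funext x
        by_cases hx : (rad x - R) ^ 2 + x 2 ^ 2 ≤ 1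
        · rw [hz x hx, mul_zero]
        · rw [hs x (not_le.1 hx), (ja_jfun hκ).zero, zero_mul]
      rw [this, integral_zero]
    have hBi : IntervalIntegrable (fun t => 2 * (∫ x, |sV (u t) x| * √(gsq (sV (u t)) x)) +
        CC / L * (2 / R * (√t₁ * (∫ x, dsq (u t) x) + e₀ / (2 * √t₁))) + Q * K₁) volume 0 t₁ :=
      ((hgi.const_mul 2).add ((((hdi.const_mul (√t₁)).add intervalIntegrable_const).const_mul
        (2 / R)).const_mul (CC / L))).add intervalIntegrable_const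
    have h3 := Tail_ii ht.le (key κ hκ) (fun t _ => by
      have := hg0 t
      have := hd0 t
      positivity) hBi
    have h4 : ∫ t in (0:ℝ)..t₁, (2 * (∫ x, |sV (u t) x| * √(gsq (sV (u t)) x)) +
        CC / L * (2 / R * (√t₁ * (∫ x, dsq (u t) x) + e₀ / (2 * √t₁))) + Q * K₁) =
        2 * (∫ t in (0:ℝ)..t₁, ∫ x, |sV (u t) x| * √(gsq (sV (u t)) x)) +
        CC / L * (2 / R * (√t₁ * (∫ t in (0:ℝ)..t₁, ∫ x, dsq (u t) x) + t₁ * (e₀ / (2 * √t₁))))
        + t₁ * (Q * K₁) := by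
      rw [intervalIntegral.integral_add ((hgi.const_mul 2).add
          ((((hdi.const_mul (√t₁)).add intervalIntegrable_const).const_mul
          (2 / R)).const_mul (CC / L))) intervalIntegrable_const,
        intervalIntegral.integral_add (hgi.const_mul 2)
          ((((hdi.const_mul (√t₁)).add intervalIntegrable_const).const_mul
          (2 / R)).const_mul (CC / L)),
        intervalIntegral.integral_const_mul, intervalIntegral.integral_const_mul,
        intervalIntegral.integral_const_mul,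
        intervalIntegral.integral_add (hdi.const_mul (√t₁)) intervalIntegrable_const,
        intervalIntegral.integral_const_mul, intervalIntegral.integral_const,
        intervalIntegral.integral_const, smul_eq_mul, smul_eq_mul, sub_zero]
    have h5 := (energy1 h (hmem ⟨ht.le, le_rfl⟩)).1
    have h6 : √t₁ * (∫ t in (0:ℝ)..t₁, ∫ x, dsq (u t) x) + t₁ * (e₀ / (2 * √t₁)) ≤ √t₁ * e₀ := by
      have e1 : t₁ * (e₀ / (2 * √t₁)) = √t₁ * e₀ / 2 := by
        have hss : √t₁ * √t₁ = t₁ := Real.mul_self_sqrt ht.le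
        calc t₁ * (e₀ / (2 * √t₁)) = (√t₁ * √t₁) * (e₀ / (2 * √t₁)) := by rw [hss]
          _ = √t₁ * e₀ / 2 := by field_simp
      have e2 := mul_le_mul_of_nonneg_left h5 hsq.le
      rw [e1]
      linarith
    have h7 : CC / L * (2 / R * (√t₁ * (∫ t in (0:ℝ)..t₁, ∫ x, dsq (u t) x) +
        t₁ * (e₀ / (2 * √t₁)))) ≤ CC / L * (2 / R * (√t₁ * e₀)) := by
      gcongr
    have h8 : CC / L * (2 / R * (√t₁ * e₀)) = 2 * CC * √t₁ * e₀ / (L * R) := by
      field_simp
    have h9 : ∫ x, ja κ (sO (u t₁) x) * χ x ≤ (∫ x, ja κ (sO (u 0) x) * χ x) +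
      ∫ t in (0:ℝ)..t₁, ∫ x, evJ (ja κ) (u t) (sO (u t))
        (fun x => 2 * sV (u t) x * pd 2 (sV (u t)) x) χ x := h1
    rw [h2, zero_add] at h9
    linarith
  -- the limit
  obtain ⟨hI1, -⟩ := hK t₁ ⟨ht.le, le_rfl⟩
  have hc1 := hsm t₁ ⟨ht.le, le_rfl⟩
  have hχc : Continuous χ := hw.smooth.continuous
  have hκn : ∀ n : ℕ, (0 : ℝ) < 1 / ((n : ℝ) + 1) := fun n => by positivity
  have hlim : Tendsto (fun n : ℕ => ∫ x, ja (1 / ((n : ℝ) + 1)) (sO (u t₁) x) * χ x) atTop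
      (𝓝 (∫ x, |sO (u t₁) x| * χ x)) := by
    refine tendsto_integral_of_dominated_convergence (fun x => |sO (u t₁) x|) ?_ hI1.abs ?_ ?_
    · intro n
      exact (((ja_jfun (hκn n)).smooth.continuous.comp hc1).mul hχc).aestronglyMeasurable
    · intro n
      refine ae_of_all _ fun x => ?_
      have hj := ja_le (hκn n) (sO (u t₁) x)
      rw [Real.norm_eq_abs, abs_of_nonneg (mul_nonneg hj.1 (hw.nonneg x))]
      calc _ ≤ |sO (u t₁) x| * 1 :=
            mul_le_mul hj.2.1 (hw.le_one x) (hw.nonneg x) (abs_nonneg _)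
        _ = _ := mul_one _
    · exact ae_of_all _ fun x => (ja_tend (sO (u t₁) x)).mul_const (χ x)
  have hfin := le_of_tendsto' hlim fun n => main _ (hκn n)
  have hIχ : Integrable (fun x => |sO (u t₁) x| * χ x) := by
    refine Integrable.mono' hI1.abs (hc1.abs.mul hχc).aestronglyMeasurable ?_
    refine Eventually.of_forall fun x => ?_
    rw [Real.norm_eq_abs, abs_of_nonneg (mul_nonneg (abs_nonneg _) (hw.nonneg x))]
    exact mul_le_of_le_one_right (abs_nonneg _) (hw.le_one x)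
  refine le_trans ?_ hfin
  rw [← integral_indicator hDm.compl]
  refine integral_mono (hI1.abs.indicator hDm.compl) hIχ fun x => ?_
  by_cases hx : x ∈ D
  · have : x ∉ Dᶜ := fun h => h hx
    simp only [indicator_of_notMem this]
    exact mul_nonneg (abs_nonneg _) (hw.nonneg x)
  · have : x ∈ Dᶜ := hx
    simp only [indicator_of_mem this]
    rw [(hout x hx).1, mul_one]

end Pool.Agent.H87.NS
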