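/-
ROW Grow. The growth of the maximum of `V`. PROOF. For `m ≥ 1` let `y_m(t) = ∫ V(t)^(2m)`. ev1 for `V`, `j = s^(2m)` on `[s, t]` (pow_jfun, pow_deriv; `j'' gsq ≥ 0`):
`j'(V) (-2 W V) = - 4 m W V^(2m) ≤ 4 m ww(Om r) V^(2m)` (W_le), so `y_m(t) ≤ y_m(s) + 4 m ∫_s^t ww(Om r) y_m(r) dr`; gron with `l = 4 m` (`y_m` is
bounded: evo_bd; `ww y_m` is interval integrable: product of bounded measurable functions, ww_ii, ww_bd, evo_ii): `y_m(b) ≤ y_m(a) exp(8 m Q + 1)`, and
`y_m(a) ≤ M^(2m-2) ∫ V(a)²`. Suppose `|V b x₀| > M exp(4 Q)`. By continuity there are `η > 0` and a ball `B` (volume `ν > 0`) on which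
`|V b| ≥ M exp(4Q) (1 + η)`, so `ν M^(2m) exp(8 m Q) (1+η)^(2m) ≤ y_m(b) ≤ M^(2m-2) exp(8 m Q + 1) ∫ V(a)²`, i.e.
`ν (1+η)^(2m) ≤ e M^(-2) ∫ V(a)²` for all `m ≥ 1`, a contradiction.
-/
import Pool.Agent.H87.NS.Wb
import Pool.Agent.H87.NS.JQ
import Pool.Agent.H87.NS.EV

set_option autoImplicit false

open Set Filter Topology MeasureTheory
open scoped ContDiff

namespace Pool.Agent.H87.NS

open Pool.Agent.H16

variable {T : ℝ} {u : ℝ → E3 → E3} {V W Om : ℝ → E3 → ℝ}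

theorem Grow_ii {a b K : ℝ} {w y : ℝ → ℝ} (hab : a ≤ b) (hw : IntervalIntegrable w volume a b)
    (hy : IntervalIntegrable y volume a b) (hK : ∀ t ∈ Icc a b, |y t| ≤ K) :
    IntervalIntegrable (fun t => w t * y t) volume a b := by
  rw [intervalIntegrable_iff_integrableOn_Ioc_of_le hab] at hw hy ⊢
  refine Integrable.mul_bdd (c := K) hw hy.aestronglyMeasurable ?_
  refine (ae_restrict_iff' measurableSet_Ioc).2 (Eventually.of_forall fun t ht => ?_)
  rw [Real.norm_eq_abs]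
  exact hK t ⟨ht.1.le, ht.2⟩

theorem Grow_step (F : Flow T u V W Om) {m : ℕ} (hm : 1 ≤ m) {s t : ℝ} (hs : 0 ≤ s) (hst : s ≤ t)
    (ht : t < T) : ∫ x, V t x ^ (2 * m) ≤ (∫ x, V s x ^ (2 * m)) +
      (4 * m) * ∫ r in s..t, ww (Om r) * ∫ x, V r x ^ (2 * m) := by
  have hj := pow_jfun hm
  have h1 := ev1 F.drift F.evV hj hs hst ht
  have h2 : 0 ≤ ∫ r in s..t, ∫ x, deriv (deriv (fun s : ℝ => s ^ (2 * m))) (V r x) * gsq (V r) x := by
    refine intervalIntegral.integral_nonneg hst fun r _ => integral_nonneg fun x => ?_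
    exact mul_nonneg (hj.convex _) (gsq_nonneg _ _)
  obtain ⟨K, hK⟩ := evo_bd F.evV hj ht
  have hii := evo_ii F.evV hj hs hst ht
  have hwy : IntervalIntegrable (fun r => ww (Om r) * ∫ x, V r x ^ (2 * m)) volume s t := by
    refine Grow_ii hst (ww_ii F hs hst ht) hii.1 (K := K) fun r hr => ?_
    refine (abs_integral_le_integral_abs).trans (hK r ⟨hs.trans hr.1, hr.2⟩).1.2
  have h3 : ∫ r in s..t, ∫ x, deriv (fun s : ℝ => s ^ (2 * m)) (V r x) * (-2 * W r x * V r x) ≤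
      (4 * m) * ∫ r in s..t, ww (Om r) * ∫ x, V r x ^ (2 * m) := by
    rw [← intervalIntegral.integral_const_mul]
    refine intervalIntegral.integral_mono_on hst hii.2.2 (hwy.const_mul _) fun r hr => ?_
    have hr' : r ∈ Ico 0 T := ⟨hs.trans hr.1, lt_of_le_of_lt hr.2 ht⟩
    have hint := evo_int F.evV hj hr'
    rw [← mul_assoc, ← integral_const_mul]
    refine integral_mono hint.2.2 (hint.1.const_mul _) fun x => ?_
    simp only
    rw [pow_deriv]
    have h4 := W_le F hr' x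
    have h5 : 0 ≤ V r x ^ (2 * m) := (even_two_mul m).pow_nonneg _
    have h6 : V r x ^ (2 * m) = V r x ^ (2 * m - 1) * V r x := by
      rw [← pow_succ]; congr 1; omega
    have h7 : 2 * (m : ℝ) * V r x ^ (2 * m - 1) * (-2 * W r x * V r x) =
        (4 * m) * (-(W r x)) * V r x ^ (2 * m) := by
      rw [h6]; ring
    rw [h7]
    have h8 : -(W r x) ≤ ww (Om r) := (neg_le_abs _).trans h4
    have h9 : (0 : ℝ) ≤ 4 * m := by positivity
    exact mul_le_mul_of_nonneg_right (mul_le_mul_of_nonneg_left h8 h9) h5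
  linarith

theorem Grow_exp (F : Flow T u V W Om) {a b Q : ℝ} (ha : 0 ≤ a) (hab : a ≤ b) (hb : b < T)
    (hQ : ∫ t in a..b, ww (Om t) ≤ Q) {m : ℕ} (hm : 1 ≤ m) :
    ∫ x, V b x ^ (2 * m) ≤ (∫ x, V a x ^ (2 * m)) * Real.exp (2 * (4 * m) * Q + 1) := by
  have hj := pow_jfun hm
  obtain ⟨K, hK⟩ := evo_bd F.evV hj hb
  have hii := evo_ii F.evV hj ha hab hb
  have hle : ∀ r ∈ Icc a b, |∫ x, V r x ^ (2 * m)| ≤ K := fun r hr =>
    (abs_integral_le_integral_abs).trans (hK r ⟨ha.trans hr.1, hr.2⟩).1.2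
  refine gron (Y := K) (l := 4 * m) (w := fun t => ww (Om t)) (y := fun t => ∫ x, V t x ^ (2 * m)) hab
    (ww_ii F ha hab hb) (fun t _ => ww_nonneg _) hQ
    (fun t _ => integral_nonneg fun x => (even_two_mul m).pow_nonneg _)
    (fun t ht => (le_abs_self _).trans (hle t ht)) (Grow_ii hab (ww_ii F ha hab hb) hii.1 hle)
    (by positivity) ?_
  intro s t hs hst ht
  exact Grow_step F hm (ha.trans hs) hst (lt_of_le_of_lt ht hb)

theorem grow (F : Flow T u V W Om) {a b M Q : ℝ} (ha : 0 ≤ a) (hab : a ≤ b) (hb : b < T) (hM : 0 < M)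
    (hVa : ∀ x, |V a x| ≤ M) (hQ : ∫ t in a..b, ww (Om t) ≤ Q) :
    ∀ x, |V b x| ≤ M * Real.exp (4 * Q) := by
  intro x₀
  by_contra hcon
  push Not at hcon
  have hL : 0 < M * Real.exp (4 * Q) := by positivity
  obtain ⟨c, hc1, hc2⟩ : ∃ c : ℝ, 1 < c ∧ c * (M * Real.exp (4 * Q)) < |V b x₀| := by
    have h1 : 1 < |V b x₀| / (M * Real.exp (4 * Q)) := by rwa [one_lt_div hL]
    obtain ⟨c, h2, h3⟩ := exists_between h1
    exact ⟨c, h2, by rwa [lt_div_iff₀ hL] at h3⟩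
  have hVc : Continuous (V b) := (F.evV.smooth b ⟨ha.trans hab, hb⟩).continuous
  have hop : IsOpen {x | c * (M * Real.exp (4 * Q)) < |V b x|} := isOpen_lt continuous_const hVc.abs
  obtain ⟨r, hr, hball⟩ := Metric.isOpen_iff.1 hop x₀ hc2
  set ν : ℝ := (volume : Measure E3).real (Metric.ball x₀ r) with hν
  have hν0 : 0 < ν := by
    rw [hν, Measure.real, ENNReal.toReal_pos_iff]
    exact ⟨Metric.measure_ball_pos _ _ hr, measure_ball_lt_top⟩
  obtain ⟨K, hK⟩ := F.evV.bd a (lt_of_le_of_lt hab hb)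
  have hA := (DB_BL (hK a ⟨ha, le_rfl⟩).1).2.1
  set A : ℝ := ∫ x, V a x ^ 2 with hAdef
  have key : ∀ m : ℕ, 1 ≤ m → ν * M ^ 2 * c ^ (2 * m) ≤ Real.exp 1 * A := by
    intro m hm
    have hj := pow_jfun hm
    have h1 := Grow_exp F ha hab hb hQ hm
    have hib := (evo_int F.evV hj ⟨ha.trans hab, hb⟩).1
    have hia := (evo_int F.evV hj ⟨ha, lt_of_le_of_lt hab hb⟩).1
    have h2 : ν * (c * (M * Real.exp (4 * Q))) ^ (2 * m) ≤ ∫ x, V b x ^ (2 * m) := by
      calc ν * (c * (M * Real.exp (4 * Q))) ^ (2 * m) =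
            ∫ x in Metric.ball x₀ r, (c * (M * Real.exp (4 * Q))) ^ (2 * m) := by
            rw [setIntegral_const, smul_eq_mul]
        _ ≤ ∫ x in Metric.ball x₀ r, V b x ^ (2 * m) := by
            refine setIntegral_mono_on (integrableOn_const measure_ball_lt_top.ne)
              hib.integrableOn Metric.isOpen_ball.measurableSet fun x hx => ?_
            have h3 : c * (M * Real.exp (4 * Q)) < |V b x| := hball hx
            calc (c * (M * Real.exp (4 * Q))) ^ (2 * m) ≤ |V b x| ^ (2 * m) :=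
                  pow_le_pow_left₀ (by positivity) h3.le _
              _ = V b x ^ (2 * m) := (even_two_mul m).pow_abs _
        _ ≤ ∫ x, V b x ^ (2 * m) := setIntegral_le_integral hib
            (Eventually.of_forall fun x => (even_two_mul m).pow_nonneg _)
    have h3 : ∫ x, V a x ^ (2 * m) ≤ M ^ (2 * m - 2) * A := by
      rw [hAdef, ← integral_const_mul]
      refine integral_mono hia (hA.const_mul _) fun x => ?_
      simp only
      calc V a x ^ (2 * m) = |V a x| ^ (2 * m) := ((even_two_mul m).pow_abs _).symm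
        _ = |V a x| ^ (2 * m - 2) * |V a x| ^ 2 := by rw [← pow_add]; congr 1; omega
        _ ≤ M ^ (2 * m - 2) * |V a x| ^ 2 :=
            mul_le_mul_of_nonneg_right (pow_le_pow_left₀ (abs_nonneg _) (hVa x) _) (by positivity)
        _ = M ^ (2 * m - 2) * V a x ^ 2 := by rw [sq_abs]
    have h4 : ν * (c * (M * Real.exp (4 * Q))) ^ (2 * m) ≤
        M ^ (2 * m - 2) * A * Real.exp (2 * (4 * m) * Q + 1) :=
      h2.trans (h1.trans (mul_le_mul_of_nonneg_right h3 (Real.exp_pos _).le))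
    have h5 : (c * (M * Real.exp (4 * Q))) ^ (2 * m) =
        c ^ (2 * m) * (M ^ (2 * m - 2) * M ^ 2) * Real.exp (2 * (4 * m) * Q) := by
      rw [mul_pow, mul_pow, ← Real.exp_nat_mul, ← pow_add, show 2 * m - 2 + 2 = 2 * m by omega,
        mul_assoc]
      congr 3
      push_cast; ring
    rw [h5, Real.exp_add] at h4
    have h6 : 0 < M ^ (2 * m - 2) * Real.exp (2 * (4 * m) * Q) := by positivity
    refine le_of_mul_le_mul_left ?_ h6
    calc _ = ν * (c ^ (2 * m) * (M ^ (2 * m - 2) * M ^ 2) * Real.exp (2 * (4 * m) * Q)) := by ring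
      _ ≤ _ := h4
      _ = _ := by ring
  obtain ⟨n, hn⟩ := pow_unbounded_of_one_lt (Real.exp 1 * A / (ν * M ^ 2)) hc1
  have h1 := key (n + 1) (by omega)
  have h2 : c ^ n ≤ c ^ (2 * (n + 1)) := pow_le_pow_right₀ hc1.le (by omega)
  have h3 : 0 < ν * M ^ 2 := by positivity
  rw [div_lt_iff₀ h3] at hn
  nlinarith

end Pool.Agent.H87.NS
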