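/-
ROW StepO. PROOF. step_O: ev1 for `Om` (F.evO) and `j = ja κ`, `κ = 1/(n+1)` (ja_jfun); `∫_a^b ∫ j'' gsq ≥ 0`; `|j'(Om) 2 V pd 2 V| ≤ 2 |V| √(gsq V)`
(ja_deriv, pd_le_gsq). So `∫ ja κ (Om b) ≤ ∫ |Om a| + 2 ∫_a^b ∫ |V| √(gsq V)` for every `n` (ja_le). `ja κ (Om b x) → |Om b x|` (ja_tend), Fatou
(`lintegral_liminf_le` or `integrable_of_tendsto`-type argument: nonnegative functions with bounded integrals): `Om b` is integrable and the bound holds.
boot: fix `b ∈ [t₁, T)`, let `K > 0` be the bound of vdv_bd on `[0, b]` and `δ = c1 / (4 K)`, so `2 δ K = c1 / 2`. By induction on `n`: for all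
`t ∈ [t₁, b]` with `t ≤ t₁ + n δ`: `Om t` is integrable and `∫ |Om t| ≤ c1 / 2`. `n = 0`: the hypothesis. Step: let `t₁ + n δ < t ≤ t₁ + (n+1) δ`,
`t ≤ b`. For `s ∈ [t₁ + n δ, t]`, step_O on `[t₁ + n δ, s]` gives `∫ |Om s| ≤ c1/2 + 2 δ K ≤ c1`; so the smallness `∫ |Om s| ≤ c1` holds on `[t₁, t]`, and
VdV on `[t₁, t]` and step_O on `[t₁, t]` give `∫ |Om t| ≤ ∫ |Om t₁| + 4 √SB N^(4/3) ≤ c1 / 2`. (`c1 > 0` by c0_pos.)
-/
import Pool.Agent.H87.NS.StepJ

set_option autoImplicit false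

open Set Filter Topology MeasureTheory
open scoped ContDiff

namespace Pool.Agent.H87.NS

open Pool.Agent.H16

variable {T : ℝ} {u : ℝ → E3 → E3} {V W Om : ℝ → E3 → ℝ}

theorem StepO_one (F : Flow T u V W Om) {a b : ℝ} (ha : 0 ≤ a) (hab : a ≤ b) (hb : b < T)
    (hi : Integrable (Om a)) {κ : ℝ} (hκ : 0 < κ) :
    ∫ x, ja κ (Om b x) ≤ (∫ x, |Om a x|) + 2 * ∫ t in a..b, ∫ x, |V t x| * √(gsq (V t) x) := by
  have h1 := ev1 F.drift F.evO (ja_jfun hκ) ha hab hb
  have hii := evo_ii F.evO (ja_jfun hκ) ha hab hb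
  have haT : a ∈ Ico 0 T := ⟨ha, hab.trans_lt hb⟩
  obtain ⟨K, _, hK⟩ := vdv_bd F hb
  have h2 : 0 ≤ ∫ t in a..b, ∫ x, deriv (deriv (ja κ)) (Om t x) * gsq (Om t) x :=
    intervalIntegral.integral_nonneg hab fun t _ =>
      integral_nonneg fun x => mul_nonneg ((ja_jfun hκ).convex _) (gsq_nonneg _ _)
  have h3 : ∫ x, ja κ (Om a x) ≤ ∫ x, |Om a x| :=
    integral_mono (evo_int F.evO (ja_jfun hκ) haT).1 hi.abs fun x => (ja_le hκ _).2.1
  have h4 : ∫ t in a..b, ∫ x, deriv (ja κ) (Om t x) * (2 * V t x * pd 2 (V t) x) ≤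
      ∫ t in a..b, 2 * ∫ x, |V t x| * √(gsq (V t) x) := by
    refine intervalIntegral.integral_mono_on hab hii.2.2 ((vdv_ii F ha hab hb).const_mul _)
      fun t ht => ?_
    have htT : t ∈ Ico 0 T := ⟨ha.trans ht.1, ht.2.trans_lt hb⟩
    rw [← integral_const_mul]
    refine integral_mono (evo_int F.evO (ja_jfun hκ) htT).2.2
      ((hK t ⟨ha.trans ht.1, ht.2⟩).1.const_mul 2) fun x => ?_
    show deriv (ja κ) (Om t x) * (2 * V t x * pd 2 (V t) x) ≤ 2 * (|V t x| * √(gsq (V t) x))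
    refine (le_abs_self _).trans ?_
    rw [abs_mul, abs_mul, abs_mul, abs_two]
    have h5 := ja_deriv hκ (Om t x)
    have h6 := pd_le_gsq (V t) 2 x
    have h7 : 2 * |V t x| * |pd 2 (V t) x| ≤ 2 * |V t x| * √(gsq (V t) x) :=
      mul_le_mul_of_nonneg_left h6 (by positivity)
    calc |deriv (ja κ) (Om t x)| * (2 * |V t x| * |pd 2 (V t) x|)
        ≤ 1 * (2 * |V t x| * |pd 2 (V t) x|) := mul_le_mul_of_nonneg_right h5 (by positivity)
      _ ≤ 2 * (|V t x| * √(gsq (V t) x)) := by rw [one_mul]; linarith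
  rw [intervalIntegral.integral_const_mul] at h4
  linarith

theorem step_O (F : Flow T u V W Om) {a b : ℝ} (ha : 0 ≤ a) (hab : a ≤ b) (hb : b < T)
    (hi : Integrable (Om a)) :
    Integrable (Om b) ∧ ∫ x, |Om b x| ≤ (∫ x, |Om a x|) + 2 * ∫ t in a..b, ∫ x, |V t x| * √(gsq (V t) x) := by
  set C : ℝ := (∫ x, |Om a x|) + 2 * ∫ t in a..b, ∫ x, |V t x| * √(gsq (V t) x) with hC
  have hbT : b ∈ Ico 0 T := ⟨ha.trans hab, hb⟩
  have hcont : Continuous (Om b) := (F.evO.smooth b hbT).continuous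
  have hκ : ∀ n : ℕ, (0 : ℝ) < 1 / ((n : ℝ) + 1) := fun n => Nat.one_div_pos_of_nat
  have h1 : ∀ n : ℕ, ∫⁻ x, ENNReal.ofReal (ja (1 / ((n : ℝ) + 1)) (Om b x)) ≤ ENNReal.ofReal C := by
    intro n
    rw [← ofReal_integral_eq_lintegral_ofReal (evo_int F.evO (ja_jfun (hκ n)) hbT).1
      (Eventually.of_forall fun x => (ja_le (hκ n) _).1)]
    exact ENNReal.ofReal_le_ofReal (StepO_one F ha hab hb hi (hκ n))
  have h2 : ∫⁻ x, ENNReal.ofReal |Om b x| ≤ ENNReal.ofReal C := by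
    have e : ∀ x, ENNReal.ofReal |Om b x| =
        liminf (fun n : ℕ => ENNReal.ofReal (ja (1 / ((n : ℝ) + 1)) (Om b x))) atTop := fun x =>
      ((ENNReal.tendsto_ofReal (ja_tend (Om b x))).liminf_eq).symm
    rw [lintegral_congr e]
    refine (lintegral_liminf_le fun n => ?_).trans ?_
    · exact (((ja_jfun (hκ n)).smooth.continuous.comp hcont).measurable).ennreal_ofReal
    · refine (liminf_le_liminf (Eventually.of_forall h1)).trans ?_
      rw [liminf_const]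
  have h3 : Integrable (Om b) := by
    refine ⟨hcont.aestronglyMeasurable, ?_⟩
    rw [hasFiniteIntegral_iff_norm]
    exact h2.trans_lt ENNReal.ofReal_lt_top
  refine ⟨h3, ?_⟩
  have hC0 : 0 ≤ C := by
    refine add_nonneg (integral_nonneg fun x => abs_nonneg _) (mul_nonneg two_pos.le ?_)
    exact intervalIntegral.integral_nonneg hab fun t _ => integral_nonneg fun x => StepJ_nn _ _
  rw [integral_eq_lintegral_of_nonneg_ae (Eventually.of_forall fun x => abs_nonneg _)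
    hcont.abs.aestronglyMeasurable]
  exact ENNReal.toReal_le_of_le_ofReal hC0 h2

theorem boot (F : Flow T u V W Om) {t₁ : ℝ} (h0 : 0 ≤ t₁) (h1 : Integrable (Om t₁))
    (h2 : Integrable (fun x => |V t₁ x| ^ (3/2 : ℝ)))
    (hsm : (∫ x, |Om t₁ x|) + 4 * √SB * (∫ x, |V t₁ x| ^ (3/2 : ℝ)) ^ (4/3 : ℝ) ≤ c1 / 2) :
    ∀ t ∈ Ico t₁ T, Integrable (Om t) ∧ ∫ x, |Om t x| ≤ c1 := by
  intro b hb
  obtain ⟨K, hK0, hK⟩ := vdv_bd F hb.2
  have hc0 := c0_pos
  have hc1 : 0 < c1 := by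
    unfold c1
    positivity
  have hN : 0 ≤ 4 * √SB * (∫ x, |V t₁ x| ^ (3/2 : ℝ)) ^ (4/3 : ℝ) := by
    have h3 : 0 ≤ ∫ x, |V t₁ x| ^ (3/2 : ℝ) :=
      integral_nonneg fun x => Real.rpow_nonneg (abs_nonneg _) _
    positivity
  set δ : ℝ := c1 / (4 * K) with hδ
  have hδ0 : 0 < δ := by positivity
  have hKδ : 2 * (K * δ) = c1 / 2 := by
    rw [hδ]
    field_simp
    norm_num
  have key : ∀ n : ℕ, ∀ s ∈ Icc t₁ b, s ≤ t₁ + n * δ →
      Integrable (Om s) ∧ ∫ x, |Om s x| ≤ c1 / 2 := by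
    intro n
    induction n with
    | zero =>
      intro s hs hs2
      have e : s = t₁ := le_antisymm (by simpa using hs2) hs.1
      rw [e]
      exact ⟨h1, by linarith⟩
    | succ n ih =>
      intro s hs hs2
      rcases le_or_gt s (t₁ + n * δ) with h | h
      · exact ih s hs h
      set m : ℝ := t₁ + n * δ with hm
      have hm1 : t₁ ≤ m := by
        have : 0 ≤ (n : ℝ) * δ := by positivity
        linarith
      have hmb : m ≤ b := h.le.trans hs.2
      obtain ⟨hm2, hm3⟩ := ih m ⟨hm1, hmb⟩ le_rfl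
      have hsT : s < T := hs.2.trans_lt hb.2
      have hr : ∀ r ∈ Icc t₁ s, Integrable (Om r) ∧ ∫ x, |Om r x| ≤ c1 := by
        intro r hr
        rcases le_total r m with h3 | h3
        · obtain ⟨h4, h5⟩ := ih r ⟨hr.1, h3.trans hmb⟩ h3
          exact ⟨h4, by linarith⟩
        · obtain ⟨h4, h5⟩ := step_O F (h0.trans hm1) h3 (hr.2.trans_lt hsT) hm2
          refine ⟨h4, h5.trans ?_⟩
          have h6 : ∫ t in m..r, ∫ x, |V t x| * √(gsq (V t) x) ≤ ∫ _ in m..r, K := by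
            refine intervalIntegral.integral_mono_on h3
              (vdv_ii F (h0.trans hm1) h3 (hr.2.trans_lt hsT)) intervalIntegrable_const
              fun t ht => ?_
            exact (hK t ⟨(h0.trans hm1).trans ht.1, ht.2.trans (hr.2.trans hs.2)⟩).2
          rw [intervalIntegral.integral_const, smul_eq_mul] at h6
          have h7 : r - m ≤ δ := by
            have h8 : s ≤ t₁ + (n * δ + δ) := by
              push_cast at hs2
              linarith
            have := hr.2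
            linarith
          have h9 : (r - m) * K ≤ K * δ := by
            rw [mul_comm]
            exact mul_le_mul_of_nonneg_left h7 hK0.le
          linarith
      obtain ⟨h4, h5⟩ := step_O F h0 hs.1 hsT h1
      refine ⟨h4, h5.trans ?_⟩
      have h6 := VdV F h0 hs.1 hsT hr h2
      linarith
  obtain ⟨n, hn⟩ := exists_nat_ge ((b - t₁) / δ)
  have h3 : b ≤ t₁ + n * δ := by
    rw [div_le_iff₀ hδ0] at hn
    linarith
  obtain ⟨h4, h5⟩ := key n b ⟨hb.1, le_rfl⟩ h3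
  exact ⟨h4, by linarith⟩

end Pool.Agent.H87.NS
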