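/-
ROW StepV4. PROOF. step_V4: ev1 for `V` and `j = s⁴` (pow_jfun, `m = 2`; `j' = 4 s³`, `j'' = 12 s²`): `j'(V) (-2 W V) = -8 W V⁴ ≤ 8 |W| (V²)²`. S1 with
`G = V²` (comp_DB), `c = 12/c0` (F.ker, int_div), `gsq (V²) = 4 V² gsq V` (comp_gsq): `8 ∫ |W| V⁴ ≤ 8 * 4 * (12/c0) * c1 * 4 ∫ V² gsq V
= (1536/216) ∫ V² gsq V ≤ 12 ∫ V² gsq V`. Integrate in `t`.
step_O2: ev1 for `Om` and `j = s²` (`m = 1`; `j' = 2 s`, `j'' = 2`): for each `t`, `∫ 2 Om (2 V pd 2 V) = 2 ∫ Om pd 2 (V²) = - 2 ∫ pd 2 Om V²` (ibp; `V²` is `DB 1` by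
comp_DB, comp_pd) `≤ ∫ (pd 2 Om)² + ∫ V⁴ ≤ ∫ gsq Om + ∫ V⁴`; and `∫ j'' gsq = 2 ∫ gsq Om`.
-/
import Pool.Agent.H87.NS.JQ
import Pool.Agent.H87.NS.EV
import Pool.Agent.H87.NS.S1
import Pool.Agent.H87.NS.KInt

set_option autoImplicit false

open Set Filter Topology MeasureTheory
open scoped ContDiff

namespace Pool.Agent.H87.NS

open Pool.Agent.H16

variable {T : ℝ} {u : ℝ → E3 → E3} {V W Om : ℝ → E3 → ℝ}

theorem StepV4_slice (F : Flow T u V W Om) {t : ℝ} (ht : t ∈ Ico 0 T)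
    (hs : Integrable (Om t) ∧ ∫ x, |Om t x| ≤ c1) :
    ∫ x, 8 * (|W t x| * (V t x ^ 2) ^ 2) ≤ ∫ x, 12 * (V t x ^ 2 * gsq (V t) x) := by
  obtain ⟨K, hK⟩ := F.evV.bd t ht.2
  obtain ⟨K1, hK1⟩ := F.wbd t ht.2
  obtain ⟨K2, hK2⟩ := F.evO.bd t ht.2
  have htt : t ∈ Icc 0 t := ⟨ht.1, le_rfl⟩
  have hV : ContDiff ℝ 1 (V t) := (F.evV.smooth t ht).of_le (by exact_mod_cast le_top)
  have hOm : ContDiff ℝ 1 (Om t) := (F.evO.smooth t ht).of_le (by exact_mod_cast le_top)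
  have hH : ContDiff ℝ 1 (fun s : ℝ => s ^ 2) := contDiff_id.pow 2
  obtain ⟨K', hK'⟩ := comp_DB hH (by norm_num) K
  have hD : DB 1 K' (fun y => V t y ^ 2) := hK' (V t) hV (hK t htt).1
  have hG : ContDiff ℝ 1 (fun y => V t y ^ 2) := hV.pow 2
  have hWc : Continuous (W t) := by
    have h1 : Continuous (fun x : E3 => ((t, x) : ℝ × E3)) := by fun_prop
    exact F.wcont.comp_continuous h1 (fun x => ⟨ht, mem_univ x⟩)
  have hc0 := c0_pos
  have hS := S1 (W := W t) (Om := Om t) hWc (hK1 t htt).1 hOm.continuous hs.1 hG hD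
    (c := 12 / c0) (by positivity) (F.ker t ht)
    (fun x => int_div hOm.continuous (DB_BL (hK2 t htt).1) x)
  have hg : ∀ x, gsq (fun y => V t y ^ 2) x = 4 * (V t x ^ 2 * gsq (V t) x) := by
    intro x
    have h1 := comp_gsq hV hH x
    have h2 : deriv (fun s : ℝ => s ^ 2) (V t x) = 2 * V t x := by
      simp
    rw [h2] at h1
    rw [h1]
    ring
  have hI : 0 ≤ ∫ x, V t x ^ 2 * gsq (V t) x :=
    integral_nonneg fun x => mul_nonneg (sq_nonneg _) (gsq_nonneg _ _)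
  have hO : 0 ≤ ∫ x, |Om t x| := integral_nonneg fun x => abs_nonneg _
  simp only [hg] at hS
  rw [integral_const_mul] at hS
  rw [integral_const_mul, integral_const_mul]
  have h3 : 4 * (12 / c0) * (∫ x, |Om t x|) * (4 * ∫ x, V t x ^ 2 * gsq (V t) x) ≤
      4 * (12 / c0) * c1 * (4 * ∫ x, V t x ^ 2 * gsq (V t) x) := by
    refine mul_le_mul_of_nonneg_right ?_ (by positivity)
    exact mul_le_mul_of_nonneg_left hs.2 (by positivity)
  have h4 : 4 * (12 / c0) * c1 = 48 / 216 := by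
    unfold c1
    field_simp
    norm_num
  rw [h4] at h3
  have h5 : ∫ x, |W t x| * (V t x ^ 2) ^ 2 ≤ 48 / 216 * (4 * ∫ x, V t x ^ 2 * gsq (V t) x) := hS.trans h3
  nlinarith

theorem StepV4_abs (F : Flow T u V W Om) {t : ℝ} (ht : t ∈ Ico 0 T) :
    Integrable (fun x => |W t x| * (V t x ^ 2) ^ 2) := by
  obtain ⟨-, -, h⟩ := evo_int F.evV (pow_jfun (m := 2) (by norm_num)) ht
  simp only [pow_deriv] at h
  refine (h.abs.const_mul (1 / 8)).congr (Eventually.of_forall fun x => ?_)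
  have h2 : ((2 : ℕ) : ℝ) = 2 := by norm_num
  have h1 : 2 * ((2 : ℕ) : ℝ) * V t x ^ (2 * 2 - 1) * (-2 * W t x * V t x) =
      -(8 * (W t x * (V t x ^ 2) ^ 2)) := by
    rw [h2]
    norm_num
    ring
  simp only
  rw [h1, abs_neg, abs_mul, abs_mul, abs_of_nonneg (by positivity : (0 : ℝ) ≤ (V t x ^ 2) ^ 2)]
  norm_num
  ring

theorem step_V4 (F : Flow T u V W Om) {a b : ℝ} (ha : 0 ≤ a) (hab : a ≤ b) (hb : b < T)
    (hs : ∀ t ∈ Icc a b, Integrable (Om t) ∧ ∫ x, |Om t x| ≤ c1) :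
    ∫ x, V b x ^ 4 ≤ ∫ x, V a x ^ 4 := by
  have hj : JFun (fun s : ℝ => s ^ (2 * 2)) := pow_jfun (m := 2) (by norm_num)
  have h := ev1 F.drift F.evV hj ha hab hb
  obtain ⟨-, hi2, hi3⟩ := evo_ii F.evV hj ha hab hb
  have hmono : ∫ t in a..b, ∫ x, deriv (fun s : ℝ => s ^ (2 * 2)) (V t x) * (-2 * W t x * V t x) ≤
      ∫ t in a..b, ∫ x, deriv (deriv (fun s : ℝ => s ^ (2 * 2))) (V t x) * gsq (V t) x := by
    refine intervalIntegral.integral_mono_on hab hi3 hi2 (fun t ht => ?_)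
    have htT : t ∈ Ico 0 T := ⟨ha.trans ht.1, ht.2.trans_lt hb⟩
    have h1 := StepV4_slice F htT (hs t ht)
    obtain ⟨-, -, h3⟩ := evo_int F.evV hj htT
    have h2 : ∫ x, deriv (fun s : ℝ => s ^ (2 * 2)) (V t x) * (-2 * W t x * V t x) ≤
        ∫ x, 8 * (|W t x| * (V t x ^ 2) ^ 2) := by
      refine integral_mono h3 ((StepV4_abs F htT).const_mul 8) (fun x => ?_)
      simp only [pow_deriv]
      have h4 : 2 * ((2 : ℕ) : ℝ) * V t x ^ (2 * 2 - 1) * (-2 * W t x * V t x) =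
          -(8 * (W t x * (V t x ^ 2) ^ 2)) := by
        norm_num
        ring
      rw [h4]
      have h5 : -(W t x) ≤ |W t x| := neg_le_abs _
      have h6 : (0 : ℝ) ≤ (V t x ^ 2) ^ 2 := by positivity
      nlinarith [mul_le_mul_of_nonneg_right h5 h6]
    refine (h2.trans h1).trans (le_of_eq ?_)
    refine integral_congr_ae (Eventually.of_forall fun x => ?_)
    simp only [pow_deriv2]
    norm_num
    ring
  have e1 : (2 * 2 : ℕ) = 4 := by norm_num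
  simp only [e1] at h hmono
  linarith

theorem StepV4_young (F : Flow T u V W Om) {t : ℝ} (ht : t ∈ Ico 0 T) :
    ∫ x, 2 * Om t x * (2 * V t x * pd 2 (V t) x) ≤ (∫ x, gsq (Om t) x) + ∫ x, V t x ^ 4 := by
  obtain ⟨K, hK⟩ := F.evV.bd t ht.2
  obtain ⟨K2, hK2⟩ := F.evO.bd t ht.2
  have htt : t ∈ Icc 0 t := ⟨ht.1, le_rfl⟩
  have hV : ContDiff ℝ 1 (V t) := (F.evV.smooth t ht).of_le (by exact_mod_cast le_top)
  have hOm : ContDiff ℝ 1 (Om t) := (F.evO.smooth t ht).of_le (by exact_mod_cast le_top)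
  have hH : ContDiff ℝ 1 (fun s : ℝ => s ^ 2) := contDiff_id.pow 2
  obtain ⟨K', hK'⟩ := comp_DB hH (by norm_num) K
  have hD : DB 1 K' (fun y => V t y ^ 2) := hK' (V t) hV (hK t htt).1
  have hG : ContDiff ℝ 1 (fun y => V t y ^ 2) := hV.pow 2
  have hO := (hK2 t htt).1
  have hp : ∀ x, pd 2 (fun y => V t y ^ 2) x = 2 * V t x * pd 2 (V t) x := by
    intro x
    have h1 := comp_pd hV hH 2 x
    have h2 : deriv (fun s : ℝ => s ^ 2) (V t x) = 2 * V t x := by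
      simp
    rw [h2] at h1
    exact h1
  have h1 := ibp hOm hG hO hD 2
  simp only [hp] at h1
  have h2 : ∫ x, 2 * Om t x * (2 * V t x * pd 2 (V t) x) =
      2 * ∫ x, Om t x * (2 * V t x * pd 2 (V t) x) := by
    rw [← integral_const_mul]
    refine integral_congr_ae (Eventually.of_forall fun x => ?_)
    ring
  rw [h2, h1]
  have hi1 : Integrable (fun x => pd 2 (Om t) x * V t x ^ 2) :=
    BL_mul (pd_cont hOm 2) hG.continuous (hO.2 2) (DB_BL hD)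
  have hi2 : Integrable (fun x => V t x ^ 4) := by
    refine (DB_BL hD).2.1.congr (Eventually.of_forall fun x => ?_)
    ring
  have hi3 := (gsq_int hO).1
  have h3 : 2 * -∫ x, pd 2 (Om t) x * V t x ^ 2 = ∫ x, -2 * (pd 2 (Om t) x * V t x ^ 2) := by
    rw [integral_const_mul]
    ring
  rw [h3, ← integral_add hi3 hi2]
  refine integral_mono (hi1.const_mul (-2)) (hi3.add hi2) (fun x => ?_)
  have h4 : pd 2 (Om t) x ^ 2 ≤ gsq (Om t) x := by
    unfold gsq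
    exact Finset.single_le_sum (f := fun i => pd i (Om t) x ^ 2) (fun _ _ => sq_nonneg _)
      (Finset.mem_univ 2)
  nlinarith [sq_nonneg (pd 2 (Om t) x + V t x ^ 2)]

theorem step_O2 (F : Flow T u V W Om) {a b : ℝ} (ha : 0 ≤ a) (hab : a ≤ b) (hb : b < T) :
    (∫ x, Om b x ^ 2) + ∫ t in a..b, ∫ x, gsq (Om t) x
      ≤ (∫ x, Om a x ^ 2) + ∫ t in a..b, ∫ x, V t x ^ 4 := by
  have hj : JFun (fun s : ℝ => s ^ (2 * 1)) := pow_jfun (m := 1) le_rfl
  have hj2 : JFun (fun s : ℝ => s ^ (2 * 2)) := pow_jfun (m := 2) (by norm_num)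
  have h := ev1 F.drift F.evO hj ha hab hb
  obtain ⟨-, hi2, hi3⟩ := evo_ii F.evO hj ha hab hb
  obtain ⟨hi4, -, -⟩ := evo_ii F.evV hj2 ha hab hb
  have e0 : ∀ s : ℝ, deriv (deriv (fun s : ℝ => s ^ (2 * 1))) s = 2 := by
    intro s
    rw [pow_deriv2]
    norm_num
  have e1 : ∀ s : ℝ, deriv (fun s : ℝ => s ^ (2 * 1)) s = 2 * s := by
    intro s
    rw [pow_deriv]
    norm_num
  simp only [e0, e1] at h hi2 hi3
  simp only [integral_const_mul] at h hi2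
  rw [intervalIntegral.integral_const_mul] at h
  have hg : IntervalIntegrable (fun t => ∫ x, gsq (Om t) x) volume a b := by
    have h5 := hi2.const_mul (1 / 2)
    refine h5.congr ?_
    intro t _
    simp only
    ring
  have e4 : (2 * 2 : ℕ) = 4 := by norm_num
  have e2 : (2 * 1 : ℕ) = 2 := by norm_num
  simp only [e4] at hi4
  simp only [e2] at h
  have hmono : ∫ t in a..b, ∫ x, 2 * Om t x * (2 * V t x * pd 2 (V t) x) ≤
      ∫ t in a..b, ((∫ x, gsq (Om t) x) + ∫ x, V t x ^ 4) := by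
    refine intervalIntegral.integral_mono_on hab hi3 (hg.add hi4) (fun t ht => ?_)
    exact StepV4_young F ⟨ha.trans ht.1, ht.2.trans_lt hb⟩
  rw [intervalIntegral.integral_add hg hi4] at hmono
  linarith

end Pool.Agent.H87.NS
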