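/-
ROW ThmA. PROOF. By boot, `∫ |Om t| ≤ c1` for `t ∈ [t₁, T)`. Let `M₄ = ∫ V(t₁)⁴`, `Q₂ = ∫ Om(t₁)² + (T - t₁) M₄`. By step_V4, `∫ V(t)⁴ ≤ M₄`; by step_O2 on `[t₁, b]`:
`∫ Om(b)² + ∫_{t₁}^b ∫ gsq Om ≤ ∫ Om(t₁)² + (b - t₁) M₄ ≤ Q₂` for all `b ∈ [t₁, T)`. As `√z ≤ 1 + z`, `ww(Om t) ≤ CW (2 + ∫ Om(t)² + ∫ gsq Om(t))`, so
`∫_{t₁}^b ww(Om t) dt ≤ CW ((2 + Q₂) (T - t₁) + Q₂) =: Q`. Let `M > 0` bound `|V(t₁)|` (F.evV.bd). grow: `|V b x| ≤ M exp (4 Q)` for all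
`b ∈ [t₁, T)`. bounded_of_int is the last step in general.
-/
import Pool.Agent.H87.NS.StepO
import Pool.Agent.H87.NS.StepV4
import Pool.Agent.H87.NS.Grow

set_option autoImplicit false

open Set Filter Topology MeasureTheory
open scoped ContDiff

namespace Pool.Agent.H87.NS

open Pool.Agent.H16

variable {T : ℝ} {u : ℝ → E3 → E3} {V W Om : ℝ → E3 → ℝ}

theorem bounded_of_int (F : Flow T u V W Om) {a Q : ℝ} (ha : 0 ≤ a) (haT : a < T)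
    (hQ : ∀ b ∈ Ico a T, ∫ t in a..b, ww (Om t) ≤ Q) : ∃ C : ℝ, ∀ t ∈ Ico 0 T, ∀ x, |V t x| ≤ C := by
  obtain ⟨K, hK⟩ := F.evV.bd a haT
  have hKb : ∀ t ∈ Icc 0 a, ∀ x, |V t x| ≤ K := fun t ht => (DB_BL (hK t ht).1).1
  have hK0 : 0 ≤ K := (abs_nonneg _).trans (hKb a ⟨ha, le_rfl⟩ 0)
  have hE : 0 ≤ Real.exp (4 * Q) := (Real.exp_pos _).le
  refine ⟨(K + 1) * Real.exp (4 * Q) + K, fun t ht x => ?_⟩
  have hM : 0 < K + 1 := by linarith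
  rcases le_or_gt t a with h | h
  · have h1 := hKb t ⟨ht.1, h⟩ x
    have h2 : 0 ≤ (K + 1) * Real.exp (4 * Q) := by positivity
    linarith
  · have h1 := grow F ha h.le ht.2 hM
      (fun x => (hKb a ⟨ha, le_rfl⟩ x).trans (by linarith)) (hQ t ⟨h.le, ht.2⟩) x
    linarith

private theorem ThmA_sqrt {z : ℝ} (hz : 0 ≤ z) : √z ≤ 1 + z := by
  rw [Real.sqrt_le_left (by linarith)]
  nlinarith

private theorem ThmA_ww {f : E3 → ℝ} : ww f ≤ CW * (2 + (∫ x, f x ^ 2) + ∫ x, gsq f x) := by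
  unfold ww
  refine mul_le_mul_of_nonneg_left ?_ CW_pos.le
  have h1 := ThmA_sqrt (z := ∫ x, f x ^ 2) (integral_nonneg fun x => sq_nonneg _)
  have h2 := ThmA_sqrt (z := ∫ x, gsq f x) (integral_nonneg fun x => gsq_nonneg f x)
  linarith

private theorem ThmA_ii (F : Flow T u V W Om) {a b : ℝ} (ha : 0 ≤ a) (hab : a ≤ b) (hb : b < T) :
    IntervalIntegrable (fun t => ∫ x, gsq (Om t) x) volume a b := by
  obtain ⟨K, hK⟩ := F.evO.bd b hb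
  have hJ := (evo_jc F.evO (pow_jfun (m := 1) le_rfl)).2.2.2
  refine ti_int hJ hb (K := 3 * K) (fun t ht => ?_) ha hab
  have h1 := gsq_int (hK t ht).1
  refine ⟨h1.1, ?_⟩
  have h2 : ∫ x, |gsq (Om t) x| = ∫ x, gsq (Om t) x :=
    integral_congr_ae (Filter.Eventually.of_forall fun x => abs_of_nonneg (gsq_nonneg _ x))
  rw [h2]
  exact h1.2

theorem thmA (F : Flow T u V W Om) {t₁ : ℝ} (h0 : 0 ≤ t₁) (hT : t₁ < T) (h1 : Integrable (Om t₁))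
    (h2 : Integrable (fun x => |V t₁ x| ^ (3/2 : ℝ)))
    (hsm : (∫ x, |Om t₁ x|) + 4 * √SB * (∫ x, |V t₁ x| ^ (3/2 : ℝ)) ^ (4/3 : ℝ) ≤ c1 / 2) :
    ∃ C : ℝ, ∀ t ∈ Ico 0 T, ∀ x, |V t x| ≤ C := by
  have hb := boot F h0 h1 h2 hsm
  set M₄ : ℝ := ∫ x, V t₁ x ^ 4 with hM₄
  have hM₄0 : 0 ≤ M₄ := integral_nonneg fun x => by positivity
  have hV4 : ∀ t ∈ Ico t₁ T, ∫ x, V t x ^ 4 ≤ M₄ := fun t ht =>
    step_V4 F h0 ht.1 ht.2 fun s hs => hb s ⟨hs.1, hs.2.trans_lt ht.2⟩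
  set Q₂ : ℝ := (∫ x, Om t₁ x ^ 2) + (T - t₁) * M₄ with hQ₂
  have hO0 : 0 ≤ ∫ x, Om t₁ x ^ 2 := integral_nonneg fun x => sq_nonneg _
  have hTt : 0 < T - t₁ := by linarith
  have hQ₂0 : 0 ≤ Q₂ := by positivity
  have hO2 : ∀ t ∈ Ico t₁ T,
      (∫ x, Om t x ^ 2) + ∫ s in t₁..t, ∫ x, gsq (Om s) x ≤ Q₂ := by
    intro t ht
    refine (step_O2 F h0 ht.1 ht.2).trans ?_
    have h3 : ∫ s in t₁..t, ∫ x, V s x ^ 4 ≤ M₄ * |t - t₁| := by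
      refine (le_abs_self _).trans ?_
      rw [← Real.norm_eq_abs]
      refine intervalIntegral.norm_integral_le_of_norm_le_const (E := ℝ) fun s hs => ?_
      rw [uIoc_of_le ht.1] at hs
      rw [Real.norm_eq_abs, abs_of_nonneg (integral_nonneg fun x => by positivity)]
      exact hV4 s ⟨hs.1.le, hs.2.trans_lt ht.2⟩
    rw [abs_of_nonneg (by linarith [ht.1] : (0:ℝ) ≤ t - t₁)] at h3
    have h4 : M₄ * (t - t₁) ≤ (T - t₁) * M₄ := by nlinarith [ht.2]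
    linarith
  have hG0 : ∀ t ∈ Ico t₁ T, 0 ≤ ∫ s in t₁..t, ∫ x, gsq (Om s) x := fun t ht =>
    intervalIntegral.integral_nonneg ht.1 fun s _ => integral_nonneg fun x => gsq_nonneg _ x
  refine bounded_of_int F (Q := CW * ((2 + Q₂) * (T - t₁) + Q₂)) h0 hT fun b hb' => ?_
  have hii := ThmA_ii F h0 hb'.1 hb'.2
  have h5 : ∫ t in t₁..b, ww (Om t) ≤
      ∫ t in t₁..b, CW * ((2 + Q₂) + ∫ x, gsq (Om t) x) := by
    refine intervalIntegral.integral_mono_on hb'.1 (ww_ii F h0 hb'.1 hb'.2)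
      ((intervalIntegrable_const.add hii).const_mul CW) fun t ht => ?_
    have ht' : t ∈ Ico t₁ T := ⟨ht.1, ht.2.trans_lt hb'.2⟩
    refine ThmA_ww.trans (mul_le_mul_of_nonneg_left ?_ CW_pos.le)
    have h6 := hO2 t ht'
    have h7 := hG0 t ht'
    linarith
  refine h5.trans ?_
  rw [intervalIntegral.integral_const_mul,
    intervalIntegral.integral_add intervalIntegrable_const hii, intervalIntegral.integral_const,
    smul_eq_mul]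
  refine mul_le_mul_of_nonneg_left ?_ CW_pos.le
  have h8 := hO2 b hb'
  have h9 : 0 ≤ ∫ x, Om b x ^ 2 := integral_nonneg fun x => sq_nonneg _
  have h10 : (b - t₁) * (2 + Q₂) ≤ (2 + Q₂) * (T - t₁) := by
    rw [mul_comm]
    exact mul_le_mul_of_nonneg_left (by linarith [hb'.2]) (by linarith)
  linarith

end Pool.Agent.H87.NS
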