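/-
ROW Init. The initial data. Let `v` be smooth, axially symmetric, divergence free, `v x = 0` if `(rad x - R)² + (x 2)² > 1`, `‖v x‖ ≤ A`, `‖fderiv ℝ v x‖ ≤ A`, `R ≥ 2`.
PROOF. If `v x ≠ 0` or `curl v x ≠ 0` then `(rad x - R)² + (x 2)² ≤ 1` (the complement is open and `v` vanishes on it, so does `fderiv v`, hence `curl v`), so
`x ∈ Dt R 1` and `rad x ≥ R - 1 ≥ R / 2`. Off the axis `sV v x = circ v x / rsq x` (circ_eq), `|circ v x| ≤ rad x ‖v x‖` (Pool.Agent.H16.circ_le),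
so `|sV v x| ≤ ‖v x‖ / rad x ≤ 2 A / R`, and it vanishes off `Dt R 1`. The same for `sO v x = circ (curl v) x / rsq x` (om_eq):
`|curl v x| ≤ 4 A` (each component is a difference of two numbers of absolute value `≤ A`: `‖curl v x‖² ≤ 3 (2 A)²`), `|sO v x| ≤ 8 A / R`.
On the axis: `sV v`, `sO v` are continuous and vanish nearby (off-axis points near the axis have `rad x < R/2`; density), so they vanish.
So both functions are bounded by `c 1_{Dt R 1}` with `c = 2 A / R` resp. `8 A / R`, and the integrals of powers are `≤ c^q vol(Dt R 1) ≤ c^q 26 R` (Dt_vol).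
`∫ ‖v‖² ≤ A² 26 R`. (Integrability: continuous functions bounded by integrable functions, or continuous with compact support.)
-/
import Pool.Agent.H87.NS.Vol
import Pool.Agent.H87.NS.VRep
import Pool.Agent.H87.NS.Avk

set_option autoImplicit false

open Set Filter Topology MeasureTheory
open scoped ContDiff

namespace Pool.Agent.H87.NS

open Pool.Agent.H16

variable {v : E3 → E3} {A R : ℝ}

theorem Init_rad_cont : Continuous rad := by
  unfold rad
  have h0 : Continuous fun x : E3 => x 0 := (EuclideanSpace.proj 0 : E3 →L[ℝ] ℝ).continuous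
  have h1 : Continuous fun x : E3 => x 1 := (EuclideanSpace.proj 1 : E3 →L[ℝ] ℝ).continuous
  exact Real.continuous_sqrt.comp ((h0.pow 2).add (h1.pow 2))

theorem Init_open (R : ℝ) : IsOpen {x : E3 | 1 < (rad x - R) ^ 2 + x 2 ^ 2} := by
  have h2 : Continuous fun x : E3 => x 2 := (EuclideanSpace.proj 2 : E3 →L[ℝ] ℝ).continuous
  exact isOpen_lt continuous_const (((Init_rad_cont.sub continuous_const).pow 2).add (h2.pow 2))

theorem Init_far {x : E3} (hR : 2 ≤ R) (hx : rad x < R / 2) : 1 < (rad x - R) ^ 2 + x 2 ^ 2 := by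
  nlinarith [sq_nonneg (x 2), sq_nonneg (R - rad x - 1)]

theorem Init_near {x : E3} (hR : 2 ≤ R) (hx : ¬ 1 < (rad x - R) ^ 2 + x 2 ^ 2) : R / 2 ≤ rad x := by
  by_contra h
  exact hx (Init_far hR (not_le.1 h))

theorem Init_sV_cont {w : E3 → E3} (hw : AxF w) : Continuous (sV w) :=
  (avk_smooth (VRep_coord (curl_smooth hw.smooth) 2) 1).continuous

theorem Init_off {w : E3 → E3} (hw : AxF w) {x : E3} (hx : 0 < rad x) : rad x * |sV w x| ≤ ‖w x‖ := by
  have h1 := circ_le w x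
  rw [circ_eq hw x, abs_mul, abs_of_pos (rsq_pos hx), ← rad_sq', pow_two, mul_assoc] at h1
  exact le_of_mul_le_mul_left h1 hx

theorem Init_axis {w : E3 → E3} (hw : AxF w) (hR : 2 ≤ R)
    (hs : ∀ x, 1 < (rad x - R) ^ 2 + x 2 ^ 2 → w x = 0) {x : E3} (hx : rad x = 0) : sV w x = 0 := by
  have hsum : x 0 ^ 2 + x 1 ^ 2 = 0 := by
    have := rad_sq' x
    rw [hx] at this
    unfold rsq at this
    rw [← this]
    norm_num
  have hx0 : x 0 = 0 := by nlinarith [sq_nonneg (x 0), sq_nonneg (x 1)]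
  have hx1 : x 1 = 0 := by nlinarith [sq_nonneg (x 0), sq_nonneg (x 1)]
  have hrad : ∀ t : ℝ, 0 ≤ t → rad (x + t • e 0) = t := by
    intro t ht
    unfold rad
    have e0 : (x + t • e 0 : E3) 0 = t := by
      show x 0 + t * (e 0 : E3) 0 = t
      rw [hx0]
      simp [e]
    have e1 : (x + t • e 0 : E3) 1 = 0 := by
      show x 1 + t * (e 0 : E3) 1 = 0
      rw [hx1]
      simp [e]
    rw [e0, e1]
    have : t ^ 2 + 0 ^ 2 = t ^ 2 := by ring
    rw [this, Real.sqrt_sq ht]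
  have hcont : Continuous fun t : ℝ => sV w (x + t • e 0) :=
    (Init_sV_cont hw).comp (continuous_const.add (continuous_id.smul continuous_const))
  have h1 : Tendsto (fun t : ℝ => sV w (x + t • e 0)) (𝓝[>] 0) (𝓝 (sV w x)) := by
    have h2 := (hcont.tendsto 0).mono_left (nhdsWithin_le_nhds (s := Ioi (0 : ℝ)))
    simpa using h2
  have h3 : Tendsto (fun t : ℝ => sV w (x + t • e 0)) (𝓝[>] 0) (𝓝 0) := by
    refine tendsto_const_nhds.congr' ?_
    have h4 : Ioo (0 : ℝ) (R / 2) ∈ 𝓝[>] (0 : ℝ) := Ioo_mem_nhdsGT (by linarith)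
    filter_upwards [h4] with t ht
    have h5 : rad (x + t • e 0) = t := hrad t ht.1.le
    have h6 := Init_off hw (x := x + t • e 0) (by rw [h5]; exact ht.1)
    rw [hs _ (Init_far hR (by rw [h5]; exact ht.2)), norm_zero, h5] at h6
    have h7 : |sV w (x + t • e 0)| ≤ 0 := by
      by_contra h8
      have := mul_pos ht.1 (not_le.1 h8)
      linarith
    exact (abs_nonpos_iff.1 h7).symm
  exact tendsto_nhds_unique h1 h3

theorem Init_gen {w : E3 → E3} {B : ℝ} (hw : AxF w) (hR : 2 ≤ R)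
    (hs : ∀ x, 1 < (rad x - R) ^ 2 + x 2 ^ 2 → w x = 0) (hB : ∀ x, ‖w x‖ ≤ B) (x : E3) :
    |sV w x| ≤ 2 * B / R ∧ (1 < (rad x - R) ^ 2 + x 2 ^ 2 → sV w x = 0) := by
  have hB0 : 0 ≤ B := (norm_nonneg _).trans (hB 0)
  have hR0 : 0 < R := by linarith
  have hr0 : 0 ≤ rad x := Real.sqrt_nonneg _
  have hz : 1 < (rad x - R) ^ 2 + x 2 ^ 2 → sV w x = 0 := by
    intro hx
    rcases hr0.lt_or_eq with h | h
    · have h1 := Init_off hw h
      rw [hs x hx, norm_zero] at h1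
      have h2 : |sV w x| ≤ 0 := by
        by_contra h3
        have := mul_pos h (not_le.1 h3)
        linarith
      exact abs_nonpos_iff.1 h2
    · exact Init_axis hw hR hs h.symm
  refine ⟨?_, hz⟩
  by_cases hx : 1 < (rad x - R) ^ 2 + x 2 ^ 2
  · rw [hz hx, abs_zero]
    positivity
  · have h1 := Init_near hR hx
    have h2 : 0 < rad x := by linarith
    have h3 := (Init_off hw h2).trans (hB x)
    rw [le_div_iff₀ hR0]
    have h4 : R / 2 * |sV w x| ≤ rad x * |sV w x| := mul_le_mul_of_nonneg_right h1 (abs_nonneg _)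
    linarith

theorem Init_notDt {x : E3} (hx : x ∉ Dt R 1) : 1 < (rad x - R) ^ 2 + x 2 ^ 2 := by
  unfold Dt at hx
  rw [mem_ofPred_eq, not_and_or, not_le, not_le] at hx
  rcases hx with h | h
  · have h1 : 1 < |rad x - R| ^ 2 := by nlinarith
    rw [sq_abs] at h1
    nlinarith [sq_nonneg (x 2)]
  · have h1 : 1 < |x 2| ^ 2 := by nlinarith
    rw [sq_abs] at h1
    nlinarith [sq_nonneg (rad x - R)]

theorem init_V (hv : AxF v) (hR : 2 ≤ R) (hs : ∀ x, 1 < (rad x - R) ^ 2 + x 2 ^ 2 → v x = 0)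
    (hA : ∀ x, ‖v x‖ ≤ A) (x : E3) : |sV v x| ≤ 2 * A / R ∧ (x ∉ Dt R 1 → sV v x = 0) := by
  obtain ⟨h1, h2⟩ := Init_gen hv hR hs hA x
  exact ⟨h1, fun hx => h2 (Init_notDt hx)⟩

theorem Init_curl0 (hs : ∀ x, 1 < (rad x - R) ^ 2 + x 2 ^ 2 → v x = 0) (x : E3)
    (hx : 1 < (rad x - R) ^ 2 + x 2 ^ 2) : curl v x = 0 := by
  have h1 : v =ᶠ[𝓝 x] fun _ => 0 := by
    filter_upwards [(Init_open R).mem_nhds hx] with y hy
    exact hs y hy
  have h2 : fderiv ℝ v x = 0 := by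
    rw [h1.fderiv_eq]
    simp
  apply ext3
  · show fderiv ℝ v x (e 1) 2 - fderiv ℝ v x (e 2) 1 = 0
    rw [h2]
    simp
  · show fderiv ℝ v x (e 2) 0 - fderiv ℝ v x (e 0) 2 = 0
    rw [h2]
    simp
  · show fderiv ℝ v x (e 0) 1 - fderiv ℝ v x (e 1) 0 = 0
    rw [h2]
    simp

theorem Init_curl_le (hA' : ∀ x, ‖fderiv ℝ v x‖ ≤ A) (x : E3) : ‖curl v x‖ ≤ 4 * A := by
  have hA0 : 0 ≤ A := (norm_nonneg _).trans (hA' 0)
  have h1 : ∀ i j : Fin 3, |fderiv ℝ v x (e i) j| ≤ A := by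
    intro i j
    have h2 : |fderiv ℝ v x (e i) j| ≤ ‖fderiv ℝ v x (e i)‖ := by
      have := PiLp.norm_apply_le (fderiv ℝ v x (e i)) j
      exact this
    have h3 : ‖fderiv ℝ v x (e i)‖ ≤ ‖fderiv ℝ v x‖ * ‖e i‖ := (fderiv ℝ v x).le_opNorm _
    have h4 : ‖(e i : E3)‖ = 1 := by
      unfold e
      simp
    rw [h4, mul_one] at h3
    exact h2.trans (h3.trans (hA' x))
  have h5 : ∀ a b : ℝ, |a| ≤ A → |b| ≤ A → (a - b) ^ 2 ≤ 4 * A ^ 2 := by
    intro a b ha hb
    have h6 : |a - b| ≤ 2 * A := (abs_sub a b).trans (by linarith)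
    calc (a - b) ^ 2 = |a - b| ^ 2 := (sq_abs _).symm
      _ ≤ (2 * A) ^ 2 := pow_le_pow_left₀ (abs_nonneg _) h6 2
      _ = _ := by ring
  have h7 : ‖curl v x‖ ^ 2 ≤ (4 * A) ^ 2 := by
    rw [norm_sq_eq]
    have a0 := h5 _ _ (h1 1 2) (h1 2 1)
    have a1 := h5 _ _ (h1 2 0) (h1 0 2)
    have a2 := h5 _ _ (h1 0 1) (h1 1 0)
    have e0 : curl v x 0 = fderiv ℝ v x (e 1) 2 - fderiv ℝ v x (e 2) 1 := rfl
    have e1 : curl v x 1 = fderiv ℝ v x (e 2) 0 - fderiv ℝ v x (e 0) 2 := rfl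
    have e2 : curl v x 2 = fderiv ℝ v x (e 0) 1 - fderiv ℝ v x (e 1) 0 := rfl
    rw [e0, e1, e2]
    nlinarith [sq_nonneg A]
  exact abs_le_of_sq_le_sq' h7 (by linarith) |>.2

theorem init_O (hv : AxF v) (hR : 2 ≤ R) (hs : ∀ x, 1 < (rad x - R) ^ 2 + x 2 ^ 2 → v x = 0)
    (hA' : ∀ x, ‖fderiv ℝ v x‖ ≤ A) (x : E3) :
    |sO v x| ≤ 8 * A / R ∧ (1 < (rad x - R) ^ 2 + x 2 ^ 2 → sO v x = 0) := by
  have h := Init_gen (B := 4 * A) (curl_axF hv) hR (Init_curl0 hs) (Init_curl_le hA') x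
  have e1 : 2 * (4 * A) / R = 8 * A / R := by ring
  rw [e1] at h
  exact h

theorem Init_int (hR : 2 ≤ R) {g : E3 → ℝ} {c : ℝ} (hc : 0 ≤ c) (hg : Continuous g)
    (h1 : ∀ x, |g x| ≤ c) (h2 : ∀ x, x ∉ Dt R 1 → g x = 0) :
    Integrable g ∧ ∫ x, g x ≤ c * (26 * R) := by
  have hm : MeasurableSet (Dt R 1) := (Dt_closed R 1).measurableSet
  have hv := Dt_vol (R := R) one_pos (by linarith)
  have hfin : volume (Dt R 1) < ⊤ := hv.trans_lt ENNReal.ofReal_lt_top
  have hi : Integrable ((Dt R 1).indicator fun _ => c) :=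
    (integrable_indicator_iff hm).2 (integrableOn_const hfin.ne)
  have hle : ∀ x, |g x| ≤ (Dt R 1).indicator (fun _ => c) x := by
    intro x
    by_cases hx : x ∈ Dt R 1
    · rw [indicator_of_mem hx]
      exact h1 x
    · rw [indicator_of_notMem hx, h2 x hx, abs_zero]
  have hgi : Integrable g := hi.mono' hg.aestronglyMeasurable (Eventually.of_forall hle)
  refine ⟨hgi, ?_⟩
  have h3 : ∫ x, g x ≤ ∫ x, (Dt R 1).indicator (fun _ => c) x :=
    integral_mono hgi hi fun x => (le_abs_self _).trans (hle x)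
  refine h3.trans ?_
  rw [integral_indicator_const c hm, smul_eq_mul, mul_comm]
  refine mul_le_mul_of_nonneg_left ?_ hc
  have h4 := ENNReal.toReal_mono ENNReal.ofReal_ne_top hv
  rw [ENNReal.toReal_ofReal (by positivity)] at h4
  have h5 : 26 * R * 1 ^ 2 = 26 * R := by ring
  rw [h5] at h4
  exact h4

theorem init_int (hv : AxF v) (hR : 2 ≤ R) (hs : ∀ x, 1 < (rad x - R) ^ 2 + x 2 ^ 2 → v x = 0)
    (hA : ∀ x, ‖v x‖ ≤ A) (hA' : ∀ x, ‖fderiv ℝ v x‖ ≤ A) :
    (Integrable (fun x => |sV v x| ^ (3/2 : ℝ)) ∧ ∫ x, |sV v x| ^ (3/2 : ℝ) ≤ (2 * A / R) ^ (3/2 : ℝ) * (26 * R)) ∧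
    ∫ x, sV v x ^ 2 ≤ 104 * A ^ 2 / R ∧ ∫ x, sV v x ^ 4 ≤ 416 * A ^ 4 / R ^ 3 ∧
    (Integrable (sO v) ∧ ∫ x, |sO v x| ≤ 208 * A) ∧ ∫ x, sO v x ^ 2 ≤ 1664 * A ^ 2 / R ∧
    ∫ x, ‖v x‖ ^ 2 ≤ 26 * A ^ 2 * R := by
  have hA0 : 0 ≤ A := (norm_nonneg _).trans (hA 0)
  have hR0 : 0 < R := by linarith
  have hcV : Continuous (sV v) := Init_sV_cont hv
  have hcO : Continuous (sO v) := Init_sV_cont (curl_axF hv)
  have bV := fun x => (init_V hv hR hs hA x).1
  have zV := fun x => (init_V hv hR hs hA x).2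
  have bO := fun x => (init_O hv hR hs hA' x).1
  have zO : ∀ x, x ∉ Dt R 1 → sO v x = 0 := fun x hx => (init_O hv hR hs hA' x).2 (Init_notDt hx)
  have hc : 0 ≤ 2 * A / R := by positivity
  have hc' : 0 ≤ 8 * A / R := by positivity
  have p1 := Init_int hR (g := fun x => |sV v x| ^ (3/2 : ℝ)) (c := (2 * A / R) ^ (3/2 : ℝ))
    (Real.rpow_nonneg hc _) (hcV.abs.rpow_const fun x => Or.inr (by norm_num))
    (fun x => by
      rw [abs_of_nonneg (Real.rpow_nonneg (abs_nonneg _) _)]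
      exact Real.rpow_le_rpow (abs_nonneg _) (bV x) (by norm_num))
    (fun x hx => by
      rw [zV x hx, abs_zero, Real.zero_rpow (by norm_num)])
  have p2 := Init_int hR (g := fun x => sV v x ^ 2) (c := (2 * A / R) ^ 2) (by positivity) (hcV.pow 2)
    (fun x => by
      rw [abs_pow]
      exact pow_le_pow_left₀ (abs_nonneg _) (bV x) 2)
    (fun x hx => by
      rw [zV x hx]
      norm_num)
  have p3 := Init_int hR (g := fun x => sV v x ^ 4) (c := (2 * A / R) ^ 4) (by positivity) (hcV.pow 4)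
    (fun x => by
      rw [abs_pow]
      exact pow_le_pow_left₀ (abs_nonneg _) (bV x) 4)
    (fun x hx => by
      rw [zV x hx]
      norm_num)
  have p4 := Init_int hR (g := sO v) (c := 8 * A / R) hc' hcO bO zO
  have p5 := Init_int hR (g := fun x => |sO v x|) (c := 8 * A / R) hc' hcO.abs
    (fun x => by
      rw [abs_abs]
      exact bO x)
    (fun x hx => by
      rw [zO x hx, abs_zero])
  have p6 := Init_int hR (g := fun x => sO v x ^ 2) (c := (8 * A / R) ^ 2) (by positivity) (hcO.pow 2)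
    (fun x => by
      rw [abs_pow]
      exact pow_le_pow_left₀ (abs_nonneg _) (bO x) 2)
    (fun x hx => by
      rw [zO x hx]
      norm_num)
  have p7 := Init_int hR (g := fun x => ‖v x‖ ^ 2) (c := A ^ 2) (by positivity)
    (hv.smooth.continuous.norm.pow 2)
    (fun x => by
      rw [abs_pow, abs_norm]
      exact pow_le_pow_left₀ (norm_nonneg _) (hA x) 2)
    (fun x hx => by
      rw [hs x (Init_notDt hx), norm_zero]
      norm_num)
  refine ⟨p1, p2.2.trans (le_of_eq ?_), p3.2.trans (le_of_eq ?_), ⟨p4.1, p5.2.trans (le_of_eq ?_)⟩,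
    p6.2.trans (le_of_eq ?_), p7.2.trans (le_of_eq ?_)⟩
  · field_simp
    ring
  · field_simp
    ring
  · field_simp
    ring
  · field_simp
    ring
  · ring

end Pool.Agent.H87.NS
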