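/-
ROW Asm. The theorem. PROOF. Given `A` we may assume `A ≥ 1` (the hypotheses for `A` imply those for `max A 1`). Let `c = c1 / 2 > 0` (c0_pos), `CC > 0`
the constant of cutoff. Choose in order: `K₁ = 208 A + 1`; `B ≥ 4` with `52 CC A² / B + CC K₁ / B² ≤ c / 6`; `Λ > 0` with `148 A B / √Λ ≤ c / 6`;
`T₁ = exp Λ ≥ 1`; `δ` from p1 for `T₁`; then `R₀ ≥ 2` so large that for `R ≥ R₀`: `416 A⁴ / R³ ≤ δ`, `1664 A² / R ≤ δ`,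
`2 (1 + T₁) 104 A² / R ≤ min 1 (c / 6)`, `CC K₁ √T₁ / (B R) ≤ c / 6`, `4 B √T₁ ≤ R`, and
`4 √SB (2 (2A/R)^(3/2) 26 R)^(4/3) ≤ c / 6` (the left side tends to `0`: `(2A/R)^(3/2) R = (2A)^(3/2) R^(-1/2)`).
Let `R ≥ R₀` and a solution be given, `F = flow_of h`, `V t = sV (u t)` etc. init_int gives the initial bounds.
Case `T ≤ T₁`: by p1, `∫_0^b ww(Om) ≤ 1/16` for all `b < T`, bounded_of_int (`a = 0`, `0 < T`; if `T ≤ 0` nothing to prove) concludes.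
Case `T₁ < T`: pigeon gives `t₁ ∈ [1, T₁]` with `t₁ ∫ dsq (u t₁) ≤ e₀ / Λ`, `e₀ = ∫ ‖u 0‖² ≤ 26 A² R`. p1: `∫_0^{t} ww(Om) ≤ 1/16` for `t ≤ t₁`. y2, step_O (on `[0, t]`): for
`t ∈ [0, t₁]`, `∫ |Om t| ≤ 208 A + 2 (1 + T₁) 104 A² / R ≤ K₁`. Let `L = B √t₁ ≥ 4`; `2 L ≤ R / 2`. loc1 with `ρ = 2 L`:
`∫_{Dt R (2L)} |Om t₁| ≤ (2/R) √(26 R 4 B² t₁) √(2 e₀ / (Λ t₁)) ≤ (2/R) √(26 R 4 B² 2 26 A² R / Λ) = 2 √5408 A B / √Λ ≤ 148 A B / √Λ ≤ c / 6`. tail: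
`∫_{Dᶜ} |Om t₁| ≤ 2 (1+T₁) 104 A²/R + 2 CC √t₁ 26 A² R / (B √t₁ R) + (CC / (B² t₁) + CC / (B √t₁ R)) K₁ t₁ ≤ c/6 + 52 CC A² / B + CC K₁ / B² + CC K₁ √T₁ / (B R)`.
So `∫ |Om t₁| ≤ 4 c / 6`, and by y32 `∫ |V t₁|^(3/2) ≤ 2 (2A/R)^(3/2) 26 R`, so thmA applies at `t₁` (`c = c1/2`).
torus_bound: `circ (u t) x = rsq x * V t x` (circ_eq).
-/
import Pool.Agent.H87.NS.Tail
import Pool.Agent.H87.NS.P1
import Pool.Agent.H87.NS.Init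
import Pool.Agent.H87.NS.ThmA

set_option autoImplicit false

open Set Filter Topology MeasureTheory
open scoped ContDiff

namespace Pool.Agent.H87.NS

open Pool.Agent.H16

/-- The choice of `R₀`. -/
theorem Asm_R0 {A c δ T₁ B K₁ : ℝ} (hA : 1 ≤ A) (hc : 0 < c) (hδ : 0 < δ) :
    ∃ R₀ : ℝ, ∀ R, R₀ ≤ R → 2 ≤ R ∧ 416 * A ^ 4 / R ^ 3 ≤ δ ∧ 1664 * A ^ 2 / R ≤ δ ∧
      2 * (1 + T₁) * (104 * A ^ 2) / R ≤ 1 ∧ 2 * (1 + T₁) * (104 * A ^ 2) / R ≤ c / 6 ∧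
      CC * K₁ * √T₁ / B / R ≤ c / 6 ∧ 4 * B * √T₁ ≤ R ∧
      4 * √SB * (2 * ((2 * A / R) ^ (3/2 : ℝ) * (26 * R))) ^ (4/3 : ℝ) ≤ c / 6 := by
  have hlim : ∀ (a b : ℝ), 0 < b → ∀ᶠ R : ℝ in atTop, a / R ≤ b := by
    intro a b hb
    have h : Tendsto (fun R : ℝ => a / R) atTop (𝓝 0) := tendsto_const_nhds.div_atTop tendsto_id
    exact h.eventually (eventually_le_nhds hb)
  have h1 : ∀ᶠ R : ℝ in atTop, 2 ≤ R := eventually_ge_atTop 2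
  have h2 : ∀ᶠ R : ℝ in atTop, 416 * A ^ 4 / R ^ 3 ≤ δ := by
    filter_upwards [hlim (416 * A ^ 4) δ hδ, eventually_ge_atTop 1] with R hR hR1
    refine le_trans ?_ hR
    have h3 : R ≤ R ^ 3 := le_self_pow₀ hR1 (by norm_num)
    exact div_le_div_of_nonneg_left (by positivity) (by linarith) h3
  have h3 := hlim (1664 * A ^ 2) δ hδ
  have h4 := hlim (2 * (1 + T₁) * (104 * A ^ 2)) 1 one_pos
  have h5 := hlim (2 * (1 + T₁) * (104 * A ^ 2)) (c / 6) (by positivity)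
  have h6 := hlim (CC * K₁ * √T₁ / B) (c / 6) (by positivity)
  have h7 : ∀ᶠ R : ℝ in atTop, 4 * B * √T₁ ≤ R := eventually_ge_atTop _
  have h8 : ∀ᶠ R : ℝ in atTop,
      4 * √SB * (2 * ((2 * A / R) ^ (3/2 : ℝ) * (26 * R))) ^ (4/3 : ℝ) ≤ c / 6 := by
    have e1 : Tendsto (fun R : ℝ => R ^ (-(1/2) : ℝ)) atTop (𝓝 0) :=
      tendsto_rpow_neg_atTop (by norm_num)
    have e2 : Tendsto (fun R : ℝ => 52 * (2 * A) ^ (3/2 : ℝ) * R ^ (-(1/2) : ℝ)) atTop (𝓝 0) := by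
      have := e1.const_mul (52 * (2 * A) ^ (3/2 : ℝ))
      rwa [mul_zero] at this
    have e3 : Tendsto (fun R : ℝ => (52 * (2 * A) ^ (3/2 : ℝ) * R ^ (-(1/2) : ℝ)) ^ (4/3 : ℝ)) atTop (𝓝 0) := by
      have := e2.rpow_const (p := 4/3) (Or.inr (by norm_num))
      rwa [Real.zero_rpow (by norm_num)] at this
    have e4 : Tendsto (fun R : ℝ => 4 * √SB * (52 * (2 * A) ^ (3/2 : ℝ) * R ^ (-(1/2) : ℝ)) ^ (4/3 : ℝ))
        atTop (𝓝 0) := by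
      have := e3.const_mul (4 * √SB)
      rwa [mul_zero] at this
    filter_upwards [e4.eventually (eventually_le_nhds (show (0:ℝ) < c / 6 by positivity)),
      eventually_gt_atTop 0] with R hR hR0
    have e5 : 2 * ((2 * A / R) ^ (3/2 : ℝ) * (26 * R)) = 52 * (2 * A) ^ (3/2 : ℝ) * R ^ (-(1/2) : ℝ) := by
      rw [Real.div_rpow (by positivity) hR0.le]
      have e6 : R ^ (-(1/2) : ℝ) = R / R ^ (3/2 : ℝ) := by
        rw [eq_div_iff (by positivity), ← Real.rpow_add hR0]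
        norm_num
      rw [e6]
      ring
    rw [e5]
    exact hR
  obtain ⟨R₀, hR₀⟩ := eventually_atTop.1 (h1.and (h2.and (h3.and (h4.and (h5.and (h6.and (h7.and h8)))))))
  exact ⟨R₀, fun R hR => hR₀ R hR⟩

/-- The estimate in the torus. -/
theorem Asm_loc {R B t A s D e₀ : ℝ} (hR : 0 < R) (hB : 0 < B) (ht : 0 < t) (hA : 0 < A) (hs : 0 < s)
    (he : e₀ ≤ 26 * A ^ 2 * R) (hD : t * D ≤ e₀ / s ^ 2) :
    2 / R * √(26 * R * (2 * (B * √t)) ^ 2) * √(2 * D) ≤ 148 * A * B / s := by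
  have h1 : √(26 * R * (2 * (B * √t)) ^ 2) * √(2 * D) ≤ 74 * R * B * A / s := by
    rw [← Real.sqrt_mul (by positivity)]
    refine Real.sqrt_le_iff.2 ⟨by positivity, ?_⟩
    have h2 : 26 * R * (2 * (B * √t)) ^ 2 * (2 * D) = 208 * R * B ^ 2 * (t * D) := by
      have h3 : (2 * (B * √t)) ^ 2 = 4 * B ^ 2 * t := by
        rw [mul_pow, mul_pow, Real.sq_sqrt ht.le]
        ring
      rw [h3]
      ring
    rw [h2]
    have h4 : t * D ≤ 26 * A ^ 2 * R / s ^ 2 :=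
      hD.trans (div_le_div_of_nonneg_right he (by positivity))
    calc 208 * R * B ^ 2 * (t * D) ≤ 208 * R * B ^ 2 * (26 * A ^ 2 * R / s ^ 2) :=
          mul_le_mul_of_nonneg_left h4 (by positivity)
      _ = 5408 * (R * B * A / s) ^ 2 := by
          field_simp
          ring
      _ ≤ 5476 * (R * B * A / s) ^ 2 := by nlinarith [sq_nonneg (R * B * A / s)]
      _ = (74 * R * B * A / s) ^ 2 := by
          field_simp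
          ring
  calc 2 / R * √(26 * R * (2 * (B * √t)) ^ 2) * √(2 * D)
      = 2 / R * (√(26 * R * (2 * (B * √t)) ^ 2) * √(2 * D)) := by ring
    _ ≤ 2 / R * (74 * R * B * A / s) := mul_le_mul_of_nonneg_left h1 (by positivity)
    _ = 148 * A * B / s := by
        field_simp
        ring

theorem Asm_main {A : ℝ} (hA : 1 ≤ A) : ∃ R₀ : ℝ, ∀ R, R₀ ≤ R → ∀ (T : ℝ) (u : ℝ → E3 → E3) (p : ℝ → E3 → ℝ),
    IsHInfAxisymNS T u p → (∀ x, 1 < (rad x - R) ^ 2 + x 2 ^ 2 → u 0 x = 0) →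
    (∀ x, ‖u 0 x‖ ≤ A) → (∀ x, ‖fderiv ℝ (u 0) x‖ ≤ A) →
    ∃ C : ℝ, ∀ t ∈ Ico 0 T, ∀ x, |sV (u t) x| ≤ C := by
  have hA0 : 0 < A := by linarith
  have hc0 : 0 < c1 / 2 := by
    unfold c1
    have := c0_pos
    positivity
  obtain ⟨c, hcdef⟩ : ∃ c : ℝ, c = c1 / 2 := ⟨_, rfl⟩
  have hc : 0 < c := by rw [hcdef]; exact hc0
  have hCC := CC_pos
  obtain ⟨K₁, hK₁⟩ : ∃ K₁ : ℝ, K₁ = 208 * A + 1 := ⟨_, rfl⟩
  have hK₁0 : 0 < K₁ := by rw [hK₁]; positivity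
  -- `B`
  obtain ⟨B, hB4, hB⟩ : ∃ B : ℝ, 4 ≤ B ∧ 52 * CC * A ^ 2 / B + CC * K₁ / B ^ 2 ≤ c / 6 := by
    refine ⟨max 4 (6 * (52 * CC * A ^ 2 + CC * K₁) / c), le_max_left _ _, ?_⟩
    set B := max 4 (6 * (52 * CC * A ^ 2 + CC * K₁) / c) with hBd
    have h4 : 4 ≤ B := le_max_left _ _
    have h0 : 0 < B := by linarith
    have h5 : 6 * (52 * CC * A ^ 2 + CC * K₁) / c ≤ B := le_max_right _ _
    have h6 : CC * K₁ / B ^ 2 ≤ CC * K₁ / B :=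
      div_le_div_of_nonneg_left (by positivity) h0 (le_self_pow₀ (by linarith) (by norm_num))
    have h7 : (52 * CC * A ^ 2 + CC * K₁) / B ≤ c / 6 := by
      rw [div_le_iff₀ h0]
      rw [div_le_iff₀ hc] at h5
      nlinarith
    have h8 : 52 * CC * A ^ 2 / B + CC * K₁ / B = (52 * CC * A ^ 2 + CC * K₁) / B := by ring
    linarith
  have hB0 : 0 < B := by linarith
  -- `Λ`
  obtain ⟨s, hs⟩ : ∃ s : ℝ, s = 888 * A * B / c := ⟨_, rfl⟩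
  have hs0 : 0 < s := by rw [hs]; positivity
  have hsb : 148 * A * B / s ≤ c / 6 := by
    rw [hs]
    apply le_of_eq
    field_simp
    norm_num
  have hΛ : 0 < s ^ 2 := by positivity
  have hT₁ : 1 ≤ Real.exp (s ^ 2) := Real.one_le_exp hΛ.le
  obtain ⟨δ, hδ, hp1⟩ := p1 hT₁
  obtain ⟨R₀, hR₀⟩ := Asm_R0 (A := A) (c := c) (δ := δ) (T₁ := Real.exp (s ^ 2)) (B := B) (K₁ := K₁) hA hc hδ
  refine ⟨R₀, fun R hR T u p h hsupp hu hdu => ?_⟩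
  obtain ⟨r1, r2, r3, r4, r5, r6, r7, r8⟩ := hR₀ R hR
  have hR0 : 0 < R := by linarith
  rcases le_or_gt T 0 with hT0 | hT0
  · exact ⟨0, fun t ht => absurd ht.2 (not_lt.2 (hT0.trans ht.1))⟩
  have F := flow_of h
  have hv0 : AxF (u 0) := axF_of h.ns ⟨le_rfl, hT0⟩
  obtain ⟨⟨iV, bV⟩, bV2, bV4, ⟨iO, bO⟩, bO2, be⟩ := init_int hv0 r1 hsupp hu hdu
  have hww : ∀ b : ℝ, 0 ≤ b → b < T → b ≤ Real.exp (s ^ 2) → ∫ t in (0:ℝ)..b, ww (sO (u t)) ≤ 1 / 16 :=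
    fun b hb0 hbT hb1 => hp1 T u _ _ _ F b hb0 hbT hb1 (bV4.trans r2) (bO2.trans r3)
  rcases le_or_gt T (Real.exp (s ^ 2)) with hTT | hTT
  · exact bounded_of_int F (a := 0) (Q := 1 / 16) le_rfl hT0
      (fun b hb => hww b hb.1 hb.2 (hb.2.le.trans hTT))
  obtain ⟨t₁, ht₁, hpig⟩ := pigeon h hΛ hTT
  obtain ⟨ht1, htT1⟩ := ht₁
  have ht0 : 0 < t₁ := by linarith
  have htT : t₁ < T := lt_of_le_of_lt htT1 hTT
  have hy2 : ∀ t ∈ Icc 0 t₁, ∫ r in (0:ℝ)..t, ∫ x, |sV (u r) x| * √(gsq (sV (u r)) x) ≤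
      (1 + Real.exp (s ^ 2)) * (104 * A ^ 2 / R) := by
    intro t ht
    have h1 := y2 F ht.1 (lt_of_le_of_lt ht.2 htT) (hww t ht.1 (lt_of_le_of_lt ht.2 htT) (ht.2.trans htT1))
    refine h1.trans ?_
    refine mul_le_mul ?_ bV2 (integral_nonneg fun x => sq_nonneg _) (by positivity)
    linarith [ht.2.trans htT1]
  have hy2' : 2 * ((1 + Real.exp (s ^ 2)) * (104 * A ^ 2 / R)) = 2 * (1 + Real.exp (s ^ 2)) * (104 * A ^ 2) / R := by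
    ring
  have hO : ∀ t ∈ Icc 0 t₁, Integrable (sO (u t)) ∧ ∫ x, |sO (u t) x| ≤ K₁ := by
    intro t ht
    obtain ⟨i1, i2⟩ := step_O F le_rfl ht.1 (lt_of_le_of_lt ht.2 htT) iO
    refine ⟨i1, i2.trans ?_⟩
    have h1 := hy2 t ht
    rw [hK₁]
    have h2 : 2 * (∫ r in (0:ℝ)..t, ∫ x, |sV (u r) x| * √(gsq (sV (u r)) x)) ≤ 1 := by
      calc 2 * (∫ r in (0:ℝ)..t, ∫ x, |sV (u r) x| * √(gsq (sV (u r)) x))
          ≤ 2 * ((1 + Real.exp (s ^ 2)) * (104 * A ^ 2 / R)) := mul_le_mul_of_nonneg_left h1 (by norm_num)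
        _ = 2 * (1 + Real.exp (s ^ 2)) * (104 * A ^ 2) / R := hy2'
        _ ≤ 1 := r4
    exact add_le_add bO h2
  have hsq1 : 1 ≤ √t₁ := by
    rw [← Real.sqrt_one]
    exact Real.sqrt_le_sqrt ht1
  have hsqT : √t₁ ≤ √(Real.exp (s ^ 2)) := Real.sqrt_le_sqrt htT1
  have hL : 4 ≤ B * √t₁ := by nlinarith
  have hL2 : 2 * (B * √t₁) ≤ R / 2 := by
    have h1 : 4 * B * √t₁ ≤ 4 * B * √(Real.exp (s ^ 2)) := mul_le_mul_of_nonneg_left hsqT (by positivity)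
    linarith
  have hax1 : AxF (u t₁) := axF_of h.ns ⟨ht0.le, htT⟩
  obtain ⟨hd1, _⟩ := dsq_int h (t := t₁) ⟨ht0.le, htT⟩
  have hloc := loc1 hax1 hd1 (R := R) (ρ := 2 * (B * √t₁)) (by positivity) hL2
  have hloc' : ∫ x in Dt R (2 * (B * √t₁)), |sO (u t₁) x| ≤ c / 6 :=
    hloc.trans ((Asm_loc hR0 hB0 ht0 hA0 hs0 be hpig).trans hsb)
  have htail := tail h (R := R) (L := B * √t₁) (t₁ := t₁) (K₁ := K₁) hL hL2 ht0 htT
    (fun x hx => (init_O hv0 r1 hsupp hdu x).2 hx) hO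
  have hsqpos : 0 < √t₁ := by linarith
  have e1 : 2 * (∫ r in (0:ℝ)..t₁, ∫ x, |sV (u r) x| * √(gsq (sV (u r)) x)) ≤ c / 6 := by
    calc 2 * (∫ r in (0:ℝ)..t₁, ∫ x, |sV (u r) x| * √(gsq (sV (u r)) x))
        ≤ 2 * ((1 + Real.exp (s ^ 2)) * (104 * A ^ 2 / R)) :=
          mul_le_mul_of_nonneg_left (hy2 t₁ ⟨ht0.le, le_rfl⟩) (by norm_num)
      _ = 2 * (1 + Real.exp (s ^ 2)) * (104 * A ^ 2) / R := hy2'
      _ ≤ c / 6 := r5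
  have e2 : 2 * CC * √t₁ * (∫ x, ‖u 0 x‖ ^ 2) / (B * √t₁ * R) ≤ 52 * CC * A ^ 2 / B := by
    calc 2 * CC * √t₁ * (∫ x, ‖u 0 x‖ ^ 2) / (B * √t₁ * R)
        ≤ 2 * CC * √t₁ * (26 * A ^ 2 * R) / (B * √t₁ * R) :=
          div_le_div_of_nonneg_right (mul_le_mul_of_nonneg_left be (by positivity)) (by positivity)
      _ = 52 * CC * A ^ 2 / B := by
          field_simp
          ring
  have e3 : (CC / (B * √t₁) ^ 2 + CC / (B * √t₁ * R)) * K₁ * t₁ ≤ CC * K₁ / B ^ 2 + c / 6 := by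
    have h1 : (CC / (B * √t₁) ^ 2 + CC / (B * √t₁ * R)) * K₁ * t₁ = CC * K₁ / B ^ 2 + CC * K₁ * √t₁ / B / R := by
      have h2 : t₁ = √t₁ ^ 2 := (Real.sq_sqrt ht0.le).symm
      obtain ⟨q, hq⟩ : ∃ q : ℝ, q = √t₁ := ⟨_, rfl⟩
      rw [← hq] at h2 hsqpos ⊢
      rw [h2]
      field_simp
    have h3 : CC * K₁ * √t₁ / B / R ≤ CC * K₁ * √(Real.exp (s ^ 2)) / B / R :=
      div_le_div_of_nonneg_right (div_le_div_of_nonneg_right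
        (mul_le_mul_of_nonneg_left hsqT (by positivity)) hB0.le) hR0.le
    rw [h1]
    linarith
  have htail' : ∫ x in (Dt R (2 * (B * √t₁)))ᶜ, |sO (u t₁) x| ≤ c / 2 := by
    linarith
  obtain ⟨iO1, _⟩ := hO t₁ ⟨ht0.le, le_rfl⟩
  have hsum : ∫ x, |sO (u t₁) x| ≤ 4 * c / 6 := by
    have h1 := integral_add_compl (Dt_closed R (2 * (B * √t₁))).measurableSet iO1.abs
    rw [← h1]
    have h2 : ∫ x in Dt R (2 * (B * √t₁)), |sO (u t₁)| x ≤ c / 6 := hloc'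
    have h3 : ∫ x in (Dt R (2 * (B * √t₁)))ᶜ, |sO (u t₁)| x ≤ c / 2 := htail'
    linarith
  obtain ⟨iV1, bV1⟩ := y32 F ht0.le htT (hww t₁ ht0.le htT htT1) iV
  refine thmA F ht0.le htT iO1 iV1 ?_
  have h9 : (∫ x, |sV (u t₁) x| ^ (3/2 : ℝ)) ^ (4/3 : ℝ) ≤
      (2 * ((2 * A / R) ^ (3/2 : ℝ) * (26 * R))) ^ (4/3 : ℝ) := by
    refine Real.rpow_le_rpow (integral_nonneg fun x => by positivity) ?_ (by norm_num)
    exact bV1.trans (mul_le_mul_of_nonneg_left bV (by norm_num))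
  have h10 : 4 * √SB * (∫ x, |sV (u t₁) x| ^ (3/2 : ℝ)) ^ (4/3 : ℝ) ≤ c / 6 :=
    (mul_le_mul_of_nonneg_left h9 (by positivity)).trans r8
  rw [← hcdef]
  linarith

theorem torus_V (A : ℝ) : ∃ R₀ : ℝ, ∀ R, R₀ ≤ R → ∀ (T : ℝ) (u : ℝ → E3 → E3) (p : ℝ → E3 → ℝ),
    IsHInfAxisymNS T u p → (∀ x, 1 < (rad x - R) ^ 2 + x 2 ^ 2 → u 0 x = 0) →
    (∀ x, ‖u 0 x‖ ≤ A) → (∀ x, ‖fderiv ℝ (u 0) x‖ ≤ A) →
    ∃ C : ℝ, ∀ t ∈ Ico 0 T, ∀ x, |sV (u t) x| ≤ C := by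
  obtain ⟨R₀, hR₀⟩ := Asm_main (le_max_right A 1)
  exact ⟨R₀, fun R hR T u p h hs h1 h2 => hR₀ R hR T u p h hs
    (fun x => (h1 x).trans (le_max_left _ _)) (fun x => (h2 x).trans (le_max_left _ _))⟩

theorem torus_bound (A : ℝ) : ∃ R₀ : ℝ, ∀ R, R₀ ≤ R → ∀ (T : ℝ) (u : ℝ → E3 → E3) (p : ℝ → E3 → ℝ),
    IsHInfAxisymNS T u p → (∀ x, 1 < (rad x - R) ^ 2 + x 2 ^ 2 → u 0 x = 0) →
    (∀ x, ‖u 0 x‖ ≤ A) → (∀ x, ‖fderiv ℝ (u 0) x‖ ≤ A) →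
    ∃ C : ℝ, ∀ t ∈ Ico 0 T, ∀ x, |circ (u t) x| ≤ C * rad x ^ 2 := by
  obtain ⟨R₀, hR₀⟩ := torus_V A
  refine ⟨R₀, fun R hR T u p h hs h1 h2 => ?_⟩
  obtain ⟨C, hC⟩ := hR₀ R hR T u p h hs h1 h2
  refine ⟨C, fun t ht x => ?_⟩
  rw [circ_eq (axF_of h.ns ht), abs_mul, rad_sq', abs_of_nonneg (show 0 ≤ rsq x by unfold rsq; positivity), mul_comm]
  exact mul_le_mul_of_nonneg_right (hC t ht x) (by unfold rsq; positivity)

end Pool.Agent.H87.NS
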